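import Pool.Agent.MP_39b1da_gt.Basic

set_option autoImplicit false

namespace Pool.Agent.MP_39b1da_gt

open Filter Topology Set Real
open scoped ENNReal NNReal ContDiff InnerProductSpace

theorem adm_zero : Adm 0 where
  smooth := fun _ _ => contDiffAt_const
  nonneg := fun _ _ => le_rfl
  p_nonneg := fun t _ => by simp
  q_ge := fun t _ => by simp

/-- Admissibility in terms of the square root `a` of `1 + t l`. -/
theorem AdmEx_of {l a a1 a2 : ℝ → ℝ} (hs : ∀ t, 0 ≤ t → ContDiffAt ℝ ∞ l t) (h0 : 0 ≤ l 0)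
    (hl : ∀ t, 0 < t → l t = (a t ^ 2 - 1) / t)
    (ha : ∀ t, 0 < t → HasDerivAt a (a1 t) t) (ha1 : ∀ t, 0 < t → HasDerivAt a1 (a2 t) t)
    (h1 : ∀ t, 0 < t → 1 ≤ a t) (h2 : ∀ t, 0 < t → 1 ≤ a t + 2 * t * a1 t)
    (h3 : ∀ t, 0 < t →
      1 ≤ a t + 2 * t * a1 t + 2 * (1 + t) * (3 * a1 t + 2 * t * a2 t)) : Adm l := by
  have d1 : ∀ t, 0 < t → deriv l t = (2 * a t * a1 t * t - (a t ^ 2 - 1)) / t ^ 2 := by
    intro t ht
    have e : l =ᶠ[𝓝 t] fun s => (a s ^ 2 - 1) / s := by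
      filter_upwards [lt_mem_nhds ht] with s hs using hl s hs
    rw [e.deriv_eq]
    have := ((((ha t ht).pow 2).sub_const 1).div (hasDerivAt_id' t) ht.ne').deriv
    refine this.trans ?_
    simp
  have d2 : ∀ t, 0 < t → deriv (deriv l) t =
      ((2 * a1 t * a1 t + 2 * a t * a2 t) * t ^ 3 -
        (2 * a t * a1 t * t - (a t ^ 2 - 1)) * (2 * t)) / t ^ 4 := by
    intro t ht
    have e : deriv l =ᶠ[𝓝 t] fun s => (2 * a s * a1 s * s - (a s ^ 2 - 1)) / s ^ 2 := by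
      filter_upwards [lt_mem_nhds ht] with s hs using d1 s hs
    rw [e.deriv_eq]
    have := (((((((ha t ht).const_mul 2).mul (ha1 t ht)).mul (hasDerivAt_id' t)).sub
      (((ha t ht).pow 2).sub_const 1))).div ((hasDerivAt_id' t).pow 2)
        (pow_pos ht 2).ne').deriv
    refine this.trans ?_
    simp only [Pi.mul_apply, Pi.pow_apply, Pi.sub_apply]
    field_simp
    ring
  refine ⟨hs, fun t ht => ?_, fun t ht => ?_, fun t ht => ?_⟩
  · rcases ht.eq_or_lt with rfl | ht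
    · exact h0
    · rw [hl t ht]
      exact div_nonneg (by nlinarith [h1 t ht]) ht.le
  · rcases ht.eq_or_lt with rfl | ht
    · linarith
    · have e : 2 * l t + t * deriv l t = (a t * (a t + 2 * t * a1 t) - 1) / t := by
        rw [hl t ht, d1 t ht]; field_simp; ring
      rw [e]
      exact div_nonneg (by nlinarith [h1 t ht, h2 t ht]) ht.le
  · rcases ht.eq_or_lt with rfl | ht
    · linarith
    · have e : t * (2 * l t + t * deriv l t) * (1 + t * l t) +
          (1 + t) * (3 * (1 + t * l t) * (l t + t * deriv l t) +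
            2 * t * (1 + t * l t) * (2 * deriv l t + t * deriv (deriv l) t) -
            t * (l t + t * deriv l t) ^ 2) = a t ^ 2 *
          (a t * (a t + 2 * t * a1 t + 2 * (1 + t) * (3 * a1 t + 2 * t * a2 t)) - 1) := by
        rw [hl t ht, d1 t ht, d2 t ht]; field_simp; ring
      rw [e]
      exact mul_nonneg (sq_nonneg _) (by nlinarith [h1 t ht, h3 t ht])

/-- The cutoff function. -/
noncomputable def AdmExQ (t : ℝ) : ℝ := Real.smoothTransition ((4 - 1024 * t) / 3)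

theorem AdmExQ_smooth : ContDiff ℝ ∞ AdmExQ :=
  Real.smoothTransition.contDiff.comp (by fun_prop)

theorem AdmExQ_one {t : ℝ} (h : t ≤ 1 / 1024) : AdmExQ t = 1 :=
  Real.smoothTransition.one_of_one_le (by linarith)

theorem AdmExQ_zero {t : ℝ} (h : 1 / 256 ≤ t) : AdmExQ t = 0 :=
  Real.smoothTransition.zero_of_nonpos (by linarith)

theorem AdmExQ_smooth1 : ContDiff ℝ ∞ (deriv AdmExQ) :=
  (contDiff_infty_iff_deriv.1 AdmExQ_smooth).2

theorem AdmExQ_smooth2 : ContDiff ℝ ∞ (deriv (deriv AdmExQ)) :=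
  (contDiff_infty_iff_deriv.1 AdmExQ_smooth1).2

theorem AdmEx_const {f : ℝ → ℝ} {U : Set ℝ} (hU : IsOpen U) {c : ℝ} (h : ∀ t ∈ U, f t = c) :
    ∀ t ∈ U, deriv f t = 0 := by
  intro t ht
  have e : f =ᶠ[𝓝 t] fun _ => c := by
    filter_upwards [hU.mem_nhds ht] with s hs using h s hs
  rw [e.deriv_eq, deriv_const]

theorem AdmExQ_bound : ∃ M : ℝ, 0 ≤ M ∧ ∀ t ∈ Icc (0 : ℝ) 1,
    |deriv AdmExQ t| ≤ M ∧ |deriv (deriv AdmExQ) t| ≤ M := by
  obtain ⟨M1, h1⟩ := isCompact_Icc.exists_bound_of_continuousOn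
    (AdmExQ_smooth1.continuous.continuousOn (s := Icc (0 : ℝ) 1))
  obtain ⟨M2, h2⟩ := isCompact_Icc.exists_bound_of_continuousOn
    (AdmExQ_smooth2.continuous.continuousOn (s := Icc (0 : ℝ) 1))
  refine ⟨max (max M1 M2) 0, le_max_right _ _, fun t ht => ⟨?_, ?_⟩⟩
  · exact (h1 t ht).trans ((le_max_left _ _).trans (le_max_left _ _))
  · exact (h2 t ht).trans ((le_max_right _ _).trans (le_max_left _ _))

/-- The function `(d² + t)^(-1/2)`. -/
noncomputable def AdmExV (d t : ℝ) : ℝ := (√(d ^ 2 + t))⁻¹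

theorem AdmExV_pos {d t : ℝ} (h : 0 < d ^ 2 + t) : 0 < AdmExV d t :=
  inv_pos.2 (Real.sqrt_pos.2 h)

theorem AdmExV_sq {d t : ℝ} (h : 0 < d ^ 2 + t) : AdmExV d t ^ 2 * (d ^ 2 + t) = 1 := by
  rw [AdmExV, inv_pow, Real.sq_sqrt h.le, inv_mul_cancel₀ h.ne']

theorem AdmExV_deriv {d t : ℝ} (h : 0 < d ^ 2 + t) :
    HasDerivAt (AdmExV d) (-(AdmExV d t ^ 3 / 2)) t := by
  have h1 : 0 < √(d ^ 2 + t) := Real.sqrt_pos.2 h
  have := (((hasDerivAt_id' t).const_add (d ^ 2)).sqrt h.ne').inv h1.ne'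
  refine this.congr_deriv ?_
  simp only [AdmExV]
  field_simp

theorem AdmExV_smooth {d t : ℝ} (h : 0 < d ^ 2 + t) : ContDiffAt ℝ ∞ (AdmExV d) t :=
  ((contDiffAt_const.add contDiffAt_id).sqrt h.ne').inv (Real.sqrt_pos.2 h).ne'

theorem AdmEx_mid {M v q q1 q2 : ℝ} (hM : 0 ≤ M) (hv : 0 < v) (hv1 : v ≤ 32)
    (hq : 0 ≤ q) (hq' : q ≤ 1) (hq1 : |q1| ≤ M) (hq2 : |q2| ≤ M) :
    q * v ≤ 2 ^ 25 * (M + 1) ∧ q1 * v - q * v ^ 3 / 2 ≤ 2 ^ 25 * (M + 1) ∧
      q2 * v - q1 * v ^ 3 + 3 / 4 * q * v ^ 5 ≤ 2 ^ 25 * (M + 1) := by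
  have h3 : v ^ 3 ≤ 32 ^ 3 := pow_le_pow_left₀ hv.le hv1 3
  have h5 : v ^ 5 ≤ 32 ^ 5 := pow_le_pow_left₀ hv.le hv1 5
  have h3' : 0 < v ^ 3 := by positivity
  have h5' : 0 < v ^ 5 := by positivity
  have a1 := abs_le.1 hq1
  have a2 := abs_le.1 hq2
  have b0 : q * v ≤ 32 := by nlinarith
  have b1 : q1 * v ≤ M * 32 := by nlinarith
  have b2 : q2 * v ≤ M * 32 := by nlinarith
  have b3 : -q1 * v ^ 3 ≤ M * 32 ^ 3 := by nlinarith
  have b4 : q * v ^ 5 ≤ 32 ^ 5 := by nlinarith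
  have b5 : 0 ≤ q * v ^ 3 := by positivity
  refine ⟨by nlinarith, by nlinarith, by nlinarith⟩

/-- The profile `c = 1 - d Q (d² + t)^(-1/2)` and its differential inequalities. -/
theorem AdmEx_ineq : ∃ d : ℝ, 0 < d ∧ ∀ t, 0 < t → ∀ c c1 c2 : ℝ,
    c = 1 - d * (AdmExQ t * AdmExV d t) →
    c1 = -(d * (deriv AdmExQ t * AdmExV d t - AdmExQ t * AdmExV d t ^ 3 / 2)) →
    c2 = -(d * (deriv (deriv AdmExQ) t * AdmExV d t - deriv AdmExQ t * AdmExV d t ^ 3 +
      3 / 4 * AdmExQ t * AdmExV d t ^ 5)) →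
    0 ≤ c ∧ 0 ≤ c + 2 * t * c1 ∧ 0 ≤ c + 2 * t * c1 + 2 * (1 + t) * (3 * c1 + 2 * t * c2) := by
  obtain ⟨M, hM, hb⟩ := AdmExQ_bound
  have hB : (0 : ℝ) < 2 ^ 25 * (M + 1) := by positivity
  refine ⟨1 / (32 * (2 ^ 25 * (M + 1))), by positivity, ?_⟩
  set d : ℝ := 1 / (32 * (2 ^ 25 * (M + 1))) with hd
  have hd0 : 0 < d := by positivity
  have hdB : d * (2 ^ 25 * (M + 1)) = 1 / 32 := by rw [hd]; field_simp
  intro t ht c c1 c2 hc hc1 hc2
  have hp : 0 < d ^ 2 + t := by positivity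
  have hv := AdmExV_pos hp
  have hv2 := AdmExV_sq hp
  set v := AdmExV d t with hvdef
  rcases lt_or_ge t (1 / 1024) with h | h
  · have e1 := AdmEx_const (f := AdmExQ) isOpen_Iio (c := 1)
      (fun s (hs : s ∈ Iio (1 / 1024 : ℝ)) => AdmExQ_one (le_of_lt hs))
    have e2 := AdmEx_const isOpen_Iio e1 t h
    rw [AdmExQ_one h.le] at hc hc1 hc2
    rw [e1 t h] at hc1 hc2
    rw [e2] at hc2
    have b0 : d * v ≤ 1 := by
      have : (d * v) ^ 2 ≤ 1 := by nlinarith [mul_pos ht (pow_pos hv 2)]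
      exact (abs_le_one_iff_mul_self_le_one.2 (by nlinarith)).trans' (le_abs_self _)
    have b1 : 0 ≤ c := by rw [hc]; linarith
    have b2 : 0 ≤ c1 := by
      have : 0 ≤ d * v ^ 3 := by positivity
      rw [hc1]; linarith
    have b3 : 3 * c1 + 2 * t * c2 = 3 / 2 * d ^ 3 * v ^ 5 := by
      rw [hc1, hc2]; linear_combination (-(3 / 2) * d * v ^ 3) * hv2
    have b4 : 0 ≤ 2 * t * c1 := by positivity
    have b5 : 0 ≤ 2 * (1 + t) * (3 / 2 * d ^ 3 * v ^ 5) := by positivity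
    rw [b3]
    exact ⟨b1, by linarith, by linarith⟩
  rcases le_or_gt t (1 / 256) with h' | h'
  · have hv1 : v ≤ 32 := by
      by_contra hc
      push Not at hc
      nlinarith [mul_pos hv hv, sq_nonneg d, mul_nonneg (sq_nonneg d) (sq_nonneg v)]
    obtain ⟨m0, m1, m2⟩ := AdmEx_mid hM hv hv1 (q := AdmExQ t)
      (Real.smoothTransition.nonneg _) (Real.smoothTransition.le_one _)
      (hb t ⟨ht.le, by linarith⟩).1 (hb t ⟨ht.le, by linarith⟩).2
    have n0 := mul_le_mul_of_nonneg_left m0 hd0.le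
    have n1 := mul_le_mul_of_nonneg_left m1 hd0.le
    have n2 := mul_le_mul_of_nonneg_left m2 hd0.le
    rw [hdB] at n0 n1 n2
    have o0 : 31 / 32 ≤ c := by rw [hc]; linarith
    have o1 : -(1 / 32) ≤ c1 := by rw [hc1]; linarith
    have o2 : -(1 / 32) ≤ c2 := by rw [hc2]; linarith
    have o3 : -(1 / 32) ≤ t * c1 := by nlinarith
    have o4 : -(1 / 32) ≤ t * c2 := by nlinarith
    have o5 : -(5 / 32) ≤ 3 * c1 + 2 * t * c2 := by linarith
    have o6 : -(10 / 32) ≤ (1 + t) * (3 * c1 + 2 * t * c2) := by nlinarith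
    exact ⟨by linarith, by linarith, by linarith⟩
  · have e1 := AdmEx_const (f := AdmExQ) isOpen_Ioi (c := 0)
      (fun s (hs : s ∈ Ioi (1 / 256 : ℝ)) => AdmExQ_zero (le_of_lt hs))
    have e2 := AdmEx_const isOpen_Ioi e1 t h'
    rw [AdmExQ_zero h'.le] at hc hc1 hc2
    rw [e1 t h'] at hc1 hc2
    rw [e2] at hc2
    rw [hc, hc1, hc2]
    norm_num

theorem exists_adm {k : ℝ} (hk : 1 ≤ k) :
    ∃ l, Adm l ∧ ∀ t, 1 / 256 ≤ t → l t = (k ^ 2 - 1) / t := by
  obtain ⟨d, hd, H⟩ := AdmEx_ineq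
  have hk' : 0 ≤ k - 1 := by linarith
  have hQ : ∀ t, HasDerivAt AdmExQ (deriv AdmExQ t) t := fun t =>
    (AdmExQ_smooth.differentiable (by simp) t).hasDerivAt
  have hQ1 : ∀ t, HasDerivAt (deriv AdmExQ) (deriv (deriv AdmExQ) t) t := fun t =>
    (AdmExQ_smooth1.differentiable (by simp) t).hasDerivAt
  let c : ℝ → ℝ := fun t => 1 - d * (AdmExQ t * AdmExV d t)
  let c1 : ℝ → ℝ := fun t =>
    -(d * (deriv AdmExQ t * AdmExV d t - AdmExQ t * AdmExV d t ^ 3 / 2))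
  let c2 : ℝ → ℝ := fun t =>
    -(d * (deriv (deriv AdmExQ) t * AdmExV d t - deriv AdmExQ t * AdmExV d t ^ 3 +
      3 / 4 * AdmExQ t * AdmExV d t ^ 5))
  let r : ℝ → ℝ := fun t => d * AdmExV d t * ((1 - AdmExQ t) / t)
  let l : ℝ → ℝ := fun t =>
    (2 + (k - 1) * c t) * (k - 1) * (AdmExV d t ^ 2 / (1 + d * AdmExV d t) + r t)
  have hp : ∀ t, 0 ≤ t → 0 < d ^ 2 + t := fun t ht => by positivity
  have hl : ∀ t, 0 < t → l t = ((1 + (k - 1) * c t) ^ 2 - 1) / t := by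
    intro t ht
    have hv := AdmExV_pos (hp t ht.le)
    have hv2 := AdmExV_sq (hp t ht.le)
    have e : AdmExV d t ^ 2 / (1 + d * AdmExV d t) + r t = c t / t := by
      have : AdmExV d t ^ 2 / (1 + d * AdmExV d t) = (1 - d * AdmExV d t) / t := by
        rw [div_eq_div_iff (by positivity) ht.ne']
        linear_combination hv2
      rw [this]
      simp only [r, c]
      field_simp
      ring
    simp only [l]
    rw [e]
    field_simp
    ring
  have hc : ∀ t, 0 < t → HasDerivAt c (c1 t) t := by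
    intro t ht
    refine ((((hQ t).mul (AdmExV_deriv (hp t ht.le))).const_mul d).const_sub 1).congr_deriv ?_
    simp only [c1]
    ring
  have hc1 : ∀ t, 0 < t → HasDerivAt c1 (c2 t) t := by
    intro t ht
    have hv := AdmExV_deriv (hp t ht.le)
    refine (((((hQ1 t).mul hv).sub (((hQ t).mul (hv.pow 3)).div_const 2)).const_mul
      d).neg).congr_deriv ?_
    simp only [c2, Pi.pow_apply, Nat.cast_ofNat, Nat.add_one_sub_one]
    ring
  have hr : ∀ t, 0 ≤ t → ContDiffAt ℝ ∞ r t := by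
    intro t ht
    refine (contDiffAt_const.mul (AdmExV_smooth (hp t ht))).mul ?_
    rcases ht.eq_or_lt with rfl | ht
    · refine (contDiffAt_const (c := (0 : ℝ))).congr_of_eventuallyEq ?_
      filter_upwards [gt_mem_nhds (show (0 : ℝ) < 1 / 1024 by norm_num)] with s hs
      rw [AdmExQ_one hs.le, sub_self, zero_div]
    · exact (contDiffAt_const.sub AdmExQ_smooth.contDiffAt).div contDiffAt_id ht.ne'
  refine ⟨l, AdmEx_of (a := fun t => 1 + (k - 1) * c t) (a1 := fun t => (k - 1) * c1 t)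
    (a2 := fun t => (k - 1) * c2 t) ?_ ?_ hl ?_ ?_ ?_ ?_ ?_, ?_⟩
  · intro t ht
    have hv := AdmExV_pos (hp t ht)
    have hV := AdmExV_smooth (hp t ht)
    refine ((contDiffAt_const.add (contDiffAt_const.mul (contDiffAt_const.sub
      (contDiffAt_const.mul (AdmExQ_smooth.contDiffAt.mul hV))))).mul contDiffAt_const).mul
      (((hV.pow 2).div (contDiffAt_const.add (contDiffAt_const.mul hV)) ?_).add (hr t ht))
    positivity
  · have hv := AdmExV_pos (hp 0 le_rfl)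
    have hv2 := AdmExV_sq (hp 0 le_rfl)
    have e : d * AdmExV d 0 = 1 := by
      have : (d * AdmExV d 0 - 1) * (d * AdmExV d 0 + 1) = 0 := by linear_combination hv2
      rcases mul_eq_zero.1 this with h | h
      · linarith
      · nlinarith [mul_pos hd hv]
    have e1 : c 0 = 0 := by
      simp only [c]
      rw [AdmExQ_one (by norm_num), one_mul, e, sub_self]
    have e2 : r 0 = 0 := by simp [r]
    simp only [l]
    rw [e1, e2]
    positivity
  · exact fun t ht => ((hc t ht).const_mul _).const_add 1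
  · exact fun t ht => (hc1 t ht).const_mul _
  · intro t ht
    have := mul_nonneg hk' (H t ht (c t) (c1 t) (c2 t) rfl rfl rfl).1
    linarith
  · intro t ht
    have := mul_nonneg hk' (H t ht (c t) (c1 t) (c2 t) rfl rfl rfl).2.1
    linarith
  · intro t ht
    have := mul_nonneg hk' (H t ht (c t) (c1 t) (c2 t) rfl rfl rfl).2.2
    linarith
  · intro t ht
    rw [hl t (by linarith)]
    simp only [c]
    rw [AdmExQ_zero ht]
    ring

end Pool.Agent.MP_39b1da_gt
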