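import Pool.Agent.MP_39b1da_gt.AptEx1

/-!
Lifting the sections to the universal cover: a branching family of isometric planes.
-/

set_option autoImplicit false

namespace Pool.Agent.MP_39b1da_gt

open Filter Topology Set Real
open scoped ENNReal NNReal ContDiff InnerProductSpace

theorem apt_cross {φ : ℝ → ℝ} (hφ : Continuous φ) {T h : ℝ} (hT : 0 ≤ T) (hh : 0 < h)
    (h0 : h ≤ φ 0) (h1 : φ T ≤ -h) : ∃ t₁ t₂, 0 ≤ t₁ ∧ t₁ ≤ t₂ ∧ t₂ ≤ T ∧ φ t₁ = h ∧
      φ t₂ = -h ∧ ∀ t ∈ Icc t₁ t₂, |φ t| ≤ h := by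
  have hA : IsCompact (Icc 0 T ∩ {t | h ≤ φ t}) :=
    isCompact_Icc.inter_right (isClosed_le continuous_const hφ)
  obtain ⟨t₁, ⟨⟨a1, a2⟩, a3⟩, a4⟩ := hA.exists_isGreatest ⟨0, ⟨le_rfl, hT⟩, h0⟩
  have a5 : ∀ t ∈ Icc t₁ T, h ≤ φ t → t = t₁ := fun t ht e =>
    le_antisymm (a4 ⟨⟨a1.trans ht.1, ht.2⟩, e⟩) ht.1
  have a6 : φ t₁ = h := by
    obtain ⟨t, ht, e⟩ := intermediate_value_Icc' a2 hφ.continuousOn
      (show h ∈ Icc (φ T) (φ t₁) from ⟨by linarith, a3⟩)
    rw [← a5 t ht e.ge, e]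
  have hB : IsCompact (Icc t₁ T ∩ {t | φ t ≤ -h}) :=
    isCompact_Icc.inter_right (isClosed_le hφ continuous_const)
  obtain ⟨t₂, ⟨⟨b1, b2⟩, b3⟩, b4⟩ := hB.exists_isLeast ⟨T, ⟨a2, le_rfl⟩, h1⟩
  have b5 : ∀ t ∈ Icc t₁ t₂, φ t ≤ -h → t = t₂ := fun t ht e =>
    le_antisymm ht.2 (b4 ⟨⟨ht.1, ht.2.trans b2⟩, e⟩)
  have b6 : φ t₂ = -h := by
    obtain ⟨t, ht, e⟩ := intermediate_value_Icc' b1 hφ.continuousOn
      (show -h ∈ Icc (φ t₂) (φ t₁) from ⟨b3, by linarith⟩)
    rw [← b5 t ht e.le, e]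
  refine ⟨t₁, t₂, a1, b1, b2, a6, b6, fun t ht => abs_le.2 ⟨?_, ?_⟩⟩
  · rcases le_total (φ t) (-h) with e | e
    · rw [b5 t ht e, b6]
    · exact e
  · rcases le_total h (φ t) with e | e
    · rw [a5 t ⟨ht.1, ht.2.trans b2⟩ e, a6]
    · exact e

theorem aptL_step {m : ℕ} (B : Branch m) (l : Lines B) {p : ℝ → Hyp ℂ} (hp : Continuous p)
    {t₁ t₂ : ℝ} (h12 : t₁ ≤ t₂) (h2 : l.h (p t₂) < 0)
    (h3 : ∀ t ∈ Icc t₁ t₂, |l.h (p t)| < 1 / 2) :
    aptL B l.1.1 (p t₂) = insert l (aptL B l.1.1 (p t₁)) := by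
  ext l'
  rcases eq_or_ne l' l with rfl | hne
  · simp only [mem_insert_iff, true_or, iff_true]
    exact ⟨rfl, h2⟩
  simp only [mem_insert_iff, hne, false_or]
  refine and_congr_right fun hc => ?_
  have hS : l'.1.2 ∈ B.S l.1.1 := hc ▸ l'.2.2.1
  have hz : ∀ t ∈ Icc t₁ t₂, l'.h (p t) ≠ 0 := by
    intro t ht e
    have h4 := abs_lor_lt (B.unit _ _ l.2.2.1) (B.unit _ _ hS) (h3 t ht)
      (show |l'.h (p t)| < 1 / 2 by rw [e]; norm_num)
    rcases B.same _ _ l.2.2.1 _ hS with h5 | h5 | h5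
    · exact hne (Subtype.ext (Prod.ext hc h5))
    · have h6 := l'.2.2.2
      have h7 := l.2.2.2
      rw [h5] at h6
      simp only [Prod.fst_neg] at h6
      linarith
    · linarith
  have hc' : Continuous fun t => l'.h (p t) := (apt_h_cont l').comp hp
  constructor
  · intro h4
    by_contra h5
    obtain ⟨t, ht, e⟩ := intermediate_value_Icc' h12 hc'.continuousOn
      (show (0 : ℝ) ∈ Icc (l'.h (p t₂)) (l'.h (p t₁)) from ⟨h4.le, not_lt.1 h5⟩)
    exact hz t ht e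
  · intro h4
    by_contra h5
    obtain ⟨t, ht, e⟩ := intermediate_value_Icc h12 hc'.continuousOn
      (show (0 : ℝ) ∈ Icc (l'.h (p t₁)) (l'.h (p t₂)) from ⟨h4.le, not_lt.1 h5⟩)
    exact hz t ht e

theorem apt_root_sep {k : ℕ} (hk : 1 ≤ k) : ∃ μ > 0, ∀ z z' : ℂ, ‖z'‖ = 1 → z ^ k = z' ^ k →
    ‖z - z'‖ < μ → z = z' := by
  classical
  have hfin : ({u : ℂ | u ^ k = 1 ∧ u ≠ 1}).Finite :=
    (Polynomial.nthRoots k (1 : ℂ)).toFinset.finite_toSet.subset fun u hu => by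
      simpa [Polynomial.mem_nthRoots (show 0 < k by omega)] using hu.1
  obtain ⟨μ, hμ, hb⟩ := Metric.isOpen_iff.1 hfin.isClosed.isOpen_compl 1 (by simp)
  refine ⟨μ, hμ, fun z z' h1 h2 h3 => ?_⟩
  have h0 : z' ≠ 0 := by rintro rfl; simp at h1
  have h4 : z / z' ∈ Metric.ball (1 : ℂ) μ := by
    rw [mem_ball_iff_norm, div_sub_one h0, norm_div, h1, div_one]
    exact h3
  have h5 := hb h4
  simp only [mem_compl_iff, mem_ofPred_eq, not_and, not_not] at h5
  exact (div_eq_one_iff_eq h0).1 (h5 (by rw [div_pow, h2, div_self (pow_ne_zero _ h0)]))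

theorem apt_f_origin {m : ℕ} (B : Branch m) {c : Fin 4} (hc : c = 0 ∨ c = 2) :
    0 < |B.f c (Hyp.mk 0)| := by
  rcases lt_or_ge |B.f c (Hyp.mk 0)| (1 / 4) with h | h
  · obtain ⟨v, hv, e⟩ := B.f_near c _ h
    rw [e.self_of_nhds, apt_lor_zero, abs_neg]
    exact abs_pos.2 (B.gen0 c hc v hv)
  · linarith

/-- The spatial coordinate of the hyperbolic plane. -/
noncomputable def aptHomeo : Hyp ℂ ≃ₜ ℂ where
  toFun := Hyp.val
  invFun := Hyp.mk
  left_inv _ := rfl
  right_inv _ := rfl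
  continuous_toFun := continuous_val
  continuous_invFun := continuous_mk

theorem apt_pol_cont (θ : ℝ) : Continuous fun t => pol t θ := by
  unfold pol
  fun_prop

theorem apt_pol_zero (θ : ℝ) : pol 0 θ = Hyp.mk 0 := by simp [pol]

theorem apt_lip_of_loc {A X Y : Type} [MetricSpace A] [MetricSpace X] [MetricSpace Y]
    (hA : IsLen A) {p : X → Y} {δ : ℝ} (hp : BallIso p δ) {F : A → X} (hF : Continuous F)
    (h : ∀ x, ∀ᶠ y in 𝓝 x, dist (p (F x)) (p (F y)) ≤ dist x y) (x y : A) :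
    dist (F x) (F y) ≤ dist x y := by
  have := hA.lip F (fun x => ?_) x y
  · rwa [edist_dist, edist_dist, ENNReal.ofReal_le_ofReal_iff dist_nonneg] at this
  filter_upwards [h x, hF.continuousAt.preimage_mem_nhds (Metric.ball_mem_nhds (F x) hp.1)]
    with y h1 h2
  rw [edist_dist, edist_dist, ← (hp.2 (F x)).1 _ (Metric.mem_ball_self hp.1) _ h2]
  exact ENNReal.ofReal_le_ofReal h1

theorem exists_apts {m : ℕ} (D : Setup m) {k : ℕ} (hk : 1 ≤ k) : ∃ m₀ : BM D k,
    ∀ (S X : Type) [MetricSpace S] [MetricSpace X] (f : BM D k ≃ₜ S) (pj : X → S) (δ : ℝ) (x₀ : X),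
      CompactSpace S → (∀ x y : BM D k, dist x.1.1 y.1.1 ≤ dist (f x) (f y)) →
      (∀ (x y : BM D k) (a : Path x y),
        edist (f x) (f y) ≤ eVariationOn ((fun z : BM D k => z.1.1) ∘ a) univ) →
      BallIso pj δ → SimplyConnectedSpace X → GlobK X → pj x₀ = f m₀ →
      Nonempty (Apts D.toBranch k X x₀) := by
  refine ⟨aptS D hk (fun _ => ⟨0, hk⟩) (Hyp.mk 0), ?_⟩
  intro S X _ _ f pj δ x₀ hS hlo hup hpj hX hK hx₀
  have hcov := hpj.isCoveringMap
  obtain ⟨ε₀, hq⟩ := D.q_iso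
  have hqc := hq.isCoveringMap
  have : ContractibleSpace (Hyp ℂ) := aptHomeo.contractibleSpace
  have : LocallyPathConnectedSpace (Hyp ℂ) := (globK_hyp.locK one_pos).locallyPathConnected
  have : LocallyPathConnectedSpace X := (hK.locK one_pos).locallyPathConnected
  have hlen : IsLen (Hyp ℂ) := globK_hyp.isLen
  have hs0 : ∀ w, aptS D hk w (Hyp.mk 0) = aptS D hk (fun _ => ⟨0, hk⟩) (Hyp.mk 0) := fun w =>
    aptS_congr D hk fun c l hl => by simp [aptL_zero] at hl
  -- the lifts of the sections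
  have hσ : ∀ w : Lines D.toBranch → Fin k, ∃ F : C(Hyp ℂ, X), F (Hyp.mk 0) = x₀ ∧
      ∀ x, pj (F x) = f (aptS D hk w x) := by
    intro w
    obtain ⟨F, ⟨h1, h2⟩, -⟩ := hcov.existsUnique_continuousMap_lifts
      ⟨fun x => f (aptS D hk w x), f.continuous.comp (aptS_cont D hk w)⟩ (Hyp.mk 0) x₀
      (by rw [hx₀, ← hs0 w]; rfl)
    exact ⟨F, h1, fun x => congrFun h2 x⟩
  choose σ σ0 σp using hσ
  have hfs : ∀ w x y, dist (f (aptS D hk w x)) (f (aptS D hk w y)) ≤ dist x y := by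
    intro w x y
    rw [← ENNReal.ofReal_le_ofReal_iff dist_nonneg, ← edist_dist, ← edist_dist]
    refine le_of_forall_gt_imp_ge_of_dense fun r hr => ?_
    obtain ⟨a, ha⟩ := hlen x y r hr
    refine (hup _ _ (a.map (aptS_cont D hk w))).trans (le_trans ?_ ha.le)
    have h1 : LipschitzWith 1 (D.q ∘ aptI m) := by
      simpa using (apt_q_lip D).comp aptI_isometry.lipschitz
    have h2 := h1.lipschitzOnWith (s := univ) |>.comp_eVariationOn_le (g := a) (s := univ)
      (mapsTo_univ _ _)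
    rw [ENNReal.coe_one, one_mul] at h2
    exact h2
  have σlip : ∀ w x y, dist (σ w x) (σ w y) ≤ dist x y := fun w =>
    apt_lip_of_loc hlen hpj (σ w).continuous fun x => Eventually.of_forall fun y => by
      rw [σp, σp]; exact hfs w x y
  -- the developing map
  have hb : Continuous fun z : BM D k => z.1.1 := continuous_fst.comp continuous_subtype_val
  obtain ⟨P, ⟨P0, Pq⟩, -⟩ := hqc.existsUnique_continuousMap_lifts
    ⟨fun z : X => (f.symm (pj z)).1.1, hb.comp (f.symm.continuous.comp hcov.continuous)⟩ x₀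
    (Hyp.mk 0) (by
      change _ = (f.symm (pj x₀)).1.1
      rw [hx₀, f.symm_apply_apply, ← aptI_zero]; rfl)
  have Pq' : ∀ z, D.q (P z) = (f.symm (pj z)).1.1 := fun z => congrFun Pq z
  have Plip : ∀ z z', dist (P z) (P z') ≤ dist z z' := by
    refine apt_lip_of_loc hK.isLen hq P.continuous fun z => ?_
    filter_upwards [Metric.ball_mem_nhds z hpj.1] with z' hz'
    rw [Pq', Pq', ← (hpj.2 z).1 _ (Metric.mem_ball_self hpj.1) _ hz']
    simpa using hlo (f.symm (pj z)) (f.symm (pj z'))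
  have Pσ : ∀ w x, P (σ w x) = aptI m x := by
    intro w
    refine congrFun (hqc.eq_of_comp_eq (g₁ := fun x => P (σ w x)) (g₂ := aptI m)
      (P.continuous.comp (σ w).continuous) aptI_isometry.continuous ?_ (Hyp.mk 0) ?_)
    · ext x
      simp only [Function.comp, Pq', σp, f.symm_apply_apply]
      rfl
    · rw [σ0, P0, aptI_zero]
  have hle : ∀ w w' x y, dist x y ≤ dist (σ w x) (σ w' y) := fun w w' x y => by
    rw [← aptI_dist (m := m), ← Pσ w, ← Pσ w']; exact Plip _ _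
  refine ⟨⟨fun w => σ w, σ0, fun w x y => le_antisymm (σlip w x y) (hle w w x y), ?_, ?_⟩⟩
  · intro w w' x h
    have hγ : Continuous fun t : ℝ => Hyp.mk (t • x.val) := by fun_prop
    have := hcov.eqOn_of_comp_eqOn (s := Icc (0 : ℝ) 1)
      (g₁ := fun t => σ w (Hyp.mk (t • x.val))) (g₂ := fun t => σ w' (Hyp.mk (t • x.val)))
      isPreconnected_Icc ((σ w).continuous.comp hγ).continuousOn
      ((σ w').continuous.comp hγ).continuousOn (fun t ht => by
        simp only [Function.comp, σp]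
        rw [aptS_congr D hk fun c l hl => h l (aptL_mono _ c x ht.1 ht.2 hl).2])
      (a := 0) ⟨le_rfl, zero_le_one⟩ (by simp only [zero_smul, σ0])
    simpa using this ⟨zero_le_one, le_rfl⟩
  · obtain ⟨μ, hμ, hsep⟩ := apt_root_sep hk
    obtain ⟨h, hh, h8, hf0, hf2⟩ : ∃ h : ℝ, 0 < h ∧ h ≤ 1 / 8 ∧ h ≤ |D.f 0 (Hyp.mk 0)| ∧
        h ≤ |D.f 2 (Hyp.mk 0)| :=
      ⟨min (1 / 8) (min |D.f 0 (Hyp.mk 0)| |D.f 2 (Hyp.mk 0)|),
        lt_min (by norm_num) (lt_min (apt_f_origin _ (Or.inl rfl)) (apt_f_origin _ (Or.inr rfl))),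
        min_le_left _ _, (min_le_right _ _).trans (min_le_left _ _),
        (min_le_right _ _).trans (min_le_right _ _)⟩
    have huc : UniformContinuous fun z : S => (f.symm z).1.2 :=
      CompactSpace.uniformContinuous_of_continuous
        (continuous_snd.comp (continuous_subtype_val.comp f.symm.continuous))
    obtain ⟨ε₁, hε₁, huc'⟩ := Metric.uniformContinuous_iff.1 huc (μ * h / 2) (by positivity)
    have hm : 0 < min δ (min ε₁ (arsinh h)) :=
      lt_min hpj.1 (lt_min hε₁ (arsinh_pos_iff.2 hh))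
    refine ⟨min δ (min ε₁ (arsinh h)) / 2, half_pos hm, fun w w' θ θ' T hT hcl l hl => ?_⟩
    have hc := l.2.1
    have key : ∀ t, 0 ≤ t → t ≤ T → |l.h (pol t θ')| = h →
        aptZ D.toBranch w l.1.1 (pol t θ') = aptZ D.toBranch w' l.1.1 (pol t θ') := by
      intro t t0 tT ht
      have h1 := (hcl t t0 tT).trans_lt (half_lt_self hm)
      simp only [lt_min_iff] at h1
      obtain ⟨d1, d2, d3⟩ := h1
      have hf : |D.f l.1.1 (aptI m (pol t θ'))| = h := by
        rw [D.f_abs _ _ _ l.2.2.1 (by rw [← apt_h_eq, ht]; linarith), ← apt_h_eq, ht]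
      have hL := aptL_eq D.toBranch l.1.1 (x := pol t θ) (y := pol t θ')
        (by rw [hf]; exact (hle w w' _ _).trans_lt d3)
      have h2 : dist (pj (σ w (pol t θ))) (pj (σ w' (pol t θ'))) < ε₁ := by
        rw [(hpj.2 (σ w' (pol t θ'))).1 _ d1 _ (Metric.mem_ball_self hpj.1)]; exact d2
      have h3 := huc' h2
      simp only [σp, f.symm_apply_apply, Prod.dist_eq, max_lt_iff] at h3
      have h4 : ‖aptR D.toBranch w l.1.1 (pol t θ) - aptR D.toBranch w' l.1.1 (pol t θ')‖ <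
          μ * h / 2 := by
        rw [← dist_eq_norm]
        rcases hc with e | e <;> rw [e]
        · exact h3.1
        · exact h3.2
      have h5 := (abs_norm_sub_norm_le _ _).trans_lt h4
      rw [aptR_norm, aptR_norm, hf] at h5
      rw [aptR, aptR, hf, aptZ_congr _ w _ hL] at h4
      set r := |D.f l.1.1 (aptI m (pol t θ))|
      set z := aptZ D.toBranch w l.1.1 (pol t θ') with hz
      set z' := aptZ D.toBranch w' l.1.1 (pol t θ') with hz'
      refine hsep z z' (aptZ_norm _ _ _ _) (by rw [hz, hz', aptZ_pow, aptZ_pow]) ?_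
      have h6 : (h : ℂ) * (z - z') = ((r : ℂ) * z - h * z') - ((r - h : ℝ) : ℂ) * z := by
        push_cast; ring
      have h7 : h * ‖z - z'‖ ≤ ‖(r : ℂ) * z - h * z'‖ + |r - h| := by
        have := norm_sub_le ((r : ℂ) * z - h * z') (((r - h : ℝ) : ℂ) * z)
        rw [← h6, norm_mul, norm_mul, Complex.norm_real, Complex.norm_real, hz, aptZ_norm,
          mul_one, Real.norm_eq_abs, Real.norm_eq_abs, abs_of_pos hh] at this
        exact this
      have h9 : h * ‖z - z'‖ < h * μ := by linarith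
      exact lt_of_mul_lt_mul_left h9 hh.le
    have h0 : h ≤ l.h (pol 0 θ') := by
      have h1 := apt_f_le D.toBranch l.1.1 (Hyp.mk 0) l.2.2.1
      rw [apt_lor_zero, abs_of_pos (neg_pos.2 l.2.2.2)] at h1
      rw [apt_pol_zero, apt_h_zero]
      refine le_trans ?_ h1
      rcases hc with e | e <;> rw [e]
      · exact hf0
      · exact hf2
    obtain ⟨t₁, t₂, a1, a2, a3, a4, a5, a6⟩ := apt_cross (φ := fun t => l.h (pol t θ'))
      ((apt_h_cont l).comp (apt_pol_cont θ')) hT hh h0 (by linarith)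
    have hstep := aptL_step D.toBranch l (apt_pol_cont θ') a2 (by rw [a5]; linarith)
      fun t ht => (a6 t ht).trans_lt (by linarith)
    have hnot : l ∉ aptL D.toBranch l.1.1 (pol t₁ θ') := fun e => by
      have := e.2
      rw [a4] at this
      linarith
    have e1 := key t₁ a1 (a2.trans a3) (by rw [a4, abs_of_pos hh])
    have e2 := key t₂ (a1.trans a2) a3 (by rw [a5, abs_neg, abs_of_pos hh])
    rw [aptZ_insert _ w _ hnot hstep, aptZ_insert _ w' _ hnot hstep, e1] at e2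
    refine aptE_inj k (mul_right_cancel₀ ?_ e2)
    rw [← norm_ne_zero_iff, aptZ_norm]
    exact one_ne_zero

end Pool.Agent.MP_39b1da_gt
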