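import Pool.Agent.MP_39b1da_gt.Basic

set_option autoImplicit false

namespace Pool.Agent.MP_39b1da_gt

open Filter Topology Set Real
open scoped ENNReal NNReal ContDiff InnerProductSpace

/-- A continuous function that is midpoint convex for small steps lies below its chord. -/
theorem loc_convex_of_midpoint {f : ℝ → ℝ} {a b η : ℝ} (hη : 0 < η) (hab : a ≤ b)
    (hf : ContinuousOn f (Icc a b))
    (hm : ∀ x h, 0 < h → h ≤ η → a ≤ x - h → x + h ≤ b → f x ≤ (f (x - h) + f (x + h)) / 2)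
    {t : ℝ} (ht : t ∈ Icc (0 : ℝ) 1) : f ((1 - t) * a + t * b) ≤ (1 - t) * f a + t * f b := by
  rcases hab.eq_or_lt with rfl | hlt
  · rw [show (1 - t) * a + t * a = a by ring]; linarith
  have hd : 0 < b - a := by linarith
  set g : ℝ → ℝ := fun x => (b - a) * f x - ((b - x) * f a + (x - a) * f b) with hg
  have gc : ContinuousOn g (Icc a b) := (continuousOn_const.mul hf).sub (by fun_prop)
  obtain ⟨x0, hx0, hM⟩ := isCompact_Icc.exists_isMaxOn (nonempty_Icc.2 hab) gc
  have hK : IsCompact (Icc a b ∩ g ⁻¹' {g x0}) :=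
    isCompact_Icc.of_isClosed_subset
      (gc.preimage_isClosed_of_isClosed isClosed_Icc isClosed_singleton) inter_subset_left
  obtain ⟨x, ⟨hx, hx1⟩, hx2⟩ := hK.exists_isLeast ⟨x0, hx0, rfl⟩
  have hx3 : g x = g x0 := hx1
  have key : g x0 ≤ 0 := by
    by_contra h0
    have h1 : a < x := hx.1.lt_of_ne fun e => h0 (by rw [← hx3, ← e]; simp [hg])
    have h2 : x < b := hx.2.lt_of_ne fun e => h0 (by rw [← hx3, e]; simp [hg])
    obtain ⟨h, p0, p1, p2, p3⟩ : ∃ h, 0 < h ∧ h ≤ η ∧ h ≤ x - a ∧ h ≤ b - x :=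
      ⟨min η (min (x - a) (b - x)), lt_min hη (lt_min (by linarith) (by linarith)),
        min_le_left _ _, (min_le_right _ _).trans (min_le_left _ _),
        (min_le_right _ _).trans (min_le_right _ _)⟩
    have m1 : x - h ∈ Icc a b := ⟨by linarith, by linarith⟩
    have m2 : x + h ∈ Icc a b := ⟨by linarith, by linarith⟩
    have h3 : g (x - h) < g x0 := (hM m1).lt_of_ne fun e => by
      have := hx2 ⟨m1, e⟩
      linarith
    have h4 : g (x + h) ≤ g x0 := hM m2
    have h5 := mul_le_mul_of_nonneg_left (hm x h p0 p1 m1.1 m2.2) hd.le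
    simp only [hg] at h3 h4 hx3
    linarith
  have h6 : g ((1 - t) * a + t * b) ≤ g x0 := hM ⟨by nlinarith [ht.1], by nlinarith [ht.2]⟩
  refine le_of_mul_le_mul_left ?_ hd
  simp only [hg] at h6 key
  linarith

theorem loc_sinh_add {a b : ℝ} (ha : 0 ≤ a) (hb : 0 ≤ b) : sinh a + sinh b ≤ sinh (a + b) := by
  rw [sinh_add]
  nlinarith [one_le_cosh a, one_le_cosh b, sinh_nonneg_iff.2 ha, sinh_nonneg_iff.2 hb]

theorem loc_le_of_cosh {a b : ℝ} (hb : 0 ≤ b) (h : cosh a ≤ cosh b) : a ≤ b :=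
  (le_abs_self a).trans ((cosh_le_cosh.1 h).trans_eq (abs_of_nonneg hb))

theorem loc_tri {a b w : ℝ} (hw : 0 ≤ w) (h1 : w ≤ a + b) (h2 : a ≤ b + w) (h3 : b ≤ a + w) :
    cosh a ^ 2 + cosh b ^ 2 + cosh w ^ 2 - 1 ≤ 2 * cosh a * cosh b * cosh w := by
  have e1 : cosh w ≤ cosh (a + b) := cosh_le_cosh.2 (abs_le_abs h1 (by linarith))
  have e2 : cosh (a - b) ≤ cosh w :=
    cosh_le_cosh.2 ((abs_le.2 ⟨by linarith, by linarith⟩).trans (le_abs_self w))
  rw [cosh_add] at e1
  rw [cosh_sub] at e2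
  have e3 := mul_nonneg (sub_nonneg.2 e1) (sub_nonneg.2 e2)
  have e4 := cosh_sq a
  have e5 := cosh_sq b
  have e6 : (sinh a * sinh b) ^ 2 = (cosh a ^ 2 - 1) * (cosh b ^ 2 - 1) := by
    rw [mul_pow, e4, e5]; ring
  nlinarith

section
variable {X : Type} [MetricSpace X] {ε : ℝ}

theorem Btw.loc_symm {y x z : X} (h : Btw y x z) : Btw z x y := by
  unfold Btw at *
  rw [dist_comm z x, dist_comm x y, dist_comm z y]; linarith

theorem Btw.loc_le {y x z : X} (h : Btw y x z) : dist y x ≤ dist y z ∧ dist x z ≤ dist y z := by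
  unfold Btw at h
  constructor <;> linarith [dist_nonneg (x := y) (y := x), dist_nonneg (x := x) (y := z)]

theorem GlobK.locK (h : GlobK X) (hε : 0 < ε) : LocK X ε :=
  ⟨hε, fun y z _ => h.btw y z, fun p y x z _ _ => h.k p y x z⟩

theorem LocK.btw_unique (h : LocK X ε) {y x x' z : X} (hyz : dist y z < ε) (h1 : Btw y x z)
    (h2 : Btw y x' z) (e : dist y x = dist y x') : x = x' := by
  have h3 := h.k x' y x z (by rw [dist_comm]; exact h2.loc_le.1.trans_lt hyz)
    (h2.loc_le.2.trans_lt hyz) h1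
  rcases (dist_nonneg (x := y) (y := z)).eq_or_lt with h0 | h0
  · have e1 : dist y x = 0 := le_antisymm (h0 ▸ h1.loc_le.1) dist_nonneg
    exact (dist_eq_zero.1 e1).symm.trans (dist_eq_zero.1 (e.symm.trans e1))
  unfold KIneq Btw at *
  have e2 : dist x' z = dist x z := by linarith
  have e3 : sinh (dist y z) = sinh (dist x z) * cosh (dist y x) + sinh (dist y x) * cosh (dist x z)
      := by rw [← h1, sinh_add]; ring
  rw [dist_comm x' y, ← e, e2, ← e3] at h3
  have h4 : cosh (dist x' x) ≤ cosh 0 := by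
    rw [cosh_zero]
    exact le_of_mul_le_mul_left (by linarith) (sinh_pos_iff.2 h0)
  exact (dist_le_zero.1 (loc_le_of_cosh le_rfl h4)).symm

theorem LocK.exists_geod (h : LocK X ε) {y z : X} (hyz : dist y z < ε) :
    ∃ c : ℝ → X, c 0 = y ∧ c 1 = z ∧
      ∀ s ∈ Icc (0 : ℝ) 1, ∀ t ∈ Icc (0 : ℝ) 1, dist (c s) (c t) = |s - t| * dist y z := by
  have hD := dist_nonneg (x := y) (y := z)
  have h1 : ∀ t : ℝ, ∃ x, t ∈ Icc (0 : ℝ) 1 → dist y x = t * dist y z ∧ Btw y x z := fun t => by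
    by_cases ht : t ∈ Icc (0 : ℝ) 1
    · obtain ⟨x, hx⟩ := h.btw y z hyz (t * dist y z) (mul_nonneg ht.1 hD)
        (mul_le_of_le_one_left hD ht.2)
      exact ⟨x, fun _ => hx⟩
    · exact ⟨y, fun h => absurd h ht⟩
  choose c hc using h1
  have key : ∀ s ∈ Icc (0 : ℝ) 1, ∀ t ∈ Icc (0 : ℝ) 1, s ≤ t →
      dist (c s) (c t) = (t - s) * dist y z := by
    intro s hs t ht hst
    obtain ⟨e1, b1⟩ := hc t ht
    obtain ⟨e2, b2⟩ := hc s hs
    obtain ⟨w, e3, b3⟩ := h.btw y (c t) (b1.loc_le.1.trans_lt hyz) (s * dist y z)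
      (mul_nonneg hs.1 hD) (e1 ▸ mul_le_mul_of_nonneg_right hst hD)
    have b4 : Btw y w z := by
      unfold Btw at *
      linarith [dist_triangle y w z, dist_triangle w (c t) z]
    rw [h.btw_unique hyz b2 b4 (e2.trans e3.symm)]
    unfold Btw at b3
    linarith
  refine ⟨c, (dist_eq_zero.1 ?_).symm, dist_eq_zero.1 ?_, fun s hs t ht => ?_⟩
  · simpa using (hc 0 ⟨le_rfl, zero_le_one⟩).1
  · obtain ⟨e1, b1⟩ := hc 1 ⟨zero_le_one, le_rfl⟩
    unfold Btw at b1
    linarith
  · rcases le_total s t with hst | hst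
    · rw [key s hs t ht hst, abs_sub_comm, abs_of_nonneg (sub_nonneg.2 hst)]
    · rw [dist_comm, key t ht s hs hst, abs_of_nonneg (sub_nonneg.2 hst)]

/-- Small balls are convex. -/
theorem LocK.ball_convex (h : LocK X ε) {p y x z : X} {r : ℝ} (hr : r ≤ ε) (hy : dist p y < r)
    (hz : dist p z < r) (b : Btw y x z) : dist p x < r := by
  have h3 := h.k p y x z (hy.trans_le hr) (hz.trans_le hr) b
  rcases (dist_nonneg (x := y) (y := z)).eq_or_lt with h0 | h0
  · have e1 : dist y x = 0 := le_antisymm (h0 ▸ b.loc_le.1) dist_nonneg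
    rwa [← dist_eq_zero.1 e1]
  refine lt_of_le_of_lt (loc_le_of_cosh (le_max_of_le_left dist_nonneg) ?_) (max_lt hy hz)
  have c1 : cosh (dist p y) ≤ cosh (max (dist p y) (dist p z)) :=
    cosh_le_cosh.2 (abs_le_abs_of_nonneg dist_nonneg (le_max_left _ _))
  have c2 : cosh (dist p z) ≤ cosh (max (dist p y) (dist p z)) :=
    cosh_le_cosh.2 (abs_le_abs_of_nonneg dist_nonneg (le_max_right _ _))
  have c3 := loc_sinh_add (dist_nonneg (x := y) (y := x)) (dist_nonneg (x := x) (y := z))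
  unfold KIneq Btw at *
  rw [b] at c3
  refine le_of_mul_le_mul_left (h3.trans ?_) (sinh_pos_iff.2 h0)
  have s1 := sinh_nonneg_iff.2 (dist_nonneg (x := y) (y := x))
  have s2 := sinh_nonneg_iff.2 (dist_nonneg (x := x) (y := z))
  nlinarith [cosh_pos (max (dist p y) (dist p z))]

theorem LocK.mid (h : LocK X ε) {q y m z : X} (hy : dist q y < ε) (hz : dist q z < ε)
    (b : Btw y m z) (e : dist y m = dist m z) :
    2 * cosh (dist y m) * cosh (dist q m) ≤ cosh (dist q y) + cosh (dist q z) := by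
  have h3 := h.k q y m z hy hz b
  rcases (dist_nonneg (x := y) (y := m)).eq_or_lt with h0 | h0
  · rw [← h0, ← dist_eq_zero.1 (e.symm.trans h0.symm), dist_eq_zero.1 h0.symm, cosh_zero]
    linarith
  unfold KIneq Btw at *
  rw [← b, ← e, sinh_add] at h3
  refine le_of_mul_le_mul_left ?_ (sinh_pos_iff.2 h0)
  linarith

theorem LocK.half (h : LocK X ε) {p y z m n : X} (hy : dist p y < ε / 2) (hz : dist p z < ε / 2)
    (b : Btw p m y) (e : dist p m = dist m y) (b' : Btw p n z) (e' : dist p n = dist n z) :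
    dist m n ≤ dist y z / 2 := by
  have t1 := dist_triangle_left y z p
  have t2 := dist_triangle_left n y p
  have t3 := dist_triangle p y z
  have t4 := dist_triangle_right p y z
  have l1 := b'.loc_le.1
  have h1 := h.mid (q := n) (by rw [dist_comm]; linarith [h.pos]) (by linarith) b e
  have h2 := h.mid (q := y) (by rw [dist_comm]; linarith [h.pos]) (by linarith) b' e'
  unfold Btw at b b'
  have h3 := loc_tri (a := dist p m) (b := dist p n) (w := dist y z / 2) (by positivity)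
    (by linarith) (by linarith) (by linarith)
  have e1 : cosh (dist y p) = 2 * cosh (dist p m) ^ 2 - 1 := by
    rw [dist_comm, ← b, ← e, ← two_mul, cosh_two_mul, sinh_sq]; ring
  have e2 : cosh (dist y z) = 2 * cosh (dist y z / 2) ^ 2 - 1 := by
    rw [show dist y z = 2 * (dist y z / 2) by ring, cosh_two_mul, sinh_sq]; ring_nf
  rw [e1, e2, dist_comm y n] at h2
  rw [dist_comm n m, dist_comm n p] at h1
  refine loc_le_of_cosh (by positivity) ?_
  have p1 := cosh_pos (dist p m)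
  have p2 := cosh_pos (dist p n)
  refine le_of_mul_le_mul_left ?_ (show 0 < 4 * cosh (dist p m) * cosh (dist p n) by positivity)
  have h4 := mul_le_mul_of_nonneg_left h1 (show 0 ≤ 2 * cosh (dist p n) by positivity)
  nlinarith

theorem LocK.mid_convex (h : LocK X ε) {p y z m y' z' m' : X} (hy : dist p y < ε / 4)
    (hz : dist p z < ε / 4) (hy' : dist p y' < ε / 4) (hz' : dist p z' < ε / 4) (b : Btw y m z)
    (e : dist y m = dist m z) (b' : Btw y' m' z') (e' : dist y' m' = dist m' z') :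
    dist m m' ≤ (dist y y' + dist z z') / 2 := by
  have t1 := dist_triangle_left y z p
  have t2 := dist_triangle_left y z' p
  have t3 := dist_triangle_left z' y' p
  obtain ⟨n, e1, b1⟩ := h.btw y z' (by linarith [h.pos]) (dist y z' / 2) (by positivity)
    (by linarith [dist_nonneg (x := y) (y := z')])
  have e2 : dist y n = dist n z' := by unfold Btw at b1; linarith
  have h1 := h.half (by linarith) (by linarith) b e b1 e2
  have h2 := h.half (by rw [dist_comm]; linarith) (by linarith) b1.loc_symm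
    (by rw [dist_comm, ← e2, dist_comm]) b'.loc_symm (by rw [dist_comm, ← e', dist_comm])
  linarith [dist_triangle m n m']

theorem loc_geod_btw {c : ℝ → X} {D : ℝ}
    (hc : ∀ s ∈ Icc (0 : ℝ) 1, ∀ t ∈ Icc (0 : ℝ) 1, dist (c s) (c t) = |s - t| * D) {r s t : ℝ}
    (hr : 0 ≤ r) (hs : r ≤ s) (ht : s ≤ t) (h1 : t ≤ 1) : Btw (c r) (c s) (c t) := by
  unfold Btw
  rw [hc r ⟨hr, by linarith⟩ s ⟨by linarith, by linarith⟩,
    hc s ⟨by linarith, by linarith⟩ t ⟨by linarith, h1⟩, hc r ⟨hr, by linarith⟩ t ⟨by linarith, h1⟩,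
    abs_of_nonpos (by linarith), abs_of_nonpos (by linarith), abs_of_nonpos (by linarith)]
  ring

theorem loc_geod_lip {c : ℝ → X} {y z : X}
    (hc : ∀ s ∈ Icc (0 : ℝ) 1, ∀ t ∈ Icc (0 : ℝ) 1, dist (c s) (c t) = |s - t| * dist y z) :
    LipschitzOnWith (nndist y z) c (Icc 0 1) :=
  LipschitzOnWith.of_dist_le_mul fun s hs t ht => by
    rw [hc s hs t ht, mul_comm]; rfl

/-- Convexity of the metric at small scale. -/
theorem LocK.convex (h : LocK X ε) {p y z x y' z' x' : X} {t : ℝ} (ht : t ∈ Icc (0 : ℝ) 1)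
    (hy : dist p y < ε / 4) (hz : dist p z < ε / 4) (hy' : dist p y' < ε / 4)
    (hz' : dist p z' < ε / 4) (b : Btw y x z) (b' : Btw y' x' z') (e : dist y x = t * dist y z)
    (e' : dist y' x' = t * dist y' z') : dist x x' ≤ (1 - t) * dist y y' + t * dist z z' := by
  have hε := h.pos
  have key : ∀ {y x z : X}, dist p y < ε / 4 → dist p z < ε / 4 → Btw y x z →
      dist y x = t * dist y z → ∃ c : ℝ → X, c 0 = y ∧ c 1 = z ∧ c t = x ∧
        ContinuousOn c (Icc 0 1) ∧ (∀ s ∈ Icc (0 : ℝ) 1, dist p (c s) < ε / 4) ∧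
        ∀ s k, 0 < k → 0 ≤ s - k → s + k ≤ 1 → Btw (c (s - k)) (c s) (c (s + k)) ∧
          dist (c (s - k)) (c s) = dist (c s) (c (s + k)) := by
    intro y x z hy hz b e
    have h1 : dist y z < ε := by linarith [dist_triangle_left y z p]
    obtain ⟨c, c0, c1, hc⟩ := h.exists_geod h1
    have h2 : ∀ s ∈ Icc (0 : ℝ) 1, Btw y (c s) z := fun s hs =>
      c0 ▸ c1 ▸ loc_geod_btw hc le_rfl hs.1 hs.2 le_rfl
    refine ⟨c, c0, c1, h.btw_unique h1 (h2 t ht) b ?_, (loc_geod_lip hc).continuousOn,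
      fun s hs => h.ball_convex (by linarith) hy hz (h2 s hs), fun s k k0 k1 k2 =>
        ⟨loc_geod_btw hc k1 (by linarith) (by linarith) k2, ?_⟩⟩
    · have h3 := hc 0 ⟨le_rfl, zero_le_one⟩ t ht
      rwa [c0, zero_sub, abs_neg, abs_of_nonneg ht.1, ← e] at h3
    · rw [hc _ ⟨k1, by linarith⟩ _ ⟨by linarith, by linarith⟩,
        hc _ ⟨by linarith, by linarith⟩ _ ⟨by linarith, k2⟩]
      congr 2; ring
  obtain ⟨c, rfl, rfl, rfl, a1, a2, a3⟩ := key hy hz b e
  obtain ⟨c', rfl, rfl, rfl, a1', a2', a3'⟩ := key hy' hz' b' e'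
  have h3 := loc_convex_of_midpoint (f := fun s => dist (c s) (c' s)) one_pos zero_le_one
    (continuous_dist.comp_continuousOn (a1.prodMk a1')) (fun s k k0 _ k1 k2 =>
      h.mid_convex (a2 _ ⟨k1, by linarith⟩) (a2 _ ⟨by linarith, k2⟩) (a2' _ ⟨k1, by linarith⟩)
        (a2' _ ⟨by linarith, k2⟩) (a3 s k k0 k1 k2).1 (a3 s k k0 k1 k2).2 (a3' s k k0 k1 k2).1
        (a3' s k k0 k1 k2).2) ht
  simpa using h3

/-- A short geodesic path. -/
theorem LocK.exists_path (h : LocK X ε) {y z : X} (hyz : dist y z < ε) :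
    ∃ a : Path y z, (∀ s t, dist (a s) (a t) = |(s : ℝ) - t| * dist y z) ∧
      eVariationOn a univ = edist y z := by
  obtain ⟨c, c0, c1, hc⟩ := h.exists_geod hyz
  have hl := loc_geod_lip hc
  refine ⟨⟨⟨fun s => c s, hl.continuousOn.comp_continuous continuous_subtype_val fun s => s.2⟩,
    c0, c1⟩, fun s t => hc s s.2 t t.2, le_antisymm ?_ ?_⟩
  · have h1 := hl.comp_eVariationOn_le (g := (Subtype.val : unitInterval → ℝ)) (s := univ)
      fun s _ => s.2
    have h2 := (show MonotoneOn (Subtype.val : unitInterval → ℝ) univ from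
      fun _ _ _ _ h => h).eVariationOn_eq (mem_univ 0) (mem_univ 1)
    rw [show (univ : Set unitInterval) ∩ Icc 0 1 = univ from
      eq_univ_of_forall fun s => ⟨trivial, s.2⟩] at h2
    refine h1.trans_eq ?_
    rw [h2, edist_nndist]
    simp
  · exact (congrArg₂ edist c0 c1).symm.trans_le
      (eVariationOn.edist_le (fun s : unitInterval => c s) (mem_univ 0) (mem_univ 1))

theorem LocK.locallyPathConnected (h : LocK X ε) : LocallyPathConnectedSpace X := by
  refine .of_bases (p := fun _ r => 0 < r ∧ r ≤ ε) (s := fun x r => Metric.ball x r)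
    (fun x => Metric.nhds_basis_ball.to_hasBasis
      (fun r hr => ⟨min r ε, ⟨lt_min hr h.pos, min_le_right _ _⟩,
        Metric.ball_subset_ball (min_le_left _ _)⟩) fun r hr => ⟨r, hr.1, subset_rfl⟩)
    fun x r hr => ⟨x, Metric.mem_ball_self hr.1, fun y hy => ?_⟩
  rw [Metric.mem_ball, dist_comm] at hy
  obtain ⟨a, ha, -⟩ := h.exists_path (hy.trans_le hr.2)
  refine ⟨a, fun t => ?_⟩
  have h1 := ha t 0
  rw [a.source, Icc.coe_zero, sub_zero, abs_of_nonneg t.2.1] at h1
  exact (h1.trans_le (mul_le_of_le_one_left dist_nonneg t.2.2)).trans_lt hy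

theorem LocK.homotopic (h : LocK X ε) {p x y : X} (a b : Path x y)
    (ha : ∀ t, dist p (a t) < ε / 4) (hb : ∀ t, dist p (b t) < ε / 4) : a.Homotopic b := by
  have hε := h.pos
  have h1 : ∀ t, dist (a t) (b t) < ε := fun t => by
    linarith [dist_triangle_left (a t) (b t) p, ha t, hb t]
  choose c c0 c1 hc using fun t => h.exists_geod (h1 t)
  have h2 : ∀ t, ∀ s ∈ Icc (0 : ℝ) 1, Btw (a t) (c t s) (b t) ∧
      dist (a t) (c t s) = s * dist (a t) (b t) := fun t s hs =>
    ⟨c0 t ▸ c1 t ▸ loc_geod_btw (hc t) le_rfl hs.1 hs.2 le_rfl, by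
      have h3 := hc t 0 ⟨le_rfl, zero_le_one⟩ s hs
      rwa [c0, zero_sub, abs_neg, abs_of_nonneg hs.1] at h3⟩
  have h3 : Continuous fun q : unitInterval × unitInterval => c q.2 q.1 := by
    refine continuous_iff_continuousAt.2 fun q => tendsto_iff_dist_tendsto_zero.2 ?_
    have h4 : Continuous fun r : unitInterval × unitInterval =>
        (1 - (r.1 : ℝ)) * dist (a r.2) (a q.2) + r.1 * dist (b r.2) (b q.2) +
          |(r.1 : ℝ) - q.1| * dist (a q.2) (b q.2) := by fun_prop
    refine squeeze_zero (fun _ => dist_nonneg) (fun r => ?_) (by simpa using h4.tendsto q)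
    refine (dist_triangle _ (c q.2 r.1) _).trans (add_le_add ?_ (hc _ _ r.1.2 _ q.1.2).le)
    exact h.convex r.1.2 (ha _) (hb _) (ha _) (hb _) (h2 _ _ r.1.2).1 (h2 _ _ r.1.2).1
      (h2 _ _ r.1.2).2 (h2 _ _ r.1.2).2
  refine ⟨⟨⟨⟨_, h3⟩, fun t => c0 t, fun t => c1 t⟩, fun s t ht => ?_⟩⟩
  have h5 := (h2 t s s.2).2
  have h6 : dist (a t) (b t) = 0 := by
    rcases ht with rfl | rfl <;> simp
  rw [h6, mul_zero, dist_eq_zero] at h5
  exact h5.symm

theorem GlobK.isLen (h : GlobK X) : IsLen X := fun x y r hr => by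
  obtain ⟨a, -, ha⟩ := (h.locK (ε := dist x y + 1) (by positivity)).exists_path (lt_add_one _)
  exact ⟨a, ha ▸ hr⟩

theorem BallIso.dist_eq {A : Type} [MetricSpace A] {p : A → X} {δ : ℝ} (hp : BallIso p δ)
    {a a' : A} (h : dist a' a < δ) : dist (p a') (p a) = dist a' a :=
  (hp.2 a).1 a' h a (Metric.mem_ball_self hp.1)

theorem BallIso.lift {A : Type} [MetricSpace A] {p : A → X} {δ : ℝ} (hp : BallIso p δ) {a : A}
    {x : X} (h : dist x (p a) < δ) : ∃ a', p a' = x ∧ dist a' a = dist x (p a) := by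
  obtain ⟨a', h1, rfl⟩ := (hp.2 a).2 h
  exact ⟨a', rfl, (hp.dist_eq h1).symm⟩

theorem BallIso.locK {A : Type} [MetricSpace A] {p : A → X} {δ : ℝ} (hp : BallIso p δ)
    (h : LocK X ε) : LocK A (min δ ε / 2) := by
  have m0 := lt_min hp.1 h.pos
  have m1 := min_le_left δ ε
  have m2 := min_le_right δ ε
  refine ⟨by linarith, fun y z hyz s s0 s1 => ?_, fun q y x z hy hz b => ?_⟩
  · have e1 := hp.dist_eq (a := z) (a' := y) (by linarith)
    obtain ⟨w, e2, b⟩ := h.btw (p y) (p z) (by linarith) s s0 (by linarith)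
    obtain ⟨x, rfl, e3⟩ := hp.lift (a := y) (x := w) (by rw [dist_comm]; linarith)
    rw [dist_comm (p x), dist_comm x, e2] at e3
    refine ⟨x, e3, ?_⟩
    have e4 := (hp.2 y).1 x (Metric.mem_ball'.2 (by linarith)) z (Metric.mem_ball'.2 (by linarith))
    unfold Btw at *
    linarith
  · have q0 := Metric.mem_ball_self (x := q) hp.1
    have qy : y ∈ Metric.ball q δ := Metric.mem_ball'.2 (by linarith)
    have qz : z ∈ Metric.ball q δ := Metric.mem_ball'.2 (by linarith)
    have qx : x ∈ Metric.ball q δ := Metric.mem_ball'.2 (by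
      unfold Btw at b
      linarith [dist_triangle q y x, dist_triangle_right q x z, dist_triangle_left y z q])
    have e := (hp.2 q).1
    have h1 := h.k (p q) (p y) (p x) (p z) (by rw [e q q0 y qy]; linarith)
      (by rw [e q q0 z qz]; linarith) (by unfold Btw; rwa [e y qy x qx, e x qx z qz, e y qy z qz])
    unfold KIneq at *
    rwa [e y qy x qx, e x qx z qz, e y qy z qz, e q q0 x qx, e q q0 y qy, e q q0 z qz] at h1

theorem BallIso.continuous {A : Type} [MetricSpace A] {p : A → X} {δ : ℝ} (hp : BallIso p δ) :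
    Continuous p :=
  Metric.continuous_iff.2 fun _ r hr => ⟨min δ r, lt_min hp.1 hr, fun _ h => by
    rw [hp.dist_eq (h.trans_le (min_le_left _ _))]; exact h.trans_le (min_le_right _ _)⟩

theorem BallIso.isOpenMap {A : Type} [MetricSpace A] {p : A → X} {δ : ℝ} (hp : BallIso p δ) :
    IsOpenMap p := by
  intro U hU
  rw [Metric.isOpen_iff] at hU ⊢
  rintro _ ⟨a, ha, rfl⟩
  obtain ⟨r, hr, h1⟩ := hU a ha
  refine ⟨min δ r, lt_min hp.1 hr, fun x hx => ?_⟩
  obtain ⟨a', h2, h3⟩ := hp.lift (a := a) (x := x) (lt_of_lt_of_le hx (min_le_left _ _))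
  exact ⟨a', h1 (h3.trans_lt (lt_of_lt_of_le hx (min_le_right _ _))), h2⟩

theorem BallIso.isCoveringMap {A : Type} [MetricSpace A] {p : A → X} {δ : ℝ}
    (hp : BallIso p δ) : IsCoveringMap p := by
  intro b
  have h0 := hp.1
  have sep : Pairwise fun a a' : p ⁻¹' {b} => δ ≤ dist a a' := fun a a' hne => by
    by_contra h1
    have h2 := hp.dist_eq (a := a'.1) (a' := a.1) (not_le.1 h1)
    rw [show p a = b from a.2, show p a' = b from a'.2, dist_self] at h2
    exact hne (Subtype.ext (dist_eq_zero.1 h2.symm))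
  have : DiscreteTopology (p ⁻¹' {b}) := .of_forall_le_dist h0 sep
  have ex : p ⁻¹' Metric.ball b (δ / 2) ⊆ ⋃ a : p ⁻¹' {b}, Metric.ball a.1 (δ / 2) := by
    intro a' ha'
    have h1 : dist b (p a') < δ / 2 := Metric.mem_ball'.1 ha'
    obtain ⟨a, h2, h3⟩ := hp.lift (a := a') (x := b) (by linarith)
    exact mem_iUnion.2 ⟨⟨a, h2⟩, Metric.mem_ball'.2 (h3.trans_lt h1)⟩
  cases isEmpty_or_nonempty (p ⁻¹' {b})
  · exact .of_preimage_eq_empty _ (Metric.ball_mem_nhds b (half_pos h0)) (by simpa using ex)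
  have : Nonempty A := ⟨Classical.arbitrary (p ⁻¹' {b})⟩
  have surj : ∀ a : p ⁻¹' {b}, SurjOn p (Metric.ball a.1 (δ / 2)) (Metric.ball b (δ / 2)) := by
    intro a x hx
    have h1 : dist x (p a) < δ / 2 := by rw [show p a = b from a.2]; exact hx
    obtain ⟨a', h2, h3⟩ := hp.lift (a := a.1) (x := x) (by linarith)
    exact ⟨a', h3.trans_lt h1, h2⟩
  refine .of_trivialization (t := Metric.isOpen_ball.trivializationDiscrete
    (fun a : p ⁻¹' {b} => Metric.ball a.1 (δ / 2)) _ (fun a W hW => ⟨fun h =>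
      (h.preimage hp.continuous).inter Metric.isOpen_ball, fun h => ?_⟩) (fun a => ?_) surj
    (fun a a' hne => Metric.ball_disjoint_ball ((add_halves δ).trans_le (sep hne))) ex)
    (Metric.mem_ball_self (half_pos h0))
  · have h1 := hp.isOpenMap _ h
    rwa [image_preimage_inter, inter_eq_left.2 (hW.trans (surj a))] at h1
  · intro x hx y hy e
    have h1 := (hp.2 a.1).1 x (Metric.ball_subset_ball (half_le_self h0.le) hx) y
      (Metric.ball_subset_ball (half_le_self h0.le) hy)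
    rw [e, dist_self] at h1
    exact dist_eq_zero.1 h1.symm

end

theorem edist_le_var {A B : Type} [PseudoEMetricSpace A] [PseudoEMetricSpace B]
    (u : unitInterval → A) (w : unitInterval → B)
    (h : ∀ t, ∀ᶠ s in 𝓝 t, edist (u t) (u s) ≤ edist (w t) (w s)) :
    edist (u 0) (u 1) ≤ eVariationOn w univ := by
  set S := {t | edist (u 0) (u t) ≤ eVariationOn w (univ ∩ Icc 0 t)} with hS
  have step : ∀ s ∈ S, ∀ t, s ≤ t → edist (u s) (u t) ≤ edist (w s) (w t) → t ∈ S := by
    intro s hs t hst h1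
    refine (edist_triangle _ (u s) _).trans ?_
    rw [← eVariationOn.Icc_add_Icc w (show 0 ≤ s from s.2.1) hst (mem_univ s)]
    exact add_le_add hs (h1.trans (eVariationOn.edist_le w ⟨trivial, le_rfl, hst⟩
      ⟨trivial, hst, le_rfl⟩))
  have h0 : (0 : unitInterval) ∈ S := by simp [hS]
  have h1 : sSup S ∈ S := by
    obtain ⟨s, h2, h3⟩ := mem_closure_iff_nhds.1 (sSup_mem_closure ⟨0, h0⟩) _ (h (sSup S))
    exact step s h3 _ (le_sSup h3) (by rw [edist_comm, edist_comm (w s)]; exact h2)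
  have h2 : sSup S = 1 := by
    by_contra h3
    have h4 : sSup S < 1 := lt_of_le_of_ne (sSup S).2.2 h3
    have := nhdsGT_neBot_of_exists_gt ⟨1, h4⟩
    obtain ⟨t, h5, h6⟩ := (((h (sSup S)).filter_mono nhdsWithin_le_nhds).and
      (self_mem_nhdsWithin (s := Ioi (sSup S)))).exists
    exact absurd (le_sSup (step _ h1 t (le_of_lt h6) h5)) (not_le.2 h6)
  rw [h2] at h1
  exact le_trans h1 (eVariationOn.mono w inter_subset_left)

theorem IsLen.lip {A B : Type} [PseudoEMetricSpace A] [PseudoEMetricSpace B] (h : IsLen A)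
    (f : A → B) (hf : ∀ x, ∀ᶠ y in 𝓝 x, edist (f x) (f y) ≤ edist x y) (x y : A) :
    edist (f x) (f y) ≤ edist x y := by
  refine le_of_forall_gt_imp_ge_of_dense fun r hr => ?_
  obtain ⟨a, ha⟩ := h x y r hr
  have h1 := edist_le_var (f ∘ a) a fun t => (a.continuous.tendsto t).eventually (hf (a t))
  simp only [Function.comp, a.source, a.target] at h1
  exact h1.trans ha.le

theorem eVariationOn_trans {A B : Type} [TopologicalSpace A] [PseudoEMetricSpace B] (f : A → B)
    {x y z : A} (a : Path x y) (b : Path y z) : eVariationOn (f ∘ a.trans b) univ =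
      eVariationOn (f ∘ a) univ + eVariationOn (f ∘ b) univ := by
  let m : unitInterval := ⟨1 / 2, by norm_num, by norm_num⟩
  have h0 := eVariationOn.Icc_add_Icc (f ∘ a.trans b) (show 0 ≤ m from m.2.1)
    (show m ≤ 1 from m.2.2) (mem_univ m)
  rw [show (univ : Set unitInterval) ∩ Icc 0 1 = univ from
    eq_univ_of_forall fun s => ⟨trivial, s.2⟩] at h0
  rw [← h0]
  congr 1
  · have h1 := eVariationOn.comp_eq_of_monotoneOn (f ∘ a) (t := univ ∩ Icc 0 m)
      (fun t : unitInterval => projIcc (0 : ℝ) 1 zero_le_one (2 * t))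
      fun s _ t _ hst => monotone_projIcc _ (by have : (s : ℝ) ≤ t := hst; linarith)
    rw [show (fun t : unitInterval => projIcc (0 : ℝ) 1 zero_le_one (2 * t)) '' (univ ∩ Icc 0 m) =
      univ from eq_univ_of_forall fun s => ⟨⟨s / 2, by linarith [s.2.1], by linarith [s.2.2]⟩,
        ⟨trivial, by change (0 : ℝ) ≤ s / 2; linarith [s.2.1],
          by change (s : ℝ) / 2 ≤ 1 / 2; linarith [s.2.2]⟩, by
        simp only [mul_div_cancel₀ (s : ℝ) two_ne_zero, projIcc_val]⟩] at h1
    rw [← h1]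
    refine eVariationOn.eq_of_eqOn fun t ht => congrArg f ?_
    exact if_pos (show (t : ℝ) ≤ 1 / 2 from ht.2.2)
  · have h1 := eVariationOn.comp_eq_of_monotoneOn (f ∘ b) (t := univ ∩ Icc m 1)
      (fun t : unitInterval => projIcc (0 : ℝ) 1 zero_le_one (2 * t - 1))
      fun s _ t _ hst => monotone_projIcc _ (by have : (s : ℝ) ≤ t := hst; linarith)
    rw [show (fun t : unitInterval => projIcc (0 : ℝ) 1 zero_le_one (2 * t - 1)) ''
      (univ ∩ Icc m 1) = univ from eq_univ_of_forall fun s =>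
        ⟨⟨(s + 1) / 2, by linarith [s.2.1], by linarith [s.2.2]⟩,
        ⟨trivial, by change (1 : ℝ) / 2 ≤ (s + 1) / 2; linarith [s.2.1],
          by change ((s : ℝ) + 1) / 2 ≤ 1; linarith [s.2.2]⟩, by
        simp only [mul_div_cancel₀ ((s : ℝ) + 1) two_ne_zero, add_sub_cancel_right,
          projIcc_val]⟩] at h1
    rw [← h1]
    refine eVariationOn.eq_of_eqOn fun t ht => congrArg f ?_
    change (if (t : ℝ) ≤ 1 / 2 then a.extend (2 * t) else b.extend (2 * t - 1)) =
      b.extend (2 * t - 1)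
    split_ifs with h2
    · have h3 : (t : ℝ) = 1 / 2 := le_antisymm h2 ht.2.1
      rw [h3]; norm_num
    · rfl

theorem eVariationOn_symm {A B : Type} [TopologicalSpace A] [PseudoEMetricSpace B] (f : A → B)
    {x y : A} (a : Path x y) : eVariationOn (f ∘ a.symm) univ = eVariationOn (f ∘ a) univ := by
  have h1 := eVariationOn.comp_eq_of_antitoneOn (f ∘ a) (t := univ) unitInterval.symm
    fun s _ t _ hst => unitInterval.symm_le_symm.2 hst
  rw [image_univ, unitInterval.symm_bijective.surjective.range_eq] at h1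
  exact h1

end Pool.Agent.MP_39b1da_gt
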