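import Pool.Agent.MP_39b1da_gt.Cone
import Pool.Agent.MP_39b1da_gt.Loc

/-!
The sections of the branched cover over the plane attached to a labelling of the lines.
-/

set_option autoImplicit false

namespace Pool.Agent.MP_39b1da_gt

open Filter Topology Set Real
open scoped ENNReal NNReal ContDiff InnerProductSpace

variable {m : ℕ}

/-- The inclusion of the plane. -/
noncomputable def aptI (m : ℕ) (x : Hyp ℂ) : Hyp (Euc m) := Hyp.mk (I1 m x.val)

theorem apt_I1_smul (t : ℝ) (w : ℂ) : I1 m (t • w) = t • I1 m w := by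
  ext i
  simp only [I1, Complex.smul_re, Complex.smul_im, smul_eq_mul, PiLp.add_apply, PiLp.smul_apply,
    PiLp.single_apply, mul_add]
  split_ifs <;> simp

theorem aptI_zero : aptI m (Hyp.mk 0) = Hyp.mk 0 := by
  have := apt_I1_smul (m := m) 0 0
  simp only [zero_smul] at this
  simp only [aptI, Hyp.val_mk, this]

theorem aptI_dist (x y : Hyp ℂ) : dist (aptI m x) (aptI m y) = dist x y := dist_I1 m x y

theorem aptI_isometry : Isometry (aptI m) := Isometry.of_dist_eq aptI_dist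

theorem apt_lor_zero {E : Type} [NormedAddCommGroup E] [InnerProductSpace ℝ E] (v : ℝ × E) :
    lor (lift (Hyp.mk (0 : E))) v = -v.1 := by
  simp [lor, lift]

theorem apt_h_eq {B : Branch m} (l : Lines B) (x : Hyp ℂ) :
    l.h x = lor (lift (aptI m x)) l.1.2 := rfl

theorem apt_h_zero {B : Branch m} (l : Lines B) : l.h (Hyp.mk 0) = -l.1.2.1 := by
  rw [apt_h_eq, aptI_zero, apt_lor_zero]

theorem apt_h_cont {B : Branch m} (l : Lines B) : Continuous l.h := by
  have h := (aptI_isometry (m := m)).continuous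
  have h2 : Continuous fun x : Hyp ℂ => lift (aptI m x) := continuous_lift.comp h
  change Continuous fun x => lor (lift (aptI m x)) l.1.2
  unfold lor
  fun_prop

theorem apt_f_le (B : Branch m) (c : Fin 4) (y : Hyp (Euc m)) {v : ℝ × Euc m} (hv : v ∈ B.S c) :
    |B.f c y| ≤ |lor (lift y) v| := by
  rcases le_total |lor (lift y) v| (1 / 4) with h | h
  · exact (B.f_abs c y v hv h).le
  · exact (B.f_le c y).trans h

/-- The lines of colour `c` that separate `x` from the origin. -/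
def aptL (B : Branch m) (c : Fin 4) (x : Hyp ℂ) : Set (Lines B) := {l | l.1.1 = c ∧ l.h x < 0}

theorem aptL_injOn (B : Branch m) (c : Fin 4) (x : Hyp ℂ) :
    InjOn (fun l : Lines B => l.1.2) (aptL B c x) := fun _ hl _ hl' e =>
  Subtype.ext (Prod.ext (hl.1.trans hl'.1.symm) e)

theorem aptL_finite (B : Branch m) (c : Fin 4) (x : Hyp ℂ) : (aptL B c x).Finite := by
  refine Set.Finite.of_finite_image ?_ (aptL_injOn B c x)
  refine (B.fin c (Hyp.mk 0) (sinh (dist (Hyp.mk 0) (aptI m x)))).subset ?_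
  rintro _ ⟨l, ⟨hc, hl⟩, rfl⟩
  have hS : l.1.2 ∈ B.S c := hc ▸ l.2.2.1
  refine ⟨hS, ?_⟩
  have h1 := arsinh_lor_lip (B.unit c _ hS) (Hyp.mk 0) (aptI m x)
  have h2 : arsinh (lor (lift (aptI m x)) l.1.2) < 0 := arsinh_neg_iff.2 hl
  have h3 : 0 < lor (lift (Hyp.mk (0 : Euc m))) l.1.2 := by
    rw [apt_lor_zero]; linarith [l.2.2.2]
  rw [abs_of_pos h3, ← sinh_arsinh (lor _ _), sinh_le_sinh]
  linarith [le_abs_self (arsinh (lor (lift (Hyp.mk (0 : Euc m))) l.1.2) -
    arsinh (lor (lift (aptI m x)) l.1.2))]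

theorem aptL_ncard (B : Branch m) {c : Fin 4} (hc : c = 0 ∨ c = 2) (x : Hyp ℂ) :
    {v | v ∈ B.S c ∧ v.1 < 0 ∧ lor (lift (aptI m x)) v < 0}.ncard = (aptL B c x).ncard := by
  rw [← (aptL_injOn B c x).ncard_image]
  congr 1
  ext v
  constructor
  · rintro ⟨h1, h2, h3⟩
    exact ⟨⟨(c, v), hc, h1, h2⟩, ⟨rfl, h3⟩, rfl⟩
  · rintro ⟨l, ⟨h1, h2⟩, rfl⟩
    exact ⟨h1 ▸ l.2.2.1, l.2.2.2, h2⟩

theorem aptL_zero (B : Branch m) (c : Fin 4) : aptL B c (Hyp.mk 0) = ∅ := by
  ext l
  simp only [aptL, mem_ofPred_eq, mem_empty_iff_false, iff_false, not_and, not_lt, apt_h_zero]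
  intro _
  linarith [l.2.2.2]

theorem aptL_eq (B : Branch m) (c : Fin 4) {x y : Hyp ℂ}
    (h : dist x y < arsinh |B.f c (aptI m y)|) : aptL B c x = aptL B c y := by
  ext l
  refine and_congr_right fun hc => ?_
  have hS : l.1.2 ∈ B.S c := hc ▸ l.2.2.1
  have h1 := arsinh_lor_lip (B.unit c _ hS) (aptI m x) (aptI m y)
  rw [aptI_dist] at h1
  have h2 := arsinh_le_arsinh.2 (apt_f_le B c (aptI m y) hS)
  have h3 := abs_lt.1 (h1.trans_lt (h.trans_le h2))
  rw [apt_h_eq, apt_h_eq, ← arsinh_neg_iff, ← arsinh_neg_iff (x := lor (lift (aptI m y)) _)]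
  rcases le_total 0 (lor (lift (aptI m y)) l.1.2) with h4 | h4
  · rw [abs_of_nonneg h4] at h3
    have := arsinh_nonneg_iff.2 h4
    constructor <;> intro h5 <;> linarith [h3.1]
  · rw [abs_of_nonpos h4, arsinh_neg] at h3
    have h6 := abs_nonneg (arsinh (lor (lift (aptI m x)) l.1.2) -
      arsinh (lor (lift (aptI m y)) l.1.2))
    have h7 := h1.trans_lt (h.trans_le h2)
    rw [abs_of_nonpos h4, arsinh_neg] at h7
    constructor <;> intro h5 <;> linarith [h3.2]

theorem aptL_mono (B : Branch m) (c : Fin 4) (x : Hyp ℂ) {t : ℝ} (h0 : 0 ≤ t) (h1 : t ≤ 1) :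
    aptL B c (Hyp.mk (t • x.val)) ⊆ aptL B c x := by
  rintro l ⟨hc, hl⟩
  refine ⟨hc, ?_⟩
  have ha := l.2.2.2
  simp only [Lines.h, Hyp.val_mk, apt_I1_smul, lor, lift, inner_smul_left, norm_smul,
    Real.norm_eq_abs, mul_pow, sq_abs, conj_trivial] at hl ⊢
  set n := ‖I1 m x.val‖ ^ 2 with hn
  have hn0 : 0 ≤ n := by positivity
  set b := ⟪I1 m x.val, l.1.2.2⟫_ℝ
  set a := l.1.2.1
  have h2 : t * √(1 + n) ≤ √(1 + t ^ 2 * n) := by
    refine Real.le_sqrt_of_sq_le ?_
    rw [mul_pow, Real.sq_sqrt (by positivity)]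
    nlinarith
  have h3 : 0 < √(1 + t ^ 2 * n) := Real.sqrt_pos.2 (by positivity)
  by_contra hc
  push Not at hc
  have h4 := mul_nonneg h0 hc
  nlinarith

/-- The `2k`-th roots of unity that are not `k`-th roots of unity. -/
noncomputable def aptE (k : ℕ) (j : Fin k) : ℂ :=
  Complex.exp (π * Complex.I / k) * Complex.exp (2 * π * Complex.I / k) ^ (j : ℕ)

theorem aptE_norm (k : ℕ) (j : Fin k) : ‖aptE k j‖ = 1 := by
  have e1 : (π * Complex.I / k : ℂ) = ((π / k : ℝ) : ℂ) * Complex.I := by push_cast; ring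
  have e2 : (2 * π * Complex.I / k : ℂ) = ((2 * π / k : ℝ) : ℂ) * Complex.I := by push_cast; ring
  rw [aptE, norm_mul, norm_pow, e1, e2, Complex.norm_exp_ofReal_mul_I,
    Complex.norm_exp_ofReal_mul_I]
  simp

theorem aptE_pow (k : ℕ) (j : Fin k) : aptE k j ^ k = -1 := by
  have hk : k ≠ 0 := j.pos.ne'
  have hk' : (k : ℂ) ≠ 0 := Nat.cast_ne_zero.2 hk
  rw [aptE, mul_pow, ← pow_mul, mul_comm (j : ℕ) k, pow_mul,
    (Complex.isPrimitiveRoot_exp k hk).pow_eq_one, one_pow, mul_one, ← Complex.exp_nat_mul,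
    mul_div_cancel₀ _ hk', Complex.exp_pi_mul_I]

theorem aptE_inj (k : ℕ) : Function.Injective (aptE k) := by
  intro i j h
  have hk : k ≠ 0 := j.pos.ne'
  exact Fin.ext ((Complex.isPrimitiveRoot_exp k hk).pow_inj i.2 j.2
    (mul_left_cancel₀ (Complex.exp_ne_zero _) h))

/-- The product of the labels of the separating lines. -/
noncomputable def aptZ (B : Branch m) {k : ℕ} (w : Lines B → Fin k) (c : Fin 4) (x : Hyp ℂ) : ℂ :=
  ∏ l ∈ (aptL_finite B c x).toFinset, aptE k (w l)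

theorem aptZ_norm (B : Branch m) {k : ℕ} (w : Lines B → Fin k) (c : Fin 4) (x : Hyp ℂ) :
    ‖aptZ B w c x‖ = 1 := by
  simp [aptZ, norm_prod, aptE_norm]

theorem aptZ_pow (B : Branch m) {k : ℕ} (w : Lines B → Fin k) (c : Fin 4) (x : Hyp ℂ) :
    aptZ B w c x ^ k = (-1) ^ (aptL B c x).ncard := by
  rw [aptZ, ← Finset.prod_pow, Set.ncard_eq_toFinset_card _ (aptL_finite B c x)]
  simp [aptE_pow]

theorem aptZ_congr (B : Branch m) {k : ℕ} (w : Lines B → Fin k) (c : Fin 4) {x y : Hyp ℂ}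
    (h : aptL B c x = aptL B c y) : aptZ B w c x = aptZ B w c y := by
  unfold aptZ
  congr 1
  ext l
  simp [h]

theorem aptZ_congr' (B : Branch m) {k : ℕ} {w w' : Lines B → Fin k} (c : Fin 4) {x : Hyp ℂ}
    (h : ∀ l ∈ aptL B c x, w l = w' l) : aptZ B w c x = aptZ B w' c x :=
  Finset.prod_congr rfl fun l hl => by rw [h l (by simpa using hl)]

theorem aptZ_insert (B : Branch m) {k : ℕ} (w : Lines B → Fin k) (c : Fin 4) {x y : Hyp ℂ}
    {l : Lines B} (hl : l ∉ aptL B c x) (h : aptL B c y = insert l (aptL B c x)) :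
    aptZ B w c y = aptE k (w l) * aptZ B w c x := by
  classical
  have : (aptL_finite B c y).toFinset = insert l (aptL_finite B c x).toFinset := by
    ext l'
    simp [h]
  rw [aptZ, this, Finset.prod_insert (by simpa using hl), aptZ]

/-- The root of the wall function chosen by the labelling. -/
noncomputable def aptR (B : Branch m) {k : ℕ} (w : Lines B → Fin k) (c : Fin 4) (x : Hyp ℂ) : ℂ :=
  ((|B.f c (aptI m x)| : ℝ) : ℂ) * aptZ B w c x

theorem aptR_norm (B : Branch m) {k : ℕ} (w : Lines B → Fin k) (c : Fin 4) (x : Hyp ℂ) :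
    ‖aptR B w c x‖ = |B.f c (aptI m x)| := by
  simp [aptR, aptZ_norm]

theorem aptR_beta (B : Branch m) {k : ℕ} (hk : 1 ≤ k) (w : Lines B → Fin k) {c : Fin 4}
    (hc : c = 0 ∨ c = 2) (x : Hyp ℂ) : beta k (aptR B w c x) = (B.f c (aptI m x) : ℝ) := by
  rw [beta, aptR_norm, aptR, mul_pow, aptZ_pow]
  have h := B.f_sign c hc (aptI m x)
  rw [aptL_ncard B hc] at h
  set r := |B.f c (aptI m x)| with hr
  rw [h]
  obtain ⟨j, rfl⟩ : ∃ j, k = j + 1 := ⟨k - 1, by omega⟩
  rcases eq_or_ne r 0 with h0 | h0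
  · simp [h0]
  · have : (r : ℂ) ≠ 0 := Complex.ofReal_ne_zero.2 h0
    simp only [add_tsub_cancel_right]
    push_cast
    field_simp
    ring

theorem aptR_cont (B : Branch m) {k : ℕ} (w : Lines B → Fin k) (c : Fin 4) :
    Continuous (aptR B w c) := by
  have hf : Continuous fun x : Hyp ℂ => |B.f c (aptI m x)| :=
    ((B.f_cont c).comp aptI_isometry.continuous).abs
  refine continuous_iff_continuousAt.2 fun y => ?_
  rcases (abs_nonneg (B.f c (aptI m y))).eq_or_lt with h | h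
  · have h0 : aptR B w c y = 0 := by rw [← norm_eq_zero, aptR_norm, h]
    rw [ContinuousAt, h0, tendsto_zero_iff_norm_tendsto_zero]
    simp only [aptR_norm]
    rw [h]
    exact hf.tendsto y
  · have h1 : ∀ᶠ x in 𝓝 y, ((|B.f c (aptI m x)| : ℝ) : ℂ) * aptZ B w c y = aptR B w c x := by
      filter_upwards [Metric.ball_mem_nhds y (arsinh_pos_iff.2 h)] with x hx
      rw [aptR, aptZ_congr B w c (aptL_eq B c hx)]
    refine ContinuousAt.congr ?_ h1
    exact ((Complex.continuous_ofReal.comp hf).mul continuous_const).continuousAt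

theorem apt_f_one (B : Branch m) (x : Hyp ℂ) : B.f 1 (aptI m x) = 0 := by
  have h : lor (lift (aptI m x)) ((0 : ℝ), EuclideanSpace.single 2 (1 : ℝ)) = 0 := by
    have e : 2 % (m + 4) = 2 := Nat.mod_eq_of_lt (by omega)
    simp [lor, lift, aptI, I1, EuclideanSpace.inner_single_right, Fin.ext_iff, e]
  have := B.f_abs 1 _ _ B.w1 (by rw [h]; norm_num)
  rw [h] at this
  simpa using this

theorem apt_f_three (B : Branch m) (x : Hyp ℂ) : B.f 3 (aptI m x) = 0 := by
  have h : lor (lift (aptI m x)) ((0 : ℝ), EuclideanSpace.single 3 (1 : ℝ)) = 0 := by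
    have e : 3 % (m + 4) = 3 := Nat.mod_eq_of_lt (by omega)
    simp [lor, lift, aptI, I1, EuclideanSpace.inner_single_right, Fin.ext_iff, e]
  have := B.f_abs 3 _ _ B.w3 (by rw [h]; norm_num)
  rw [h] at this
  simpa using this

/-- The section of the branched cover over the plane. -/
noncomputable def aptS (D : Setup m) {k : ℕ} (hk : 1 ≤ k) (w : Lines D.toBranch → Fin k)
    (x : Hyp ℂ) : BM D k :=
  ⟨(D.q (aptI m x), aptR D.toBranch w 0 x, aptR D.toBranch w 2 x), by
    rw [aptR_beta _ hk w (Or.inl rfl), D.F1_q, apt_f_one]; rfl, by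
    rw [aptR_beta _ hk w (Or.inr rfl), D.F2_q, apt_f_three]; rfl⟩

theorem apt_q_lip (D : Setup m) : LipschitzWith 1 D.q :=
  LipschitzWith.of_dist_le_mul fun x y => by simpa using D.q_lip x y

theorem aptS_cont (D : Setup m) {k : ℕ} (hk : 1 ≤ k) (w : Lines D.toBranch → Fin k) :
    Continuous (aptS D hk w) :=
  Continuous.subtype_mk (((apt_q_lip D).continuous.comp aptI_isometry.continuous).prodMk
    ((aptR_cont _ w 0).prodMk (aptR_cont _ w 2))) _

theorem aptS_congr (D : Setup m) {k : ℕ} (hk : 1 ≤ k) {w w' : Lines D.toBranch → Fin k}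
    {x : Hyp ℂ} (h : ∀ c, ∀ l ∈ aptL D.toBranch c x, w l = w' l) :
    aptS D hk w x = aptS D hk w' x := by
  refine Subtype.ext (Prod.ext rfl (Prod.ext ?_ ?_))
  · change aptR _ w 0 x = aptR _ w' 0 x
    rw [aptR, aptR, aptZ_congr' _ 0 (h 0)]
  · change aptR _ w 2 x = aptR _ w' 2 x
    rw [aptR, aptR, aptZ_congr' _ 2 (h 2)]

end Pool.Agent.MP_39b1da_gt
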