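import Pool.Agent.MP_39b1da_gt.Defs

/-!
Working definitions: the comparison inequality, the hyperboloid model, the Lorentz group, the
branched models, wall systems and the branched cover.
-/

set_option autoImplicit false
set_option linter.unusedSectionVars false

namespace Pool.Agent.MP_39b1da_gt

open Filter Topology Set Real
open scoped ENNReal NNReal ContDiff InnerProductSpace

section Metric

/-- `x` lies between `y` and `z`. -/
def Btw {X : Type} [MetricSpace X] (y x z : X) : Prop := dist y x + dist x z = dist y z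

/-- Every intermediate distance from `y` is realised by a point between `y` and `z`. -/
def HasBtw {X : Type} [MetricSpace X] (y z : X) : Prop :=
  ∀ s : ℝ, 0 ≤ s → s ≤ dist y z → ∃ x, dist y x = s ∧ Btw y x z

/-- The curvature `-1` comparison inequality for a point `x` between `y` and `z`, seen from `p`. -/
def KIneq {X : Type} [MetricSpace X] (p y x z : X) : Prop :=
  sinh (dist y z) * cosh (dist p x) ≤
    sinh (dist x z) * cosh (dist p y) + sinh (dist y x) * cosh (dist p z)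

/-- Curvature at most `-1` at scale `ε`. -/
structure LocK (X : Type) [MetricSpace X] (ε : ℝ) : Prop where
  pos : 0 < ε
  btw : ∀ y z : X, dist y z < ε → HasBtw y z
  k : ∀ p y x z : X, dist p y < ε → dist p z < ε → Btw y x z → KIneq p y x z

/-- Curvature at most `-1` in the large. -/
structure GlobK (X : Type) [MetricSpace X] : Prop where
  btw : ∀ y z : X, HasBtw y z
  k : ∀ p y x z : X, Btw y x z → KIneq p y x z

/-- Unique geodesics that depend continuously on an end point. -/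
structure UGeo (X : Type) [MetricSpace X] (ε : ℝ) : Prop where
  pos : 0 < ε
  btw : ∀ y z : X, HasBtw y z
  uniq : ∀ y x x' z : X, Btw y x z → Btw y x' z → dist y x = dist y x' → x = x'
  close : ∀ (p y z y' z' : X) (t : ℝ), dist y z < ε → Btw p y' y → Btw p z' z →
    dist p y' = t * dist p y → dist p z' = t * dist p z → 0 ≤ t → t ≤ 1 → dist y' z' ≤ dist y z

/-- Length space. -/
def IsLen (X : Type) [PseudoEMetricSpace X] : Prop :=
  ∀ (x y : X) (r : ℝ≥0∞), edist x y < r → ∃ a : Path x y, eVariationOn a univ < r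

/-- `p` maps every ball of radius `ε` isometrically onto the ball of radius `ε`. -/
def BallIso {A B : Type} [MetricSpace A] [MetricSpace B] (p : A → B) (ε : ℝ) : Prop :=
  0 < ε ∧ ∀ a : A, (∀ a' ∈ Metric.ball a ε, ∀ a'' ∈ Metric.ball a ε,
    dist (p a') (p a'') = dist a' a'') ∧ Metric.ball (p a) ε ⊆ p '' Metric.ball a ε

/-- The length distance on the universal cover, lengths being measured through `f`. -/
noncomputable def ulen {M S : Type} [TopologicalSpace M] [PseudoEMetricSpace S] (f : M → S)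
    {m₀ : M} (x y : UCover M m₀) : ℝ≥0∞ :=
  ⨅ (a : Path x.1 y.1) (_ : x.2.trans (Path.Homotopic.Quotient.mk a) = y.2),
    eVariationOn (f ∘ a) univ

theorem udist_eq {M : Type} [PseudoEMetricSpace M] {m₀ : M} (x y : UCover M m₀) :
    udist x y = (ulen id x y).toReal := rfl

/-- A pseudo-distance in which any two points are joined by an almost optimal chain. -/
structure CoarseLen {X : Type} (d : X → X → ℝ) : Prop where
  self : ∀ x, d x x = 0
  symm : ∀ x y, d x y = d y x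
  tri : ∀ x y z, d x z ≤ d x y + d y z
  chain : ∀ x y, ∃ (N : ℕ) (p : ℕ → X), p 0 = x ∧ p N = y ∧ (∀ i < N, d (p i) (p (i + 1)) ≤ 1) ∧
    (N : ℝ) ≤ d x y + 2

/-- A unit speed geodesic ray from `o`. -/
def IsRay {X : Type} [MetricSpace X] (o : X) (c : ℝ → X) : Prop :=
  c 0 = o ∧ ∀ s t : ℝ, 0 ≤ s → 0 ≤ t → dist (c s) (c t) = |s - t|

/-- The visual quasi-distance of two rays. -/
noncomputable def qr {X : Type} [MetricSpace X] (c c' : ℝ → X) : ℝ :=
  sSup {r | ∃ s : ℝ, 0 < s ∧ r = sinh (dist (c s) (c' s) / 2) / sinh s}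

/-- The regularity hypothesis of the Pansu-Bourdon argument, with exponent `s`. -/
def Regular {Ω : Type} [MeasurableSpace Ω] (μ : MeasureTheory.Measure Ω)
    (q : Ω × ℝ → Ω × ℝ → ℝ) (s : ℝ) : Prop :=
  ∀ K : ℝ, ∃ C : ℝ≥0, ∀ a : Ω × ℝ, a.2 ∈ Icc (0 : ℝ) 1 → ∀ r : ℝ, 0 < r → r ≤ 1 →
    ∃ (A : Set Ω) (R : Set (Ω × ℝ)), MeasurableSet A ∧ MeasurableSet R ∧
      (∀ b : Ω × ℝ, b.2 ∈ Icc (0 : ℝ) 1 → q a b ≤ K * r → b.1 ∈ A) ∧
      (∀ b ∈ R, b.2 ∈ Icc (0 : ℝ) 1 ∧ q a b ≤ r) ∧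
      μ A ^ s ≤ C * (μ.prod MeasureTheory.volume) R

end Metric

section Hyperboloid

variable {E : Type} [NormedAddCommGroup E] [InnerProductSpace ℝ E]

/-- The Lorentz form. -/
noncomputable def lor (v w : ℝ × E) : ℝ := -(v.1 * w.1) + ⟪v.2, w.2⟫_ℝ

/-- Hyperbolic space, parametrised by the spatial projection of the upper sheet. -/
def Hyp (E : Type) : Type := E

/-- The point with the given spatial coordinates. -/
def Hyp.mk (x : E) : Hyp E := x

/-- The spatial coordinates. -/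
def Hyp.val (x : Hyp E) : E := x

omit [NormedAddCommGroup E] [InnerProductSpace ℝ E] in
@[simp] theorem Hyp.val_mk (x : E) : (Hyp.mk x).val = x := rfl

omit [NormedAddCommGroup E] [InnerProductSpace ℝ E] in
@[simp] theorem Hyp.mk_val (x : Hyp E) : Hyp.mk x.val = x := rfl

/-- The point of the upper sheet. -/
noncomputable def lift (x : Hyp E) : ℝ × E := (√(1 + ‖x.val‖ ^ 2), x.val)

theorem lor_comm (v w : ℝ × E) : lor v w = lor w v := by
  simp [lor, real_inner_comm, mul_comm]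

theorem lor_add_left (u v w : ℝ × E) : lor (u + v) w = lor u w + lor v w := by
  simp [lor, inner_add_left]; ring

theorem lor_smul_left (t : ℝ) (v w : ℝ × E) : lor (t • v) w = t * lor v w := by
  simp [lor, inner_smul_left]; ring

theorem lor_add_right (u v w : ℝ × E) : lor u (v + w) = lor u v + lor u w := by
  simp [lor, inner_add_right]; ring

theorem lor_smul_right (t : ℝ) (v w : ℝ × E) : lor v (t • w) = t * lor v w := by
  simp [lor, inner_smul_right]; ring

theorem lor_neg_left (v w : ℝ × E) : lor (-v) w = -lor v w := by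
  simp [lor]; ring

theorem lor_neg_right (v w : ℝ × E) : lor v (-w) = -lor v w := by
  simp [lor]; ring

theorem lor_sub_left (u v w : ℝ × E) : lor (u - v) w = lor u w - lor v w := by
  simp [lor, inner_sub_left]; ring

theorem lor_sub_right (u v w : ℝ × E) : lor u (v - w) = lor u v - lor u w := by
  simp [lor, inner_sub_right]; ring

theorem lift_fst_sq (x : Hyp E) : (lift x).1 ^ 2 = 1 + ‖x.val‖ ^ 2 :=
  Real.sq_sqrt (by positivity)

theorem one_le_lift_fst (x : Hyp E) : 1 ≤ (lift x).1 :=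
  Real.one_le_sqrt.2 (by nlinarith [sq_nonneg ‖x.val‖])

theorem lor_lift_self (x : Hyp E) : lor (lift x) (lift x) = -1 := by
  have := lift_fst_sq x
  have h2 : (lift x).2 = x.val := rfl
  simp only [lor, h2, real_inner_self_eq_norm_sq]; nlinarith

theorem lift_eq {v : ℝ × E} (h : lor v v = -1) (h0 : 0 < v.1) : lift (Hyp.mk v.2) = v := by
  refine Prod.ext ?_ rfl
  have : 1 + ‖v.2‖ ^ 2 = v.1 ^ 2 := by
    simp only [lor, real_inner_self_eq_norm_sq] at h; nlinarith
  simp only [lift, Hyp.val_mk, this, Real.sqrt_sq h0.le]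

theorem lor_self_nonneg {y u : ℝ × E} (hy : lor y y = -1) (h : lor u y = 0) : 0 ≤ lor u u := by
  simp only [lor, real_inner_self_eq_norm_sq] at *
  have h1 : ⟪u.2, y.2⟫_ℝ ^ 2 ≤ (‖u.2‖ * ‖y.2‖) ^ 2 :=
    sq_le_sq' (by have := abs_le.1 (abs_real_inner_le_norm u.2 y.2); linarith)
      (real_inner_le_norm _ _)
  have h2 : ⟪u.2, y.2⟫_ℝ = u.1 * y.1 := by linarith
  rw [h2] at h1
  have h3 : y.1 ^ 2 = 1 + ‖y.2‖ ^ 2 := by nlinarith
  have h4 : u.1 ^ 2 * (1 + ‖y.2‖ ^ 2) ≤ ‖u.2‖ ^ 2 * ‖y.2‖ ^ 2 := by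
    rw [← h3]; nlinarith
  by_contra hc
  have h5 : ‖u.2‖ ^ 2 < u.1 ^ 2 := by nlinarith
  nlinarith [sq_nonneg ‖y.2‖, sq_nonneg ‖u.2‖]

theorem lor_cs {y u w : ℝ × E} (hy : lor y y = -1) (hu : lor u y = 0) (hw : lor w y = 0) :
    lor u w ^ 2 ≤ lor u u * lor w w := by
  have h : ∀ t : ℝ, 0 ≤ lor u u * (t * t) + 2 * lor u w * t + lor w w := by
    intro t
    have := lor_self_nonneg (u := t • u + w) hy (by rw [lor_add_left, lor_smul_left, hu, hw]; ring)
    simp only [lor_add_left, lor_add_right, lor_smul_left, lor_smul_right, lor_comm w u] at this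
    linarith
  have := discrim_le_zero h
  simp only [discrim] at this
  nlinarith

theorem one_le_lor (x y : Hyp E) : 1 ≤ -lor (lift x) (lift y) := by
  have hx := lift_fst_sq x
  have hy := lift_fst_sq y
  have hx1 := one_le_lift_fst x
  have hy1 := one_le_lift_fst y
  have h1 : ⟪x.val, y.val⟫_ℝ ≤ ‖x.val‖ * ‖y.val‖ := real_inner_le_norm _ _
  have h2 : 1 + ‖x.val‖ * ‖y.val‖ ≤ (lift x).1 * (lift y).1 := by
    refine abs_le_of_sq_le_sq' ?_ (by positivity) |>.2
    rw [mul_pow, hx, hy]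
    nlinarith [sq_nonneg (‖x.val‖ - ‖y.val‖)]
  have h3 : lor (lift x) (lift y) = -((lift x).1 * (lift y).1) + ⟪x.val, y.val⟫_ℝ := rfl
  linarith

theorem lor_tri (x y z : Hyp E) : arcosh (-lor (lift x) (lift z)) ≤
    arcosh (-lor (lift x) (lift y)) + arcosh (-lor (lift y) (lift z)) := by
  have ha := one_le_lor x y
  have hb := one_le_lor y z
  have hc := one_le_lor x z
  have hY := lor_lift_self y
  have key := lor_cs (u := lift x + lor (lift x) (lift y) • lift y)
    (w := lift z + lor (lift y) (lift z) • lift y) hY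
    (by rw [lor_add_left, lor_smul_left, hY]; ring)
    (by rw [lor_add_left, lor_smul_left, hY, lor_comm]; ring)
  simp only [lor_add_left, lor_add_right, lor_smul_left, lor_smul_right, hY, lor_lift_self,
    lor_comm (lift y) (lift x), lor_comm (lift z) (lift y)] at key
  set a := -lor (lift x) (lift y) with ha'
  set b := -lor (lift y) (lift z) with hb'
  set c := -lor (lift x) (lift z) with hc'
  have e1 : lor (lift x) (lift y) = -a := by simp [ha']
  have e2 : lor (lift y) (lift z) = -b := by simp [hb']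
  have e3 : lor (lift x) (lift z) = -c := by simp [hc']
  rw [e1, e2, e3] at key
  have h1 : (c - a * b) ^ 2 ≤ (√(a ^ 2 - 1) * √(b ^ 2 - 1)) ^ 2 := by
    rw [mul_pow, Real.sq_sqrt (by nlinarith), Real.sq_sqrt (by nlinarith)]
    nlinarith
  have h2 := (abs_le_of_sq_le_sq' h1 (by positivity)).2
  have h3 : c ≤ cosh (arcosh a + arcosh b) := by
    rw [cosh_add, cosh_arcosh ha, cosh_arcosh hb, sinh_arcosh ha, sinh_arcosh hb]; linarith
  have h4 := add_nonneg (arcosh_nonneg ha) (arcosh_nonneg hb)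
  rw [← arcosh_cosh h4, arcosh_le_arcosh (by linarith) (cosh_pos _)]
  exact h3

theorem norm_sub_sq_eq (x y : Hyp E) : ‖x.val - y.val‖ ^ 2 =
    ((lift x).1 - (lift y).1) ^ 2 + 2 * (-lor (lift x) (lift y) - 1) := by
  have hx := lift_fst_sq x
  have hy := lift_fst_sq y
  have h3 : lor (lift x) (lift y) = -((lift x).1 * (lift y).1) + ⟪x.val, y.val⟫_ℝ := rfl
  rw [norm_sub_sq_real, h3]; nlinarith

/-- The hyperbolic metric, before its topology is identified. -/
@[reducible] noncomputable def hypAux : MetricSpace (Hyp E) where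
  dist x y := arcosh (-lor (lift x) (lift y))
  dist_self x := by simp [lor_lift_self]
  dist_comm x y := by rw [lor_comm]
  dist_triangle := lor_tri
  eq_of_dist_eq_zero := by
    intro x y h
    have h1 : -lor (lift x) (lift y) = 1 := (arcosh_eq_zero_iff (one_le_lor x y)).1 h
    have h2 := lor_tri (Hyp.mk 0) x y
    have h3 := lor_tri (Hyp.mk 0) y x
    rw [lor_comm (lift y) (lift x)] at h3
    rw [h1, arcosh_zero, add_zero] at h2 h3
    have h4 : ∀ z : Hyp E, -lor (lift (Hyp.mk 0)) (lift z) = (lift z).1 := by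
      intro z; simp [lor, lift]
    rw [h4, h4] at h2 h3
    have h5 : (lift x).1 = (lift y).1 :=
      arcosh_injOn (one_le_lift_fst x) (one_le_lift_fst y) (le_antisymm h3 h2)
    have h6 := norm_sub_sq_eq x y
    rw [h1, h5] at h6
    have : x.val - y.val = 0 := by simpa using h6
    exact (sub_eq_zero.1 this : x.val = y.val)

theorem hypAux_top : (inferInstance : TopologicalSpace E) =
    (hypAux (E := E)).toUniformSpace.toTopologicalSpace := by
  let _ := hypAux (E := E)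
  have hd : ∀ x y : Hyp E, cosh (dist x y) = -lor (lift x) (lift y) := fun x y =>
    cosh_arcosh (one_le_lor x y)
  have c1 : Continuous (Hyp.mk : E → Hyp E) := by
    refine continuous_iff_continuousAt.2 fun x => tendsto_iff_dist_tendsto_zero.2 ?_
    have : Continuous fun y : E => arcosh (-lor (lift (Hyp.mk y)) (lift (Hyp.mk x))) := by
      refine continuousOn_arcosh.comp_continuous ?_ fun y => one_le_lor _ _
      simp only [lor, lift, Hyp.val_mk]
      fun_prop
    have h2 := this.tendsto x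
    rw [lor_lift_self, neg_neg, arcosh_zero] at h2
    exact h2
  have c2 : Continuous (Hyp.val : Hyp E → E) := by
    refine continuous_iff_continuousAt.2 fun x => tendsto_iff_norm_sub_tendsto_zero.2 ?_
    have h4 : ∀ z : Hyp E, (lift z).1 = cosh (dist (Hyp.mk 0) z) := by
      intro z; rw [hd]; simp [lor, lift]
    have h5 : ∀ y : Hyp E, ‖y.val - x.val‖ = √((cosh (dist (Hyp.mk 0) y) -
        cosh (dist (Hyp.mk 0) x)) ^ 2 + 2 * (cosh (dist y x) - 1)) := by
      intro y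
      rw [← h4, ← h4, hd, ← norm_sub_sq_eq, Real.sqrt_sq (norm_nonneg _)]
    simp only [h5]
    have : Continuous fun y : Hyp E => √((cosh (dist (Hyp.mk 0) y) -
        cosh (dist (Hyp.mk 0) x)) ^ 2 + 2 * (cosh (dist y x) - 1)) := by fun_prop
    simpa using this.tendsto x
  exact le_antisymm (continuous_id_iff_le.1 c1) (continuous_id_iff_le.1 c2)

noncomputable instance hypMetric : MetricSpace (Hyp E) :=
  @MetricSpace.replaceTopology (Hyp E) (inferInstance : TopologicalSpace E) hypAux hypAux_top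

theorem cosh_dist (x y : Hyp E) : cosh (dist x y) = -lor (lift x) (lift y) :=
  cosh_arcosh (one_le_lor x y)

@[fun_prop] theorem continuous_mk : Continuous (Hyp.mk : E → Hyp E) := continuous_id

@[fun_prop] theorem continuous_val : Continuous (Hyp.val : Hyp E → E) := continuous_id

@[fun_prop] theorem continuous_lift : Continuous (lift : Hyp E → ℝ × E) := by
  unfold lift; fun_prop

/-- The orthochronous Lorentz group. -/
def Lor (E : Type) [NormedAddCommGroup E] [InnerProductSpace ℝ E] :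
    Subgroup ((ℝ × E) ≃L[ℝ] (ℝ × E)) where
  carrier := {g | (∀ v w, lor (g v) (g w) = lor v w) ∧
    ∀ v, lor v v = -1 → 0 < v.1 → 0 < (g v).1}
  one_mem' := ⟨fun _ _ => rfl, fun _ _ h => h⟩
  mul_mem' := by
    rintro g h ⟨g1, g2⟩ ⟨h1, h2⟩
    exact ⟨fun v w => (g1 (h v) (h w)).trans (h1 v w),
      fun v hv h0 => g2 (h v) ((h1 v v).trans hv) (h2 v hv h0)⟩
  inv_mem' := by
    rintro g ⟨g1, g2⟩
    have e : ∀ v, g (g⁻¹ v) = v := fun v => g.apply_symm_apply v
    have h1 : ∀ v w, lor (g⁻¹ v) (g⁻¹ w) = lor v w := fun v w => by rw [← g1, e, e]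
    refine ⟨h1, fun v hv h0 => ?_⟩
    have h2 : lor (g⁻¹ v) (g⁻¹ v) = -1 := (h1 v v).trans hv
    rcases lt_trichotomy (g⁻¹ v).1 0 with h | h | h
    · have := g2 (-g⁻¹ v) (by rw [lor_neg_left, lor_neg_right, h2]; ring) (by simpa using h)
      rw [map_neg, e] at this
      simp at this; linarith
    · simp only [lor, h, real_inner_self_eq_norm_sq] at h2
      nlinarith [sq_nonneg ‖(g⁻¹ v).2‖]
    · exact h

theorem lift_act (g : Lor E) (x : Hyp E) : lift (Hyp.mk (g.1 (lift x)).2) = g.1 (lift x) :=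
  lift_eq ((g.2.1 _ _).trans (lor_lift_self x))
    (g.2.2 _ (lor_lift_self x) (by linarith [one_le_lift_fst x]))

noncomputable instance lorAction : MulAction (Lor E) (Hyp E) where
  smul g x := Hyp.mk (g.1 (lift x)).2
  one_smul _ := rfl
  mul_smul g h x := by
    change Hyp.mk (g.1 (h.1 (lift x))).2 = Hyp.mk (g.1 (lift (Hyp.mk (h.1 (lift x)).2))).2
    rw [lift_act]

theorem lift_smul (g : Lor E) (x : Hyp E) : lift (g • x) = g.1 (lift x) := lift_act g x

theorem val_smul (g : Lor E) (x : Hyp E) : (g • x).val = (g.1 (lift x)).2 := rfl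

theorem dist_smul_lor (g : Lor E) (x y : Hyp E) : dist (g • x) (g • y) = dist x y := by
  change arcosh (-lor (lift (g • x)) (lift (g • y))) = arcosh (-lor (lift x) (lift y))
  rw [lift_smul, lift_smul, g.2.1]

instance : IsIsometricSMul (Lor E) (Hyp E) :=
  ⟨fun g => Isometry.of_dist_eq (dist_smul_lor g)⟩

/-- The hyperbolic metric tensor in spatial coordinates. -/
noncomputable def Gh (x u v : E) : ℝ := ⟪u, v⟫_ℝ - ⟪x, u⟫_ℝ * ⟪x, v⟫_ℝ / (1 + ‖x‖ ^ 2)

/-- Polar coordinates in the hyperbolic plane. -/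
noncomputable def pol (a θ : ℝ) : Hyp ℂ := Hyp.mk ((sinh a : ℝ) * Complex.exp (θ * Complex.I))

end Hyperboloid

section Model

/-- The model vector space, of dimension `m + 4`. -/
abbrev Euc (m : ℕ) : Type := EuclideanSpace ℝ (Fin (m + 4))

variable {m : ℕ}

/-- The first complex coordinate. -/
noncomputable def Z1 (x : Euc m) : ℂ := ⟨x 0, x 1⟩

/-- The second complex coordinate. -/
noncomputable def Z2 (x : Euc m) : ℂ := ⟨x 2, x 3⟩

/-- The first coordinate plane. -/
noncomputable def I1 (m : ℕ) (w : ℂ) : Euc m :=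
  EuclideanSpace.single 0 w.re + EuclideanSpace.single 1 w.im

/-- The second coordinate plane. -/
noncomputable def I2 (m : ℕ) (w : ℂ) : Euc m :=
  EuclideanSpace.single 2 w.re + EuclideanSpace.single 3 w.im

/-- The `k`-fold branched covering of the plane that keeps the modulus. -/
noncomputable def beta (k : ℕ) (z : ℂ) : ℂ := z ^ k / (‖z‖ : ℂ) ^ (k - 1)

/-- The branched covering of the model. -/
noncomputable def pr (k₁ k₂ : ℕ) (x : Euc m) : Euc m :=
  x + I1 m (beta k₁ (Z1 x) - Z1 x) + I2 m (beta k₂ (Z2 x) - Z2 x)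

/-- The angular form `x₀ dx₁ - x₁ dx₀`. -/
noncomputable def om1 (x u : Euc m) : ℝ := x 0 * u 1 - x 1 * u 0

/-- The angular form `x₂ dx₃ - x₃ dx₂`. -/
noncomputable def om2 (x u : Euc m) : ℝ := x 2 * u 3 - x 3 * u 2

/-- The smoothed model metric tensor. -/
noncomputable def Gm (l₁ l₂ : ℝ → ℝ) (x u v : Euc m) : ℝ :=
  Gh x u v + l₁ (x 0 ^ 2 + x 1 ^ 2) * (om1 x u * om1 x v) +
    l₂ (x 2 ^ 2 + x 3 ^ 2) * (om2 x u * om2 x v)

/-- Admissible warping corrections. -/
structure Adm (l : ℝ → ℝ) : Prop where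
  smooth : ∀ t, 0 ≤ t → ContDiffAt ℝ ∞ l t
  nonneg : ∀ t, 0 ≤ t → 0 ≤ l t
  p_nonneg : ∀ t, 0 ≤ t → 0 ≤ 2 * l t + t * deriv l t
  q_ge : ∀ t, 0 ≤ t → 0 ≤ t * (2 * l t + t * deriv l t) * (1 + t * l t) +
    (1 + t) * (3 * (1 + t * l t) * (l t + t * deriv l t) +
      2 * t * (1 + t * l t) * (2 * deriv l t + t * deriv (deriv l) t) -
      t * (l t + t * deriv l t) ^ 2)

/-- The lattice vector with coordinates `a i + b i φ`, for the form `-φ x₀² + Σ xᵢ²`. -/
noncomputable def lat (a b : Fin (m + 4 + 1) → ℤ) : ℝ × Euc m :=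
  (√goldenRatio * (a 0 + b 0 * goldenRatio),
    WithLp.toLp 2 fun i => (a i.succ : ℝ) + b i.succ * goldenRatio)

/-- `g` is congruent to the identity modulo `4` on the lattice. -/
def Cong4 (g : Lor (Euc m)) : Prop :=
  ∀ a b : Fin (m + 4 + 1) → ℤ, ∃ a' b' : Fin (m + 4 + 1) → ℤ,
    g.1 (lat a b) = lat (a + 4 • a') (b + 4 • b')

/-- The principal congruence subgroup of level `4`. -/
def Gam4 (m : ℕ) : Subgroup (Lor (Euc m)) where
  carrier := {g | Cong4 g ∧ Cong4 g⁻¹}
  one_mem' := by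
    have : Cong4 (1 : Lor (Euc m)) := fun a b =>
      ⟨0, 0, by simp only [smul_zero, add_zero]; rfl⟩
    exact ⟨this, by rwa [inv_one]⟩
  mul_mem' := by
    have key : ∀ g h : Lor (Euc m), Cong4 g → Cong4 h → Cong4 (g * h) := by
      intro g h hg hh a b
      obtain ⟨a', b', e1⟩ := hh a b
      obtain ⟨a'', b'', e2⟩ := hg (a + 4 • a') (b + 4 • b')
      refine ⟨a' + a'', b' + b'', ?_⟩
      change g.1 (h.1 (lat a b)) = _
      rw [e1, e2, smul_add, smul_add, add_assoc a, add_assoc b]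
    rintro g h ⟨g1, g2⟩ ⟨h1, h2⟩
    exact ⟨key _ _ g1 h1, by rw [mul_inv_rev]; exact key _ _ h2 g2⟩
  inv_mem' := by
    rintro g ⟨g1, g2⟩
    exact ⟨g2, by rwa [inv_inv]⟩

/-- A free, properly discontinuous and cocompact group of Lorentz transformations. -/
structure IsUnif {E : Type} [NormedAddCommGroup E] [InnerProductSpace ℝ E]
    (Γ : Subgroup (Lor E)) : Prop where
  free : ∀ g ∈ Γ, ∀ x : Hyp E, g • x = x → g = 1
  proper : ∀ (x : Hyp E) (R : ℝ), {g | g ∈ Γ ∧ dist (g • x) x ≤ R}.Finite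
  cocpt : ∃ R : ℝ, ∀ x : Hyp E, ∃ g ∈ Γ, dist (g • x) (Hyp.mk 0) ≤ R

/-- A uniform lattice with four invariant families of walls; colours `0, 2` cut the plane
`I1 ℂ`, which lies in a wall of colour `1` and in a wall of colour `3`. -/
structure Walls (m : ℕ) where
  Γ : Subgroup (Lor (Euc m))
  S : Fin 4 → Set (ℝ × Euc m)
  unif : IsUnif Γ
  unit : ∀ c, ∀ v ∈ S c, lor v v = 1
  neg : ∀ c, ∀ v ∈ S c, -v ∈ S c
  same : ∀ c, ∀ v ∈ S c, ∀ w ∈ S c, w = v ∨ w = -v ∨ 3 / 2 ≤ |lor v w|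
  diff : ∀ c c', c ≠ c' → ∀ v ∈ S c, ∀ w ∈ S c', lor v w = 0 ∨ 3 / 2 ≤ |lor v w|
  fin : ∀ (c) (x : Hyp (Euc m)) (R : ℝ), {v | v ∈ S c ∧ |lor (lift x) v| ≤ R}.Finite
  inv : ∀ g ∈ Γ, ∀ c, ∀ v ∈ S c, g.1 v ∈ S c
  w1 : ((0 : ℝ), EuclideanSpace.single 2 (1 : ℝ)) ∈ S 1
  w3 : ((0 : ℝ), EuclideanSpace.single 3 (1 : ℝ)) ∈ S 3
  gen0 : ∀ c, c = 0 ∨ c = 2 → ∀ v ∈ S c, v.1 ≠ 0
  gen : ∃ x : Hyp (Euc m), ∀ c, ∀ v ∈ S c, lor (lift x) v ≠ 0
  quad : ∃ x : Hyp (Euc m), ∀ c, ∃ v ∈ S c, lor (lift x) v = 0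
  dense : ∃ C : ℝ, ∀ x y : ℂ, C ≤ dist (Hyp.mk (I1 m x)) (Hyp.mk (I1 m y)) →
    ∃ c, (c = 0 ∨ c = 2) ∧ ∃ v ∈ S c,
      0 ≤ lor (lift (Hyp.mk (I1 m x))) v ∧ lor (lift (Hyp.mk (I1 m y))) v < 0

/-- Walls together with invariant signed truncated wall functions. -/
structure Branch (m : ℕ) extends Walls m where
  f : Fin 4 → Hyp (Euc m) → ℝ
  f_cont : ∀ c, Continuous (f c)
  f_inv : ∀ g ∈ Γ, ∀ c x, f c (g • x) = f c x
  f_le : ∀ c x, |f c x| ≤ 1 / 4
  f_near : ∀ c x, |f c x| < 1 / 4 → ∃ v ∈ S c, ∀ᶠ y in 𝓝 x, f c y = lor (lift y) v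
  f_abs : ∀ c x, ∀ v ∈ S c, |lor (lift x) v| ≤ 1 / 4 → |f c x| = |lor (lift x) v|
  f_sign : ∀ c, c = 0 ∨ c = 2 → ∀ x, f c x =
    (-1) ^ {v | v ∈ S c ∧ v.1 < 0 ∧ lor (lift x) v < 0}.ncard * |f c x|
  ufin : ∀ R : ℝ, ∃ N : ℕ, ∀ c x, {v | v ∈ S c ∧ |lor (lift x) v| ≤ R}.ncard ≤ N

/-- The quotient manifold and the two complex functions whose roots are adjoined. -/
structure Setup (m : ℕ) extends Branch m where
  N : Type
  [met : MetricSpace N]
  [cpt : CompactSpace N]
  q : Hyp (Euc m) → N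
  q_surj : Function.Surjective q
  q_eq : ∀ x y, q x = q y ↔ ∃ g ∈ Γ, g • x = y
  q_lip : ∀ x y, dist (q x) (q y) ≤ dist x y
  q_iso : ∃ ε, BallIso q ε
  F1 : N → ℂ
  F2 : N → ℂ
  F1_cont : Continuous F1
  F2_cont : Continuous F2
  F1_q : ∀ x, F1 (q x) = ⟨f 0 x, f 1 x⟩
  F2_q : ∀ x, F2 (q x) = ⟨f 2 x, f 3 x⟩

attribute [instance] Setup.met Setup.cpt

/-- The branched cover. -/
def BM (D : Setup m) (k : ℕ) : Type :=
  {p : D.N × ℂ × ℂ // beta k p.2.1 = D.F1 p.1 ∧ beta k p.2.2 = D.F2 p.1}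

noncomputable instance (D : Setup m) (k : ℕ) : TopologicalSpace (BM D k) :=
  inferInstanceAs (TopologicalSpace
    {p : D.N × ℂ × ℂ // beta k p.2.1 = D.F1 p.1 ∧ beta k p.2.2 = D.F2 p.1})

instance (D : Setup m) (k : ℕ) : T2Space (BM D k) :=
  inferInstanceAs (T2Space
    {p : D.N × ℂ × ℂ // beta k p.2.1 = D.F1 p.1 ∧ beta k p.2.2 = D.F2 p.1})

/-- An adapted chart of the branched cover. -/
structure BChart (D : Setup m) (k : ℕ) where
  e : OpenPartialHomeomorph (BM D k) (Euc m)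
  b1 : Bool
  b2 : Bool
  Φ : Lor (Euc m)
  base : ∀ x ∈ e.target, (e.symm x).1.1 =
    D.q (Φ⁻¹ • Hyp.mk (pr (cond b1 k 1) (cond b2 k 1) x))
  br1 : b1 = true → ∀ x ∈ e.target, (e.symm x).1.2.1 = Z1 x ∧
    ∀ᶠ y in 𝓝 (Hyp.mk (pr (cond b1 k 1) (cond b2 k 1) x)), D.F1 (D.q (Φ⁻¹ • y)) = Z1 y.val
  br2 : b2 = true → ∀ x ∈ e.target, (e.symm x).1.2.2 = Z2 x ∧
    ∀ᶠ y in 𝓝 (Hyp.mk (pr (cond b1 k 1) (cond b2 k 1) x)), D.F2 (D.q (Φ⁻¹ • y)) = Z2 y.val
  un1 : b1 = false → ∀ x ∈ e.target, 1 / 16 < ‖(e.symm x).1.2.1‖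
  un2 : b2 = false → ∀ x ∈ e.target, 1 / 16 < ‖(e.symm x).1.2.2‖

/-- The walls of colour `0` or `2`, oriented positively at the origin. -/
def Lines (B : Branch m) : Type :=
  {p : Fin 4 × (ℝ × Euc m) // (p.1 = 0 ∨ p.1 = 2) ∧ p.2 ∈ B.S p.1 ∧ p.2.1 < 0}

/-- The wall function of a line on the plane. -/
noncomputable def Lines.h {B : Branch m} (l : Lines B) (x : Hyp ℂ) : ℝ :=
  lor (lift (Hyp.mk (I1 m x.val))) l.1.2

/-- A family of isometrically embedded hyperbolic planes through `x₀` branching along lines. -/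
structure Apts (B : Branch m) (k : ℕ) (X : Type) [MetricSpace X] (x₀ : X) where
  σ : (Lines B → Fin k) → Hyp ℂ → X
  base : ∀ w, σ w (Hyp.mk 0) = x₀
  iso : ∀ w x y, dist (σ w x) (σ w y) = dist x y
  agree : ∀ w w' x, (∀ l : Lines B, l.h x < 0 → w l = w' l) → σ w x = σ w' x
  mis : ∃ ε > 0, ∀ w w' (θ θ' T : ℝ), 0 ≤ T →
    (∀ t, 0 ≤ t → t ≤ T → dist (σ w (pol t θ)) (σ w' (pol t θ')) ≤ ε) →
    ∀ l : Lines B, l.h (pol T θ') ≤ -(1 / 8) → w l = w' l

end Model

end Pool.Agent.MP_39b1da_gt
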