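import Pool.Agent.MP_39b1da_gt.Basic

set_option autoImplicit false

namespace Pool.Agent.MP_39b1da_gt

open Filter Topology Set Real
open scoped ENNReal NNReal ContDiff InnerProductSpace

theorem QR_cosh_le {x : ℝ} (hx : 0 ≤ x) : cosh x ≤ 1 + sinh x := by
  have h := cosh_sub_sinh x
  have h2 : exp (-x) ≤ 1 := exp_le_one_iff.2 (by linarith)
  linarith

theorem QR_exp_mul_sinh_le {t u : ℝ} (hu : 0 ≤ u) : exp u * sinh t ≤ sinh (t + u) := by
  rw [sinh_add, ← cosh_add_sinh u]
  have h1 : sinh t ≤ cosh t := (sinh_lt_cosh t).le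
  have h2 : 0 ≤ sinh u := sinh_nonneg_iff.2 hu
  nlinarith

theorem QR_sinh_add_le {a b x : ℝ} (ha : 0 ≤ a) (hb : 0 ≤ b) (h1 : sinh a ≤ x) (h2 : sinh b ≤ x)
    (hx : x ≤ 1) : sinh (a + b) ≤ 4 * x := by
  rw [sinh_add]
  have h3 := QR_cosh_le ha
  have h4 := QR_cosh_le hb
  have h5 : 0 ≤ sinh a := sinh_nonneg_iff.2 ha
  have h6 : 0 ≤ sinh b := sinh_nonneg_iff.2 hb
  have h7 : sinh a * cosh b ≤ x * 2 :=
    mul_le_mul h1 (by linarith) (cosh_pos b).le (by linarith)
  have h8 : cosh a * sinh b ≤ 2 * x :=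
    mul_le_mul (by linarith) h2 h6 (by norm_num)
  linarith

section
variable {X : Type} [MetricSpace X] {o : X} {c c' c'' : ℝ → X}

theorem QR_dist_le (h : IsRay o c) (h' : IsRay o c') {s t : ℝ} (ht : 0 ≤ t) (hts : t ≤ s) :
    dist (c s) (c' s) ≤ dist (c t) (c' t) + 2 * (s - t) := by
  have h1 := h.2 s t (by linarith) ht
  have h2 := h'.2 t s ht (by linarith)
  rw [abs_of_nonneg (by linarith)] at h1
  rw [abs_of_nonpos (by linarith)] at h2
  have := dist_triangle4 (c s) (c t) (c' t) (c' s)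
  linarith

theorem QR_sinh_le (h : IsRay o c) (h' : IsRay o c') {s : ℝ} (hs : 0 < s) :
    sinh (dist (c s) (c' s) / 2) ≤ 1 * sinh s := by
  have h1 := QR_dist_le h h' le_rfl hs.le
  rw [h.1, h'.1, dist_self] at h1
  rw [one_mul]
  exact sinh_le_sinh.2 (by linarith)

theorem qr_ge (h : IsRay o c) (h' : IsRay o c') {s : ℝ} (hs : 0 < s) :
    sinh (dist (c s) (c' s) / 2) ≤ qr c c' * sinh s := by
  have hb : BddAbove {r | ∃ s : ℝ, 0 < s ∧ r = sinh (dist (c s) (c' s) / 2) / sinh s} := by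
    refine ⟨1, ?_⟩
    rintro r ⟨t, ht, rfl⟩
    exact (div_le_iff₀ (sinh_pos_iff.2 ht)).2 (QR_sinh_le h h' ht)
  exact (div_le_iff₀ (sinh_pos_iff.2 hs)).1 (le_csSup hb ⟨s, hs, rfl⟩)

theorem qr_le {r : ℝ} (hr : ∀ s, 0 < s → sinh (dist (c s) (c' s) / 2) ≤ r * sinh s) :
    qr c c' ≤ r := by
  refine csSup_le ⟨_, 1, one_pos, rfl⟩ ?_
  rintro r ⟨t, ht, rfl⟩
  exact (div_le_iff₀ (sinh_pos_iff.2 ht)).2 (hr t ht)

theorem qr_nonneg (h : IsRay o c) (h' : IsRay o c') : 0 ≤ qr c c' := by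
  have h1 := qr_ge h h' one_pos
  have h2 : 0 ≤ sinh (dist (c 1) (c' 1) / 2) := sinh_nonneg_iff.2 (by positivity)
  have h3 : 0 < sinh (1 : ℝ) := sinh_pos_iff.2 one_pos
  exact nonneg_of_mul_nonneg_left (h2.trans h1) h3

theorem qr_le_one (h : IsRay o c) (h' : IsRay o c') : qr c c' ≤ 1 :=
  qr_le fun _ hs => QR_sinh_le h h' hs

theorem qr_self (c : ℝ → X) : qr c c = 0 := by
  have : {r | ∃ s : ℝ, 0 < s ∧ r = sinh (dist (c s) (c s) / 2) / sinh s} = {0} := by
    ext r
    simp only [dist_self, zero_div, sinh_zero, mem_ofPred_eq, mem_singleton_iff]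
    exact ⟨fun ⟨_, _, h⟩ => h, fun h => ⟨1, one_pos, h⟩⟩
  rw [qr, this, csSup_singleton]

theorem qr_comm (c c' : ℝ → X) : qr c c' = qr c' c := by
  simp only [qr, dist_comm]

theorem qr_tri (h : IsRay o c) (h' : IsRay o c') (h'' : IsRay o c'') :
    qr c c'' ≤ 10 * max (qr c c') (qr c' c'') := by
  set r := max (qr c c') (qr c' c'') with hr
  have hr0 : 0 ≤ r := (qr_nonneg h h').trans (le_max_left _ _)
  have key : ∀ s, 0 < s → r * sinh s ≤ 1 →
      sinh (dist (c s) (c'' s) / 2) ≤ 4 * (r * sinh s) := by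
    intro s hs h1
    have hp : 0 ≤ sinh s := (sinh_pos_iff.2 hs).le
    have a1 := (qr_ge h h' hs).trans (mul_le_mul_of_nonneg_right (le_max_left _ (qr c' c'')) hp)
    have a2 := (qr_ge h' h'' hs).trans (mul_le_mul_of_nonneg_right (le_max_right (qr c c') _) hp)
    refine le_trans (sinh_le_sinh.2 ?_)
      (QR_sinh_add_le (by positivity) (by positivity) a1 a2 h1)
    have := dist_triangle (c s) (c' s) (c'' s)
    linarith
  refine qr_le fun s hs => ?_
  have hp : 0 < sinh s := sinh_pos_iff.2 hs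
  by_cases h1 : r * sinh s ≤ 1
  · have := key s hs h1
    have h2 : 0 ≤ r * sinh s := by positivity
    linarith
  · push Not at h1
    have hr1 : 0 < r := by
      rcases hr0.lt_or_eq with h2 | h2
      · exact h2
      · rw [← h2] at h1; linarith
    obtain ⟨T, hT⟩ : ∃ T, sinh T = r⁻¹ := ⟨arsinh r⁻¹, sinh_arsinh _⟩
    have hT0 : 0 < T := sinh_pos_iff.1 (by rw [hT]; positivity)
    have hT1 : r * sinh T = 1 := by rw [hT]; field_simp
    have hTs : T ≤ s := sinh_le_sinh.1 (le_of_mul_le_mul_left (by linarith) hr1)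
    have b1 := key T hT0 hT1.le
    rw [hT1] at b1
    have b2 := QR_dist_le h h'' hT0.le hTs
    set D := dist (c T) (c'' T) / 2 with hD
    have hD0 : 0 ≤ D := by positivity
    have b3 : exp D ≤ 9 := by
      have := QR_cosh_le hD0
      rw [← cosh_add_sinh]; linarith
    have b4 : sinh (dist (c s) (c'' s) / 2) ≤ exp (D + (s - T)) := by
      have e1 : sinh (dist (c s) (c'' s) / 2) ≤ sinh (D + (s - T)) :=
        sinh_le_sinh.2 (by linarith)
      have e2 := cosh_add_sinh (D + (s - T))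
      have e3 := cosh_pos (D + (s - T))
      linarith
    have b5 := QR_exp_mul_sinh_le (t := T) (u := s - T) (by linarith)
    rw [add_sub_cancel] at b5
    have b6 : exp (s - T) ≤ r * sinh s := by
      have := mul_le_mul_of_nonneg_left b5 hr0
      calc exp (s - T) = exp (s - T) * (r * sinh T) := by rw [hT1, mul_one]
        _ = r * (exp (s - T) * sinh T) := by ring
        _ ≤ _ := this
    rw [exp_add] at b4
    have b7 : exp D * exp (s - T) ≤ 9 * (r * sinh s) :=
      mul_le_mul b3 b6 (exp_pos _).le (by norm_num)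
    linarith

theorem qr_le_exp (h : IsRay o c) (h' : IsRay o c') {T : ℝ}
    (e : ∀ t, 0 ≤ t → t ≤ T → c t = c' t) : qr c c' ≤ exp (-T) := by
  rcases le_total T 0 with hT | hT
  · exact (qr_le_one h h').trans (one_le_exp (by linarith))
  refine qr_le fun s hs => ?_
  have hp : 0 < sinh s := sinh_pos_iff.2 hs
  rcases le_total s T with h1 | h1
  · rw [e s hs.le h1, dist_self, zero_div, sinh_zero]
    positivity
  · have b2 := QR_dist_le h h' hT h1
    rw [e T hT le_rfl, dist_self] at b2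
    have b5 := QR_exp_mul_sinh_le (t := s - T) hT
    rw [sub_add_cancel] at b5
    have b6 : sinh (dist (c s) (c' s) / 2) ≤ sinh (s - T) := sinh_le_sinh.2 (by linarith)
    have b7 : exp (-T) * exp T = 1 := by rw [← exp_add]; simp
    calc _ ≤ sinh (s - T) := b6
      _ = exp (-T) * (exp T * sinh (s - T)) := by rw [← mul_assoc, b7, one_mul]
      _ ≤ _ := mul_le_mul_of_nonneg_left b5 (exp_pos _).le

end

end Pool.Agent.MP_39b1da_gt
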