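import Pool.Agent.MP_39b1da_gt.Morse
import Pool.Agent.MP_39b1da_gt.QR

set_option autoImplicit false

namespace Pool.Agent.MP_39b1da_gt

open Filter Topology Set Real
open scoped ENNReal NNReal ContDiff InnerProductSpace

section Ex

/-- The real number `exp (-ε b)`. -/
noncomputable def bdEx (ε : ℝ) (b : EReal) : ℝ := (EReal.exp (-(ε * b))).toReal

variable {ε : ℝ}

theorem bdEx_top (hε : 0 < ε) : bdEx ε ⊤ = 0 := by
  simp [bdEx, EReal.coe_mul_top_of_pos hε]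

theorem bdEx_coe (t : ℝ) : bdEx ε t = exp (-(ε * t)) := by
  rw [bdEx, ← EReal.coe_mul, ← EReal.coe_neg, EReal.exp_coe, ENNReal.toReal_ofReal (exp_pos _).le]

theorem bdEx_nonneg (b : EReal) : 0 ≤ bdEx ε b := ENNReal.toReal_nonneg

theorem bd_cases {b : EReal} (hb : 0 ≤ b) : b = ⊤ ∨ ∃ t : ℝ, 0 ≤ t ∧ b = t := by
  induction b using EReal.rec with
  | bot => simp at hb
  | top => exact Or.inl rfl
  | coe t => exact Or.inr ⟨t, by exact_mod_cast hb, rfl⟩

theorem bdEx_ofReal (hε : 0 < ε) {b : EReal} (hb : 0 ≤ b) :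
    EReal.exp (-(ε * b)) = ENNReal.ofReal (bdEx ε b) := by
  rcases bd_cases hb with rfl | ⟨t, _, rfl⟩
  · simp [bdEx_top hε, EReal.coe_mul_top_of_pos hε]
  · rw [bdEx_coe, ← EReal.coe_mul, ← EReal.coe_neg, EReal.exp_coe]

theorem bdEx_le (hε : 0 < ε) {b : EReal} {r : ℝ} (h : (r : EReal) ≤ b) :
    bdEx ε b ≤ exp (-(ε * r)) := by
  induction b using EReal.rec with
  | bot => simp at h
  | top => rw [bdEx_top hε]; exact (exp_pos _).le
  | coe t =>
    have : r ≤ t := by exact_mod_cast h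
    rw [bdEx_coe]
    exact exp_le_exp.2 (by nlinarith)

theorem bdEx_ge (hε : 0 < ε) {b : EReal} (hb : 0 ≤ b) {r : ℝ} (h : b ≤ (r : EReal)) :
    exp (-(ε * r)) ≤ bdEx ε b := by
  rcases bd_cases hb with rfl | ⟨t, _, rfl⟩
  · simp at h
  · have : t ≤ r := by exact_mod_cast h
    rw [bdEx_coe]
    exact exp_le_exp.2 (by nlinarith)

theorem bdEx_le_one (hε : 0 < ε) {b : EReal} (hb : 0 ≤ b) : bdEx ε b ≤ 1 := by
  simpa using bdEx_le hε (r := 0) (by simpa using hb)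

theorem bdEx_eq_zero {b : EReal} (hb : 0 ≤ b) (h : bdEx ε b = 0) : b = ⊤ := by
  rcases bd_cases hb with rfl | ⟨t, _, rfl⟩
  · rfl
  · rw [bdEx_coe] at h; exact absurd h (exp_pos _).ne'

theorem bdEx_cmp (hε : 0 < ε) {b b' : EReal} (hb : 0 ≤ b) {A : ℝ}
    (h : ∀ r : ℝ, (r : EReal) < b → ((r - A : ℝ) : EReal) ≤ b') :
    bdEx ε b' ≤ exp (ε * A) * bdEx ε b := by
  rcases bd_cases hb with rfl | ⟨t, _, rfl⟩
  · have : b' = ⊤ := (EReal.eq_top_iff_forall_lt _).2 fun y => by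
      have := h (y + 1 + A) (EReal.coe_lt_top _)
      exact lt_of_lt_of_le (by exact_mod_cast (by linarith)) this
    rw [this, bdEx_top hε, mul_zero]
  · have h1 : ((t - A : ℝ) : EReal) ≤ b' := by
      refine EReal.le_of_forall_lt_iff_le.1 fun z hz => ?_
      by_contra hc
      have h2 : z < t - A := by exact_mod_cast not_le.1 hc
      have h3 := h (z + A) (by exact_mod_cast (by linarith))
      rw [add_sub_cancel_right] at h3
      exact absurd hz (not_lt.2 h3)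
    refine (bdEx_le hε h1).trans (le_of_eq ?_)
    rw [bdEx_coe, ← exp_add]; congr 1; ring

end Ex

section Seq

variable {X : Type} {d : X → X → ℝ} {o : X} {C : ℝ}

/-- The Gromov products of two sequences are eventually at least `r`. -/
def BdGe (d : X → X → ℝ) (o : X) (r : ℝ) (x y : ℕ → X) : Prop :=
  ∃ N : ℕ, ∀ i, N ≤ i → ∀ j, N ≤ j → r ≤ gp d o (x i) (y j)

theorem bd_gp_comm (hd : CoarseLen d) (x y : X) : gp d o x y = gp d o y x := by
  simp only [gp, hd.symm x y]; ring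

theorem bd_gp_nonneg (hd : CoarseLen d) (x y : X) : 0 ≤ gp d o x y := by
  have := hd.tri x o y
  simp only [gp, hd.symm x o] at *
  linarith

theorem bd_nonneg (hd : CoarseLen d) (x y : X) : 0 ≤ d x y := by
  have := hd.tri x y x
  rw [hd.self, hd.symm y x] at this
  linarith

theorem BdGe.symm (hd : CoarseLen d) {r : ℝ} {x y : ℕ → X} (h : BdGe d o r x y) :
    BdGe d o r y x := by
  obtain ⟨N, h⟩ := h
  exact ⟨N, fun i hi j hj => bd_gp_comm hd (x j) (y i) ▸ h j hj i hi⟩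

theorem BdGe.trans (h4 : ∀ x y z, min (gp d o x y) (gp d o y z) - C ≤ gp d o x z) {r : ℝ}
    {x y z : ℕ → X} (h : BdGe d o r x y) (h' : BdGe d o r y z) : BdGe d o (r - C) x z := by
  obtain ⟨N, h⟩ := h
  obtain ⟨N', h'⟩ := h'
  refine ⟨max N N', fun i hi j hj => le_trans ?_ (h4 _ (y (max N N')) _)⟩
  have h1 := h i ((le_max_left _ _).trans hi) _ (le_max_left N N')
  have h2 := h' _ (le_max_right N N') j ((le_max_right _ _).trans hj)
  linarith [le_min h1 h2]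

theorem bdGe_iff {r : ℝ} {x y : ℕ → X} :
    BdGe d o r x y ↔ ∀ᶠ p : ℕ × ℕ in atTop, r ≤ gp d o (x p.1) (y p.2) := by
  rw [eventually_atTop]
  constructor
  · rintro ⟨N, h⟩
    exact ⟨(N, N), fun p hp => h _ hp.1 _ hp.2⟩
  · rintro ⟨⟨a, b⟩, h⟩
    exact ⟨max a b, fun i hi j hj => h (i, j) ⟨(le_max_left _ _).trans hi, (le_max_right _ _).trans hj⟩⟩

theorem bdGe_self (x : InfSeq d o) (r : ℝ) : BdGe d o r x.1 x.1 :=
  bdGe_iff.2 (tendsto_atTop.1 x.2 r)

theorem infRel_iff (h4 : ∀ x y z, min (gp d o x y) (gp d o y z) - C ≤ gp d o x z)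
    (x y : InfSeq d o) : InfRel d o x y ↔ ∀ r, BdGe d o r x.1 y.1 := by
  constructor
  · intro h r
    obtain ⟨N, h1⟩ := bdGe_self x (r + C)
    obtain ⟨N', h2⟩ := eventually_atTop.1 (tendsto_atTop.1 h (r + C))
    refine ⟨max N N', fun i hi j hj => le_trans ?_ (h4 _ (x.1 j) _)⟩
    have h3 := h1 i ((le_max_left _ _).trans hi) j ((le_max_left _ _).trans hj)
    have h5 := h2 j ((le_max_right _ _).trans hj)
    linarith [le_min h3 h5]
  · intro h
    refine tendsto_atTop.2 fun r => ?_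
    obtain ⟨N, h1⟩ := h r
    exact eventually_atTop.2 ⟨N, fun i hi => h1 i hi i hi⟩

theorem bd_mk_iff (hd : CoarseLen d) (h4 : ∀ x y z, min (gp d o x y) (gp d o y z) - C ≤ gp d o x z)
    (x y : InfSeq d o) :
    Quot.mk (InfRel d o) x = Quot.mk (InfRel d o) y ↔ ∀ r, BdGe d o r x.1 y.1 := by
  have : Equivalence (InfRel d o) := ⟨fun x => (infRel_iff h4 x x).2 (bdGe_self x),
    fun {x y} h => (infRel_iff h4 _ _).2 fun r => ((infRel_iff h4 _ _).1 h r).symm hd,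
    fun {x y z} h h' => (infRel_iff h4 _ _).2 fun r => by
      simpa using ((infRel_iff h4 _ _).1 h (r + C)).trans h4 ((infRel_iff h4 _ _).1 h' (r + C))⟩
  rw [Quot.eq, this.eqvGen_iff, infRel_iff h4]

theorem le_bgp {r : ℝ} {x y : InfSeq d o} (h : BdGe d o r x.1 y.1) :
    (r : EReal) ≤ bgp d o (Quot.mk _ x) (Quot.mk _ y) := by
  refine le_iSup_of_le x (le_iSup_of_le y (le_iSup_of_le rfl (le_iSup_of_le rfl ?_)))
  exact le_liminf_of_le (by isBoundedDefault) ((bdGe_iff.1 h).mono fun p hp => by exact_mod_cast hp)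

theorem bdGe_of_lt (hd : CoarseLen d) (h4 : ∀ x y z, min (gp d o x y) (gp d o y z) - C ≤ gp d o x z)
    {r : ℝ} {x y : InfSeq d o} (h : (r : EReal) < bgp d o (Quot.mk _ x) (Quot.mk _ y)) :
    BdGe d o (r - 2 * C) x.1 y.1 := by
  simp only [bgp, lt_iSup_iff] at h
  obtain ⟨x', y', hx, hy, h⟩ := h
  have h1 : BdGe d o r x'.1 y'.1 :=
    bdGe_iff.2 ((eventually_lt_of_lt_liminf h).mono fun p hp => by exact_mod_cast hp.le)
  have h2 := ((bd_mk_iff hd h4 _ _).1 hx.symm r).trans h4 h1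
  have h3 := h2.trans h4 ((bd_mk_iff hd h4 _ _).1 hy (r - C))
  rwa [show r - C - C = r - 2 * C by ring] at h3

theorem bgp_nonneg (hd : CoarseLen d) (ξ η : Bdry d o) : 0 ≤ bgp d o ξ η := by
  induction ξ using Quot.ind
  induction η using Quot.ind
  exact le_bgp (r := 0) ⟨0, fun _ _ _ _ => bd_gp_nonneg hd _ _⟩

theorem bgp_comm (hd : CoarseLen d) (ξ η : Bdry d o) : bgp d o ξ η = bgp d o η ξ := by
  have key : ∀ ξ η : Bdry d o, bgp d o ξ η ≤ bgp d o η ξ := fun ξ η => by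
    refine iSup_le fun x => iSup_le fun y => iSup_le fun hx => iSup_le fun hy => ?_
    refine EReal.le_of_forall_lt_iff_le.1 fun z hz => ?_
    by_contra hc
    have h1 : BdGe d o z x.1 y.1 := bdGe_iff.2
      ((eventually_lt_of_lt_liminf (not_le.1 hc)).mono fun p hp => by exact_mod_cast hp.le)
    have h2 := le_bgp (h1.symm hd)
    rw [hx, hy] at h2
    exact absurd hz (not_lt.2 h2)
  exact le_antisymm (key _ _) (key _ _)

theorem bgp_self (ξ : Bdry d o) : bgp d o ξ ξ = ⊤ := by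
  induction ξ using Quot.ind with | mk x =>
  refine (EReal.eq_top_iff_forall_lt _).2 fun y => lt_of_lt_of_le ?_ (le_bgp (bdGe_self x (y + 1)))
  exact_mod_cast lt_add_one y

theorem bd_eq_of_top (hd : CoarseLen d)
    (h4 : ∀ x y z, min (gp d o x y) (gp d o y z) - C ≤ gp d o x z) {ξ η : Bdry d o}
    (h : bgp d o ξ η = ⊤) : ξ = η := by
  induction ξ using Quot.ind with | mk x =>
  induction η using Quot.ind with | mk y =>
  refine (bd_mk_iff hd h4 x y).2 fun r => ?_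
  have := bdGe_of_lt hd h4 (r := r + 2 * C) (x := x) (y := y) (h ▸ EReal.coe_lt_top _)
  rwa [add_sub_cancel_right] at this

theorem bgp_four (hd : CoarseLen d)
    (h4 : ∀ x y z, min (gp d o x y) (gp d o y z) - C ≤ gp d o x z) (a b c e : Bdry d o) (r : ℝ)
    (h : (r : EReal) < min (bgp d o a b) (min (bgp d o b c) (bgp d o c e))) :
    ((r - 4 * C : ℝ) : EReal) ≤ bgp d o a e := by
  induction a using Quot.ind
  induction b using Quot.ind
  induction c using Quot.ind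
  induction e using Quot.ind
  simp only [lt_min_iff] at h
  have hC : 0 ≤ C := by have := h4 o o o; rw [min_self] at this; linarith
  have h1 := (bdGe_of_lt hd h4 h.1).trans h4 (bdGe_of_lt hd h4 h.2.1)
  obtain ⟨N, h2⟩ := bdGe_of_lt hd h4 h.2.2
  have h3 := h1.trans h4 ⟨N, fun i hi j hj => le_trans (by linarith) (h2 i hi j hj)⟩
  rw [show r - 2 * C - C - C = r - 4 * C by ring] at h3
  exact le_bgp h3

end Seq

theorem exists_visual {X : Type} {d : X → X → ℝ} (hd : CoarseLen d) {C : ℝ} (o : X)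
    (h4 : ∀ x y z, min (gp d o x y) (gp d o y z) - C ≤ gp d o x z) :
    ∃ ρ, IsVisual d o ρ := by
  have hC : 0 ≤ C := by have := h4 o o o; rw [min_self] at this; linarith
  have hl : 0 < log 2 := log_pos (by norm_num)
  set ε := log 2 / (4 * C + 1) with hεd
  have hε : 0 < ε := by positivity
  have h2 : exp (ε * (4 * C)) ≤ 2 := by
    rw [← exp_log (show (0 : ℝ) < 2 by norm_num), exp_le_exp, hεd, div_mul_eq_mul_div,
      div_le_iff₀ (by positivity)]
    nlinarith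
  let D : Bdry d o → Bdry d o → ℝ≥0 := fun ξ η => ⟨bdEx ε (bgp d o ξ η), bdEx_nonneg _⟩
  have D0 : ∀ x, D x x = 0 := fun x => NNReal.eq (by
    change bdEx ε _ = 0
    rw [bgp_self, bdEx_top hε])
  have Dc : ∀ x y, D x y = D y x := fun x y => NNReal.eq (by
    change bdEx ε _ = bdEx ε _
    rw [bgp_comm hd])
  have D4 : ∀ a b c e, D a e ≤ 2 * max (D a b) (max (D b c) (D c e)) := fun a b c e => by
    have h1 := bdEx_cmp hε (le_min (bgp_nonneg hd a b) (le_min (bgp_nonneg hd b c)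
      (bgp_nonneg hd c e))) (bgp_four hd h4 a b c e)
    have h3 : bdEx ε (min (bgp d o a b) (min (bgp d o b c) (bgp d o c e))) ≤
        ((max (D a b) (max (D b c) (D c e)) : ℝ≥0) : ℝ) := by
      rw [NNReal.coe_max, NNReal.coe_max]
      rcases min_choice (bgp d o a b) (min (bgp d o b c) (bgp d o c e)) with h | h
      · rw [h]; exact le_max_left _ _
      · rw [h]
        refine le_trans ?_ (le_max_right _ _)
        rcases min_choice (bgp d o b c) (bgp d o c e) with h | h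
        · rw [h]; exact le_max_left _ _
        · rw [h]; exact le_max_right _ _
    rw [← NNReal.coe_le_coe, NNReal.coe_mul, NNReal.coe_two]
    exact h1.trans (mul_le_mul h2 h3 (bdEx_nonneg _) (by norm_num))
  let P := PseudoMetricSpace.ofPreNNDist D D0 Dc
  have hP1 : ∀ x y, P.dist x y ≤ bdEx ε (bgp d o x y) :=
    PseudoMetricSpace.dist_ofPreNNDist_le D D0 Dc
  have hP2 : ∀ x y, bdEx ε (bgp d o x y) ≤ 2 * P.dist x y :=
    PseudoMetricSpace.le_two_mul_dist_ofPreNNDist D D0 Dc D4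
  refine ⟨{ P with
    eq_of_dist_eq_zero := fun {x y} h => bd_eq_of_top hd h4 (bdEx_eq_zero (ε := ε) (bgp_nonneg hd x y)
      (le_antisymm (by have := hP2 x y; rw [show P.dist x y = 0 from h] at this; linarith)
        (bdEx_nonneg _))) }, ε, 1 / 2, 1, hε, by norm_num, fun ξ η => ?_⟩
  rw [bdEx_ofReal hε (bgp_nonneg hd ξ η), ← ENNReal.ofReal_mul (by norm_num),
    ← ENNReal.ofReal_mul (by norm_num)]
  exact ⟨ENNReal.ofReal_le_ofReal (by change _ ≤ P.dist ξ η; linarith [hP2 ξ η]),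
    ENNReal.ofReal_le_ofReal (by change P.dist ξ η ≤ _; linarith [hP1 ξ η])⟩

section QS

variable {Z : Type} {ρ₀ ρ : MetricSpace Z}

theorem bd_dist_nonneg (ρ : MetricSpace Z) (x y : Z) : 0 ≤ ρ.dist x y :=
  @dist_nonneg _ ρ.toPseudoMetricSpace x y

theorem bd_qs_real (h : IsQS ρ₀ ρ) (t : ℝ) : ∃ H : ℝ, 0 ≤ H ∧ ∀ x y z : Z,
    ρ₀.dist x y ≤ t * ρ₀.dist x z → ρ.dist x y ≤ H * ρ.dist x z := by
  obtain ⟨f, hf⟩ := h
  refine ⟨f t.toNNReal, (f _).2, fun x y z h => hf x y z _ (h.trans ?_)⟩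
  exact mul_le_mul_of_nonneg_right (le_coe_toNNReal t) (bd_dist_nonneg ρ₀ _ _)

theorem bd_qs_small (h : IsQS ρ₀ ρ) {M : ℝ} (hM : ∀ x y, ρ₀.dist x y ≤ M) {η : ℝ} (hη : 0 < η) :
    ∃ δ > 0, ∀ x y, ρ₀.dist x y ≤ δ → ρ.dist x y ≤ η := by
  by_cases hs : ∀ x y : Z, x = y
  · exact ⟨1, one_pos, fun x y _ => by rw [hs x y, ρ.dist_self]; exact hη.le⟩
  push Not at hs
  obtain ⟨a, b, hab⟩ := hs
  have hδ : 0 < ρ₀.dist a b :=
    (bd_dist_nonneg ρ₀ a b).lt_of_ne' fun h => hab (ρ₀.eq_of_dist_eq_zero h)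
  obtain ⟨H, hH, h1⟩ := bd_qs_real h (M / ρ₀.dist a b)
  have h2 : ∀ p, ρ.dist a p ≤ H * ρ.dist a b := fun p =>
    h1 a p b (by rw [div_mul_cancel₀ _ hδ.ne']; exact hM _ _)
  have h3 : ∀ p q, ρ.dist p q ≤ 2 * H * ρ.dist a b := fun p q => by
    have := ρ.dist_triangle p a q
    rw [ρ.dist_comm p a] at this
    linarith [h2 p, h2 q]
  obtain ⟨f, hf⟩ := h
  set M' := 2 * H * ρ.dist a b with hM'
  have hM0 : 0 ≤ M' := (bd_dist_nonneg ρ a a).trans (h3 a a)
  let s : ℝ≥0 := ⟨η / (M' + 1), by positivity⟩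
  have hs : 0 < s := by change (0 : ℝ) < η / (M' + 1); positivity
  have ht : 0 < f.symm s := by
    have := f.symm.strictMono hs
    rwa [← bot_eq_zero, f.symm.map_bot, bot_eq_zero] at this
  have ht' : (0 : ℝ) < f.symm s := ht
  refine ⟨f.symm s * (ρ₀.dist a b / 2), by positivity, fun x y hxy => ?_⟩
  have h5 : ∃ q, ρ₀.dist a b / 2 ≤ ρ₀.dist x q := by
    by_contra hc
    push Not at hc
    have := ρ₀.dist_triangle a x b
    rw [ρ₀.dist_comm a x] at this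
    linarith [hc a, hc b]
  obtain ⟨q, hq⟩ := h5
  have h6 := hf x y q (f.symm s) (hxy.trans (mul_le_mul_of_nonneg_left hq ht'.le))
  rw [f.apply_symm_apply] at h6
  refine h6.trans ((mul_le_mul_of_nonneg_left (h3 x q) s.2).trans ?_)
  change η / (M' + 1) * M' ≤ η
  rw [div_mul_eq_mul_div, div_le_iff₀ (by positivity)]
  nlinarith

theorem bd_qs_large (h : IsQS ρ₀ ρ) {M : ℝ} (hM : ∀ x y, ρ₀.dist x y ≤ M) {δ : ℝ} (hδ : 0 < δ) :
    ∃ η > 0, ∀ x y, δ ≤ ρ₀.dist x y → η ≤ ρ.dist x y := by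
  by_cases hs : ∀ x y : Z, x = y
  · exact ⟨1, one_pos, fun x y h => by rw [hs x y, ρ₀.dist_self] at h; exact absurd h (not_le.2 hδ)⟩
  push Not at hs
  obtain ⟨a, b, hab⟩ := hs
  have h0 : 0 < ρ.dist a b :=
    (bd_dist_nonneg ρ a b).lt_of_ne' fun h => hab (ρ.eq_of_dist_eq_zero h)
  have hM0 : 0 ≤ M := (bd_dist_nonneg ρ₀ a a).trans (hM a a)
  obtain ⟨H, hH, h1⟩ := bd_qs_real h (M / δ)
  refine ⟨ρ.dist a b / (2 * H + 1), by positivity, fun x y hxy => ?_⟩
  have h2 : ∀ p, ρ.dist x p ≤ H * ρ.dist x y := fun p => h1 x p y (by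
    refine (hM _ _).trans (le_trans (le_of_eq ?_) (mul_le_mul_of_nonneg_left hxy (by positivity)))
    rw [div_mul_cancel₀ _ hδ.ne'])
  have h3 := ρ.dist_triangle a x b
  rw [ρ.dist_comm a x] at h3
  rw [div_le_iff₀ (by positivity)]
  nlinarith [h2 a, h2 b, bd_dist_nonneg ρ x y]

end QS

section Rays

variable {X : Type} [MetricSpace X] {o : X} {c c' : ℝ → X}

theorem IsRay.bd_dist (h : IsRay o c) {s : ℝ} (hs : 0 ≤ s) : dist o (c s) = s := by
  rw [← h.1, h.2 0 s le_rfl hs, zero_sub, abs_neg, abs_of_nonneg hs]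

theorem IsRay.bd_btw (h : IsRay o c) {s t : ℝ} (hs : 0 ≤ s) (hst : s ≤ t) : Btw o (c s) (c t) := by
  rw [Btw, h.bd_dist hs, h.bd_dist (hs.trans hst), h.2 s t hs (hs.trans hst),
    abs_of_nonpos (by linarith)]
  ring

theorem bd_g_nonneg (x y : X) : 0 ≤ gp dist o x y := by
  have := dist_triangle_left x y o
  simp only [gp]; linarith

theorem bd_g_le (h : IsRay o c) {s : ℝ} (hs : 0 ≤ s) (y : X) : gp dist o (c s) y ≤ s := by
  have := dist_triangle o (c s) y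
  simp only [gp, h.bd_dist hs] at *; linarith

theorem bd_g_mono (h : IsRay o c) (h' : IsRay o c') {s i j : ℝ} (hs : 0 ≤ s) (hi : s ≤ i)
    (hj : s ≤ j) : gp dist o (c s) (c' s) ≤ gp dist o (c i) (c' j) := by
  have h1 := dist_triangle4 (c i) (c s) (c' s) (c' j)
  rw [h.2 i s (hs.trans hi) hs, h'.2 s j hs (hs.trans hj), abs_of_nonneg (by linarith),
    abs_of_nonpos (by linarith)] at h1
  simp only [gp, h.bd_dist hs, h'.bd_dist hs, h.bd_dist (hs.trans hi), h'.bd_dist (hs.trans hj)]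
  linarith

theorem bd_g_eq (h : IsRay o c) (h' : IsRay o c') {s : ℝ} (hs : 0 ≤ s) :
    dist (c s) (c' s) / 2 = s - gp dist o (c s) (c' s) := by
  simp only [gp, h.bd_dist hs, h'.bd_dist hs]; ring

theorem bd_qr_le (hK : GlobK X) (h : IsRay o c) (h' : IsRay o c') {s : ℝ} (hs : 0 ≤ s) :
    qr c c' ≤ exp (-gp dist o (c s) (c' s)) := by
  refine qr_le fun t ht => ?_
  set T := gp dist o (c s) (c' s)
  have hT : 0 ≤ T := bd_g_nonneg _ _
  set a := max s t with ha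
  have h0 : 0 < a := ht.trans_le (le_max_right _ _)
  have h1 := hK.ratio (h.bd_btw ht.le (le_max_right s t)) (h'.bd_btw ht.le (le_max_right s t))
    (by rw [h.bd_dist h0.le, h'.bd_dist h0.le]) (by rw [h.bd_dist ht.le, h'.bd_dist ht.le])
  rw [h.bd_dist h0.le, h.bd_dist ht.le, bd_g_eq h h' h0.le] at h1
  have h2 : T ≤ gp dist o (c a) (c' a) := bd_g_mono h h' hs (le_max_left _ _) (le_max_left _ _)
  have h3 : sinh (a - gp dist o (c a) (c' a)) ≤ exp (-T) * sinh a := by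
    refine (sinh_le_sinh.2 (show _ ≤ a - T by linarith)).trans ?_
    have h4 : exp (-T) * exp (-a) ≤ exp (-(a - T)) := by
      rw [← exp_add]; exact exp_le_exp.2 (by linarith)
    have h5 : exp (-T) * exp a = exp (a - T) := by rw [← exp_add]; congr 1; ring
    rw [sinh_eq, sinh_eq]; linarith
  have h6 : 0 < sinh a := sinh_pos_iff.2 h0
  have h7 : 0 < sinh t := sinh_pos_iff.2 ht
  refine le_of_mul_le_mul_right (h1.trans ?_) h6
  nlinarith

theorem bd_qr_ge (h : IsRay o c) (h' : IsRay o c') {T : ℝ} (hT : 0 ≤ T)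
    (hq : qr c c' ≤ exp (-(T + 1))) : T ≤ gp dist o (c (T + 1)) (c' (T + 1)) := by
  by_contra hc
  have h1 := qr_ge h h' (s := T + 1) (by linarith)
  rw [bd_g_eq h h' (by linarith)] at h1
  have h2 : (1 : ℝ) ≤ sinh (T + 1 - gp dist o (c (T + 1)) (c' (T + 1))) :=
    le_trans (by linarith) (self_le_sinh_iff.2 (by linarith))
  have h3 : sinh (T + 1) ≤ exp (T + 1) / 2 := by
    rw [sinh_eq]; linarith [exp_pos (-(T + 1))]
  have h4 : exp (-(T + 1)) * exp (T + 1) = 1 := by rw [← exp_add]; simp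
  have h5 : qr c c' * sinh (T + 1) ≤ exp (-(T + 1)) * (exp (T + 1) / 2) :=
    mul_le_mul hq h3 (sinh_nonneg_iff.2 (by linarith)) (exp_pos _).le
  linarith

end Rays

theorem boundary_est {X : Type} [MetricSpace X] (h : GlobK X) {d : X → X → ℝ} (hd : CoarseLen d)
    {L : ℝ} (hq : ∀ x y, d x y ≤ L * dist x y + L ∧ dist x y ≤ L * d x y + L) (o : X) :
    ∃ e : {c : ℝ → X // IsRay o c} → Bdry d o, ∀ ρ₀ ρ : MetricSpace (Bdry d o),
      IsVisual d o ρ₀ → IsQS ρ₀ ρ →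
      (∀ K : ℝ, ∃ H : ℝ, ∀ c₁ c₂ c₃, qr c₁.1 c₂.1 ≤ K * qr c₁.1 c₃.1 →
        ρ.dist (e c₁) (e c₂) ≤ H * ρ.dist (e c₁) (e c₃)) ∧
      (∀ η > 0, ∃ κ > 0, ∀ c₁ c₂, qr c₁.1 c₂.1 ≤ κ → ρ.dist (e c₁) (e c₂) ≤ η) ∧
      ∀ κ > 0, ∃ η > 0, ∀ c₁ c₂, κ ≤ qr c₁.1 c₂.1 → η ≤ ρ.dist (e c₁) (e c₂) := by
  obtain ⟨C, M1, M2, M3⟩ := morse h hd hq
  replace M3 := M3 o
  have hL : 0 ≤ L := by simpa using (hq o o).1 |>.trans' (bd_nonneg hd o o)
  -- coarse monotonicity, Lipschitz bound and growth of the `d`-distance along a ray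
  have P1 : ∀ {c : ℝ → X}, IsRay o c → ∀ {s t : ℝ}, 0 ≤ s → s ≤ t → d o (c s) ≤ d o (c t) + C :=
    fun {c} hc s t hs hst => by
      linarith [M1 _ _ _ (hc.bd_btw hs hst), bd_nonneg hd (c s) (c t)]
  have P2 : ∀ {c : ℝ → X}, IsRay o c → ∀ {s t : ℝ}, 0 ≤ s → s ≤ t →
      d o (c t) ≤ d o (c s) + L * (t - s) + L := fun {c} hc s t hs hst => by
    have h1 := (hq (c s) (c t)).1
    rw [hc.2 s t hs (hs.trans hst), abs_of_nonpos (by linarith), neg_sub] at h1
    linarith [hd.tri o (c s) (c t)]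
  have P3 : ∀ {c : ℝ → X}, IsRay o c → ∀ {t r : ℝ}, (L + 1) * (|r| + 1) ≤ t → r ≤ d o (c t) :=
    fun {c} hc t r ht => by
      have h0 : 0 ≤ t := le_trans (by positivity) ht
      have h1 := (hq o (c t)).2
      rw [hc.bd_dist h0] at h1
      by_contra hc
      nlinarith [le_abs_self r, abs_nonneg r, bd_nonneg hd o (c t)]
  have P4 : ∀ {c : ℝ → X}, IsRay o c → ∀ {i : ℝ}, 0 ≤ i → ∀ y,
      |gp d o (c i) y - d o (c (gp dist o (c i) y))| ≤ C := fun hc i hi y =>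
    M2 _ _ _ _ (hc.bd_btw (bd_g_nonneg _ _) (bd_g_le hc hi y)) (hc.bd_dist (bd_g_nonneg _ _))
  have B1 : ∀ {c c' : ℝ → X}, IsRay o c → IsRay o c' → ∀ {s T : ℝ}, 0 ≤ s → 0 ≤ T →
      T ≤ gp dist o (c s) (c' s) →
      BdGe d o (d o (c T) - 2 * C) (fun n : ℕ => c n) (fun n : ℕ => c' n) :=
    fun {c c'} hc hc' s T hs hT hsT => ⟨⌈s⌉₊, fun i hi j hj => by
      have h1 := bd_g_mono hc hc' hs (Nat.ceil_le.1 hi) (Nat.ceil_le.1 hj)
      have h2 := P1 hc hT (hsT.trans h1)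
      have h3 := abs_le.1 (P4 hc (Nat.cast_nonneg i) (c' j))
      linarith [h3.1]⟩
  have hI : ∀ c : {c : ℝ → X // IsRay o c}, Tendsto (fun p : ℕ × ℕ =>
      gp d o (c.1 p.1) (c.1 p.2)) atTop atTop := fun c => by
    refine tendsto_atTop.2 fun r => ?_
    have h0 : 0 ≤ (L + 1) * (|r + 2 * C| + 1) := by positivity
    have h1 := bdGe_iff.1 (B1 c.2 c.2 h0 h0 (by simp [gp, c.2.bd_dist h0]))
    exact h1.mono fun p hp => by linarith [P3 c.2 (r := r + 2 * C) le_rfl]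
  let e : {c : ℝ → X // IsRay o c} → Bdry d o := fun c => Quot.mk _ ⟨fun n : ℕ => c.1 n, hI c⟩
  have B1' : ∀ (c c' : {c : ℝ → X // IsRay o c}) {T : ℝ}, 0 ≤ T → qr c.1 c'.1 ≤ exp (-(T + 1)) →
      ((d o (c.1 T) - 2 * C : ℝ) : EReal) ≤ bgp d o (e c) (e c') := fun c c' T hT hq =>
    le_bgp (B1 c.2 c'.2 (by linarith) hT (bd_qr_ge c.2 c'.2 hT hq))
  have B2 : ∀ (c c' : {c : ℝ → X // IsRay o c}) {r : ℝ}, (r : EReal) < bgp d o (e c) (e c') →
      ∃ T, 0 ≤ T ∧ qr c.1 c'.1 ≤ exp (-T) ∧ r - 3 * C ≤ d o (c.1 T) := fun c c' r hr => by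
    obtain ⟨N, hN⟩ := bdGe_of_lt hd M3 hr
    have h1 := hN N le_rfl N le_rfl
    have h2 := abs_le.1 (P4 c.2 (Nat.cast_nonneg N) (c'.1 N))
    exact ⟨_, bd_g_nonneg _ _, bd_qr_le h c.2 c'.2 (Nat.cast_nonneg N), by linarith [h2.2]⟩
  refine ⟨e, fun ρ₀ ρ ⟨ε, a, b, hε, ha, hv⟩ hqs => ?_⟩
  have V1 : ∀ ξ η, a * bdEx ε (bgp d o ξ η) ≤ ρ₀.dist ξ η := fun ξ η => by
    have := (hv ξ η).1
    rwa [bdEx_ofReal hε (bgp_nonneg hd ξ η), ← ENNReal.ofReal_mul ha.le,
      ENNReal.ofReal_le_ofReal_iff (bd_dist_nonneg ρ₀ _ _)] at this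
  have V2 : ∀ ξ η, ρ₀.dist ξ η ≤ (|b| + 1) * bdEx ε (bgp d o ξ η) := fun ξ η => by
    have h1 := (hv ξ η).2.trans (mul_le_mul_left
      (ENNReal.ofReal_le_ofReal (show b ≤ |b| + 1 by linarith [le_abs_self b])) _)
    rwa [bdEx_ofReal hε (bgp_nonneg hd ξ η), ← ENNReal.ofReal_mul (by positivity),
      ENNReal.ofReal_le_ofReal_iff (mul_nonneg (by positivity) (bdEx_nonneg _))] at h1
  have V3 : ∀ ξ η, ρ₀.dist ξ η ≤ |b| + 1 := fun ξ η => (V2 ξ η).trans
    (mul_le_of_le_one_right (by positivity) (bdEx_le_one hε (bgp_nonneg hd ξ η)))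
  refine ⟨fun K => ?_, fun η hη => ?_, fun κ hκ => ?_⟩
  · set A := L * (|K| + 1) + L + 5 * C
    obtain ⟨H, _, hH⟩ := bd_qs_real hqs ((|b| + 1) * exp (ε * A) / a)
    refine ⟨H, fun c₁ c₂ c₃ hK => hH _ _ _ ?_⟩
    have h1 : bdEx ε (bgp d o (e c₁) (e c₂)) ≤ exp (ε * A) * bdEx ε (bgp d o (e c₁) (e c₃)) := by
      refine bdEx_cmp hε (bgp_nonneg hd _ _) fun r hr => ?_
      obtain ⟨T, hT, h2, h3⟩ := B2 c₁ c₃ hr
      rcases le_total T (|K| + 1) with h4 | h4
      · have h5 := P2 c₁.2 le_rfl hT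
        rw [c₁.2.1, hd.self] at h5
        have hC : 0 ≤ C := by have := M3 o o o; rw [min_self] at this; linarith
        refine le_trans ?_ (bgp_nonneg hd _ _)
        have : r - A ≤ 0 := by simp only [A]; nlinarith
        exact_mod_cast this
      · have h5 : qr c₁.1 c₂.1 ≤ exp (-(T - (|K| + 1) + 1)) := by
          have h6 : K ≤ exp |K| := by linarith [add_one_le_exp |K|, le_abs_self K]
          refine hK.trans ((mul_le_mul h6 h2 (qr_nonneg c₁.2 c₃.2) (exp_pos _).le).trans ?_)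
          rw [← exp_add]; exact exp_le_exp.2 (by linarith)
        have h7 := P2 c₁.2 (s := T - (|K| + 1)) (t := T) (by linarith) (by linarith [abs_nonneg K])
        refine le_trans ?_ (B1' c₁ c₂ (by linarith) h5)
        have : r - A ≤ d o (c₁.1 (T - (|K| + 1))) - 2 * C := by
          simp only [A]; rw [sub_sub_cancel] at h7; linarith
        exact_mod_cast this
    refine (V2 _ _).trans ((mul_le_mul_of_nonneg_left h1 (by positivity)).trans ?_)
    refine le_trans (le_of_eq ?_) (mul_le_mul_of_nonneg_left (V1 _ _) (by positivity))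
    field_simp
  · obtain ⟨δ, hδ, h1⟩ := bd_qs_small hqs V3 hη
    set R := (|b| + 1) / δ / ε
    set T := (L + 1) * (|R + 2 * C| + 1)
    refine ⟨exp (-(T + 1)), exp_pos _, fun c₁ c₂ hk => h1 _ _ ((V2 _ _).trans ?_)⟩
    have h2 : (R : EReal) ≤ bgp d o (e c₁) (e c₂) := by
      refine le_trans ?_ (B1' c₁ c₂ (by positivity) hk)
      have : R ≤ d o (c₁.1 T) - 2 * C := by linarith [P3 c₁.2 (r := R + 2 * C) le_rfl]
      exact_mod_cast this
    refine (mul_le_mul_of_nonneg_left (bdEx_le hε h2) (by positivity)).trans ?_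
    have h3 : ε * R = (|b| + 1) / δ := by simp only [R]; field_simp
    have h4 := add_one_le_exp ((|b| + 1) / δ)
    rw [h3, exp_neg, ← div_eq_mul_inv, div_le_iff₀ (exp_pos _)]
    have h5 : δ * ((|b| + 1) / δ) = |b| + 1 := by field_simp
    nlinarith
  · set R := L * |log κ| + L + 3 * C
    obtain ⟨η, hη, h1⟩ := bd_qs_large hqs V3 (δ := a * exp (-(ε * R))) (by positivity)
    refine ⟨η, hη, fun c₁ c₂ hk => h1 _ _ (le_trans ?_ (V1 _ _))⟩
    refine mul_le_mul_of_nonneg_left (bdEx_ge hε (bgp_nonneg hd _ _) ?_) ha.le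
    refine EReal.ge_of_forall_gt_iff_ge.1 fun r hr => ?_
    obtain ⟨T, hT, h2, h3⟩ := B2 c₁ c₂ hr
    have h4 : log κ ≤ -T := (log_le_iff_le_exp hκ).2 (hk.trans h2)
    have h5 := P2 c₁.2 le_rfl hT
    rw [c₁.2.1, hd.self] at h5
    have h6 : T ≤ |log κ| := by linarith [neg_abs_le (log κ)]
    have : r ≤ R := by simp only [R]; nlinarith
    exact_mod_cast this

end Pool.Agent.MP_39b1da_gt
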