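import Pool.Agent.MP_39b1da_gt.CH1

set_option autoImplicit false

namespace Pool.Agent.MP_39b1da_gt

open Filter Topology Set Real
open scoped ENNReal NNReal ContDiff InnerProductSpace

section

variable {X : Type} [MetricSpace X] {ε : ℝ}

/-- The space of local geodesics from `x`. -/
def ChG (x : X) : Type :=
  {g : C(unitInterval, X) // g 0 = x ∧ ∃ v, ChLG (IccExtend zero_le_one g) 0 1 v}

noncomputable instance (x : X) : MetricSpace (ChG x) :=
  inferInstanceAs (MetricSpace
    {g : C(unitInterval, X) // g 0 = x ∧ ∃ v, ChLG (IccExtend zero_le_one g) 0 1 v})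

/-- A local geodesic as a point of the space of local geodesics. -/
noncomputable def ChG.mk {c : ℝ → X} {v : ℝ} (h : ChLG c 0 1 v) {x : X} (h0 : c 0 = x) : ChG x :=
  ⟨⟨fun t => c t, h.cont.domRestrict⟩, h0, v, h.congr fun _ ht => IccExtend_of_mem _ _ ht⟩

theorem ChG.dist_le {x : X} (g g' : ChG x) (t : unitInterval) :
    dist (g.1 t) (g'.1 t) ≤ dist g g' := ContinuousMap.dist_apply_le_dist t

theorem ch_convex_zero (hK : LocK X ε) {c c' : ℝ → X} {v v' : ℝ} (h : ChLG c 0 1 v)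
    (h' : ChLG c' 0 1 v') (h0 : c 0 = c' 0)
    (hd : ∀ t ∈ Icc (0 : ℝ) 1, dist (c t) (c' t) < ε / 8) {t : ℝ} (ht : t ∈ Icc (0 : ℝ) 1) :
    dist (c t) (c' t) ≤ t * dist (c 1) (c' 1) := by
  simpa [h0] using h.convex hK h' hd ht

theorem ChG.convex (hK : LocK X ε) {x : X} (g g' : ChG x) (hd : dist g g' < ε / 8)
    (t : unitInterval) : dist (g.1 t) (g'.1 t) ≤ t * dist (g.1 1) (g'.1 1) := by
  obtain ⟨v, hv⟩ := g.2.2
  obtain ⟨v', hv'⟩ := g'.2.2
  have := ch_convex_zero hK hv hv'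
    (by rw [IccExtend_left, IccExtend_left]; exact g.2.1.trans g'.2.1.symm)
    (fun t ht => by
      rw [IccExtend_of_mem _ _ ht, IccExtend_of_mem _ _ ht]
      exact (g.dist_le g' _).trans_lt hd) t.2
  rwa [IccExtend_val, IccExtend_val, IccExtend_right, IccExtend_right] at this

theorem ch_ballIso [CompleteSpace X] (hK : LocK X ε) (x : X) :
    BallIso (fun g : ChG x => g.1 1) (ε / 64) := by
  have hε := hK.pos
  refine ⟨by positivity, fun g => ⟨fun g' hg' g'' hg'' => ?_, fun y hy => ?_⟩⟩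
  · refine le_antisymm (g'.dist_le g'' 1) ((ContinuousMap.dist_le dist_nonneg).2 fun t => ?_)
    refine (g'.convex hK g'' ?_ t).trans (mul_le_of_le_one_left dist_nonneg t.2.2)
    have := dist_triangle_right g' g'' g
    rw [Metric.mem_ball] at hg' hg''
    linarith
  · obtain ⟨v, hv⟩ := g.2.2
    rw [Metric.mem_ball'] at hy
    obtain ⟨c, w, hc, c0, c1, hd⟩ := hv.move hK one_pos hy.le (p := x) (q := y)
      (by rw [IccExtend_left]; exact (dist_eq_zero.2 g.2.1).le.trans dist_nonneg)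
      (by rw [IccExtend_right]; exact le_rfl)
    refine ⟨ChG.mk hc c0, Metric.mem_ball'.2 (lt_of_le_of_lt ?_ hy), c1⟩
    refine (ContinuousMap.dist_le dist_nonneg).2 fun t => ?_
    have := hd t t.2
    rwa [IccExtend_val] at this

theorem ch_bijective [CompleteSpace X] [SimplyConnectedSpace X] (hK : LocK X ε) (x : X) :
    ∃ s : C(X, ChG x), (∀ y, (s y).1 1 = y) ∧ ∀ g : ChG x, s (g.1 1) = g := by
  have hcov := (ch_ballIso hK x).isCoveringMap
  have := hK.locallyPathConnected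
  have hx : ChLG (fun _ : ℝ => x) 0 1 0 := ⟨le_rfl, 1, one_pos, by simp⟩
  obtain ⟨s, ⟨s0, hs⟩, -⟩ := hcov.existsUnique_continuousMap_lifts (ContinuousMap.id X) x
    (ChG.mk hx rfl) rfl
  have hs' : ∀ y, (s y).1 1 = y := congrFun hs
  refine ⟨s, hs', fun g => ?_⟩
  let H : C(unitInterval × unitInterval, X) := g.1.comp ⟨fun z => z.1 * z.2, by fun_prop⟩
  have hH : ∀ t : unitInterval, H.curry t 0 = x ∧
      ∃ v, ChLG (IccExtend zero_le_one (H.curry t)) 0 1 v := fun t => by
    obtain ⟨v, h0, η, hη, hv⟩ := g.2.2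
    refine ⟨(congrArg g.1 (mul_zero t)).trans g.2.1, t * v, mul_nonneg t.2.1 h0, η, hη,
      fun a ha b hb hab => ?_⟩
    have e : |(t : ℝ) * a - t * b| = t * |a - b| := by
      rw [← mul_sub, abs_mul, abs_of_nonneg t.2.1]
    have := hv _ (t * ⟨a, ha⟩).2 _ (t * ⟨b, hb⟩).2 (by
      change |(t : ℝ) * a - t * b| ≤ η
      rw [e]
      exact (mul_le_of_le_one_left (abs_nonneg _) t.2.2).trans hab)
    rw [IccExtend_val, IccExtend_val] at this
    rw [IccExtend_of_mem _ _ ha, IccExtend_of_mem _ _ hb]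
    refine this.trans ?_
    change |(t : ℝ) * a - t * b| * v = _
    rw [e]
    ring
  let Γ : unitInterval → ChG x := fun t => ⟨H.curry t, hH t⟩
  have hΓ : Continuous Γ := H.curry.continuous.subtype_mk _
  have key := hcov.eq_of_comp_eq (g₁ := fun t => s (g.1 t)) (g₂ := Γ)
    (s.continuous.comp g.1.continuous) hΓ
    (funext fun t => (hs' _).trans (congrArg g.1 (mul_one t).symm)) 0 (by
      rw [g.2.1, s0]
      exact Subtype.ext (ContinuousMap.ext fun u =>
        ((congrArg g.1 (zero_mul u)).trans g.2.1).symm))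
  exact (congrFun key 1).trans
    (Subtype.ext (ContinuousMap.ext fun u => congrArg g.1 (one_mul u)))

theorem ch_unique [CompleteSpace X] [SimplyConnectedSpace X] (hK : LocK X ε) {c c' : ℝ → X}
    {v v' : ℝ} (h : ChLG c 0 1 v) (h' : ChLG c' 0 1 v') (h0 : c 0 = c' 0) (h1 : c 1 = c' 1)
    {t : ℝ} (ht : t ∈ Icc (0 : ℝ) 1) : c t = c' t := by
  obtain ⟨s, -, hs⟩ := ch_bijective hK (c 0)
  have e : ChG.mk h rfl = ChG.mk h' h0.symm := by
    rw [← hs (ChG.mk h rfl), ← hs (ChG.mk h' h0.symm)]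
    exact congrArg s h1
  exact congrArg (fun g : ChG (c 0) => g.1 ⟨t, ht⟩) e

theorem ch_speed (hK : LocK X ε) {c c' : ℝ → X} {v v' : ℝ} (h : ChLG c 0 1 v)
    (h' : ChLG c' 0 1 v') (h0 : c 0 = c' 0)
    (hd : ∀ t ∈ Icc (0 : ℝ) 1, dist (c t) (c' t) < ε / 8) : v' ≤ v + dist (c 1) (c' 1) := by
  obtain ⟨η, hη, H⟩ := h'.2
  have h1 : 0 < min η 1 := lt_min hη one_pos
  have ht : min η 1 ∈ Icc (0 : ℝ) 1 := ⟨h1.le, min_le_right _ _⟩
  have a : |0 - min η 1| = min η 1 := by rw [zero_sub, abs_neg, abs_of_pos h1]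
  have e1 := H 0 (left_mem_Icc.2 zero_le_one) _ ht (by rw [a]; exact min_le_left _ _)
  have e2 := h.lip (left_mem_Icc.2 zero_le_one) ht
  have e3 := ch_convex_zero hK h h' h0 hd ht
  have e4 := dist_triangle (c 0) (c (min η 1)) (c' (min η 1))
  rw [a] at e1 e2
  rw [← h0] at e1
  refine le_of_mul_le_mul_left ?_ h1
  linarith

theorem ch_exists [CompleteSpace X] [SimplyConnectedSpace X] (hK : LocK X ε) (hl : IsLen X)
    (x y : X) : ∃ c : ℝ → X, c 0 = x ∧ c 1 = y ∧
      ∀ s ∈ Icc (0 : ℝ) 1, ∀ t ∈ Icc (0 : ℝ) 1, dist (c s) (c t) = |s - t| * dist x y := by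
  have hε := hK.pos
  obtain ⟨s, hs, -⟩ := ch_bijective hK x
  choose v hv using fun y => (s y).2.2
  have c0 : ∀ y, IccExtend zero_le_one (s y).1 0 = x := fun y => by
    rw [IccExtend_left]; exact (s y).2.1
  have c1 : ∀ y, IccExtend zero_le_one (s y).1 1 = y := fun y => by
    rw [IccExtend_right]; exact hs y
  have hx : ChLG (fun _ : ℝ => x) 0 1 0 := ⟨le_rfl, 1, one_pos, by simp⟩
  have v0 : v x ≤ 0 := by
    have := ch_speed hK hx (hv x) (c0 x).symm fun t ht => by
      rw [← ch_unique hK hx (hv x) (c0 x).symm (c1 x).symm ht, dist_self]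
      positivity
    rwa [c1, dist_self, add_zero] at this
  have loc : ∀ y z, dist (s y) (s z) < ε / 8 → v z ≤ v y + dist y z := fun y z hyz => by
    have := ch_speed hK (hv y) (hv z) ((c0 y).trans (c0 z).symm) fun t ht => by
      rw [IccExtend_of_mem _ _ ht, IccExtend_of_mem _ _ ht]
      exact ((s y).dist_le (s z) _).trans_lt hyz
    rwa [c1, c1] at this
  have lip := hl.lip v (fun y => by
    have : ∀ᶠ z in 𝓝 y, dist (s z) (s y) < ε / 8 :=
      Metric.tendsto_nhds.1 (s.continuous.tendsto y) _ (by positivity)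
    filter_upwards [this] with z hz
    rw [edist_dist, edist_dist]
    refine ENNReal.ofReal_le_ofReal ?_
    rw [Real.dist_eq, abs_le]
    have e1 := loc z y hz
    have e2 := loc y z (by rwa [dist_comm])
    rw [dist_comm] at e1
    constructor <;> linarith) x y
  rw [edist_dist, edist_dist, ENNReal.ofReal_le_ofReal_iff dist_nonneg, Real.dist_eq,
    abs_le] at lip
  have h0 := left_mem_Icc.2 (zero_le_one (α := ℝ))
  have h1 := right_mem_Icc.2 (zero_le_one (α := ℝ))
  have e : v y = dist x y := by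
    have := (hv y).lip h0 h1
    rw [c0, c1] at this
    norm_num at this
    linarith [lip.1]
  refine ⟨_, c0 y, c1 y, fun a ha b hb => ?_⟩
  wlog hab : a ≤ b generalizing a b
  · rw [dist_comm, abs_sub_comm]
    exact this b hb a ha (by linarith)
  have e1 := (hv y).lip h0 ha
  have e2 := (hv y).lip ha hb
  have e3 := (hv y).lip hb h1
  have e4 := dist_triangle4 x (IccExtend zero_le_one (s y).1 a) (IccExtend zero_le_one (s y).1 b) y
  rw [c0, zero_sub, abs_neg, abs_of_nonneg ha.1] at e1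
  rw [c1, abs_of_nonpos (by linarith [hb.2])] at e3
  rw [abs_of_nonpos (by linarith)] at e2 ⊢
  rw [e] at e1 e2 e3
  linarith

/-- A geodesic through a given point between two points. -/
theorem ch_through (hg : ∀ x y : X, ∃ c : ℝ → X, c 0 = x ∧ c 1 = y ∧
      ∀ s ∈ Icc (0 : ℝ) 1, ∀ t ∈ Icc (0 : ℝ) 1, dist (c s) (c t) = |s - t| * dist x y)
    {y x z : X} (b : Btw y x z) {θ : ℝ} (hθ : θ ∈ Icc (0 : ℝ) 1) (e : dist y x = θ * dist y z) :
    ∃ c : ℝ → X, ChLG c 0 1 (dist y z) ∧ c 0 = y ∧ c 1 = z ∧ c θ = x := by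
  have unit : ∀ x y : X, ∃ c : ℝ → X, c 0 = x ∧ c (dist x y) = y ∧
      ∀ s ∈ Icc 0 (dist x y), ∀ t ∈ Icc 0 (dist x y), dist (c s) (c t) = |s - t| := by
    intro x y
    rcases eq_or_ne x y with rfl | hne
    · refine ⟨fun _ => x, rfl, rfl, fun s hs t ht => ?_⟩
      simp only [dist_self, Icc_self, mem_singleton_iff] at hs ht
      simp [hs, ht]
    obtain ⟨c, c0, c1, hc⟩ := hg x y
    have hd := dist_pos.2 hne
    refine ⟨fun t => c (t / dist x y), by simpa using c0, by simpa [hd.ne'] using c1,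
      fun s hs t ht => ?_⟩
    rw [hc _ ⟨div_nonneg hs.1 hd.le, (div_le_one hd).2 hs.2⟩ _
      ⟨div_nonneg ht.1 hd.le, (div_le_one hd).2 ht.2⟩, ← sub_div, abs_div, abs_of_pos hd]
    field_simp
  obtain ⟨c, c0, c1, hc⟩ := unit y x
  obtain ⟨c', c0', c1', hc'⟩ := unit x z
  unfold Btw at b
  have d1 := dist_nonneg (x := y) (y := x)
  have d2 := dist_nonneg (x := x) (y := z)
  have key : ∀ s ∈ Icc 0 (dist y z), ∀ t ∈ Icc 0 (dist y z), s ≤ t →
      dist (if s ≤ dist y x then c s else c' (s - dist y x))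
        (if t ≤ dist y x then c t else c' (t - dist y x)) = t - s := by
    intro s hs t ht hst
    by_cases h1 : t ≤ dist y x
    · rw [if_pos h1, if_pos (hst.trans h1), hc s ⟨hs.1, hst.trans h1⟩ t ⟨ht.1, h1⟩,
        abs_of_nonpos (by linarith), neg_sub]
    have mt : t - dist y x ∈ Icc 0 (dist x z) := ⟨by linarith, by linarith [ht.2]⟩
    by_cases h2 : s ≤ dist y x
    · rw [if_neg h1, if_pos h2]
      have e1 := hc 0 ⟨le_rfl, d1⟩ s ⟨hs.1, h2⟩
      have e2 := hc s ⟨hs.1, h2⟩ _ ⟨d1, le_rfl⟩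
      have e3 := hc' 0 ⟨le_rfl, d2⟩ _ mt
      have e4 := hc' _ mt _ ⟨d2, le_rfl⟩
      rw [c0, abs_of_nonpos (by linarith [hs.1])] at e1
      rw [c1, abs_of_nonpos (by linarith)] at e2
      rw [c0', abs_of_nonpos (by linarith)] at e3
      rw [c1', abs_of_nonpos (by linarith [mt.2])] at e4
      have t1 := dist_triangle (c s) x (c' (t - dist y x))
      have t2 := dist_triangle4 y (c s) (c' (t - dist y x)) z
      linarith
    · rw [if_neg h1, if_neg h2, hc' _ ⟨by linarith, by linarith [hs.2]⟩ _ mt,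
        abs_of_nonpos (by linarith)]
      ring
  have hD := dist_nonneg (x := y) (y := z)
  have m : ∀ s ∈ Icc (0 : ℝ) 1, s * dist y z ∈ Icc 0 (dist y z) := fun s hs =>
    ⟨mul_nonneg hs.1 hD, mul_le_of_le_one_left hD hs.2⟩
  refine ⟨fun t => if t * dist y z ≤ dist y x then c (t * dist y z)
    else c' (t * dist y z - dist y x), ⟨hD, 1, one_pos, fun s hs t ht _ => ?_⟩, ?_, ?_, ?_⟩
  · rcases le_total s t with h | h
    · rw [key _ (m s hs) _ (m t ht) (mul_le_mul_of_nonneg_right h hD), abs_of_nonpos (by linarith)]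
      ring
    · rw [dist_comm, key _ (m t ht) _ (m s hs) (mul_le_mul_of_nonneg_right h hD),
        abs_of_nonneg (by linarith)]
      ring
  · simp [c0]
  · simp only [one_mul]
    split_ifs with h
    · have h1 : dist x z = 0 := by linarith
      have h2 : dist y z = dist y x := by linarith
      rw [h2, c1]
      exact dist_eq_zero.1 h1
    · rw [show dist y z - dist y x = dist x z by linarith, c1']
  · simp only [← e, le_refl, if_true, c1]

end

/-- The Cartan-Hadamard theorem for metric spaces. -/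
theorem ugeo_of_simplyConnected {X : Type} [MetricSpace X] [CompleteSpace X]
    [SimplyConnectedSpace X] {ε : ℝ} (h : LocK X ε) (hl : IsLen X) : ∃ δ, UGeo X δ := by
  have hε := h.pos
  have hg := ch_exists h hl
  refine ⟨ε / 64, by positivity, fun y z s h0 h1 => ?_, fun y x x' z b b' e => ?_,
    fun p y z y' z' t hyz b b' e e' t0 t1 => ?_⟩
  · rcases eq_or_ne y z with rfl | hne
    · exact ⟨y, by rw [dist_self] at h1 ⊢; linarith, by simp [Btw]⟩
    obtain ⟨c, c0, c1, hc⟩ := hg y z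
    have hd := dist_pos.2 hne
    have m : s / dist y z ∈ Icc (0 : ℝ) 1 := ⟨div_nonneg h0 hd.le, (div_le_one hd).2 h1⟩
    have e1 := hc 0 ⟨le_rfl, zero_le_one⟩ _ m
    have e2 := hc _ m 1 ⟨zero_le_one, le_rfl⟩
    rw [c0, abs_of_nonpos (by linarith [m.1])] at e1
    rw [c1, abs_of_nonpos (by linarith [m.2])] at e2
    refine ⟨c (s / dist y z), ?_, ?_⟩
    · rw [e1]
      field_simp
      ring
    · unfold Btw
      linarith
  · rcases eq_or_ne y z with rfl | hne
    · unfold Btw at b b'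
      rw [dist_self, dist_comm x y] at b
      rw [dist_self, dist_comm x' y] at b'
      exact (dist_eq_zero.1 (show dist y x = 0 by linarith)).symm.trans
        (dist_eq_zero.1 (by linarith))
    have hd := dist_pos.2 hne
    have m : dist y x / dist y z ∈ Icc (0 : ℝ) 1 := ⟨by positivity, (div_le_one hd).2 (by
      unfold Btw at b
      linarith [dist_nonneg (x := x) (y := z)])⟩
    obtain ⟨c, hc, c0, c1, cx⟩ := ch_through hg b m (by field_simp)
    obtain ⟨c', hc', c0', c1', cx'⟩ := ch_through hg b' m (by rw [← e]; field_simp)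
    rw [← cx, ← cx']
    exact ch_unique h hc hc' (c0.trans c0'.symm) (c1.trans c1'.symm) m
  · obtain ⟨c, hc, c0, c1, cx⟩ := ch_through hg b ⟨t0, t1⟩ e
    obtain ⟨c', hc', c0', c1', cx'⟩ := ch_through hg b' ⟨t0, t1⟩ e'
    obtain ⟨g, w, hg, g0, g1, hd⟩ := hc.move h one_pos hyz.le (p := p) (q := z)
      (by rw [c0, dist_self]; exact dist_nonneg) (by rw [c1])
    have := ch_convex_zero h hc hg (c0.trans g0.symm)
      (fun t ht => by linarith [hd t ht]) ⟨t0, t1⟩
    rw [ch_unique h hg hc' (g0.trans c0'.symm) (g1.trans c1'.symm) ⟨t0, t1⟩, cx, cx', c1,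
      g1] at this
    exact this.trans (mul_le_of_le_one_left dist_nonneg t1)

end Pool.Agent.MP_39b1da_gt
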