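import Pool.Agent.MP_39b1da_gt.Loc

/-! Local geodesics in a space that is locally of curvature at most `-1`. -/

set_option autoImplicit false

namespace Pool.Agent.MP_39b1da_gt

open Filter Topology Set Real

/-- A continuous function that is midpoint convex at small scale lies below its chord. -/
theorem ch_convex {f : ℝ → ℝ} {a b η : ℝ} (hη : 0 < η) (hf : ContinuousOn f (Icc a b))
    (hm : ∀ t h, 0 < h → h ≤ η → a ≤ t - h → t + h ≤ b → 2 * f t ≤ f (t - h) + f (t + h))
    {t : ℝ} (ht : t ∈ Icc a b) : (b - a) * f t ≤ (b - t) * f a + (t - a) * f b := by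
  set g : ℝ → ℝ := fun t => (b - a) * f t - ((b - t) * f a + (t - a) * f b) with hg
  have hgc : ContinuousOn g (Icc a b) := by
    refine (continuousOn_const.mul hf).sub ?_
    fun_prop
  obtain ⟨u, hu, hmax⟩ := isCompact_Icc.exists_isMaxOn ⟨t, ht⟩ hgc
  have hK : IsCompact (Icc a b ∩ g ⁻¹' {g u}) :=
    isCompact_Icc.of_isClosed_subset
      (hgc.preimage_isClosed_of_isClosed isClosed_Icc isClosed_singleton) inter_subset_left
  obtain ⟨w, ⟨hw, hwu⟩, hmin⟩ := hK.exists_isLeast ⟨u, hu, rfl⟩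
  have hwu' : g w = g u := hwu
  by_contra hc
  have h0 : 0 < g u := lt_of_lt_of_le (by simp only [hg]; linarith) (hmax ht)
  have ha : a < w := lt_of_le_of_ne hw.1 (by
    rintro rfl
    simp only [hg] at hwu' h0
    nlinarith)
  have hb : w < b := lt_of_le_of_ne hw.2 (by
    rintro rfl
    simp only [hg] at hwu' h0
    nlinarith)
  set h := min η (min (w - a) (b - w)) with hh
  have h1 : 0 < h := lt_min hη (lt_min (by linarith) (by linarith))
  have h2 : h ≤ η := min_le_left _ _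
  have h3 : h ≤ w - a := (min_le_right _ _).trans (min_le_left _ _)
  have h4 : h ≤ b - w := (min_le_right _ _).trans (min_le_right _ _)
  have m1 : w - h ∈ Icc a b := ⟨by linarith, by linarith⟩
  have m2 : w + h ∈ Icc a b := ⟨by linarith, by linarith⟩
  have l1 : g (w - h) < g u := lt_of_le_of_ne (hmax m1) fun e => by
    have := hmin ⟨m1, e⟩
    linarith
  have l2 : g (w + h) ≤ g u := hmax m2
  have l3 := mul_le_mul_of_nonneg_left (hm w h h1 h2 m1.1 m2.2) (show 0 ≤ b - a by linarith)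
  simp only [hg] at l1 l2 hwu' 
  nlinarith

variable {X : Type} [MetricSpace X] {ε : ℝ}

/-- A local geodesic on `[a, b]` of speed `v`. -/
def ChLG (c : ℝ → X) (a b v : ℝ) : Prop :=
  0 ≤ v ∧ ∃ η > 0, ∀ s ∈ Icc a b, ∀ t ∈ Icc a b, |s - t| ≤ η → dist (c s) (c t) = |s - t| * v

variable {c c' : ℝ → X} {a b v v' : ℝ}

theorem ChLG.mono (h : ChLG c a b v) {a' b' : ℝ} (ha : a ≤ a') (hb : b' ≤ b) : ChLG c a' b' v :=
  let ⟨h0, η, hη, H⟩ := h
  ⟨h0, η, hη, fun s hs t ht => H s (Icc_subset_Icc ha hb hs) t (Icc_subset_Icc ha hb ht)⟩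

theorem ChLG.congr (h : ChLG c a b v) (e : ∀ t ∈ Icc a b, c' t = c t) : ChLG c' a b v :=
  let ⟨h0, η, hη, H⟩ := h
  ⟨h0, η, hη, fun s hs t ht hst => by rw [e s hs, e t ht]; exact H s hs t ht hst⟩

theorem ChLG.lip (h : ChLG c a b v) {s t : ℝ} (hs : s ∈ Icc a b) (ht : t ∈ Icc a b) :
    dist (c s) (c t) ≤ |s - t| * v := by
  obtain ⟨h0, η, hη, H⟩ := h
  have key : ∀ n : ℕ, ∀ s ∈ Icc a b, ∀ t ∈ Icc a b, s ≤ t → t - s ≤ n * η →
      dist (c s) (c t) ≤ (t - s) * v := by
    intro n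
    induction n with
    | zero =>
      intro s _ t _ h1 h2
      obtain rfl : s = t := by simp at h2; linarith
      simp
    | succ n ih =>
      intro s hs t ht h1 h2
      by_cases h3 : t - s ≤ η
      · rw [H s hs t ht (by rw [abs_sub_comm, abs_of_nonneg (by linarith)]; exact h3), abs_sub_comm,
          abs_of_nonneg (by linarith)]
      · have hm : s + η ∈ Icc a b := ⟨by linarith [hs.1], by linarith [ht.2]⟩
        have e1 := H s hs _ hm (by simp [abs_of_pos hη])
        have e2 := ih _ hm t ht (by linarith) (by push_cast at h2; linarith)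
        have e3 := dist_triangle (c s) (c (s + η)) (c t)
        simp only [sub_add_cancel_left, abs_neg, abs_of_pos hη] at e1
        nlinarith
  wlog hst : s ≤ t generalizing s t
  · rw [dist_comm, abs_sub_comm]
    exact this ht hs (by linarith)
  obtain ⟨n, hn⟩ := exists_nat_ge ((t - s) / η)
  rw [abs_sub_comm, abs_of_nonneg (by linarith)]
  exact key n s hs t ht hst ((div_le_iff₀ hη).1 hn)

theorem ChLG.cont (h : ChLG c a b v) : ContinuousOn c (Icc a b) :=
  (LipschitzOnWith.of_dist_le_mul (K := ⟨v, h.1⟩) fun s hs t ht => by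
    have := h.lip hs ht
    rwa [mul_comm] at this).continuousOn

/-- Convexity of the distance of two close local geodesics. -/
theorem ChLG.convex (hK : LocK X ε) (h : ChLG c a b v) (h' : ChLG c' a b v')
    (hd : ∀ t ∈ Icc a b, dist (c t) (c' t) < ε / 8) {t : ℝ} (ht : t ∈ Icc a b) :
    (b - a) * dist (c t) (c' t) ≤ (b - t) * dist (c a) (c' a) + (t - a) * dist (c b) (c' b) := by
  have hc := h.cont
  have hc' := h'.cont
  obtain ⟨h0, η, hη, H⟩ := h
  obtain ⟨h0', η', hη', H'⟩ := h'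
  have hε := hK.pos
  refine ch_convex (f := fun t => dist (c t) (c' t))
    (η := min (min (η / 2) (η' / 2)) (ε / (16 * (v + v' + 1)))) (by positivity)
    (continuous_dist.comp_continuousOn (hc.prodMk hc')) (fun t r hr hr' h1 h2 => ?_) ht
  have r1 : r ≤ η / 2 := hr'.trans ((min_le_left _ _).trans (min_le_left _ _))
  have r2 : r ≤ η' / 2 := hr'.trans ((min_le_left _ _).trans (min_le_right _ _))
  have r3 : r * (16 * (v + v' + 1)) ≤ ε :=
    (le_div_iff₀ (by positivity)).1 (hr'.trans (min_le_right _ _))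
  have m0 : t ∈ Icc a b := ⟨by linarith, by linarith⟩
  have m1 : t - r ∈ Icc a b := ⟨by linarith, by linarith⟩
  have m2 : t + r ∈ Icc a b := ⟨by linarith, by linarith⟩
  have a1 : |t - r - t| = r := by rw [abs_of_nonpos] <;> linarith
  have a2 : |t - (t + r)| = r := by rw [abs_of_nonpos] <;> linarith
  have a3 : |t - r - (t + r)| = 2 * r := by rw [abs_of_nonpos] <;> linarith
  have e1 := H _ m1 _ m0 (by linarith)
  have e2 := H _ m0 _ m2 (by linarith)
  have e3 := H _ m1 _ m2 (by linarith)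
  have f1 := H' _ m1 _ m0 (by linarith)
  have f2 := H' _ m0 _ m2 (by linarith)
  have f3 := H' _ m1 _ m2 (by linarith)
  rw [a1] at e1 f1
  rw [a2] at e2 f2
  rw [a3] at e3 f3
  have p1 : 0 ≤ r * v := by positivity
  have p2 : 0 ≤ r * v' := by positivity
  have d0 := hd t m0
  have t1 := dist_triangle_right (c t) (c' (t - r)) (c' t)
  have t2 := dist_triangle (c t) (c' t) (c' (t + r))
  have := hK.convex (p := c t) (y := c (t - r)) (z := c (t + r)) (x := c t) (y' := c' (t - r))
    (z' := c' (t + r)) (x' := c' t) (t := 1 / 2) ⟨by norm_num, by norm_num⟩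
    (by rw [dist_comm]; nlinarith) (by nlinarith) (by nlinarith) (by nlinarith)
    (by unfold Btw; linarith) (by unfold Btw; linarith) (by linarith) (by linarith)
  linarith

theorem ChLG.glue {a₀ b₀ : ℝ} (h : ChLG c a b₀ v) (h' : ChLG c' a₀ b v') (h1 : a ≤ a₀)
    (h2 : a₀ < b₀) (h3 : b₀ ≤ b) (e : ∀ t ∈ Icc a₀ b₀, c t = c' t) :
    ChLG (fun t => if t ≤ b₀ then c t else c' t) a b v := by
  obtain ⟨h0, η, hη, H⟩ := h
  obtain ⟨h0', η', hη', H'⟩ := h'
  set r := min (min η η') (b₀ - a₀) with hr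
  have r0 : 0 < r := lt_min (lt_min hη hη') (by linarith)
  have r1 : r ≤ η := (min_le_left _ _).trans (min_le_left _ _)
  have r2 : r ≤ η' := (min_le_left _ _).trans (min_le_right _ _)
  have r3 : r ≤ b₀ - a₀ := min_le_right _ _
  have hv : v = v' := by
    have a1 : |a₀ - (a₀ + r)| = r := by rw [abs_of_nonpos] <;> linarith
    have e1 := H a₀ ⟨h1, h2.le⟩ (a₀ + r) ⟨by linarith, by linarith⟩ (by linarith)
    have e2 := H' a₀ ⟨le_rfl, by linarith⟩ (a₀ + r) ⟨by linarith, by linarith⟩ (by linarith)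
    rw [e a₀ ⟨le_rfl, h2.le⟩, e (a₀ + r) ⟨by linarith, by linarith⟩, e2, a1] at e1
    exact (mul_left_cancel₀ r0.ne' e1).symm
  have e' : ∀ t, a₀ ≤ t → (if t ≤ b₀ then c t else c' t) = c' t := by
    intro t ht
    split_ifs with h
    · exact e t ⟨ht, h⟩
    · rfl
  refine ⟨h0, r, r0, fun s hs t ht hst => ?_⟩
  have hst' := abs_le.1 hst
  by_cases hb : s ≤ b₀ ∧ t ≤ b₀
  · simp only [if_pos hb.1, if_pos hb.2]
    exact H s ⟨hs.1, hb.1⟩ t ⟨ht.1, hb.2⟩ (by linarith)
  · have : a₀ ≤ s ∧ a₀ ≤ t := by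
      rw [not_and_or, not_le, not_le] at hb
      rcases hb with hb | hb <;> constructor <;> linarith
    simp only [e' s this.1, e' t this.2, hv]
    exact H' s ⟨this.1, hs.2⟩ t ⟨this.2, ht.2⟩ (by linarith)

/-- End points can be moved on subintervals of length at most `A`. -/
def ChP (c : ℝ → X) (α β r A : ℝ) : Prop :=
  ∀ a b, α ≤ a → a < b → b ≤ β → b - a ≤ A → ∀ p q, dist (c a) p ≤ r → dist (c b) q ≤ r →
    ∃ g w, ChLG g a b w ∧ g a = p ∧ g b = q ∧ ∀ t ∈ Icc a b, dist (c t) (g t) ≤ r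

theorem ch_base (hK : LocK X ε) (h : ChLG c a b v) {r : ℝ} (hr : r ≤ ε / 64) :
    ∃ A > 0, ChP c a b r A := by
  have hε := hK.pos
  have h0 := h.1
  refine ⟨ε / (64 * (v + 1)), by positivity, fun a' b' h1 h2 h3 h4 p q hp hq => ?_⟩
  have h' := h.mono h1 h3
  have h5 : (b' - a') * (64 * (v + 1)) ≤ ε := (le_div_iff₀ (by positivity)).1 h4
  have h6 : ∀ t ∈ Icc a' b', dist (c a') (c t) ≤ ε / 64 := fun t ht => by
    have := h'.lip (left_mem_Icc.2 h2.le) ht
    rw [abs_sub_comm, abs_of_nonneg (by linarith [ht.1])] at this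
    nlinarith [ht.1, ht.2]
  have h7 : dist p q ≤ 3 * (ε / 64) := by
    have := dist_triangle4 p (c a') (c b') q
    rw [dist_comm p (c a')] at this
    linarith [h6 b' (right_mem_Icc.2 h2.le)]
  obtain ⟨g, g0, g1, hg⟩ := hK.exists_geod (y := p) (z := q) (by linarith)
  have hba : 0 < b' - a' := by linarith
  have hm : ∀ t ∈ Icc a' b', (t - a') / (b' - a') ∈ Icc (0 : ℝ) 1 := fun t ht =>
    ⟨div_nonneg (by linarith [ht.1]) hba.le, (div_le_one hba).2 (by linarith [ht.2])⟩
  have hG : ChLG (fun t => g ((t - a') / (b' - a'))) a' b' (dist p q / (b' - a')) := by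
    refine ⟨by positivity, 1, one_pos, fun s hs t ht _ => ?_⟩
    rw [hg _ (hm s hs) _ (hm t ht), ← sub_div, abs_div, abs_of_pos hba]
    simp only [sub_sub_sub_cancel_right]
    ring
  have ea : g ((a' - a') / (b' - a')) = p := by simp [g0]
  have eb : g ((b' - a') / (b' - a')) = q := by rw [div_self hba.ne', g1]
  refine ⟨_, _, hG, ea, eb, fun t ht => ?_⟩
  have := h'.convex hK hG (fun t ht => by
    have e1 := hg 0 (left_mem_Icc.2 zero_le_one) _ (hm t ht)
    rw [g0, zero_sub, abs_neg, abs_of_nonneg (hm t ht).1] at e1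
    have e2 := dist_triangle4 (c t) (c a') p (g ((t - a') / (b' - a')))
    rw [dist_comm (c t) (c a')] at e2
    have e3 := mul_le_of_le_one_left (dist_nonneg (x := p) (y := q)) (hm t ht).2
    linarith [h6 t ht]) ht
  rw [ea, eb] at this
  have e1 := mul_le_mul_of_nonneg_left hp (show 0 ≤ b' - t by linarith [ht.2])
  have e2 := mul_le_mul_of_nonneg_left hq (show 0 ≤ t - a' by linarith [ht.1])
  refine le_of_mul_le_mul_left ?_ hba
  nlinarith

theorem ch_step [CompleteSpace X] (hK : LocK X ε) {α β r A : ℝ} (hr0 : 0 ≤ r) (hr : r ≤ ε / 64)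
    (hP : ChP c α β r A) : ChP c α β r (3 / 2 * A) := by
  intro a b h1 h2 h3 h4 p q hp hq
  have hε := hK.pos
  set a₀ := (2 * a + b) / 3 with ha₀
  set b₀ := (a + 2 * b) / 3 with hb₀
  have i1 : a < a₀ := by linarith
  have i2 : a₀ < b₀ := by linarith
  have i3 : b₀ < b := by linarith
  choose g w hg ga gb gd using fun y : Metric.closedBall (c b₀) r =>
    hP a b₀ h1 (by linarith) (by linarith) (by linarith) p y hp (Metric.mem_closedBall'.1 y.2)
  choose g' w' hg' ga' gb' gd' using fun x : Metric.closedBall (c a₀) r =>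
    hP a₀ b (by linarith) (by linarith) h3 (by linarith) x q (Metric.mem_closedBall'.1 x.2) hq
  have near : ∀ (t : ℝ) (x y : X), dist (c t) x ≤ r → dist (c t) y ≤ r → dist x y < ε / 8 :=
    fun t x y hx hy => by linarith [dist_triangle_left x y (c t)]
  let Φ : Metric.closedBall (c a₀) r × Metric.closedBall (c b₀) r →
      Metric.closedBall (c a₀) r × Metric.closedBall (c b₀) r := fun z =>
    (⟨g z.2 a₀, Metric.mem_closedBall'.2 (gd z.2 a₀ ⟨i1.le, i2.le⟩)⟩,
      ⟨g' z.1 b₀, Metric.mem_closedBall'.2 (gd' z.1 b₀ ⟨i2.le, i3.le⟩)⟩)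
  have hΦ : ContractingWith (1 / 2) Φ := by
    refine ⟨by norm_num, LipschitzWith.of_dist_le_mul fun z z' => ?_⟩
    have e1 := (hg z.2).convex hK (hg z'.2)
      (fun t ht => near t _ _ (gd _ t ht) (gd _ t ht)) (t := a₀) ⟨i1.le, i2.le⟩
    have e2 := (hg' z.1).convex hK (hg' z'.1)
      (fun t ht => near t _ _ (gd' _ t ht) (gd' _ t ht)) (t := b₀) ⟨i2.le, i3.le⟩
    rw [ga, ga, gb, gb, dist_self] at e1
    rw [ga', ga', gb', gb', dist_self] at e2
    have e3 : dist (z.2 : X) z'.2 ≤ dist z z' := le_max_right _ _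
    have e4 : dist (z.1 : X) z'.1 ≤ dist z z' := le_max_left _ _
    have hba : 0 < b - a := by linarith
    have f1 : b₀ - a = 2 / 3 * (b - a) := by linarith
    have f2 : a₀ - a = 1 / 3 * (b - a) := by linarith
    have f3 : b - a₀ = 2 / 3 * (b - a) := by linarith
    have f4 : b - b₀ = 1 / 3 * (b - a) := by linarith
    rw [f1, f2] at e1
    rw [f3, f4] at e2
    refine max_le ?_ ?_
    · change dist (g z.2 a₀) (g z'.2 a₀) ≤ _
      push_cast
      refine le_of_mul_le_mul_left ?_ hba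
      nlinarith
    · change dist (g' z.1 b₀) (g' z'.1 b₀) ≤ _
      push_cast
      refine le_of_mul_le_mul_left ?_ hba
      nlinarith
  have := (Metric.isClosed_closedBall (x := c a₀) (ε := r)).completeSpace_coe
  have := (Metric.isClosed_closedBall (x := c b₀) (ε := r)).completeSpace_coe
  obtain ⟨⟨x, y⟩, hz, -⟩ := hΦ.exists_fixedPoint
    (⟨c a₀, Metric.mem_closedBall_self hr0⟩, ⟨c b₀, Metric.mem_closedBall_self hr0⟩)
    (edist_ne_top _ _)
  have e1 : g y a₀ = x := congrArg (fun z => (z.1 : X)) hz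
  have e2 : g' x b₀ = y := congrArg (fun z => (z.2 : X)) hz
  have e : ∀ t ∈ Icc a₀ b₀, g y t = g' x t := fun t ht => by
    have := ((hg y).mono i1.le le_rfl).convex hK ((hg' x).mono le_rfl i3.le)
      (fun t ht => near t _ _ (gd _ t ⟨by linarith [ht.1], ht.2⟩)
        (gd' _ t ⟨ht.1, by linarith [ht.2]⟩)) ht
    rw [e1, ga', gb, e2, dist_self, dist_self, mul_zero, mul_zero, add_zero] at this
    refine dist_le_zero.1 (le_of_mul_le_mul_left ?_ (show 0 < b₀ - a₀ by linarith))
    rwa [mul_zero]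
  refine ⟨_, _, (hg y).glue (hg' x) i1.le i2 i3.le e, ?_, ?_, fun t ht => ?_⟩
  · rw [if_pos (by linarith), ga]
  · rw [if_neg (by linarith), gb']
  · split_ifs with h
    · exact gd y t ⟨ht.1, h⟩
    · exact gd' x t ⟨by linarith, ht.2⟩

/-- The end points of a local geodesic can be moved. -/
theorem ChLG.move [CompleteSpace X] (hK : LocK X ε) (h : ChLG c a b v) (hab : a < b) {r : ℝ}
    (hr : r ≤ ε / 64) {p q : X} (hp : dist (c a) p ≤ r) (hq : dist (c b) q ≤ r) :
    ∃ g w, ChLG g a b w ∧ g a = p ∧ g b = q ∧ ∀ t ∈ Icc a b, dist (c t) (g t) ≤ r := by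
  obtain ⟨A, hA, hP⟩ := ch_base hK h hr
  have key : ∀ n : ℕ, ChP c a b r ((3 / 2) ^ n * A) := by
    intro n
    induction n with
    | zero => simpa using hP
    | succ n ih =>
      have := ch_step hK (dist_nonneg.trans hp) hr ih
      rwa [← mul_assoc, ← pow_succ'] at this
  obtain ⟨n, hn⟩ := pow_unbounded_of_one_lt ((b - a) / A) (show (1 : ℝ) < 3 / 2 by norm_num)
  exact key n a b le_rfl hab le_rfl ((div_le_iff₀ hA).1 hn.le) p q hp hq

end Pool.Agent.MP_39b1da_gt
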