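import Pool.Agent.MP_39b1da_gt.Charts1
import Pool.Agent.MP_39b1da_gt.Loc

set_option autoImplicit false

namespace Pool.Agent.MP_39b1da_gt

open Filter Topology Set Real
open scoped ENNReal NNReal ContDiff InnerProductSpace

variable {m : ℕ}

theorem ch_root {k : ℕ} (hk : 1 ≤ k) (b : Bool) (ξ : ℂ) (h : b = false → 1 / 16 < ‖ξ‖) :
    ∃ R : OpenPartialHomeomorph ℂ ℂ, b = false →
      ξ ∈ R.source ∧ beta k = R ∧ ∀ z ∈ R.source, 1 / 16 < ‖z‖ := by
  cases b
  · have h0 : ξ ≠ 0 := by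
      rintro rfl
      have := h rfl
      norm_num at this
    obtain ⟨R, hR, e⟩ := ch_beta_local hk ξ h0
    have ho : IsOpen {z : ℂ | 1 / 16 < ‖z‖} := isOpen_lt continuous_const continuous_norm
    exact ⟨R.restrOpen _ ho, fun _ => ⟨⟨hR, h rfl⟩, e, fun z hz => hz.2⟩⟩
  · exact ⟨OpenPartialHomeomorph.refl ℂ, fun h => by simp at h⟩

theorem ch_q_local (D : Setup m) : IsLocalHomeomorph D.q := by
  obtain ⟨δ, h⟩ := D.q_iso
  exact h.isCoveringMap.isLocalHomeomorph

/-- The chart attached to local data. -/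
theorem ch_build (D : Setup m) {k : ℕ} (hk : 1 ≤ k) (x : BM D k) (p : Hyp (Euc m))
    (hp : D.q p = x.1.1) (b1 b2 : Bool) (Φ : Lor (Euc m))
    (h1 : b1 = true → ∀ᶠ y in 𝓝 p, D.F1 (D.q y) = Z1 (Φ • y).val)
    (h2 : b2 = true → ∀ᶠ y in 𝓝 p, D.F2 (D.q y) = Z2 (Φ • y).val)
    (u1 : b1 = false → 1 / 16 < ‖x.1.2.1‖) (u2 : b2 = false → 1 / 16 < ‖x.1.2.2‖) :
    ∃ c : BChart D k, x ∈ c.e.source := by
  classical
  obtain ⟨R1, hR1⟩ := ch_root hk b1 _ u1
  obtain ⟨R2, hR2⟩ := ch_root hk b2 _ u2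
  obtain ⟨Q, hQp, hQ⟩ := ch_q_local D p
  have hqc : Continuous D.q := (ch_q_local D).continuous
  have hK : ∀ b : Bool, 1 ≤ cond b k 1 := fun b => by cases b <;> simp [hk]
  have hW : ∀ᶠ y in 𝓝 p, y ∈ Q.source ∧ (b1 = true → D.F1 (D.q y) = Z1 (Φ • y).val) ∧
      (b2 = true → D.F2 (D.q y) = Z2 (Φ • y).val) ∧ (b1 = false → D.F1 (D.q y) ∈ R1.target) ∧
      (b2 = false → D.F2 (D.q y) ∈ R2.target) := by
    refine (Q.open_source.eventually_mem hQp).and (Eventually.and ?_ (Eventually.and ?_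
      (Eventually.and ?_ ?_)))
    · exact eventually_imp_distrib_left.2 h1
    · exact eventually_imp_distrib_left.2 h2
    · refine eventually_imp_distrib_left.2 fun h => ?_
      refine (D.F1_cont.comp hqc).continuousAt.preimage_mem_nhds (R1.open_target.mem_nhds ?_)
      rw [Function.comp, hp, ← x.2.1, congrFun (hR1 h).2.1]
      exact R1.map_source (hR1 h).1
    · refine eventually_imp_distrib_left.2 fun h => ?_
      refine (D.F2_cont.comp hqc).continuousAt.preimage_mem_nhds (R2.open_target.mem_nhds ?_)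
      rw [Function.comp, hp, ← x.2.2, congrFun (hR2 h).2.1]
      exact R2.map_source (hR2 h).1
  obtain ⟨W, hWs, hWo, hpW⟩ := eventually_nhds_iff.1 hW
  let P : Euc m → Hyp (Euc m) := fun η => Φ⁻¹ • Hyp.mk (pr (cond b1 k 1) (cond b2 k 1) η)
  have hPc : Continuous P :=
    (continuous_const_smul _).comp (continuous_mk.comp (continuous_pr (hK _) (hK _)))
  have hPv : ∀ η, (Φ • P η).val = pr (cond b1 k 1) (cond b2 k 1) η := fun η => by
    simp only [P, smul_inv_smul, Hyp.val_mk]
  let g : Euc m → D.N × ℂ × ℂ := fun η => (D.q (P η),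
    cond b1 (Z1 η) (R1.symm (D.F1 (D.q (P η)))), cond b2 (Z2 η) (R2.symm (D.F2 (D.q (P η)))))
  have hg : ∀ η, P η ∈ W → beta k (g η).2.1 = D.F1 (g η).1 ∧ beta k (g η).2.2 = D.F2 (g η).1 := by
    intro η hη
    obtain ⟨-, a1, a2, a3, a4⟩ := hWs _ hη
    constructor
    · cases b1
      · rw [(hR1 rfl).2.1]; exact R1.right_inv (a3 rfl)
      · exact ((a1 rfl).trans (by rw [hPv, pr_eq, Z1_chSet]; rfl)).symm
    · cases b2
      · rw [(hR2 rfl).2.1]; exact R2.right_inv (a4 rfl)
      · exact ((a2 rfl).trans (by rw [hPv, pr_eq, Z2_chSet]; rfl)).symm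
  let Y : BM D k → Euc m := fun z => (Φ • Q.symm z.1.1).val
  let t : BM D k → Euc m := fun z =>
    chSet (Y z) (cond b1 z.1.2.1 (Z1 (Y z))) (cond b2 z.1.2.2 (Z2 (Y z)))
  let src : Set (BM D k) := {z | z.1.1 ∈ Q.target ∧ Q.symm z.1.1 ∈ W ∧
    (b1 = false → z.1.2.1 ∈ R1.source) ∧ (b2 = false → z.1.2.2 ∈ R2.source)}
  let inv : Euc m → BM D k := fun η => if h : P η ∈ W then ⟨g η, hg η h⟩ else x
  have hinv : ∀ η, P η ∈ W → (inv η).1 = g η := fun η h => by simp only [inv, dif_pos h]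
  have hPt : ∀ z ∈ src, P (t z) = Q.symm z.1.1 := by
    rintro z ⟨z1, z2, -, -⟩
    obtain ⟨-, a1, a2, -, -⟩ := hWs _ z2
    have hz : D.q (Q.symm z.1.1) = z.1.1 := by rw [hQ]; exact Q.right_inv z1
    rw [hz] at a1 a2
    have e1 : beta (cond b1 k 1) (cond b1 z.1.2.1 (Z1 (Y z))) = Z1 (Y z) := by
      cases b1
      · exact ch_beta_one _
      · exact z.2.1.trans (a1 rfl)
    have e2 : beta (cond b2 k 1) (cond b2 z.1.2.2 (Z2 (Y z))) = Z2 (Y z) := by
      cases b2
      · exact ch_beta_one _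
      · exact z.2.2.trans (a2 rfl)
    simp only [P, t, pr_eq, Z1_chSet, Z2_chSet, chSet_chSet, e1, e2, chSet_self, Y, Hyp.mk_val,
      inv_smul_smul]
  have hsrc : ∀ η, P η ∈ W → inv η ∈ src := by
    intro η hη
    obtain ⟨a0, -, -, a3, a4⟩ := hWs _ hη
    simp only [src, mem_ofPred_eq, hinv η hη, g]
    refine ⟨by rw [hQ]; exact Q.map_source a0, by rw [hQ, Q.left_inv a0]; exact hη,
      fun h => ?_, fun h => ?_⟩
    · subst h; exact R1.map_target (a3 rfl)
    · subst h; exact R2.map_target (a4 rfl)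
  have hval : Continuous fun z : BM D k => z.1 := continuous_subtype_val
  have hYc : ContinuousOn Y src := by
    refine (continuous_val.comp (continuous_const_smul Φ)).comp_continuousOn ?_
    exact Q.continuousOn_symm.comp hval.fst.continuousOn fun z hz => hz.1
  let e : OpenPartialHomeomorph (BM D k) (Euc m) :=
    { toFun := t
      invFun := inv
      source := src
      target := P ⁻¹' W
      map_source' := fun z hz => by rw [mem_preimage, hPt z hz]; exact hz.2.1
      map_target' := hsrc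
      left_inv' := by
        intro z hz
        have hzW : P (t z) ∈ W := by rw [hPt z hz]; exact hz.2.1
        have hz1 : D.q (Q.symm z.1.1) = z.1.1 := by rw [hQ]; exact Q.right_inv hz.1
        refine Subtype.ext ?_
        rw [hinv _ hzW]
        simp only [g, hPt z hz, hz1]
        refine Prod.ext rfl (Prod.ext ?_ ?_)
        · cases b1
          · change R1.symm _ = _
            exact (congrArg R1.symm (z.2.1.symm.trans (congrFun (hR1 rfl).2.1 _))).trans
              (R1.left_inv (hz.2.2.1 rfl))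
          · exact Z1_chSet _ _ _
        · cases b2
          · change R2.symm _ = _
            exact (congrArg R2.symm (z.2.2.symm.trans (congrFun (hR2 rfl).2.1 _))).trans
              (R2.left_inv (hz.2.2.2 rfl))
          · exact Z2_chSet _ _ _
      right_inv' := by
        intro η hη
        have hY : Y (inv η) = pr (cond b1 k 1) (cond b2 k 1) η := by
          simp only [Y, hinv η hη, g]
          rw [hQ, Q.left_inv (hWs _ hη).1, hPv]
        have e1 : cond b1 (inv η).1.2.1 (Z1 (Y (inv η))) = Z1 η := by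
          rw [hY, hinv η hη, pr_eq, Z1_chSet]
          cases b1
          · exact ch_beta_one _
          · rfl
        have e2 : cond b2 (inv η).1.2.2 (Z2 (Y (inv η))) = Z2 η := by
          rw [hY, hinv η hη, pr_eq, Z2_chSet]
          cases b2
          · exact ch_beta_one _
          · rfl
        change chSet (Y (inv η)) _ _ = η
        rw [e1, e2, hY, pr_eq, chSet_chSet, chSet_self]
      continuousOn_toFun := by
        refine ch_continuous_set.comp_continuousOn (f := fun z : BM D k =>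
          (Y z, cond b1 z.1.2.1 (Z1 (Y z)), cond b2 z.1.2.2 (Z2 (Y z))))
          (hYc.prodMk (ContinuousOn.prodMk ?_ ?_))
        · cases b1
          · exact ch_continuous_Z1.comp_continuousOn hYc
          · exact hval.snd.fst.continuousOn
        · cases b2
          · exact ch_continuous_Z2.comp_continuousOn hYc
          · exact hval.snd.snd.continuousOn
      continuousOn_invFun := by
        have hgc : ContinuousOn g (P ⁻¹' W) := by
          refine (hqc.comp hPc).continuousOn.prodMk (ContinuousOn.prodMk ?_ ?_)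
          · cases b1
            · exact R1.continuousOn_symm.comp (D.F1_cont.comp (hqc.comp hPc)).continuousOn
                fun η hη => (hWs _ hη).2.2.2.1 rfl
            · exact ch_continuous_Z1.continuousOn
          · cases b2
            · exact R2.continuousOn_symm.comp (D.F2_cont.comp (hqc.comp hPc)).continuousOn
                fun η hη => (hWs _ hη).2.2.2.2 rfl
            · exact ch_continuous_Z2.continuousOn
        exact (IsInducing.subtypeVal.continuousOn_iff (f := inv)).2 (hgc.congr hinv)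
      open_source := by
        have o1 : IsOpen ((fun z : BM D k => z.1.1) ⁻¹' (Q.target ∩ Q.symm ⁻¹' W)) :=
          (Q.symm.isOpen_inter_preimage hWo).preimage hval.fst
        have o2 : IsOpen {z : BM D k | b1 = false → z.1.2.1 ∈ R1.source} := by
          cases b1
          · simp only [forall_true_left]; exact R1.open_source.preimage hval.snd.fst
          · simp
        have o3 : IsOpen {z : BM D k | b2 = false → z.1.2.2 ∈ R2.source} := by
          cases b2
          · simp only [forall_true_left]; exact R2.open_source.preimage hval.snd.snd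
          · simp
        convert o1.inter (o2.inter o3) using 1
        ext z
        simp only [src, mem_ofPred_eq, mem_inter_iff, mem_preimage, and_assoc]
      open_target := hWo.preimage hPc }
  have hev : ∀ η, P η ∈ W → ∀ᶠ y in 𝓝 (Hyp.mk (pr (cond b1 k 1) (cond b2 k 1) η)),
      Φ⁻¹ • y ∈ W := fun η hη =>
    (continuous_const_smul Φ⁻¹).continuousAt.preimage_mem_nhds (hWo.mem_nhds hη)
  have hpQ : Q.symm x.1.1 = p := by rw [← hp, hQ]; exact Q.left_inv hQp
  refine ⟨⟨e, b1, b2, Φ, fun η hη => congrArg Prod.fst (hinv η hη), fun h η hη => ⟨?_, ?_⟩,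
    fun h η hη => ⟨?_, ?_⟩, fun h η hη => (hR1 h).2.2 _ ((hsrc η hη).2.2.1 h),
    fun h η hη => (hR2 h).2.2 _ ((hsrc η hη).2.2.2 h)⟩, ?_⟩
  · subst h; exact congrArg (fun z => z.2.1) (hinv η hη)
  · filter_upwards [hev η hη] with y hy
    simpa only [smul_inv_smul] using (hWs _ hy).2.1 h
  · subst h; exact congrArg (fun z => z.2.2) (hinv η hη)
  · filter_upwards [hev η hη] with y hy
    simpa only [smul_inv_smul] using (hWs _ hy).2.2.1 h
  · exact ⟨by rw [← hp, hQ]; exact Q.map_source hQp, by rw [hpQ]; exact hpW,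
      fun h => (hR1 h).1, fun h => (hR2 h).1⟩

theorem ch_norm_mk (a b : ℝ) (h : ¬(|a| < 1 / 8 ∧ |b| < 1 / 8)) : 1 / 16 < ‖(⟨a, b⟩ : ℂ)‖ := by
  have h1 := Complex.abs_re_le_norm ⟨a, b⟩
  have h2 := Complex.abs_im_le_norm ⟨a, b⟩
  simp only at h1 h2
  by_contra hc
  exact h ⟨by linarith, by linarith⟩

theorem exists_chart (D : Setup m) {k : ℕ} (hk : 1 ≤ k) (x : BM D k) :
    ∃ c : BChart D k, x ∈ c.e.source := by
  classical
  obtain ⟨p, hp⟩ := D.q_surj x.1.1
  have hv : ∀ c, ∃ v : ℝ × Euc m, |D.f c p| < 1 / 8 →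
      v ∈ D.S c ∧ ∀ᶠ y in 𝓝 p, D.f c y = lor (lift y) v := by
    intro c
    by_cases h : |D.f c p| < 1 / 8
    · obtain ⟨v, h1, h2⟩ := D.f_near c p (by linarith)
      exact ⟨v, fun _ => ⟨h1, h2⟩⟩
    · exact ⟨0, fun h' => absurd h' h⟩
  choose v hv using hv
  have hs : ∀ c, |D.f c p| < 1 / 8 → |lor (lift p) (v c)| < 1 / 2 := fun c h => by
    rw [← (hv c h).2.self_of_nhds]; linarith
  obtain ⟨Φ, hΦ⟩ := exists_frame {c | |D.f c p| < 1 / 8} v
    (fun c hc => D.unit c _ (hv c hc).1) (fun c hc c' hc' hne => by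
      have := abs_lor_lt (D.unit c _ (hv c hc).1) (D.unit c' _ (hv c' hc').1) (hs c hc) (hs c' hc')
      exact (D.diff c c' hne _ (hv c hc).1 _ (hv c' hc').1).resolve_right (by linarith))
  have hf : ∀ c, |D.f c p| < 1 / 8 → ∀ᶠ y in 𝓝 p, D.f c y = (Φ • y).val (![0, 1, 2, 3] c) := by
    intro c hc
    filter_upwards [(hv c hc).2] with y hy
    rw [hy, ← Φ.2.1, hΦ c hc, val_smul]
    simp [lor, EuclideanSpace.inner_single_right]
  refine ch_build D hk x p hp (decide (|D.f 0 p| < 1 / 8 ∧ |D.f 1 p| < 1 / 8))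
    (decide (|D.f 2 p| < 1 / 8 ∧ |D.f 3 p| < 1 / 8)) Φ (fun h => ?_) (fun h => ?_) (fun h => ?_)
    (fun h => ?_)
  · obtain ⟨a, b⟩ := of_decide_eq_true h
    filter_upwards [hf 0 a, hf 1 b] with y y0 y1
    rw [D.F1_q, y0, y1]; rfl
  · obtain ⟨a, b⟩ := of_decide_eq_true h
    filter_upwards [hf 2 a, hf 3 b] with y y0 y1
    rw [D.F2_q, y0, y1]; rfl
  · rw [← norm_beta hk, x.2.1, ← hp, D.F1_q]
    exact ch_norm_mk _ _ (of_decide_eq_false h)
  · rw [← norm_beta hk, x.2.2, ← hp, D.F2_q]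
    exact ch_norm_mk _ _ (of_decide_eq_false h)

theorem compact_BM (D : Setup m) {k : ℕ} (hk : 1 ≤ k) : CompactSpace (BM D k) := by
  have hb := continuous_beta hk
  have h1 := D.F1_cont
  have h2 := D.F2_cont
  have hc : IsClosed {p : D.N × ℂ × ℂ | beta k p.2.1 = D.F1 p.1 ∧ beta k p.2.2 = D.F2 p.1} :=
    (isClosed_eq (by fun_prop) (by fun_prop)).inter (isClosed_eq (by fun_prop) (by fun_prop))
  have hn : ∀ a b : ℝ, |a| ≤ 1 / 4 → |b| ≤ 1 / 4 → ‖(⟨a, b⟩ : ℂ)‖ ≤ 1 := fun a b ha hb =>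
    (Complex.norm_le_abs_re_add_abs_im _).trans (by simp only; linarith)
  have hK : IsCompact ((univ : Set D.N) ×ˢ (Metric.closedBall (0 : ℂ) 1 ×ˢ
      Metric.closedBall (0 : ℂ) 1)) :=
    isCompact_univ.prod ((isCompact_closedBall _ _).prod (isCompact_closedBall _ _))
  refine isCompact_iff_compactSpace.1 (hK.of_isClosed_subset hc ?_)
  rintro ⟨n, a, b⟩ ⟨e1, e2⟩
  obtain ⟨p, rfl⟩ := D.q_surj n
  refine ⟨trivial, ?_, ?_⟩
  · rw [mem_closedBall_zero_iff, ← norm_beta hk, e1, D.F1_q]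
    exact hn _ _ (D.f_le _ _) (D.f_le _ _)
  · rw [mem_closedBall_zero_iff, ← norm_beta hk, e2, D.F2_q]
    exact hn _ _ (D.f_le _ _) (D.f_le _ _)

theorem ch_proj_open (D : Setup m) {k : ℕ} (hk : 1 ≤ k) :
    IsOpenMap fun z : BM D k => z.1.1 := by
  refine isOpenMap_iff_nhds_le.2 fun x U hU => ?_
  obtain ⟨c, hc⟩ := exists_chart D hk x
  have hK : ∀ b : Bool, 1 ≤ cond b k 1 := fun b => by cases b <;> simp [hk]
  have ho : IsOpenMap fun η : Euc m =>
      D.q (c.Φ⁻¹ • Hyp.mk (pr (cond c.b1 k 1) (cond c.b2 k 1) η)) :=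
    (ch_q_local D).isOpenMap.comp ((isOpenMap_smul c.Φ⁻¹).comp
      (ch_pr_open (m := m) (hK c.b1) (hK c.b2)))
  have h1 : c.e.target ∩ c.e.symm ⁻¹' ((fun z : BM D k => z.1.1) ⁻¹' U) ∈ 𝓝 (c.e x) := by
    refine inter_mem (c.e.open_target.mem_nhds (c.e.map_source hc)) ?_
    refine (c.e.continuousAt_symm (c.e.map_source hc)).preimage_mem_nhds ?_
    rw [c.e.left_inv hc]
    exact mem_map.1 hU
  have h2 := ho.image_mem_nhds h1
  rw [← c.base _ (c.e.map_source hc), c.e.left_inv hc] at h2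
  refine mem_of_superset h2 ?_
  rintro _ ⟨η, ⟨h3, h4⟩, rfl⟩
  exact mem_of_eq_of_mem (c.base _ h3).symm h4

theorem connected_BM (D : Setup m) {k : ℕ} (hk : 1 ≤ k) : ConnectedSpace (BM D k) := by
  have := compact_BM D hk
  have : ConnectedSpace (Hyp (Euc m)) := inferInstanceAs (ConnectedSpace (Euc m))
  have : ConnectedSpace D.N := D.q_surj.connectedSpace (ch_q_local D).continuous
  obtain ⟨p, hp⟩ := D.quad
  have hf : ∀ c, D.f c p = 0 := fun c => by
    obtain ⟨v, hv, h0⟩ := hp c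
    have := D.f_abs c p v hv (by rw [h0]; norm_num)
    rwa [h0, abs_zero, abs_eq_zero] at this
  have hb : ∀ z, beta k z = 0 ↔ z = 0 := fun z => by rw [← norm_eq_zero, norm_beta hk, norm_eq_zero]
  have e1 : D.F1 (D.q p) = 0 := by rw [D.F1_q, hf, hf]; rfl
  have e2 : D.F2 (D.q p) = 0 := by rw [D.F2_q, hf, hf]; rfl
  let x₀ : BM D k := ⟨(D.q p, 0, 0), ((hb 0).2 rfl).trans e1.symm, ((hb 0).2 rfl).trans e2.symm⟩
  have hc : Continuous fun z : BM D k => z.1.1 := continuous_subtype_val.fst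
  have key : ∀ U : Set (BM D k), IsClopen U → U.Nonempty → x₀ ∈ U := by
    intro U hU hne
    have h1 : IsClopen ((fun z : BM D k => z.1.1) '' U) :=
      ⟨(hU.1.isCompact.image hc).isClosed, ch_proj_open D hk _ hU.2⟩
    obtain ⟨z, hz, e⟩ : D.q p ∈ (fun z : BM D k => z.1.1) '' U := by
      rw [h1.eq_univ (hne.image _)]; trivial
    have : z = x₀ := by
      refine Subtype.ext (Prod.ext e (Prod.ext ((hb _).1 ?_) ((hb _).1 ?_)))
      · exact z.2.1.trans ((congrArg D.F1 e).trans e1)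
      · exact z.2.2.trans ((congrArg D.F2 e).trans e2)
    exact this ▸ hz
  have : PreconnectedSpace (BM D k) := by
    refine preconnectedSpace_iff_clopen.2 fun U hU => ?_
    by_contra h
    push Not at h
    exact key _ hU.compl (nonempty_compl.2 h.2) (key _ hU h.1)
  exact ⟨⟨x₀⟩⟩

end Pool.Agent.MP_39b1da_gt
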