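import Pool.Agent.MP_39b1da_gt.Cone

set_option autoImplicit false

namespace Pool.Agent.MP_39b1da_gt

open Filter Topology Set Real
open scoped ENNReal NNReal ContDiff InnerProductSpace

variable {m : ℕ}

/-- Replace the two complex coordinates. -/
noncomputable def chSet (y : Euc m) (a b : ℂ) : Euc m := y + I1 m (a - Z1 y) + I2 m (b - Z2 y)

theorem ch_ne (m : ℕ) : (0 : Fin (m + 4)) ≠ 1 ∧ (0 : Fin (m + 4)) ≠ 2 ∧ (0 : Fin (m + 4)) ≠ 3 ∧
    (1 : Fin (m + 4)) ≠ 2 ∧ (1 : Fin (m + 4)) ≠ 3 ∧ (2 : Fin (m + 4)) ≠ 3 := by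
  have h2 : ((2 : Fin (m + 4)) : ℕ) = 2 := Nat.mod_eq_of_lt (show 2 < m + 4 by omega)
  have h3 : ((3 : Fin (m + 4)) : ℕ) = 3 := Nat.mod_eq_of_lt (show 3 < m + 4 by omega)
  have h1 : ((1 : Fin (m + 4)) : ℕ) = 1 := rfl
  have h0 : ((0 : Fin (m + 4)) : ℕ) = 0 := rfl
  simp only [ne_eq, Fin.ext_iff, h0, h1, h2, h3]
  decide

theorem chSet_apply (y : Euc m) (a b : ℂ) (i : Fin (m + 4)) : chSet y a b i =
    if i = 0 then a.re else if i = 1 then a.im else if i = 2 then b.re else if i = 3 then b.im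
      else y i := by
  obtain ⟨h1, h2, h3, h4, h5, h6⟩ := ch_ne m
  simp only [chSet, I1, I2, Z1, Z2, PiLp.add_apply, EuclideanSpace.single, PiLp.single_apply,
    Complex.sub_re, Complex.sub_im]
  split_ifs <;> simp_all

theorem Z1_chSet (y : Euc m) (a b : ℂ) : Z1 (chSet y a b) = a := by
  obtain ⟨h1, h2, h3, h4, h5, h6⟩ := ch_ne m
  apply Complex.ext <;> simp [Z1, chSet_apply]

theorem Z2_chSet (y : Euc m) (a b : ℂ) : Z2 (chSet y a b) = b := by
  obtain ⟨h1, h2, h3, h4, h5, h6⟩ := ch_ne m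
  apply Complex.ext <;> simp [Z2, chSet_apply, h2.symm, h3.symm, h4.symm, h5.symm, h6.symm]

theorem chSet_chSet (y : Euc m) (a b c d : ℂ) : chSet (chSet y a b) c d = chSet y c d := by
  ext i
  simp only [chSet_apply]
  split_ifs <;> rfl

theorem chSet_self (y : Euc m) : chSet y (Z1 y) (Z2 y) = y := by
  ext i
  rw [chSet_apply]
  split_ifs <;> simp_all [Z1, Z2]

theorem pr_eq (k₁ k₂ : ℕ) (y : Euc m) :
    pr k₁ k₂ y = chSet y (beta k₁ (Z1 y)) (beta k₂ (Z2 y)) := rfl

theorem ch_beta_one (z : ℂ) : beta 1 z = z := by simp [beta]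

@[fun_prop] theorem ch_continuous_Z1 : Continuous (Z1 : Euc m → ℂ) := by
  have : (Z1 : Euc m → ℂ) = fun x => (x 0 : ℝ) + (x 1 : ℝ) * Complex.I := by
    funext x; apply Complex.ext <;> simp [Z1]
  rw [this]; fun_prop

@[fun_prop] theorem ch_continuous_Z2 : Continuous (Z2 : Euc m → ℂ) := by
  have : (Z2 : Euc m → ℂ) = fun x => (x 2 : ℝ) + (x 3 : ℝ) * Complex.I := by
    funext x; apply Complex.ext <;> simp [Z2]
  rw [this]; fun_prop

theorem ch_continuous_single (i : Fin (m + 4)) :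
    Continuous fun r : ℝ => (EuclideanSpace.single i r : Euc m) := by
  have : (fun r : ℝ => (EuclideanSpace.single i r : Euc m)) =
      fun r : ℝ => r • (EuclideanSpace.single i (1 : ℝ) : Euc m) := by
    funext r; ext j; simp [PiLp.single_apply]
  rw [this]; fun_prop

@[fun_prop] theorem ch_continuous_I1 : Continuous (I1 m) :=
  ((ch_continuous_single 0).comp Complex.continuous_re).add
    ((ch_continuous_single 1).comp Complex.continuous_im)

@[fun_prop] theorem ch_continuous_I2 : Continuous (I2 m) :=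
  ((ch_continuous_single 2).comp Complex.continuous_re).add
    ((ch_continuous_single 3).comp Complex.continuous_im)

theorem ch_continuous_set : Continuous fun p : Euc m × ℂ × ℂ => chSet p.1 p.2.1 p.2.2 := by
  unfold chSet; fun_prop

theorem ch_beta_exp {k : ℕ} (hk : 1 ≤ k) (u : ℂ) :
    beta k (Complex.exp u) = Complex.exp (u.re + k * u.im * Complex.I) := by
  obtain ⟨j, rfl⟩ := Nat.exists_eq_add_of_le' hk
  rw [beta, Complex.norm_exp, Nat.add_sub_cancel, Complex.ofReal_exp, ← Complex.exp_nat_mul,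
    ← Complex.exp_nat_mul, ← Complex.exp_sub]
  congr 1
  apply Complex.ext <;> simp
  ring

theorem ch_isLocalHomeomorph_exp : IsLocalHomeomorph Complex.exp :=
  (isOpen_ne.isOpenEmbedding_subtypeVal.isLocalHomeomorph).comp
    Complex.isCoveringMap_exp.isLocalHomeomorph

theorem ch_beta_local {k : ℕ} (hk : 1 ≤ k) : IsLocalHomeomorphOn (beta k) {z | z ≠ 0} := by
  have hk0 : (k : ℝ) ≠ 0 := by positivity
  let L : ℂ ≃ₜ ℂ :=
    { toFun := fun u => u.re + k * u.im * Complex.I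
      invFun := fun u => u.re + (u.im / k : ℝ) * Complex.I
      left_inv := fun u => by apply Complex.ext <;> simp [hk0]
      right_inv := fun u => by
        apply Complex.ext
        · simp
        · simp; field_simp
      continuous_toFun := by fun_prop
      continuous_invFun := by fun_prop }
  have h1 : beta k ∘ Complex.exp = Complex.exp ∘ L := funext fun u => ch_beta_exp hk u
  have h2 : IsLocalHomeomorphOn (beta k ∘ Complex.exp) univ := by
    rw [h1]
    exact (ch_isLocalHomeomorph_exp.comp L.isLocalHomeomorph).isLocalHomeomorphOn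
  have := h2.of_comp_right ch_isLocalHomeomorph_exp.isLocalHomeomorphOn
  rwa [image_univ, Complex.range_exp] at this

theorem ch_beta_surj {k : ℕ} (hk : 1 ≤ k) (w : ℂ) : ∃ z, beta k z = w := by
  rcases eq_or_ne w 0 with rfl | hw
  · exact ⟨0, norm_eq_zero.1 (by rw [norm_beta hk, norm_zero])⟩
  · have hk0 : (k : ℝ) ≠ 0 := by positivity
    refine ⟨Complex.exp ((Complex.log w).re + ((Complex.log w).im / k : ℝ) * Complex.I), ?_⟩
    rw [ch_beta_exp hk]
    conv_rhs => rw [← Complex.exp_log hw]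
    congr 1
    apply Complex.ext
    · simp
    · simp; field_simp

theorem ch_beta_open {k : ℕ} (hk : 1 ≤ k) : IsOpenMap (beta k) := by
  refine isOpenMap_iff_nhds_le.2 fun z => ?_
  rcases eq_or_ne z 0 with rfl | hz
  · intro U hU
    obtain ⟨r, hr, h⟩ := Metric.mem_nhds_iff.1 (mem_map.1 hU)
    have h0 : beta k 0 = 0 := norm_eq_zero.1 (by rw [norm_beta hk, norm_zero])
    rw [h0]
    refine mem_of_superset (Metric.ball_mem_nhds 0 hr) fun w hw => ?_
    obtain ⟨z, rfl⟩ := ch_beta_surj hk w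
    exact h (by simpa [norm_beta hk] using hw)
  · exact ((ch_beta_local hk).map_nhds_eq hz).ge

theorem ch_pr_open {k₁ k₂ : ℕ} (h₁ : 1 ≤ k₁) (h₂ : 1 ≤ k₂) :
    IsOpenMap (pr k₁ k₂ : Euc m → Euc m) := by
  refine isOpenMap_iff_nhds_le.2 fun x U hU => ?_
  have hc : Continuous fun p : Euc m × ℂ × ℂ => chSet p.1 p.2.1 p.2.2 := ch_continuous_set
  have h1 : {p : Euc m × ℂ × ℂ | chSet p.1 p.2.1 p.2.2 ∈ pr k₁ k₂ ⁻¹' U} ∈
      𝓝 (pr k₁ k₂ x, Z1 x, Z2 x) := by
    refine hc.continuousAt.preimage_mem_nhds ?_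
    simpa only [pr_eq, chSet_chSet, chSet_self] using mem_map.1 hU
  have ho : IsOpenMap (Prod.map (id : Euc m → Euc m) (Prod.map (beta k₁) (beta k₂))) :=
    IsOpenMap.id.prodMap ((ch_beta_open h₁).prodMap (ch_beta_open h₂))
  have h2 := ho.image_mem_nhds h1
  have hc' : Continuous fun y : Euc m => (y, Z1 y, Z2 y) := by fun_prop
  have h3 : (fun y : Euc m => (y, Z1 y, Z2 y)) ⁻¹' _ ∈ 𝓝 (pr k₁ k₂ x) :=
    hc'.continuousAt.preimage_mem_nhds (by
      simpa only [Prod.map, id, pr_eq, Z1_chSet, Z2_chSet] using h2)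
  refine mem_of_superset h3 ?_
  rintro y ⟨⟨y', a, b⟩, hp, e⟩
  simp only [Prod.map, id, Prod.mk.injEq] at e
  obtain ⟨rfl, e1, e2⟩ := e
  simpa only [mem_preimage, mem_ofPred_eq, pr_eq, Z1_chSet, Z2_chSet, chSet_chSet, e1, e2,
    chSet_self] using hp

end Pool.Agent.MP_39b1da_gt
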