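import Pool.Agent.MP_39b1da_gt.Basic

/-!
The truncated angular form on a plane with cone angle `2 π k`.
-/

set_option autoImplicit false

namespace Pool.Agent.MP_39b1da_gt

open Filter Topology Set Real
open scoped ENNReal NNReal ContDiff InnerProductSpace

/-- The distance from `x` to `2 π ℤ`. -/
noncomputable def coneA (x : ℝ) : ℝ := arccos (cos x)

theorem coneA_nonneg (x : ℝ) : 0 ≤ coneA x := arccos_nonneg _

theorem coneA_le_pi (x : ℝ) : coneA x ≤ π := arccos_le_pi _

theorem cos_coneA (x : ℝ) : cos (coneA x) = cos x := cos_arccos (neg_one_le_cos x) (cos_le_one x)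

theorem coneA_le (x : ℝ) : coneA x ≤ |x| := by
  rcases le_total |x| π with h | h
  · rw [coneA, ← cos_abs x, arccos_cos (abs_nonneg x) h]
  · exact (coneA_le_pi x).trans h

theorem coneA_neg (x : ℝ) : coneA (-x) = coneA x := by simp [coneA]

theorem coneA_per (x : ℝ) (n : ℤ) : coneA (x - n * (2 * π)) = coneA x := by
  simp only [coneA, cos_sub_int_mul_two_pi]

theorem coneA_ex (x : ℝ) : ∃ n : ℤ, coneA x = |x - n * (2 * π)| := by
  obtain ⟨n, h | h⟩ := cos_eq_cos_iff.1 (cos_coneA x)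
  · refine ⟨n, ?_⟩
    have : x - n * (2 * π) = coneA x := by linarith
    rw [this, abs_of_nonneg (coneA_nonneg x)]
  · refine ⟨n, ?_⟩
    have : x - n * (2 * π) = -coneA x := by linarith
    rw [this, abs_neg, abs_of_nonneg (coneA_nonneg x)]

theorem coneA_add (x y : ℝ) : coneA (x + y) ≤ coneA x + coneA y := by
  obtain ⟨n, hn⟩ := coneA_ex x
  obtain ⟨l, hl⟩ := coneA_ex y
  rw [← coneA_per (x + y) (n + l), hn, hl]
  refine (coneA_le _).trans (le_of_eq_of_le ?_ (abs_add_le _ _))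
  push_cast; congr 1; ring

theorem cos_mul_coneA (k : ℕ) (x : ℝ) : cos (k * coneA x) = cos (k * x) := by
  obtain ⟨n, hn⟩ := coneA_ex x
  have h1 : (k : ℝ) * |x - n * (2 * π)| = |k * x - ((k * n : ℤ) : ℝ) * (2 * π)| := by
    have : (k : ℝ) * x - ((k * n : ℤ) : ℝ) * (2 * π) = k * (x - n * (2 * π)) := by
      push_cast; ring
    rw [this, abs_mul, abs_of_nonneg (Nat.cast_nonneg (α := ℝ) k)]
  rw [hn, h1, cos_abs, cos_sub_int_mul_two_pi]

/-- The truncated cone angle. -/
noncomputable def coneT (k : ℕ) (x : ℝ) : ℝ := min π (k * coneA x)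

theorem coneT_nonneg (k : ℕ) (x : ℝ) : 0 ≤ coneT k x :=
  le_min pi_pos.le (mul_nonneg (Nat.cast_nonneg k) (coneA_nonneg x))

theorem coneT_le_pi (k : ℕ) (x : ℝ) : coneT k x ≤ π := min_le_left _ _

theorem coneT_le (k : ℕ) (x : ℝ) : coneT k x ≤ k * |x| :=
  (min_le_right _ _).trans (mul_le_mul_of_nonneg_left (coneA_le x) (Nat.cast_nonneg k))

theorem coneT_neg (k : ℕ) (x : ℝ) : coneT k (-x) = coneT k x := by simp only [coneT, coneA_neg]

theorem coneT_per (k : ℕ) (x : ℝ) (n : ℤ) : coneT k (x - n * (2 * π)) = coneT k x := by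
  simp only [coneT, coneA_per]

theorem coneT_add (k : ℕ) (x y : ℝ) : coneT k (x + y) ≤ coneT k x + coneT k y := by
  have h1 := coneT_nonneg k x
  have h2 := coneT_nonneg k y
  have h3 := coneT_le_pi k (x + y)
  have h4 : coneT k (x + y) ≤ k * coneA x + k * coneA y := by
    refine (min_le_right _ _).trans ?_
    rw [← mul_add]
    exact mul_le_mul_of_nonneg_left (coneA_add x y) (Nat.cast_nonneg k)
  rcases min_choice π (k * coneA x) with h | h
  · have : coneT k x = π := h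
    linarith
  · rcases min_choice π (k * coneA y) with h' | h'
    · have : coneT k y = π := h'
      linarith
    · have e1 : coneT k x = k * coneA x := h
      have e2 : coneT k y = k * coneA y := h'
      linarith

theorem coneT_tri (k : ℕ) (x y z : ℝ) : coneT k (x - z) ≤ coneT k (x - y) + coneT k (y - z) := by
  have := coneT_add k (x - y) (y - z)
  rwa [sub_add_sub_cancel] at this

theorem coneT_comm (k : ℕ) (x y : ℝ) : coneT k (x - y) = coneT k (y - x) := by
  rw [← coneT_neg, neg_sub]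

theorem cos_coneT_of_le {k : ℕ} {x : ℝ} (h : k * coneA x ≤ π) : cos (coneT k x) = cos (k * x) := by
  rw [coneT, min_eq_right h, cos_mul_coneA]

theorem cos_coneT_le (k : ℕ) (x : ℝ) : cos (coneT k x) ≤ cos (k * x) := by
  rcases le_total (k * coneA x) π with h | h
  · exact (cos_coneT_of_le h).le
  · rw [coneT, min_eq_left h, cos_pi]; exact neg_one_le_cos _

theorem cos_coneT_le' {k : ℕ} (hk : 1 ≤ k) (x : ℝ) : cos (coneT k x) ≤ cos x := by
  rw [← cos_coneA x]
  refine cos_le_cos_of_nonneg_of_le_pi (coneA_nonneg x) (coneT_le_pi k x) (le_min (coneA_le_pi x) ?_)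
  have : (1 : ℝ) ≤ k := by exact_mod_cast hk
  nlinarith [coneA_nonneg x]

theorem cone_cos_le_neg {a b : ℝ} (ha : a ≤ π) (hb : b ≤ π) (h : π ≤ a + b) : cos b ≤ -cos a := by
  rw [← cos_pi_sub]
  exact cos_le_cos_of_nonneg_of_le_pi (by linarith) hb (by linarith)

theorem cone_polar {A B γ : ℝ} (hA : 0 ≤ A) (hB : 0 ≤ B) (h0 : 0 ≤ γ) (h1 : γ ≤ π) :
    ∃ ρ φ : ℝ, 0 ≤ ρ ∧ 0 ≤ φ ∧ φ ≤ γ ∧ A + B * cos γ = ρ * cos φ ∧ B * sin γ = ρ * sin φ := by
  set u : ℂ := ⟨A + B * cos γ, B * sin γ⟩ with hu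
  have hs := sin_nonneg_of_nonneg_of_le_pi h0 h1
  have e1 : A + B * cos γ = ‖u‖ * cos u.arg := (Complex.norm_mul_cos_arg u).symm
  have e2 : B * sin γ = ‖u‖ * sin u.arg := (Complex.norm_mul_sin_arg u).symm
  have p0 : 0 ≤ u.arg := Complex.arg_nonneg_iff.2 (mul_nonneg hB hs)
  have p1 : u.arg ≤ π := Complex.arg_le_pi u
  have hn := norm_nonneg u
  by_cases h : u.arg ≤ γ
  · exact ⟨‖u‖, u.arg, hn, p0, h, e1, e2⟩
  · push Not at h
    have hz : ‖u‖ = 0 := by
      have e3 : ‖u‖ * sin (u.arg - γ) = -(A * sin γ) := by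
        rw [sin_sub]
        linear_combination sin γ * e1 - cos γ * e2
      rcases lt_or_eq_of_le (show u.arg - γ ≤ π by linarith) with h2 | h2
      · have := sin_pos_of_pos_of_lt_pi (show 0 < u.arg - γ by linarith) h2
        by_contra hc
        have := mul_pos (lt_of_le_of_ne hn (Ne.symm hc)) this
        nlinarith [mul_nonneg hA hs]
      · have g0 : γ = 0 := by linarith
        have g1 : u.arg = π := by linarith
        rw [g0, g1, cos_zero, cos_pi] at e1
        linarith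
    rw [hz] at e1 e2
    exact ⟨0, 0, le_rfl, le_rfl, h0, by linarith, by linarith⟩

/-- Convex combinations in the cone, in polar form. -/
theorem cone_comb {k : ℕ} (hk : 1 ≤ k) {A B : ℝ} (hA : 0 ≤ A) (hB : 0 ≤ B) (η ζ : ℝ) :
    ∃ ρ ξ : ℝ, 0 ≤ ρ ∧ ρ ^ 2 = A ^ 2 + B ^ 2 + 2 * A * B * cos (coneT k (η - ζ)) ∧
      ∀ θ, A * cos (coneT k (θ - η)) + B * cos (coneT k (θ - ζ)) ≤ ρ * cos (coneT k (θ - ξ)) := by
  have hk' : (0 : ℝ) < k := by exact_mod_cast hk
  rcases le_total (k * coneA (η - ζ)) π with h | h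
  · set γ := coneT k (η - ζ) with hγ
    have hγ' : γ = k * coneA (η - ζ) := min_eq_right h
    obtain ⟨ρ, φ, hρ, φ0, φ1, e1, e2⟩ := cone_polar hA hB (coneT_nonneg k (η - ζ))
      (coneT_le_pi k (η - ζ))
    rw [← hγ] at φ1 e1 e2
    have γ1 : γ ≤ π := coneT_le_pi k _
    obtain ⟨n, hn⟩ := coneA_ex (ζ - η)
    obtain ⟨σ, hσ, hδ⟩ : ∃ σ : ℝ, (σ = 1 ∨ σ = -1) ∧ k * (ζ - η - n * (2 * π)) = σ * γ := by
      have e : coneA (η - ζ) = |ζ - η - n * (2 * π)| := by rw [← hn, ← coneA_neg, neg_sub]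
      rw [hγ', e]
      rcases abs_choice (ζ - η - n * (2 * π)) with h2 | h2
      · exact ⟨1, Or.inl rfl, by rw [h2]; ring⟩
      · exact ⟨-1, Or.inr rfl, by rw [h2]; ring⟩
    have habs : ∀ t : ℝ, |σ * t| = |t| := by
      intro t; rcases hσ with rfl | rfl <;> simp
    have hcos : ∀ w t : ℝ, cos (w - σ * t) = cos w * cos t + σ * (sin w * sin t) := by
      intro w t; rcases hσ with rfl | rfl
      · rw [one_mul, cos_sub]; ring
      · rw [neg_one_mul, sub_neg_eq_add, cos_add]; ring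
    refine ⟨ρ, η + σ * φ / k, hρ, ?_, fun θ => ?_⟩
    · have s1 := sin_sq_add_cos_sq γ
      have s2 := sin_sq_add_cos_sq φ
      have : ρ ^ 2 = (ρ * cos φ) ^ 2 + (ρ * sin φ) ^ 2 := by linear_combination -ρ ^ 2 * s2
      rw [this, ← e1, ← e2]
      linear_combination B ^ 2 * s1
    · rcases le_total (k * coneA (θ - (η + σ * φ / k))) π with h2 | h2
      · have c1 := cos_coneT_le k (θ - η)
        have c2 := cos_coneT_le k (θ - ζ)
        have e3 : k * (θ - (η + σ * φ / k)) = k * (θ - η) - σ * φ := by field_simp; ring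
        have e4 : k * (θ - ζ) = k * (θ - η) - σ * γ - ((k * n : ℤ) : ℝ) * (2 * π) := by
          push_cast; linear_combination -hδ
        rw [e4, cos_sub_int_mul_two_pi, hcos] at c2
        rw [cos_coneT_of_le h2, e3, hcos]
        have c3 := mul_le_mul_of_nonneg_left c1 hA
        have c4 := mul_le_mul_of_nonneg_left c2 hB
        have e5 : A * cos (k * (θ - η)) + B * (cos (k * (θ - η)) * cos γ +
            σ * (sin (k * (θ - η)) * sin γ)) =
            ρ * (cos (k * (θ - η)) * cos φ + σ * (sin (k * (θ - η)) * sin φ)) := by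
          linear_combination cos (k * (θ - η)) * e1 + σ * sin (k * (θ - η)) * e2
        linarith
      · have t0 : coneT k (θ - (η + σ * φ / k)) = π := min_eq_left h2
        have t1 := coneT_tri k θ η (η + σ * φ / k)
        have t2 := coneT_tri k θ ζ (η + σ * φ / k)
        have t3 : coneT k (η - (η + σ * φ / k)) ≤ φ := by
          refine (coneT_le k _).trans (le_of_eq ?_)
          have : η - (η + σ * φ / k) = -(σ * (φ / k)) := by ring
          rw [this, abs_neg, habs, abs_of_nonneg (by positivity)]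
          field_simp
        have t4 : coneT k (ζ - (η + σ * φ / k)) ≤ γ - φ := by
          rw [← coneT_per k _ n]
          refine (coneT_le k _).trans (le_of_eq ?_)
          have : ζ - (η + σ * φ / k) - n * (2 * π) = σ * ((γ - φ) / k) := by
            field_simp; linear_combination hδ
          rw [this, habs, abs_of_nonneg (div_nonneg (by linarith) hk'.le)]
          field_simp
        have c1 : cos (coneT k (θ - η)) ≤ -cos φ :=
          cone_cos_le_neg (by linarith) (coneT_le_pi _ _) (by linarith)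
        have c2 : cos (coneT k (θ - ζ)) ≤ -cos (γ - φ) :=
          cone_cos_le_neg (by linarith) (coneT_le_pi _ _) (by linarith)
        have c3 := mul_le_mul_of_nonneg_left c1 hA
        have c4 := mul_le_mul_of_nonneg_left c2 hB
        have s2 := sin_sq_add_cos_sq φ
        have e5 : A * cos φ + B * cos (γ - φ) = ρ := by
          rw [cos_sub]
          linear_combination cos φ * e1 + sin φ * e2 + ρ * s2
        rw [t0, cos_pi]
        linarith
  · have t0 : coneT k (η - ζ) = π := min_eq_left h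
    have key : ∀ θ, cos (coneT k (θ - η)) + cos (coneT k (θ - ζ)) ≤ 0 := by
      intro θ
      have t1 := coneT_tri k η θ ζ
      rw [coneT_comm k η θ, t0] at t1
      have := cone_cos_le_neg (coneT_le_pi k (θ - η)) (coneT_le_pi k (θ - ζ)) t1
      linarith
    rw [t0, cos_pi]
    rcases le_total B A with h2 | h2
    · exact ⟨A - B, η, by linarith, by ring, fun θ => by nlinarith [mul_nonneg hB (neg_nonneg.2 (key θ))]⟩
    · exact ⟨B - A, ζ, by linarith, by ring, fun θ => by nlinarith [mul_nonneg hA (neg_nonneg.2 (key θ))]⟩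

/-- Polar coordinates. -/
noncomputable def coneP (r s : ℝ) : ℂ := (r : ℂ) * Complex.exp (s * Complex.I)

theorem coneP_self (z : ℂ) : coneP ‖z‖ z.arg = z := Complex.norm_mul_exp_arg_mul_I z

theorem norm_coneP {r : ℝ} (hr : 0 ≤ r) (s : ℝ) : ‖coneP r s‖ = r := by
  simp [coneP, Complex.norm_exp_ofReal_mul_I, abs_of_nonneg hr]

theorem inner_coneP (r r' s t : ℝ) : ⟪coneP r s, coneP r' t⟫_ℝ = r * r' * cos (s - t) := by
  rw [Complex.inner, cos_sub]
  simp [coneP, Complex.exp_ofReal_mul_I_re, Complex.exp_ofReal_mul_I_im]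
  ring

theorem beta_coneP {k : ℕ} (hk : 1 ≤ k) {r : ℝ} (hr : 0 ≤ r) (s : ℝ) :
    beta k (coneP r s) = coneP r (k * s) := by
  rw [beta, norm_coneP hr]
  obtain ⟨j, rfl⟩ := Nat.exists_eq_add_of_le' hk
  rcases eq_or_lt_of_le hr with h | h
  · subst h; simp [coneP]
  · have : (r : ℂ) ≠ 0 := by exact_mod_cast h.ne'
    simp only [coneP, Nat.add_sub_cancel, mul_pow, ← Complex.exp_nat_mul]
    push_cast
    field_simp
    ring

/-- The angular form of the cone. -/
noncomputable def coneB (k : ℕ) (z w : ℂ) : ℝ :=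
  ‖z‖ * ‖w‖ * cos (min π (k * InnerProductGeometry.angle z w))

theorem coneB_coneP (k : ℕ) {r r' : ℝ} (hr : 0 ≤ r) (hr' : 0 ≤ r') (s t : ℝ) :
    coneB k (coneP r s) (coneP r' t) = r * r' * cos (coneT k (s - t)) := by
  rw [coneB, InnerProductGeometry.angle, norm_coneP hr, norm_coneP hr', inner_coneP]
  rcases eq_or_lt_of_le (mul_nonneg hr hr') with h | h
  · rw [← h]; simp
  · rw [mul_div_cancel_left₀ _ h.ne']; rfl

theorem coneB_eq (k : ℕ) (z w : ℂ) :
    coneB k z w = ‖z‖ * ‖w‖ * cos (coneT k (z.arg - w.arg)) := by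
  conv_lhs => rw [← coneP_self z, ← coneP_self w]
  exact coneB_coneP k (norm_nonneg _) (norm_nonneg _) _ _

theorem coneB_comm (k : ℕ) (z w : ℂ) : coneB k z w = coneB k w z := by
  rw [coneB, coneB, InnerProductGeometry.angle_comm, mul_comm ‖z‖]

theorem coneB_self (k : ℕ) (z : ℂ) : coneB k z z = ‖z‖ ^ 2 := by
  rw [coneB_eq]; simp [coneT, coneA, pi_pos.le, sq]

theorem coneB_zero (k : ℕ) (z : ℂ) : coneB k 0 z = 0 := by simp [coneB]

theorem coneB_le_inner {k : ℕ} (hk : 1 ≤ k) (z w : ℂ) : coneB k z w ≤ ⟪z, w⟫_ℝ := by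
  conv_rhs => rw [← coneP_self z, ← coneP_self w, inner_coneP]
  rw [coneB_eq]
  exact mul_le_mul_of_nonneg_left (cos_coneT_le' hk _) (by positivity)

theorem inner_beta {k : ℕ} (hk : 1 ≤ k) (z w : ℂ) :
    ⟪beta k z, beta k w⟫_ℝ = ‖z‖ * ‖w‖ * cos (k * (z.arg - w.arg)) := by
  conv_lhs => rw [← coneP_self z, ← coneP_self w]
  rw [beta_coneP hk (norm_nonneg _), beta_coneP hk (norm_nonneg _), inner_coneP, mul_sub]

theorem coneB_le_beta {k : ℕ} (hk : 1 ≤ k) (z w : ℂ) :
    coneB k z w ≤ ⟪beta k z, beta k w⟫_ℝ := by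
  rw [coneB_eq, inner_beta hk]
  exact mul_le_mul_of_nonneg_left (cos_coneT_le k _) (by positivity)

theorem coneB_eq_beta {k : ℕ} (hk : 1 ≤ k) {z w : ℂ}
    (h : k * InnerProductGeometry.angle z w ≤ π) : coneB k z w = ⟪beta k z, beta k w⟫_ℝ := by
  rw [inner_beta hk, coneB, min_eq_right h]
  rcases eq_or_lt_of_le (mul_nonneg (norm_nonneg z) (norm_nonneg w)) with h0 | h0
  · rw [← h0]; simp
  · rw [← cos_mul_coneA k (z.arg - w.arg), InnerProductGeometry.angle]
    conv_lhs => rw [← coneP_self z, ← coneP_self w, inner_coneP, coneP_self, coneP_self]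
    rw [mul_div_cancel_left₀ _ h0.ne']; rfl

theorem coneB_eventually {k : ℕ} (hk : 1 ≤ k) (z : ℂ) :
    ∀ᶠ w in 𝓝 z, coneB k z w = ⟪beta k z, beta k w⟫_ℝ := by
  by_cases hz : z = 0
  · subst hz
    refine Eventually.of_forall fun w => ?_
    rw [coneB_zero, inner_beta hk]; simp
  · have h1 : ContinuousAt (fun w : ℂ => (k : ℝ) * InnerProductGeometry.angle z w) z :=
      continuousAt_const.mul ((InnerProductGeometry.continuousAt_angle (x := (z, z)) hz hz).comp
        (f := fun w : ℂ => (z, w)) (by fun_prop))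
    have h2 := h1.eventually (gt_mem_nhds (show (k : ℝ) * InnerProductGeometry.angle z z < π by
      rw [InnerProductGeometry.angle_self hz, mul_zero]; exact pi_pos))
    exact h2.mono fun w hw => coneB_eq_beta hk hw.le

theorem coneB_unfold (k : ℕ) (p y z : ℂ) : ∃ p' y' z' : ℂ, ‖p'‖ = ‖p‖ ∧ ‖y'‖ = ‖y‖ ∧ ‖z'‖ = ‖z‖ ∧
    coneB k p y ≤ ⟪p', y'⟫_ℝ ∧ coneB k y z ≤ ⟪y', z'⟫_ℝ ∧ coneB k p z = ⟪p', z'⟫_ℝ := by
  have t := coneT_tri k p.arg y.arg z.arg
  set a := coneT k (p.arg - y.arg) with ha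
  set b := coneT k (y.arg - z.arg) with hb
  set c := coneT k (p.arg - z.arg) with hc
  have a0 : 0 ≤ a := coneT_nonneg _ _
  have b0 : 0 ≤ b := coneT_nonneg _ _
  have c0 : 0 ≤ c := coneT_nonneg _ _
  refine ⟨coneP ‖p‖ (min a c), coneP ‖y‖ 0, coneP ‖z‖ (min a c - c), norm_coneP (norm_nonneg _) _,
    norm_coneP (norm_nonneg _) _, norm_coneP (norm_nonneg _) _, ?_, ?_, ?_⟩
  · rw [coneB_eq, inner_coneP, sub_zero]
    exact mul_le_mul_of_nonneg_left (cos_le_cos_of_nonneg_of_le_pi (le_min a0 c0)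
      (coneT_le_pi _ _) (min_le_left _ _)) (by positivity)
  · rw [coneB_eq, inner_coneP]
    refine mul_le_mul_of_nonneg_left (cos_le_cos_of_nonneg_of_le_pi ?_ (coneT_le_pi _ _) ?_)
      (by positivity)
    · linarith [min_le_right a c]
    · rcases min_choice a c with h | h <;> rw [h] <;> linarith
  · rw [coneB_eq, inner_coneP, sub_sub_cancel]

theorem coneB_comb {k : ℕ} (hk : 1 ≤ k) {α β : ℝ} (hα : 0 ≤ α) (hβ : 0 ≤ β) (y z : ℂ) :
    ∃ x : ℂ, ‖x‖ ^ 2 = α ^ 2 * ‖y‖ ^ 2 + β ^ 2 * ‖z‖ ^ 2 + 2 * α * β * coneB k y z ∧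
      ∀ p, α * coneB k p y + β * coneB k p z ≤ coneB k p x := by
  obtain ⟨ρ, ξ, hρ, e, h⟩ := cone_comb hk (mul_nonneg hα (norm_nonneg y))
    (mul_nonneg hβ (norm_nonneg z)) y.arg z.arg
  refine ⟨coneP ρ ξ, ?_, fun p => ?_⟩
  · rw [norm_coneP hρ, e, coneB_eq]; ring
  · conv_rhs => rw [← coneP_self p, coneB_coneP k (norm_nonneg _) hρ]
    rw [coneB_eq, coneB_eq]
    have := mul_le_mul_of_nonneg_left (h p.arg) (norm_nonneg p)
    linarith

end Pool.Agent.MP_39b1da_gt
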