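import Pool.Agent.MP_39b1da_gt.HypA
import Pool.Agent.MP_39b1da_gt.Cone1

set_option autoImplicit false

namespace Pool.Agent.MP_39b1da_gt

open Filter Topology Set Real
open scoped ENNReal NNReal ContDiff InnerProductSpace

theorem norm_beta {k : ℕ} (hk : 1 ≤ k) (z : ℂ) : ‖beta k z‖ = ‖z‖ := by
  conv_lhs => rw [← coneP_self z, beta_coneP hk (norm_nonneg _), norm_coneP (norm_nonneg _)]

theorem continuous_beta {k : ℕ} (hk : 1 ≤ k) : Continuous (beta k) := by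
  refine continuous_iff_continuousAt.2 fun z => ?_
  by_cases hz : z = 0
  · subst hz
    have h0 : beta k 0 = 0 := norm_eq_zero.1 (by rw [norm_beta hk, norm_zero])
    rw [ContinuousAt, h0, tendsto_zero_iff_norm_tendsto_zero]
    simp only [norm_beta hk]
    exact tendsto_norm_zero
  · unfold beta
    refine ContinuousAt.div (by fun_prop) (by fun_prop) (pow_ne_zero _ ?_)
    exact_mod_cast norm_ne_zero_iff.2 hz

section
variable {m : ℕ}

theorem cone_continuous_Z1 : Continuous (Z1 : Euc m → ℂ) := by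
  have : (Z1 : Euc m → ℂ) = fun x => ((x 0 : ℝ) : ℂ) + ((x 1 : ℝ) : ℂ) * Complex.I := by
    funext x; apply Complex.ext <;> simp [Z1]
  rw [this]; fun_prop

theorem cone_continuous_Z2 : Continuous (Z2 : Euc m → ℂ) := by
  have : (Z2 : Euc m → ℂ) = fun x => ((x 2 : ℝ) : ℂ) + ((x 3 : ℝ) : ℂ) * Complex.I := by
    funext x; apply Complex.ext <;> simp [Z2]
  rw [this]; fun_prop

theorem cone_single (i : Fin (m + 4)) (t : ℝ) :
    (EuclideanSpace.single i t : Euc m) = t • EuclideanSpace.single i (1 : ℝ) := by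
  ext j; by_cases h : j = i <;> simp [h]

theorem cone_continuous_I1 : Continuous (I1 m) := by
  have : I1 m = fun w : ℂ => w.re • (EuclideanSpace.single 0 (1 : ℝ) : Euc m) +
      w.im • EuclideanSpace.single 1 (1 : ℝ) := by
    funext w; rw [I1, cone_single 0, cone_single 1]
  rw [this]; fun_prop

theorem cone_continuous_I2 : Continuous (I2 m) := by
  have : I2 m = fun w : ℂ => w.re • (EuclideanSpace.single 2 (1 : ℝ) : Euc m) +
      w.im • EuclideanSpace.single 3 (1 : ℝ) := by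
    funext w; rw [I2, cone_single 2, cone_single 3]
  rw [this]; fun_prop

end

theorem continuous_pr {m k₁ k₂ : ℕ} (h₁ : 1 ≤ k₁) (h₂ : 1 ≤ k₂) :
    Continuous (pr k₁ k₂ : Euc m → Euc m) := by
  unfold pr
  have a1 := cone_continuous_Z1 (m := m)
  have a2 := cone_continuous_Z2 (m := m)
  have a3 := cone_continuous_I1 (m := m)
  have a4 := cone_continuous_I2 (m := m)
  have a5 := continuous_beta h₁
  have a6 := continuous_beta h₂
  fun_prop

section
variable {m : ℕ}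

theorem cone_fin_ne : ((0 : Fin (m + 4)) ≠ 1 ∧ (0 : Fin (m + 4)) ≠ 2 ∧ (0 : Fin (m + 4)) ≠ 3) ∧
    ((1 : Fin (m + 4)) ≠ 2 ∧ (1 : Fin (m + 4)) ≠ 3) ∧ (2 : Fin (m + 4)) ≠ 3 := by
  have h2 : ((2 : Fin (m + 4)) : ℕ) = 2 := Nat.mod_eq_of_lt (show 2 < m + 4 by omega)
  have h3 : ((3 : Fin (m + 4)) : ℕ) = 3 := Nat.mod_eq_of_lt (show 3 < m + 4 by omega)
  simp only [ne_eq, Fin.ext_iff, h2, h3, Fin.val_zero, Fin.val_one]
  omega

/-- Replace the two complex coordinates. -/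
noncomputable def coneSet (x : Euc m) (a b : ℂ) : Euc m :=
  x + I1 m (a - Z1 x) + I2 m (b - Z2 x)

/-- The inner product of the remaining coordinates. -/
noncomputable def coneR (x y : Euc m) : ℝ := ⟪x, y⟫_ℝ - ⟪Z1 x, Z1 y⟫_ℝ - ⟪Z2 x, Z2 y⟫_ℝ

theorem cone_inner (z w : ℂ) : ⟪z, w⟫_ℝ = z.re * w.re + z.im * w.im := by
  rw [Complex.inner]; simp; ring

theorem Z1_coneSet (x : Euc m) (a b : ℂ) : Z1 (coneSet x a b) = a := by
  obtain ⟨⟨h1, h2, h3⟩, ⟨h4, h5⟩, h6⟩ := cone_fin_ne (m := m)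
  apply Complex.ext <;> simp [Z1, coneSet, I1, I2, h2, h3, h4, h5]

theorem Z2_coneSet (x : Euc m) (a b : ℂ) : Z2 (coneSet x a b) = b := by
  obtain ⟨⟨h1, h2, h3⟩, ⟨h4, h5⟩, h6⟩ := cone_fin_ne (m := m)
  apply Complex.ext <;>
    simp [Z2, coneSet, I1, I2, h2.symm, h3.symm, h4.symm, h5.symm, h6, h6.symm]

theorem coneR_coneSet (x y : Euc m) (a b : ℂ) : coneR (coneSet x a b) y = coneR x y := by
  rw [coneR, coneR, Z1_coneSet, Z2_coneSet]
  simp only [coneSet, I1, I2, inner_add_left, EuclideanSpace.inner_single_left, cone_inner]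
  simp [Z1, Z2]
  ring

theorem coneR_comm (x y : Euc m) : coneR x y = coneR y x := by
  rw [coneR, coneR, real_inner_comm x, real_inner_comm (Z1 x), real_inner_comm (Z2 x)]

theorem coneR_comb (x y p : Euc m) (α β : ℝ) :
    coneR (α • x + β • y) p = α * coneR x p + β * coneR y p := by
  simp only [coneR, inner_add_left, inner_smul_left, cone_inner]
  simp [Z1, Z2]
  ring

theorem inner_coneSet (x y : Euc m) (a b a' b' : ℂ) :
    ⟪coneSet x a b, coneSet y a' b'⟫_ℝ = coneR x y + ⟪a, a'⟫_ℝ + ⟪b, b'⟫_ℝ := by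
  have h : coneR (coneSet x a b) (coneSet y a' b') = coneR x y := by
    rw [coneR_coneSet, coneR_comm, coneR_coneSet, coneR_comm]
  rw [coneR, Z1_coneSet, Z1_coneSet, Z2_coneSet, Z2_coneSet] at h
  linarith

theorem cone_norm_sq (x : Euc m) : ‖x‖ ^ 2 = coneR x x + ‖Z1 x‖ ^ 2 + ‖Z2 x‖ ^ 2 := by
  simp only [coneR, real_inner_self_eq_norm_sq]; ring

theorem norm_coneSet_sq (x : Euc m) (a b : ℂ) :
    ‖coneSet x a b‖ ^ 2 = coneR x x + ‖a‖ ^ 2 + ‖b‖ ^ 2 := by
  rw [← real_inner_self_eq_norm_sq, inner_coneSet]; simp only [real_inner_self_eq_norm_sq]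

/-- The time coordinate. -/
noncomputable def coneH (x : Euc m) : ℝ := √(1 + ‖x‖ ^ 2)

theorem coneH_pos (x : Euc m) : 0 < coneH x := Real.sqrt_pos.2 (by positivity)

theorem coneH_sq (x : Euc m) : coneH x ^ 2 = 1 + ‖x‖ ^ 2 := Real.sq_sqrt (by positivity)

theorem lor_coneSet {x y : Euc m} {a b a' b' : ℂ} (ha : ‖a‖ = ‖Z1 x‖) (hb : ‖b‖ = ‖Z2 x‖)
    (ha' : ‖a'‖ = ‖Z1 y‖) (hb' : ‖b'‖ = ‖Z2 y‖) :
    -lor (lift (Hyp.mk (coneSet x a b))) (lift (Hyp.mk (coneSet y a' b'))) =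
      coneH x * coneH y - coneR x y - ⟪a, a'⟫_ℝ - ⟪b, b'⟫_ℝ := by
  simp only [lor, lift, Hyp.val_mk, inner_coneSet, norm_coneSet_sq, ha, hb, ha', hb',
    ← cone_norm_sq, coneH]
  ring

/-- The hyperbolic cosine of the singular distance. -/
noncomputable def coneC (k₁ k₂ : ℕ) (x y : Euc m) : ℝ :=
  coneH x * coneH y - coneR x y - coneB k₁ (Z1 x) (Z1 y) - coneB k₂ (Z2 x) (Z2 y)

variable {k₁ k₂ : ℕ}

theorem coneC_comm (x y : Euc m) : coneC k₁ k₂ x y = coneC k₁ k₂ y x := by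
  rw [coneC, coneC, coneR_comm, coneB_comm k₁, coneB_comm k₂, mul_comm]

theorem coneC_self (x : Euc m) : coneC k₁ k₂ x x = 1 := by
  have h1 := coneH_sq x
  have h2 := cone_norm_sq x
  rw [coneC, coneB_self, coneB_self]; linarith

theorem coneC_zero (x : Euc m) : coneC k₁ k₂ 0 x = coneH x := by
  have h1 : Z1 (0 : Euc m) = 0 := by apply Complex.ext <;> simp [Z1]
  have h2 : Z2 (0 : Euc m) = 0 := by apply Complex.ext <;> simp [Z2]
  simp [coneC, coneR, h1, h2, coneB_zero, coneH]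

theorem lor_le_coneC (h₁ : 1 ≤ k₁) (h₂ : 1 ≤ k₂) (x y : Euc m) :
    -lor (lift (Hyp.mk x)) (lift (Hyp.mk y)) ≤ coneC k₁ k₂ x y := by
  have a1 := coneB_le_inner h₁ (Z1 x) (Z1 y)
  have a2 := coneB_le_inner h₂ (Z2 x) (Z2 y)
  simp only [lor, lift, Hyp.val_mk, coneC, coneR, coneH]
  linarith

theorem one_le_coneC (h₁ : 1 ≤ k₁) (h₂ : 1 ≤ k₂) (x y : Euc m) : 1 ≤ coneC k₁ k₂ x y :=
  (one_le_lor _ _).trans (lor_le_coneC h₁ h₂ x y)

theorem lor_pr (h₁ : 1 ≤ k₁) (h₂ : 1 ≤ k₂) (x y : Euc m) :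
    -lor (lift (Hyp.mk (pr k₁ k₂ x))) (lift (Hyp.mk (pr k₁ k₂ y))) =
      coneH x * coneH y - coneR x y - ⟪beta k₁ (Z1 x), beta k₁ (Z1 y)⟫_ℝ -
        ⟪beta k₂ (Z2 x), beta k₂ (Z2 y)⟫_ℝ :=
  lor_coneSet (norm_beta h₁ _) (norm_beta h₂ _) (norm_beta h₁ _) (norm_beta h₂ _)

theorem coneC_tri (h₁ : 1 ≤ k₁) (h₂ : 1 ≤ k₂) (p y z : Euc m) : arcosh (coneC k₁ k₂ p z) ≤
    arcosh (coneC k₁ k₂ p y) + arcosh (coneC k₁ k₂ y z) := by
  obtain ⟨p1, y1, z1, a1, a2, a3, a4, a5, a6⟩ := coneB_unfold k₁ (Z1 p) (Z1 y) (Z1 z)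
  obtain ⟨p2, y2, z2, b1, b2, b3, b4, b5, b6⟩ := coneB_unfold k₂ (Z2 p) (Z2 y) (Z2 z)
  have t := lor_tri (Hyp.mk (coneSet p p1 p2)) (Hyp.mk (coneSet y y1 y2))
    (Hyp.mk (coneSet z z1 z2))
  have c1 := one_le_lor (Hyp.mk (coneSet p p1 p2)) (Hyp.mk (coneSet y y1 y2))
  have c2 := one_le_lor (Hyp.mk (coneSet y y1 y2)) (Hyp.mk (coneSet z z1 z2))
  rw [lor_coneSet a1 b1 a2 b2] at c1 t
  rw [lor_coneSet a2 b2 a3 b3] at c2 t
  rw [lor_coneSet a1 b1 a3 b3, ← a6, ← b6] at t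
  refine t.trans (add_le_add ?_ ?_)
  · refine (arcosh_le_arcosh (by linarith) (by linarith [one_le_coneC h₁ h₂ p y])).2 ?_
    rw [coneC]; linarith
  · refine (arcosh_le_arcosh (by linarith) (by linarith [one_le_coneC h₁ h₂ y z])).2 ?_
    rw [coneC]; linarith

theorem coneC_norm_sub (h₁ : 1 ≤ k₁) (h₂ : 1 ≤ k₂) (x y : Euc m) :
    ‖x - y‖ ^ 2 ≤ (coneH x - coneH y) ^ 2 + 2 * (coneC k₁ k₂ x y - 1) := by
  have h := norm_sub_sq_eq (Hyp.mk x) (Hyp.mk y)
  have h2 := lor_le_coneC h₁ h₂ x y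
  have e1 : (lift (Hyp.mk x)).1 = coneH x := rfl
  have e2 : (lift (Hyp.mk y)).1 = coneH y := rfl
  rw [e1, e2, Hyp.val_mk, Hyp.val_mk] at h
  linarith

theorem coneC_comb (h₁ : 1 ≤ k₁) (h₂ : 1 ≤ k₂) (y z : Euc m) {α β : ℝ} (hα : 0 ≤ α) (hβ : 0 ≤ β)
    (h : α ^ 2 + β ^ 2 + 2 * α * β * coneC k₁ k₂ y z = 1) :
    ∃ x : Euc m, ∀ p, coneC k₁ k₂ p x ≤ α * coneC k₁ k₂ p y + β * coneC k₁ k₂ p z := by
  obtain ⟨a, a1, a2⟩ := coneB_comb h₁ hα hβ (Z1 y) (Z1 z)
  obtain ⟨b, b1, b2⟩ := coneB_comb h₂ hα hβ (Z2 y) (Z2 z)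
  refine ⟨coneSet (α • y + β • z) a b, fun p => ?_⟩
  have e1 : coneH (coneSet (α • y + β • z) a b) = α * coneH y + β * coneH z := by
    have p1 := coneH_pos y
    have p2 := coneH_pos z
    refine (pow_left_inj₀ (coneH_pos _).le (by positivity) two_ne_zero).1 ?_
    have s1 := coneH_sq y
    have s2 := coneH_sq z
    rw [cone_norm_sq] at s1 s2
    rw [coneH_sq, norm_coneSet_sq, coneR_comb, coneR_comm y, coneR_comm z, coneR_comb, coneR_comb,
      a1, b1, coneR_comm z y]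
    rw [coneC] at h
    linear_combination -h - α ^ 2 * s1 - β ^ 2 * s2
  have a3 := a2 (Z1 p)
  have b3 := b2 (Z2 p)
  rw [coneC, coneC, coneC, e1, Z1_coneSet, Z2_coneSet, coneR_comm, coneR_coneSet, coneR_comb,
    coneR_comm p, coneR_comm p]
  linarith

end

/-- The comparison inequality from convex combinations. -/
theorem cone_globK {X : Type} [MetricSpace X]
    (h : ∀ (y z : X) (α β : ℝ), 0 ≤ α → 0 ≤ β →
      α ^ 2 + β ^ 2 + 2 * α * β * cosh (dist y z) = 1 →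
      ∃ x, ∀ p, cosh (dist p x) ≤ α * cosh (dist p y) + β * cosh (dist p z)) : GlobK X := by
  have key : ∀ (y z : X) (s t : ℝ), 0 ≤ s → 0 ≤ t → s + t = dist y z → 0 < dist y z →
      ∃ x, ∀ p, sinh (dist y z) * cosh (dist p x) ≤
        sinh t * cosh (dist p y) + sinh s * cosh (dist p z) := by
    intro y z s t hs ht hst hD
    have hS : 0 < sinh (dist y z) := sinh_pos_iff.2 hD
    obtain ⟨x, hx⟩ := h y z (sinh t / sinh (dist y z)) (sinh s / sinh (dist y z))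
      (div_nonneg (sinh_nonneg_iff.2 ht) hS.le) (div_nonneg (sinh_nonneg_iff.2 hs) hS.le) (by
        field_simp
        rw [← hst, sinh_add, cosh_add]
        have c1 := cosh_sq s
        have c2 := cosh_sq t
        linear_combination (-sinh t ^ 2) * c1 - sinh s ^ 2 * c2)
    refine ⟨x, fun p => ?_⟩
    have := mul_le_mul_of_nonneg_left (hx p) hS.le
    refine this.trans (le_of_eq ?_)
    field_simp
  have hle : ∀ a b c : ℝ, 0 ≤ b → 0 < c → c * cosh a ≤ c * cosh b → a ≤ b := by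
    intro a b c hb hc hab
    have := cosh_le_cosh.1 (le_of_mul_le_mul_left hab hc)
    rw [abs_of_nonneg hb] at this
    exact (le_abs_self a).trans this
  refine ⟨fun y z s hs hsD => ?_, fun p y x z hx => ?_⟩
  · rcases eq_or_lt_of_le (dist_nonneg (x := y) (y := z)) with hD | hD
    · exact ⟨y, by rw [dist_self]; linarith, by rw [Btw, dist_self, zero_add]⟩
    · obtain ⟨x, hx⟩ := key y z s (dist y z - s) hs (by linarith) (by ring) hD
      have hS : 0 < sinh (dist y z) := sinh_pos_iff.2 hD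
      have a1 : dist y x ≤ s := by
        refine hle _ _ _ hs hS ((hx y).trans (le_of_eq ?_))
        rw [dist_self, cosh_zero, sinh_sub]; ring
      have a2 : dist z x ≤ dist y z - s := by
        refine hle _ _ _ (by linarith) hS ((hx z).trans (le_of_eq ?_))
        rw [dist_self, cosh_zero, dist_comm z y, sinh_sub, cosh_sub]
        have c1 := cosh_sq (dist y z)
        linear_combination (-sinh s) * c1
      have a3 := dist_triangle y x z
      rw [dist_comm z x] at a2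
      exact ⟨x, by linarith, by rw [Btw]; linarith⟩
  · rw [Btw] at hx
    rcases eq_or_lt_of_le (dist_nonneg (x := y) (y := z)) with hD | hD
    · have a1 : dist y x = 0 := by linarith [dist_nonneg (x := y) (y := x), dist_nonneg (x := x) (y := z)]
      have a2 : dist x z = 0 := by linarith
      rw [KIneq, ← hD, a1, a2]; simp
    · obtain ⟨x', hx'⟩ := key y z (dist y x) (dist x z) dist_nonneg dist_nonneg hx hD
      have hS : 0 < sinh (dist y z) := sinh_pos_iff.2 hD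
      have a1 : dist x x' ≤ 0 := by
        refine hle _ _ _ le_rfl hS ((hx' x).trans (le_of_eq ?_))
        rw [cosh_zero, dist_comm x y, ← hx, sinh_add]; ring
      have a2 : x = x' := dist_le_zero.1 a1
      rw [KIneq]
      have := hx' p
      rwa [← a2] at this

/-- The carrier of the singular model. -/
def ConeZ (m : ℕ) : Type := Euc m

/-- The singular metric. -/
@[reducible] noncomputable def coneMet (m k₁ k₂ : ℕ) (h₁ : 1 ≤ k₁) (h₂ : 1 ≤ k₂) :
    MetricSpace (ConeZ m) where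
  dist x y := arcosh (coneC (m := m) k₁ k₂ x y)
  dist_self x := by simp [coneC_self]
  dist_comm x y := by rw [coneC_comm]
  dist_triangle := coneC_tri h₁ h₂
  eq_of_dist_eq_zero := by
    intro x y h
    have a1 : coneC (m := m) k₁ k₂ x y = 1 := (arcosh_eq_zero_iff (one_le_coneC h₁ h₂ x y)).1 h
    have a2 := lor_le_coneC (m := m) h₁ h₂ x y
    have a3 := one_le_lor (E := Euc m) (Hyp.mk x) (Hyp.mk y)
    have a4 : cosh (dist (Hyp.mk (E := Euc m) x) (Hyp.mk y)) = 1 := by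
      rw [cosh_dist]; linarith
    have a5 : dist (Hyp.mk (E := Euc m) x) (Hyp.mk y) = 0 := by
      by_contra hc
      have := one_lt_cosh.2 hc
      linarith
    exact (dist_eq_zero.1 a5 : Hyp.mk (E := Euc m) x = Hyp.mk y)

theorem cone_eventually {m k₁ k₂ : ℕ} (h₁ : 1 ≤ k₁) (h₂ : 1 ≤ k₂) (x : Euc m) : ∀ᶠ y in 𝓝 x,
    -lor (lift (Hyp.mk (pr k₁ k₂ x))) (lift (Hyp.mk (pr k₁ k₂ y))) = coneC k₁ k₂ x y := by
  filter_upwards [(cone_continuous_Z1.tendsto x).eventually (coneB_eventually h₁ (Z1 x)),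
    (cone_continuous_Z2.tendsto x).eventually (coneB_eventually h₂ (Z2 x))] with y a1 a2
  rw [lor_pr h₁ h₂, coneC, a1, a2]

/-- The singular model metric. -/
theorem cone_model (m k₁ k₂ : ℕ) (h₁ : 1 ≤ k₁) (h₂ : 1 ≤ k₂) :
    ∃ (Z : Type) (_ : MetricSpace Z) (h : Z ≃ₜ Euc m), GlobK Z ∧
      (∀ z z', dist (Hyp.mk (pr k₁ k₂ (h z))) (Hyp.mk (pr k₁ k₂ (h z'))) ≤ dist z z') ∧
      ∀ z, ∀ᶠ z' in 𝓝 z,
        dist (Hyp.mk (pr k₁ k₂ (h z))) (Hyp.mk (pr k₁ k₂ (h z'))) = dist z z' := by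
  let inst := coneMet m k₁ k₂ h₁ h₂
  let e : ConeZ m ≃ Euc m := Equiv.refl _
  have hd' : ∀ x y : ConeZ m, dist x y = arcosh (coneC k₁ k₂ (e x) (e y)) := fun _ _ => rfl
  have hd : ∀ x y : ConeZ m, cosh (dist x y) = coneC k₁ k₂ (e x) (e y) := fun x y =>
    cosh_arcosh (one_le_coneC h₁ h₂ _ _)
  have hp : ∀ x y : Hyp (Euc m), dist x y = arcosh (-lor (lift x) (lift y)) := fun _ _ => rfl
  have c1 : Continuous e.symm := by
    refine continuous_iff_continuousAt.2 fun x => tendsto_iff_dist_tendsto_zero.2 ?_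
    have a1 : Continuous fun y : Euc m => dist (Hyp.mk (pr k₁ k₂ x)) (Hyp.mk (pr k₁ k₂ y)) :=
      continuous_const.dist (continuous_mk.comp (continuous_pr h₁ h₂))
    have a2 := a1.tendsto x
    rw [dist_self] at a2
    refine a2.congr' ?_
    filter_upwards [cone_eventually h₁ h₂ x] with y hy
    rw [hp, hy, hd', coneC_comm, e.apply_symm_apply, e.apply_symm_apply]
  have c2 : Continuous e := by
    refine continuous_iff_continuousAt.2 fun x => tendsto_iff_norm_sub_tendsto_zero.2 ?_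
    have h4 : ∀ z : ConeZ m, coneH (e z) = cosh (dist (e.symm 0) z) := by
      intro z; rw [hd, e.apply_symm_apply, coneC_zero]
    have h5 : ∀ y : ConeZ m, ‖e y - e x‖ ≤ √((cosh (dist (e.symm 0) y) -
        cosh (dist (e.symm 0) x)) ^ 2 + 2 * (cosh (dist y x) - 1)) := by
      intro y
      rw [← h4, ← h4, hd]
      exact Real.le_sqrt_of_sq_le (coneC_norm_sub h₁ h₂ _ _)
    have h6 : Continuous fun y : ConeZ m => √((cosh (dist (e.symm 0) y) -
        cosh (dist (e.symm 0) x)) ^ 2 + 2 * (cosh (dist y x) - 1)) := by fun_prop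
    refine squeeze_zero (fun _ => norm_nonneg _) h5 ?_
    simpa using h6.tendsto x
  refine ⟨ConeZ m, inst, ⟨e, c2, c1⟩, cone_globK fun y z α β hα hβ h => ?_, fun z z' => ?_,
    fun z => ?_⟩
  · rw [hd] at h
    obtain ⟨x, hx⟩ := coneC_comb h₁ h₂ (e y) (e z) hα hβ h
    refine ⟨e.symm x, fun p => ?_⟩
    rw [hd, hd, hd, e.apply_symm_apply]
    exact hx _
  · change dist (Hyp.mk (pr k₁ k₂ (e z))) (Hyp.mk (pr k₁ k₂ (e z'))) ≤ dist z z'
    rw [hp, hd']
    have a0 := one_le_lor (Hyp.mk (pr k₁ k₂ (e z))) (Hyp.mk (pr k₁ k₂ (e z')))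
    refine (arcosh_le_arcosh (by linarith) (by linarith [one_le_coneC h₁ h₂ (e z) (e z')])).2 ?_
    have a1 := coneB_le_beta h₁ (Z1 (e z)) (Z1 (e z'))
    have a2 := coneB_le_beta h₂ (Z2 (e z)) (Z2 (e z'))
    rw [lor_pr h₁ h₂, coneC]
    linarith
  · filter_upwards [(c2.tendsto z).eventually (cone_eventually h₁ h₂ (e z))] with z' hz
    change dist (Hyp.mk (pr k₁ k₂ (e z))) (Hyp.mk (pr k₁ k₂ (e z'))) = dist z z'
    rw [hp, hz, hd']

end Pool.Agent.MP_39b1da_gt
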