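import Pool.Agent.MP_39b1da_gt.Basic

/-!
Directional derivative calculus and the Christoffel symbols of the model tensor.
-/

set_option autoImplicit false

namespace Pool.Agent.MP_39b1da_gt

open Filter Topology Set Real
open scoped ENNReal NNReal ContDiff InnerProductSpace

/-- `f` is differentiable at `x` with derivative `f'` in the direction `u`. -/
structure CurvHD {E F : Type} [NormedAddCommGroup E] [NormedSpace ℝ E] [NormedAddCommGroup F]
    [NormedSpace ℝ F] (f : E → F) (x u : E) (f' : F) : Prop where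
  diff : DifferentiableAt ℝ f x
  val : fderiv ℝ f x u = f'

namespace CurvHD

section
variable {E F : Type} [NormedAddCommGroup E] [NormedSpace ℝ E] [NormedAddCommGroup F]
  [NormedSpace ℝ F] {x u : E}

theorem of_has {f : E → F} {L : E →L[ℝ] F} (h : HasFDerivAt f L x) : CurvHD f x u (L u) :=
  ⟨h.differentiableAt, by rw [h.fderiv]⟩

theorem congr {f : E → F} {a b : F} (h : CurvHD f x u a) (e : a = b) : CurvHD f x u b := e ▸ h

theorem const (c : F) : CurvHD (fun _ : E => c) x u 0 :=
  (of_has (hasFDerivAt_const c x)).congr (by simp)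

theorem id' : CurvHD (fun y : E => y) x u u := of_has (hasFDerivAt_id x)

theorem add {f g : E → F} {a b : F} (h : CurvHD f x u a) (k : CurvHD g x u b) :
    CurvHD (fun y => f y + g y) x u (a + b) :=
  (of_has (h.diff.hasFDerivAt.add k.diff.hasFDerivAt)).congr (by simp [h.val, k.val])

theorem sub {f g : E → F} {a b : F} (h : CurvHD f x u a) (k : CurvHD g x u b) :
    CurvHD (fun y => f y - g y) x u (a - b) :=
  (of_has (h.diff.hasFDerivAt.sub k.diff.hasFDerivAt)).congr (by simp [h.val, k.val])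

theorem neg {f : E → F} {a : F} (h : CurvHD f x u a) : CurvHD (fun y => -f y) x u (-a) :=
  (of_has h.diff.hasFDerivAt.neg).congr (by simp [h.val])

theorem mul {f g : E → ℝ} {a b : ℝ} (h : CurvHD f x u a) (k : CurvHD g x u b) :
    CurvHD (fun y => f y * g y) x u (a * g x + f x * b) :=
  (of_has (h.diff.hasFDerivAt.mul k.diff.hasFDerivAt)).congr (by simp [h.val, k.val]; ring)

theorem comp {f : E → ℝ} {a : ℝ} {l : ℝ → ℝ} (hl : DifferentiableAt ℝ l (f x))
    (h : CurvHD f x u a) : CurvHD (fun y => l (f y)) x u (deriv l (f x) * a) :=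
  (of_has (hl.hasDerivAt.comp_hasFDerivAt x h.diff.hasFDerivAt)).congr (by simp [h.val])

theorem inv {f : E → ℝ} {a : ℝ} (h : CurvHD f x u a) (h0 : f x ≠ 0) :
    CurvHD (fun y => (f y)⁻¹) x u (-(a * (f x)⁻¹ ^ 2)) :=
  (comp (l := fun t => t⁻¹) (differentiableAt_inv h0) h).congr (by simp; ring)

theorem sq {f : E → ℝ} {a : ℝ} (h : CurvHD f x u a) :
    CurvHD (fun y => f y ^ 2) x u (2 * f x * a) := by
  simp only [pow_two]
  exact (h.mul h).congr (by ring)

theorem clm {G : Type} [NormedAddCommGroup G] [NormedSpace ℝ G] (L : F →L[ℝ] G) {f : E → F}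
    {a : F} (h : CurvHD f x u a) : CurvHD (fun y => L (f y)) x u (L a) :=
  (of_has (L.hasFDerivAt.comp x h.diff.hasFDerivAt)).congr (by simp [h.val])

end

section
variable {E : Type} [NormedAddCommGroup E] [InnerProductSpace ℝ E] {x u : E}

theorem inner {f g : E → E} {a b : E} (h : CurvHD f x u a) (k : CurvHD g x u b) :
    CurvHD (fun y => ⟪f y, g y⟫_ℝ) x u (⟪a, g x⟫_ℝ + ⟪f x, b⟫_ℝ) :=
  (of_has (h.diff.hasFDerivAt.inner ℝ k.diff.hasFDerivAt)).congr
    (by simp [h.val, k.val, add_comm])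

theorem normsq : CurvHD (fun y : E => ‖y‖ ^ 2) x u (2 * ⟪x, u⟫_ℝ) := by
  simp only [← real_inner_self_eq_norm_sq]
  exact (id'.inner id').congr (by rw [real_inner_comm]; ring)

theorem sinv : CurvHD (fun y : E => (1 + ‖y‖ ^ 2)⁻¹) x u
    (-(2 * ⟪x, u⟫_ℝ * (1 + ‖x‖ ^ 2)⁻¹ ^ 2)) :=
  (((const 1).add normsq).inv (by positivity)).congr (by rw [zero_add])

end

theorem coord {m : ℕ} {x u : Euc m} {f : Euc m → Euc m} {a : Euc m} (h : CurvHD f x u a)
    (i : Fin (m + 4)) : CurvHD (fun y => f y i) x u (a i) :=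
  clm (EuclideanSpace.proj i : Euc m →L[ℝ] ℝ) h

end CurvHD

section Hyp
variable {E : Type} [NormedAddCommGroup E] [InnerProductSpace ℝ E]

theorem curv_Gh (x u v : E) :
    Gh x u v = ⟪u, v⟫_ℝ - ⟪x, u⟫_ℝ * ⟪x, v⟫_ℝ * (1 + ‖x‖ ^ 2)⁻¹ := by
  rw [Gh, div_eq_mul_inv]

/-- The derivative of the hyperbolic tensor. -/
noncomputable def curvDh (x u a b : E) : ℝ :=
  -((⟪u, a⟫_ℝ * ⟪x, b⟫_ℝ + ⟪x, a⟫_ℝ * ⟪u, b⟫_ℝ) * (1 + ‖x‖ ^ 2)⁻¹) +
    2 * ⟪x, u⟫_ℝ * ⟪x, a⟫_ℝ * ⟪x, b⟫_ℝ * (1 + ‖x‖ ^ 2)⁻¹ ^ 2

theorem curv_hd_Gh {x u : E} {a : E → E} {a' : E} (h : CurvHD a x u a') (w : E) :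
    CurvHD (fun y => Gh y (a y) w) x u (Gh x a' w + curvDh x u (a x) w) := by
  simp only [curv_Gh]
  refine ((h.inner (CurvHD.const w)).sub (((CurvHD.id'.inner h).mul
    (CurvHD.id'.inner (CurvHD.const w))).mul CurvHD.sinv)).congr ?_
  simp only [curvDh, inner_zero_right]
  ring

/-- The hyperbolic Christoffel symbols of the first kind. -/
noncomputable def curvKh (x u v w : E) : ℝ := -(Gh x u v * (⟪x, w⟫_ℝ * (1 + ‖x‖ ^ 2)⁻¹))

/-- Their derivative. -/
noncomputable def curvDKh (x z u v w : E) : ℝ :=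
  -(curvDh x z u v * (⟪x, w⟫_ℝ * (1 + ‖x‖ ^ 2)⁻¹) + Gh x u v *
    (⟪z, w⟫_ℝ * (1 + ‖x‖ ^ 2)⁻¹ - ⟪x, w⟫_ℝ * (2 * ⟪x, z⟫_ℝ * (1 + ‖x‖ ^ 2)⁻¹ ^ 2)))

theorem curv_hd_Kh (x z u v w : E) :
    CurvHD (fun y => curvKh y u v w) x z (curvDKh x z u v w) := by
  refine (((curv_hd_Gh (CurvHD.const u) v).mul ((CurvHD.id'.inner (CurvHD.const w)).mul
    CurvHD.sinv)).neg).congr ?_
  simp only [curvDKh, curv_Gh, inner_zero_right, inner_zero_left]
  ring

theorem curv_Dh_eq (x u a b : E) : curvDh x u a b = curvKh x u a b + curvKh x u b a := by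
  simp only [curvDh, curvKh, curv_Gh]
  ring

theorem curv_Kh_symm (x u v w : E) : curvKh x u v w = curvKh x v u w := by
  simp only [curvKh, curv_Gh, real_inner_comm u v]
  ring

theorem curv_DKh_eq (x u v : E) : curvDKh x u v v u - curvDKh x v u v u =
    -((1 + ‖x‖ ^ 2)⁻¹ * (Gh x u u * Gh x v v - Gh x u v ^ 2)) := by
  simp only [curvDKh, curvDh, curv_Gh, real_inner_comm u v]
  ring

end Hyp

section Plane
variable {m : ℕ} (l : ℝ → ℝ) (i j : Fin (m + 4))

/-- The squared radius in the plane `i, j`. -/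
noncomputable def curvT (x : Euc m) : ℝ := x i ^ 2 + x j ^ 2

/-- The area form of the plane `i, j`. -/
noncomputable def curvOm (x u : Euc m) : ℝ := x i * u j - x j * u i

/-- The inner product of the plane `i, j`. -/
noncomputable def curvRho (x u : Euc m) : ℝ := x i * u i + x j * u j

/-- The warping correction. -/
noncomputable def curvG (x u v : Euc m) : ℝ :=
  l (curvT i j x) * (curvOm i j x u * curvOm i j x v)

/-- Its derivative. -/
noncomputable def curvD (x u a b : Euc m) : ℝ :=
  deriv l (curvT i j x) * (2 * curvRho i j x u) * (curvOm i j x a * curvOm i j x b) +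
    l (curvT i j x) * (curvOm i j u a * curvOm i j x b + curvOm i j x a * curvOm i j u b)

/-- Its Christoffel symbols of the first kind. -/
noncomputable def curvK (x u v w : Euc m) : ℝ :=
  deriv l (curvT i j x) * (curvRho i j x u * curvOm i j x v * curvOm i j x w +
    curvRho i j x v * curvOm i j x u * curvOm i j x w -
      curvRho i j x w * curvOm i j x u * curvOm i j x v) +
    l (curvT i j x) * (curvOm i j x v * curvOm i j u w + curvOm i j x u * curvOm i j v w)

/-- Their derivative. -/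
noncomputable def curvDK (x z u v w : Euc m) : ℝ :=
  deriv (deriv l) (curvT i j x) * (2 * curvRho i j x z) *
      (curvRho i j x u * curvOm i j x v * curvOm i j x w +
        curvRho i j x v * curvOm i j x u * curvOm i j x w -
          curvRho i j x w * curvOm i j x u * curvOm i j x v) +
    deriv l (curvT i j x) *
      ((curvRho i j z u * curvOm i j x v + curvRho i j x u * curvOm i j z v) * curvOm i j x w +
        curvRho i j x u * curvOm i j x v * curvOm i j z w +
      ((curvRho i j z v * curvOm i j x u + curvRho i j x v * curvOm i j z u) * curvOm i j x w +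
        curvRho i j x v * curvOm i j x u * curvOm i j z w) -
      ((curvRho i j z w * curvOm i j x u + curvRho i j x w * curvOm i j z u) * curvOm i j x v +
        curvRho i j x w * curvOm i j x u * curvOm i j z v)) +
    (deriv l (curvT i j x) * (2 * curvRho i j x z) *
      (curvOm i j x v * curvOm i j u w + curvOm i j x u * curvOm i j v w) +
    l (curvT i j x) * (curvOm i j z v * curvOm i j u w + curvOm i j z u * curvOm i j v w))

theorem curvT_nonneg (x : Euc m) : 0 ≤ curvT i j x := by unfold curvT; positivity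

theorem curv_hd_T (x u : Euc m) : CurvHD (fun y => curvT i j y) x u (2 * curvRho i j x u) :=
  ((CurvHD.id'.coord i).sq.add (CurvHD.id'.coord j).sq).congr (by unfold curvRho; ring)

theorem curv_hd_om {x u : Euc m} {a : Euc m → Euc m} {a' : Euc m} (h : CurvHD a x u a') :
    CurvHD (fun y => curvOm i j y (a y)) x u (curvOm i j u (a x) + curvOm i j x a') :=
  (((CurvHD.id'.coord i).mul (h.coord j)).sub ((CurvHD.id'.coord j).mul (h.coord i))).congr
    (by unfold curvOm; ring)

theorem curv_hd_om' (x u a : Euc m) :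
    CurvHD (fun y => curvOm i j y a) x u (curvOm i j u a) :=
  (curv_hd_om i j (CurvHD.const a)).congr (by simp [curvOm])

theorem curv_hd_rho (x u a : Euc m) :
    CurvHD (fun y => curvRho i j y a) x u (curvRho i j u a) :=
  (((CurvHD.id'.coord i).mul (CurvHD.const (a i))).add
    ((CurvHD.id'.coord j).mul (CurvHD.const (a j)))).congr (by unfold curvRho; ring)

variable {l}

theorem Adm.curv_d1 (h : Adm l) {t : ℝ} (ht : 0 ≤ t) : DifferentiableAt ℝ l t :=
  (h.smooth t ht).differentiableAt (by simp)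

theorem Adm.curv_d2 (h : Adm l) {t : ℝ} (ht : 0 ≤ t) : DifferentiableAt ℝ (deriv l) t :=
  ((h.smooth t ht).derivWithin (m := 1)
    (WithTop.coe_le_coe.2 (le_top : ((1 : ℕ∞) + 1) ≤ ⊤))).differentiableAt (by simp)

theorem curv_hd_G (hl : Adm l) {x u : Euc m} {a : Euc m → Euc m} {a' : Euc m}
    (h : CurvHD a x u a') (w : Euc m) :
    CurvHD (fun y => curvG l i j y (a y) w) x u (curvG l i j x a' w + curvD l i j x u (a x) w) :=
  ((CurvHD.comp (hl.curv_d1 (curvT_nonneg i j x)) (curv_hd_T i j x u)).mul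
    ((curv_hd_om i j h).mul (curv_hd_om' i j x u w))).congr (by unfold curvG curvD; ring)

theorem curv_hd_K (hl : Adm l) (x z u v w : Euc m) :
    CurvHD (fun y => curvK l i j y u v w) x z (curvDK l i j x z u v w) :=
  (((CurvHD.comp (hl.curv_d2 (curvT_nonneg i j x)) (curv_hd_T i j x z)).mul
    (((((curv_hd_rho i j x z u).mul (curv_hd_om' i j x z v)).mul (curv_hd_om' i j x z w)).add
      (((curv_hd_rho i j x z v).mul (curv_hd_om' i j x z u)).mul (curv_hd_om' i j x z w))).sub
      (((curv_hd_rho i j x z w).mul (curv_hd_om' i j x z u)).mul (curv_hd_om' i j x z v)))).add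
    ((CurvHD.comp (hl.curv_d1 (curvT_nonneg i j x)) (curv_hd_T i j x z)).mul
      (((curv_hd_om' i j x z v).mul (CurvHD.const (curvOm i j u w))).add
        ((curv_hd_om' i j x z u).mul (CurvHD.const (curvOm i j v w)))))).congr
    (by unfold curvDK; ring)

variable (l)

theorem curv_D_eq (x u a b : Euc m) :
    curvD l i j x u a b = curvK l i j x u a b + curvK l i j x u b a := by
  simp only [curvD, curvK, curvOm, curvRho]
  ring

theorem curv_K_symm (x u v w : Euc m) : curvK l i j x u v w = curvK l i j x v u w := by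
  simp only [curvK]
  ring

end Plane

end Pool.Agent.MP_39b1da_gt
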