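import Pool.Agent.MP_39b1da_gt.HypA
import Pool.Agent.MP_39b1da_gt.Curv1

set_option autoImplicit false

namespace Pool.Agent.MP_39b1da_gt

open Filter Topology Set Real
open scoped ENNReal NNReal ContDiff InnerProductSpace

section Plane
variable {m : ℕ} (l : ℝ → ℝ) (i j : Fin (m + 4))

/-- The coefficient `2 l + t l'`. -/
noncomputable def curvP (t : ℝ) : ℝ := 2 * l t + t * deriv l t

/-- The coefficient of the mixed term. -/
noncomputable def curvC (t : ℝ) : ℝ := (deriv l t - l t ^ 2) * (1 + t * l t)⁻¹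

/-- The coefficient of the squared area form in the curvature. -/
noncomputable def curvQ (t : ℝ) : ℝ :=
  3 * (l t + t * deriv l t) + 2 * t * (2 * deriv l t + t * deriv (deriv l) t) -
    t * (l t + t * deriv l t) * (l t + curvC l t * t)

/-- The radial part of the Christoffel map. -/
noncomputable def curvAl (x u v : Euc m) : ℝ :=
  -(curvP l (curvT i j x) * (curvOm i j x u * curvOm i j x v))

/-- First coordinate of the plane part of the Christoffel map. -/
noncomputable def curvVi (x u v : Euc m) : ℝ :=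
  -(l (curvT i j x) * (curvOm i j x v * u j + curvOm i j x u * v j)) -
    deriv l (curvT i j x) * (curvOm i j x u * curvOm i j x v) * x i -
      curvC l (curvT i j x) *
        (curvRho i j x u * curvOm i j x v + curvOm i j x u * curvRho i j x v) * x j

/-- Second coordinate of the plane part of the Christoffel map. -/
noncomputable def curvVj (x u v : Euc m) : ℝ :=
  l (curvT i j x) * (curvOm i j x v * u i + curvOm i j x u * v i) -
    deriv l (curvT i j x) * (curvOm i j x u * curvOm i j x v) * x j +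
      curvC l (curvT i j x) *
        (curvRho i j x u * curvOm i j x v + curvOm i j x u * curvRho i j x v) * x i

/-- The plane part of the Christoffel map. -/
noncomputable def curvV (x u v : Euc m) : Euc m :=
  curvVi l i j x u v • EuclideanSpace.single i (1 : ℝ) +
    curvVj l i j x u v • EuclideanSpace.single j (1 : ℝ)

theorem curv_inner_V (x u v w : Euc m) :
    ⟪curvV l i j x u v, w⟫_ℝ = curvVi l i j x u v * w i + curvVj l i j x u v * w j := by
  simp [curvV, inner_add_left, inner_smul_left, EuclideanSpace.inner_single_left]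

theorem curv_inner_V' (x u v : Euc m) : ⟪x, curvV l i j x u v⟫_ℝ = curvAl l i j x u v := by
  rw [real_inner_comm, curv_inner_V]
  simp only [curvVi, curvVj, curvAl, curvP, curvT, curvOm, curvRho]
  ring

variable {l}

theorem Adm.curv_A (h : Adm l) {t : ℝ} (ht : 0 ≤ t) : 0 < 1 + t * l t := by
  have := mul_nonneg ht (h.nonneg t ht); linarith

theorem Adm.curv_l' (h : Adm l) {t : ℝ} (ht : 0 ≤ t) :
    deriv l t = l t ^ 2 + curvC l t * (1 + t * l t) := by
  rw [curvC, mul_assoc, inv_mul_cancel₀ (h.curv_A ht).ne']; ring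

theorem Adm.curv_q (h : Adm l) {t : ℝ} (ht : 0 ≤ t) : 0 ≤ t * curvP l t + (1 + t) * curvQ l t := by
  have hA := h.curv_A ht
  refine (mul_nonneg_iff_of_pos_right hA).1 ((h.q_ge t ht).trans_eq ?_)
  have e := h.curv_l' ht
  simp only [curvP, curvQ]
  generalize curvC l t = c at *
  rw [e]
  ring

theorem curv_diff_V (h : Adm l) (x u v : Euc m) :
    DifferentiableAt ℝ (fun y => curvAl l i j y u v) x ∧
      DifferentiableAt ℝ (fun y => curvV l i j y u v) x := by
  have ht := curvT_nonneg i j x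
  have d0 := (curv_hd_T i j x 0).diff
  have d1 := (CurvHD.comp (h.curv_d1 ht) (curv_hd_T i j x 0)).diff
  have d2 := (CurvHD.comp (h.curv_d2 ht) (curv_hd_T i j x 0)).diff
  have d3 := (curv_hd_om' i j x 0 u).diff
  have d4 := (curv_hd_om' i j x 0 v).diff
  have d5 := (curv_hd_rho i j x 0 u).diff
  have d6 := (curv_hd_rho i j x 0 v).diff
  have d7 := ((CurvHD.id' (x := x) (u := 0)).coord i).diff
  have d8 := ((CurvHD.id' (x := x) (u := 0)).coord j).diff
  have d9 : DifferentiableAt ℝ (fun y => curvC l (curvT i j y)) x :=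
    (d2.sub (d1.pow 2)).mul (((differentiableAt_const _).add (d0.mul d1)).inv (h.curv_A ht).ne')
  refine ⟨((((differentiableAt_const _).mul d1).add (d0.mul d2)).mul (d3.mul d4)).neg, ?_⟩
  refine DifferentiableAt.add (DifferentiableAt.smul_const ?_ _) (DifferentiableAt.smul_const ?_ _)
  · exact ((d1.mul ((d4.mul_const _).add (d3.mul_const _))).neg.sub
      ((d2.mul (d3.mul d4)).mul d7)).sub ((d9.mul ((d5.mul d4).add (d3.mul d6))).mul d8)
  · exact ((d1.mul ((d4.mul_const _).add (d3.mul_const _))).sub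
      ((d2.mul (d3.mul d4)).mul d8)).add ((d9.mul ((d5.mul d4).add (d3.mul d6))).mul d7)

theorem curv_G_V (h : Adm l) (x u v w W : Euc m) (α : ℝ)
    (hi : W i = α * x i + curvVi l i j x u v) (hj : W j = α * x j + curvVj l i j x u v) :
    curvG l i j x W w + (curvVi l i j x u v * w i + curvVj l i j x u v * w j) =
      curvK l i j x u v w := by
  have e := h.curv_l' (curvT_nonneg i j x)
  simp only [curvG, curvK, curvOm, curvRho, hi, hj, curvVi, curvVj]
  generalize curvC l (curvT i j x) = c at *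
  rw [e]
  generalize l (curvT i j x) = L
  simp only [curvT]
  ring

theorem curv_plane (h : Adm l) (x u v W W' : Euc m) (α α' : ℝ)
    (hi : W i = α * x i + curvVi l i j x v v) (hj : W j = α * x j + curvVj l i j x v v)
    (hi' : W' i = α' * x i + curvVi l i j x u v) (hj' : W' j = α' * x j + curvVj l i j x u v) :
    curvDK l i j x u v v u - curvK l i j x u u W - (curvDK l i j x v u v u - curvK l i j x v u W') =
      -(curvQ l (curvT i j x) * curvOm i j u v ^ 2) - α * curvAl l i j x u u +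
        α' * curvAl l i j x u v := by
  have e := h.curv_l' (curvT_nonneg i j x)
  simp only [curvDK, curvK, curvQ, curvAl, curvP, curvOm, curvRho, hi, hj, hi', hj', curvVi,
    curvVj]
  generalize curvC l (curvT i j x) = c at *
  rw [e]
  generalize l (curvT i j x) = L
  generalize deriv (deriv l) (curvT i j x) = L2
  simp only [curvT]
  ring

theorem curv_Gh_comb (x u v : Euc m) (a b : ℝ) :
    Gh x (a • v - b • u) (a • v - b • u) =
      a ^ 2 * Gh x v v - 2 * a * b * Gh x u v + b ^ 2 * Gh x u u := by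
  simp only [curv_Gh, inner_sub_left, inner_sub_right, inner_smul_left, inner_smul_right,
    conj_trivial, real_inner_comm u v]
  ring

theorem curv_bracket (h : Adm l) (hij : i ≠ j) (x u v : Euc m) :
    0 ≤ curvP l (curvT i j x) * (curvOm i j x u ^ 2 * Gh x v v -
      2 * curvOm i j x u * curvOm i j x v * Gh x u v + curvOm i j x v ^ 2 * Gh x u u) +
      curvQ l (curvT i j x) * curvOm i j u v ^ 2 := by
  rw [← curv_Gh_comb]
  set w := curvOm i j x u • v - curvOm i j x v • u with hw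
  have ht := curvT_nonneg i j x
  set z : Euc m := x i • EuclideanSpace.single i (1 : ℝ) + x j • EuclideanSpace.single j (1 : ℝ) +
    curvT i j x • x with hz
  have hzw : ∀ a : Euc m, Gh x z a = curvRho i j x a := by
    intro a
    have h1 : (1 + ‖x‖ ^ 2) * (1 + ‖x‖ ^ 2)⁻¹ = 1 := mul_inv_cancel₀ (by positivity)
    simp only [curv_Gh, hz, inner_add_left, inner_add_right, inner_smul_left, inner_smul_right,
      EuclideanSpace.inner_single_left, EuclideanSpace.inner_single_right, conj_trivial,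
      real_inner_self_eq_norm_sq, curvRho, curvT]
    linear_combination (-(x i ^ 2 + x j ^ 2) * ⟪x, a⟫_ℝ) * h1
  have h2 := Gh_cs x z w
  rw [hzw, hzw] at h2
  have h3 : curvRho i j x z = curvT i j x * (1 + curvT i j x) := by
    simp [hz, curvRho, curvT, hij, hij.symm]; ring
  have h4 : curvRho i j x w = -(curvT i j x * curvOm i j u v) := by
    simp [hw, curvRho, curvT, curvOm]; ring
  rw [h3, h4] at h2
  have h5 : 0 ≤ Gh x w w := by
    by_cases h0 : w = 0
    · simp [h0, Gh]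
    · exact (Gh_pos x h0).le
  have h6 : curvT i j x * curvOm i j u v ^ 2 ≤ (1 + curvT i j x) * Gh x w w := by
    rcases ht.eq_or_lt with h0 | h0
    · rw [← h0]; linarith
    · refine le_of_mul_le_mul_left ?_ h0
      linarith
  have h7 := h.curv_q ht
  have h8 : 0 ≤ curvP l (curvT i j x) := h.p_nonneg _ ht
  refine nonneg_of_mul_nonneg_right (a := 1 + curvT i j x) ?_ (by linarith)
  nlinarith [mul_le_mul_of_nonneg_left h6 h8, mul_nonneg h7 (sq_nonneg (curvOm i j u v))]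

end Plane

variable {m : ℕ} {l₁ l₂ : ℝ → ℝ}

theorem curv_Gm (x u v : Euc m) :
    Gm l₁ l₂ x u v = Gh x u v + curvG l₁ 0 1 x u v + curvG l₂ 2 3 x u v := rfl

theorem curv_smooth_G {l : ℝ → ℝ} (h : Adm l) (i j : Fin (m + 4)) (u v : Euc m) :
    ContDiff ℝ ∞ fun x : Euc m => curvG l i j x u v := by
  have hc : ∀ k : Fin (m + 4), ContDiff ℝ ∞ fun x : Euc m => x k := fun k =>
    (EuclideanSpace.proj k : Euc m →L[ℝ] ℝ).contDiff
  have hT : ContDiff ℝ ∞ fun x : Euc m => curvT i j x := ((hc i).pow 2).add ((hc j).pow 2)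
  have hO : ∀ a : Euc m, ContDiff ℝ ∞ fun x : Euc m => curvOm i j x a := fun a =>
    ((hc i).mul contDiff_const).sub ((hc j).mul contDiff_const)
  refine ContDiff.mul ?_ ((hO u).mul (hO v))
  exact contDiff_iff_contDiffAt.2 fun x =>
    (h.smooth _ (curvT_nonneg i j x)).comp x hT.contDiffAt

theorem Gm_smooth (h₁ : Adm l₁) (h₂ : Adm l₂) (u v : Euc m) :
    ContDiff ℝ ∞ fun x : Euc m => Gm l₁ l₂ x u v := by
  refine ContDiff.add (ContDiff.add ?_ (curv_smooth_G h₁ 0 1 u v)) (curv_smooth_G h₂ 2 3 u v)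
  refine contDiff_const.sub (ContDiff.div ?_ (contDiff_const.add (contDiff_norm_sq ℝ))
    fun x => by positivity)
  exact (contDiff_id.inner ℝ contDiff_const).mul (contDiff_id.inner ℝ contDiff_const)

theorem Gm_symm (x u v : Euc m) : Gm l₁ l₂ x u v = Gm l₁ l₂ x v u := by
  simp only [Gm, Gh, real_inner_comm u v]
  ring

theorem Gm_linear (x v : Euc m) : IsLinearMap ℝ fun u => Gm l₁ l₂ x u v := by
  constructor
  · intro a b
    simp only [Gm, Gh, om1, om2, inner_add_left, inner_add_right, PiLp.add_apply]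
    ring
  · intro c a
    simp only [Gm, Gh, om1, om2, inner_smul_left, inner_smul_right, PiLp.smul_apply, smul_eq_mul,
      conj_trivial]
    ring

theorem Gm_pos (h₁ : Adm l₁) (h₂ : Adm l₂) (x : Euc m) {u : Euc m} (hu : u ≠ 0) :
    0 < Gm l₁ l₂ x u u := by
  have a := Gh_pos x hu
  have b := mul_nonneg (h₁.nonneg (x 0 ^ 2 + x 1 ^ 2) (by positivity)) (mul_self_nonneg (om1 x u))
  have c := mul_nonneg (h₂.nonneg (x 2 ^ 2 + x 3 ^ 2) (by positivity)) (mul_self_nonneg (om2 x u))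
  unfold Gm
  linarith

variable (l₁ l₂)

/-- The coefficient of the position vector in the Christoffel map. -/
noncomputable def curvA (x u v : Euc m) : ℝ :=
  -Gh x u v + curvAl l₁ 0 1 x u v + curvAl l₂ 2 3 x u v

/-- The Christoffel map. -/
noncomputable def curvGam (x u v : Euc m) : Euc m :=
  curvA l₁ l₂ x u v • x + curvV l₁ 0 1 x u v + curvV l₂ 2 3 x u v

/-- The Christoffel symbols of the first kind. -/
noncomputable def curvKm (x u v w : Euc m) : ℝ :=
  curvKh x u v w + curvK l₁ 0 1 x u v w + curvK l₂ 2 3 x u v w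

theorem curv_ne : ((0 : Fin (m + 4)) ≠ 1 ∧ (0 : Fin (m + 4)) ≠ 2 ∧ (0 : Fin (m + 4)) ≠ 3) ∧
    (1 : Fin (m + 4)) ≠ 2 ∧ (1 : Fin (m + 4)) ≠ 3 ∧ (2 : Fin (m + 4)) ≠ 3 := by
  have h2 : ((2 : Fin (m + 4)) : ℕ) = 2 := Nat.mod_eq_of_lt (show 2 < m + 4 by omega)
  have h3 : ((3 : Fin (m + 4)) : ℕ) = 3 := Nat.mod_eq_of_lt (show 3 < m + 4 by omega)
  simp only [ne_eq, Fin.ext_iff, h2, h3, Fin.val_zero, Fin.val_one]
  omega

theorem curv_Gam_coord (x u v : Euc m) :
    (curvGam l₁ l₂ x u v 0 = curvA l₁ l₂ x u v * x 0 + curvVi l₁ 0 1 x u v ∧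
      curvGam l₁ l₂ x u v 1 = curvA l₁ l₂ x u v * x 1 + curvVj l₁ 0 1 x u v) ∧
    curvGam l₁ l₂ x u v 2 = curvA l₁ l₂ x u v * x 2 + curvVi l₂ 2 3 x u v ∧
      curvGam l₁ l₂ x u v 3 = curvA l₁ l₂ x u v * x 3 + curvVj l₂ 2 3 x u v := by
  obtain ⟨⟨a, b, c⟩, d, e, f⟩ := curv_ne (m := m)
  simp [curvGam, curvV, a, b, c, d, e, f, a.symm, b.symm, c.symm, d.symm, e.symm, f.symm]

theorem curv_inner_Gam (x u v : Euc m) : ⟪x, curvGam l₁ l₂ x u v⟫_ℝ * (1 + ‖x‖ ^ 2)⁻¹ =
    curvA l₁ l₂ x u v + Gh x u v * (1 + ‖x‖ ^ 2)⁻¹ := by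
  have h1 : (1 + ‖x‖ ^ 2) * (1 + ‖x‖ ^ 2)⁻¹ = 1 := mul_inv_cancel₀ (by positivity)
  simp only [curvGam, inner_add_right, inner_smul_right, curv_inner_V', real_inner_self_eq_norm_sq]
  have : curvA l₁ l₂ x u v = -Gh x u v + curvAl l₁ 0 1 x u v + curvAl l₂ 2 3 x u v := rfl
  linear_combination curvA l₁ l₂ x u v * h1 - (1 + ‖x‖ ^ 2)⁻¹ * this

variable {l₁ l₂}

theorem curv_Gm_Gam (h₁ : Adm l₁) (h₂ : Adm l₂) (x u v w : Euc m) :
    Gm l₁ l₂ x (curvGam l₁ l₂ x u v) w = curvKm l₁ l₂ x u v w := by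
  obtain ⟨⟨a, b⟩, c, d⟩ := curv_Gam_coord l₁ l₂ x u v
  have e1 := curv_G_V 0 1 h₁ x u v w _ _ a b
  have e2 := curv_G_V 2 3 h₂ x u v w _ _ c d
  have e3 := curv_inner_Gam l₁ l₂ x u v
  have e4 : ⟪curvGam l₁ l₂ x u v, w⟫_ℝ = curvA l₁ l₂ x u v * ⟪x, w⟫_ℝ +
      (curvVi l₁ 0 1 x u v * w 0 + curvVj l₁ 0 1 x u v * w 1) +
      (curvVi l₂ 2 3 x u v * w 2 + curvVj l₂ 2 3 x u v * w 3) := by
    simp only [curvGam, inner_add_left, inner_smul_left, curv_inner_V, conj_trivial]
  rw [curv_Gm, curv_Gh, curvKm, curvKh]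
  linear_combination e1 + e2 + e4 - ⟪x, w⟫_ℝ * e3

theorem curv_hd_Gm (h₁ : Adm l₁) (h₂ : Adm l₂) {x u : Euc m} {a : Euc m → Euc m} {a' : Euc m}
    (h : CurvHD a x u a') (w : Euc m) : CurvHD (fun y => Gm l₁ l₂ y (a y) w) x u
      (Gm l₁ l₂ x a' w + (curvKm l₁ l₂ x u (a x) w + curvKm l₁ l₂ x u w (a x))) :=
  (((curv_hd_Gh h w).add (curv_hd_G 0 1 h₁ h w)).add (curv_hd_G 2 3 h₂ h w)).congr (by
    rw [curv_Gm, curv_Dh_eq, curv_D_eq, curv_D_eq, curvKm, curvKm]; ring)

theorem curv_Km_symm (x u v w : Euc m) : curvKm l₁ l₂ x u v w = curvKm l₁ l₂ x v u w := by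
  rw [curvKm, curvKm, curv_Kh_symm, curv_K_symm l₁, curv_K_symm l₂]

theorem curv_diff_Gam (h₁ : Adm l₁) (h₂ : Adm l₂) (x u v : Euc m) :
    DifferentiableAt ℝ (fun y => curvGam l₁ l₂ y u v) x := by
  have a := curv_diff_V 0 1 h₁ x u v
  have b := curv_diff_V 2 3 h₂ x u v
  have c := (curv_hd_Gh (x := x) (u := 0) (CurvHD.const u) v).diff
  exact ((((c.neg.add a.1).add b.1).smul differentiableAt_id).add a.2).add b.2

theorem curv_half (h₁ : Adm l₁) (h₂ : Adm l₂) (x z u v w : Euc m) :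
    Gm l₁ l₂ x (fderiv ℝ (fun y => curvGam l₁ l₂ y u v) x z) w +
      Gm l₁ l₂ x (curvGam l₁ l₂ x z (curvGam l₁ l₂ x u v)) w =
      curvDKh x z u v w + curvDK l₁ 0 1 x z u v w + curvDK l₂ 2 3 x z u v w -
        curvKm l₁ l₂ x z w (curvGam l₁ l₂ x u v) := by
  have a := (curv_hd_Gm h₁ h₂ (u := z) ⟨curv_diff_Gam h₁ h₂ x u v, rfl⟩ w).val
  have b := (((curv_hd_Kh x z u v w).add (curv_hd_K 0 1 h₁ x z u v w)).add
    (curv_hd_K 2 3 h₂ x z u v w)).val
  simp only [curv_Gm_Gam h₁ h₂] at a ⊢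
  simp only [curvKm] at a ⊢
  rw [b] at a
  linarith

theorem Gm_neg (h₁ : Adm l₁) (h₂ : Adm l₂) :
    ∃ Γ, IsChristoffel (univ : Set (Euc m)) (Gm l₁ l₂) Γ ∧
      ∀ x u v : Euc m, LinearIndependent ℝ ![u, v] → Gm l₁ l₂ x (curv Γ x u v v) u < 0 := by
  refine ⟨curvGam l₁ l₂, fun x _ u v w => ?_, fun x u v huv => ?_⟩
  · have h0 : ∀ a : Euc m, Gm l₁ l₂ x 0 a = 0 := fun a => (Gm_linear x a).map_zero
    rw [(curv_hd_Gm h₁ h₂ (CurvHD.const v) w).val, (curv_hd_Gm h₁ h₂ (CurvHD.const u) w).val,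
      (curv_hd_Gm h₁ h₂ (CurvHD.const u) v).val, curv_Gm_Gam h₁ h₂, h0, h0,
      curv_Km_symm x v u w, curv_Km_symm x w u v, curv_Km_symm x w v u]
    ring
  have L := Gm_linear (l₁ := l₁) (l₂ := l₂) x u
  have e0 : Gm l₁ l₂ x (curv (curvGam l₁ l₂) x u v v) u = _ :=
    (L.map_sub _ _).trans (congrArg₂ _ ((L.map_add _ _).trans
      (congrArg₂ _ (L.map_sub _ _) rfl)) rfl)
  have e1 := curv_half h₁ h₂ x u v v u
  have e2 := curv_half h₁ h₂ x v u v u
  obtain ⟨⟨a, b⟩, c, d⟩ := curv_Gam_coord l₁ l₂ x v v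
  obtain ⟨⟨a', b'⟩, c', d'⟩ := curv_Gam_coord l₁ l₂ x u v
  have e3 := curv_plane 0 1 h₁ x u v _ _ _ _ a b a' b'
  have e4 := curv_plane 2 3 h₂ x u v _ _ _ _ c d c' d'
  have e5 := curv_DKh_eq x u v
  have e6 := curv_inner_Gam l₁ l₂ x v v
  have e7 := curv_inner_Gam l₁ l₂ x u v
  have e8 : Gh x v u = Gh x u v := by simp only [Gh, real_inner_comm u v, mul_comm]
  obtain ⟨⟨n1, -, -⟩, -, -, n2⟩ := curv_ne (m := m)
  have p1 := curv_bracket 0 1 h₁ n1 x u v
  have p2 := curv_bracket 2 3 h₂ n2 x u v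
  have p3 := mul_nonneg (mul_nonneg (h₁.p_nonneg _ (curvT_nonneg 0 1 x))
    (h₂.p_nonneg _ (curvT_nonneg 2 3 x))) (sq_nonneg (curvOm 0 1 x u * curvOm 2 3 x v -
      curvOm 0 1 x v * curvOm 2 3 x u))
  have hu : u ≠ 0 := huv.ne_zero 0
  have q1 := Gh_pos x hu
  have hw : Gh x u u • v - Gh x u v • u ≠ 0 := by
    intro h
    have := LinearIndependent.pair_iff.1 huv (-Gh x u v) (Gh x u u)
      (by rw [← h, neg_smul]; abel)
    exact q1.ne' this.2
  have q2 := Gh_pos x hw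
  rw [curv_Gh_comb] at q2
  have p4 : 0 < Gh x u u * Gh x v v - Gh x u v ^ 2 := by
    refine pos_of_mul_pos_left (a := Gh x u u * Gh x v v - Gh x u v ^ 2) (b := Gh x u u) ?_ q1.le
    linarith
  simp only [curvKm, curvKh, e6, e7, e8] at e1 e2
  simp only [curvA, curvAl, curvP] at e1 e2 e3 e4 p1 p2
  linarith

end Pool.Agent.MP_39b1da_gt
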