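import Mathlib

/-!
Negative sectional curvature, the universal cover of a closed Riemannian manifold, its Gromov
boundary, visual metrics and the conformal dimension.
-/

set_option autoImplicit false

namespace Pool.Agent.MP_39b1da_gt

open Filter Topology Set Manifold Bundle
open scoped ENNReal NNReal ContDiff

/-- `Γ` is the Christoffel map on `Ω` of the metric tensor `g` (Koszul formula). -/
def IsChristoffel {E : Type} [NormedAddCommGroup E] [NormedSpace ℝ E] (Ω : Set E)
    (g : E → E → E → ℝ) (Γ : E → E → E → E) : Prop :=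
  ∀ x ∈ Ω, ∀ u v w : E, 2 * g x (Γ x u v) w =
    fderiv ℝ (fun y => g y v w) x u + fderiv ℝ (fun y => g y u w) x v -
      fderiv ℝ (fun y => g y u v) x w

/-- The curvature tensor `R(u,v)w` at `x` in coordinates. -/
noncomputable def curv {E : Type} [NormedAddCommGroup E] [NormedSpace ℝ E] (Γ : E → E → E → E)
    (x u v w : E) : E :=
  fderiv ℝ (fun y => Γ y v w) x u - fderiv ℝ (fun y => Γ y u w) x v +
    Γ x u (Γ x v w) - Γ x v (Γ x u w)

/-- The Riemannian inner product of two tangent vectors at `x`. -/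
noncomputable def tinner {E : Type} [NormedAddCommGroup E] [NormedSpace ℝ E] {M : Type}
    [TopologicalSpace M] [ChartedSpace E M]
    [RiemannianBundle (fun x : M => TangentSpace 𝓘(ℝ, E) x)]
    (x : M) (a b : TangentSpace 𝓘(ℝ, E) x) : ℝ :=
  inner ℝ a b

/-- The tangent vector at `f y` with coordinates `u`: the differential of `f` at `y` applied
to `u`. -/
noncomputable def chartVec {E : Type} [NormedAddCommGroup E] [NormedSpace ℝ E] {M : Type}
    [TopologicalSpace M] [ChartedSpace E M] (f : E → M) (y u : E) :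
    TangentSpace 𝓘(ℝ, E) (f y) :=
  mfderiv 𝓘(ℝ, E) 𝓘(ℝ, E) f y u

/-- The Riemannian metric of `M` read in the chart `e`. -/
noncomputable def chartMetric {E : Type} [NormedAddCommGroup E] [NormedSpace ℝ E] {M : Type}
    [TopologicalSpace M] [ChartedSpace E M]
    [RiemannianBundle (fun x : M => TangentSpace 𝓘(ℝ, E) x)]
    (e : OpenPartialHomeomorph M E) (y u v : E) : ℝ :=
  tinner (e.symm y) (chartVec e.symm y u) (chartVec e.symm y v)

/-- All sectional curvatures of `M` are negative: in every chart of the atlas,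
`g(R(u,v)v,u) < 0` for independent `u`, `v`. -/
def NegCurved (E : Type) [NormedAddCommGroup E] [NormedSpace ℝ E] (M : Type)
    [TopologicalSpace M] [ChartedSpace E M]
    [RiemannianBundle (fun x : M => TangentSpace 𝓘(ℝ, E) x)] : Prop :=
  ∀ e ∈ atlas E M, ∃ Γ, IsChristoffel e.target (chartMetric e) Γ ∧
    ∀ y ∈ e.target, ∀ u v : E, LinearIndependent ℝ ![u, v] →
      chartMetric e y (curv Γ y u v v) u < 0

/-- `M` is a closed connected smooth Riemannian manifold modelled on `E`, with its Riemannian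
distance, and has negative sectional curvature. -/
def IsClosedNegCurved (E : Type) [NormedAddCommGroup E] [NormedSpace ℝ E] (M : Type)
    [EMetricSpace M] [ChartedSpace E M]
    [RiemannianBundle (fun x : M => TangentSpace 𝓘(ℝ, E) x)] : Prop :=
  ∃ _ : IsManifold 𝓘(ℝ, E) ∞ M, CompactSpace M ∧ ConnectedSpace M ∧
    IsContMDiffRiemannianBundle 𝓘(ℝ, E) ∞ E (fun x : M => TangentSpace 𝓘(ℝ, E) x) ∧
    IsRiemannianManifold 𝓘(ℝ, E) M ∧ NegCurved E M

/-- The universal cover: homotopy classes, with fixed ends, of paths issuing from `m₀`. -/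
def UCover (M : Type) [TopologicalSpace M] (m₀ : M) : Type :=
  Σ m : M, Path.Homotopic.Quotient m₀ m

/-- The base point of the universal cover: the class of the constant path. -/
def ubase {M : Type} [TopologicalSpace M] (m₀ : M) : UCover M m₀ :=
  ⟨m₀, Path.Homotopic.Quotient.refl m₀⟩

/-- The lifted length distance on the universal cover: the infimum of the lengths of the paths
`a` of `M` whose lift from `x` ends at `y`. -/
noncomputable def udist {M : Type} [PseudoEMetricSpace M] {m₀ : M} (x y : UCover M m₀) : ℝ :=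
  (⨅ (a : Path x.1 y.1) (_ : x.2.trans (Path.Homotopic.Quotient.mk a) = y.2),
    eVariationOn a univ).toReal

/-- The Gromov product `(x | y)_o` for the distance `d`. -/
noncomputable def gp {X : Type} (d : X → X → ℝ) (o x y : X) : ℝ :=
  (d o x + d o y - d x y) / 2

/-- Sequences converging at infinity: `(x_i | x_j)_o → ∞` as `i, j → ∞`. -/
def InfSeq {X : Type} (d : X → X → ℝ) (o : X) : Type :=
  {x : ℕ → X // Tendsto (fun p : ℕ × ℕ => gp d o (x p.1) (x p.2)) atTop atTop}

/-- Two such sequences are equivalent when `(x_i | y_i)_o → ∞`. -/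
def InfRel {X : Type} (d : X → X → ℝ) (o : X) (x y : InfSeq d o) : Prop :=
  Tendsto (fun i : ℕ => gp d o (x.1 i) (y.1 i)) atTop atTop

/-- The Gromov boundary: sequences converging at infinity up to equivalence. -/
def Bdry {X : Type} (d : X → X → ℝ) (o : X) : Type :=
  Quot (InfRel d o)

/-- The Gromov product of boundary points: the supremum over representatives of the lower
limit of the Gromov products. -/
noncomputable def bgp {X : Type} (d : X → X → ℝ) (o : X) (ξ η : Bdry d o) : EReal :=
  ⨆ (x : InfSeq d o) (y : InfSeq d o) (_ : Quot.mk (InfRel d o) x = ξ)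
    (_ : Quot.mk (InfRel d o) y = η),
    liminf (fun p : ℕ × ℕ => ((gp d o (x.1 p.1) (y.1 p.2) : ℝ) : EReal)) atTop

/-- `ρ` is a visual metric: comparable to `exp (-ε (ξ | η))` for some `ε > 0`. -/
def IsVisual {X : Type} (d : X → X → ℝ) (o : X) (ρ : MetricSpace (Bdry d o)) : Prop :=
  ∃ ε c C : ℝ, 0 < ε ∧ 0 < c ∧ ∀ ξ η : Bdry d o,
    ENNReal.ofReal c * EReal.exp (-(ε * bgp d o ξ η)) ≤ ENNReal.ofReal (ρ.dist ξ η) ∧
      ENNReal.ofReal (ρ.dist ξ η) ≤ ENNReal.ofReal C * EReal.exp (-(ε * bgp d o ξ η))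

/-- The identity map from `(Z, ρ₀)` to `(Z, ρ)` is quasisymmetric. -/
def IsQS {Z : Type} (ρ₀ ρ : MetricSpace Z) : Prop :=
  ∃ h : ℝ≥0 ≃o ℝ≥0, ∀ (x y z : Z) (t : ℝ≥0),
    ρ₀.dist x y ≤ t * ρ₀.dist x z → ρ.dist x y ≤ h t * ρ.dist x z

/-- The conformal dimension of the boundary: the infimum of the Hausdorff dimensions of the
metrics quasisymmetrically equivalent to a visual metric. -/
noncomputable def cdim {X : Type} (d : X → X → ℝ) (o : X) : ℝ≥0∞ :=
  ⨅ (ρ : MetricSpace (Bdry d o)) (_ : ∃ ρ₀, IsVisual d o ρ₀ ∧ IsQS ρ₀ ρ),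
    @dimH (Bdry d o) (@MetricSpace.toEMetricSpace _ ρ) univ

/-- There are closed negatively curved manifolds `M_i` modelled on `E` such that the boundary of
each universal cover carries a visual metric and its conformal dimension tends to infinity. -/
def CdimUnbounded (E : Type) [NormedAddCommGroup E] [NormedSpace ℝ E] : Prop :=
  ∃ (M : ℕ → Type) (_ : ∀ i, EMetricSpace (M i)) (_ : ∀ i, ChartedSpace E (M i))
    (_ : ∀ i, RiemannianBundle (fun x : M i => TangentSpace 𝓘(ℝ, E) x)) (o : ∀ i, M i),
    (∀ i, IsClosedNegCurved E (M i) ∧ ∃ ρ, IsVisual udist (ubase (o i)) ρ) ∧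
      Tendsto (fun i => cdim udist (ubase (o i))) atTop (𝓝 ⊤)

end Pool.Agent.MP_39b1da_gt
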