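import Pool.Agent.MP_39b1da_gt.Basic

set_option autoImplicit false
set_option linter.unusedSectionVars false

namespace Pool.Agent.MP_39b1da_gt

open Filter Topology Set Real
open scoped ENNReal NNReal ContDiff InnerProductSpace

section
variable {E : Type} [NormedAddCommGroup E] [InnerProductSpace ℝ E]

theorem hypA_lor_zero_left (w : ℝ × E) : lor 0 w = 0 := by simp [lor]

theorem hypA_lor_zero_right (w : ℝ × E) : lor w 0 = 0 := by simp [lor]

theorem hypA_lor_lift (x y : Hyp E) : lor (lift x) (lift y) = -cosh (dist x y) := by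
  rw [cosh_dist]; ring

theorem hypA_nondeg {v : ℝ × E} (h : ∀ w, lor w v = 0) : v = 0 := by
  have h1 := h (1, 0)
  have h2 := h (0, v.2)
  simp only [lor, one_mul, inner_zero_left, add_zero, neg_eq_zero, zero_mul, neg_zero, zero_add,
    inner_self_eq_zero] at h1 h2
  exact Prod.ext h1 h2

/-- A null vector orthogonal to a timelike vector vanishes. -/
theorem hypA_eq_zero {y u : ℝ × E} (hy : lor y y = -1) (h : lor u y = 0) (h0 : lor u u ≤ 0) :
    u = 0 := by
  apply hypA_nondeg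
  intro w
  have hw : lor (w + lor w y • y) y = 0 := by rw [lor_add_left, lor_smul_left, hy]; ring
  have h1 := lor_cs hy h hw
  have h2 := lor_self_nonneg hy h
  have h3 : lor u u = 0 := le_antisymm h0 h2
  rw [h3, zero_mul, lor_add_right, lor_smul_right, h, mul_zero, add_zero] at h1
  rw [lor_comm]
  exact pow_eq_zero_iff (n := 2) (by norm_num) |>.1 (le_antisymm h1 (sq_nonneg _))

theorem hypA_lift_inj {x y : Hyp E} (h : lift x = lift y) : x = y :=
  (congrArg Prod.snd h : x.val = y.val)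

theorem hypA_lift_zero : lift (Hyp.mk (0 : E)) = (1, 0) := by simp [lift]

theorem hypA_dist_eq {x y : Hyp E} {s : ℝ} (hs : 0 ≤ s) (h : lor (lift x) (lift y) = -cosh s) :
    dist x y = s := by
  have h1 : cosh (dist x y) = cosh s := by rw [cosh_dist, h]; ring
  have h2 := cosh_le_cosh.1 h1.le
  have h3 := cosh_le_cosh.1 h1.ge
  rw [abs_of_nonneg dist_nonneg, abs_of_nonneg hs] at h2 h3
  exact le_antisymm h2 h3

/-- The hyperbolic linear relation between three points on a segment. -/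
theorem hypA_btw_lift {y x z : Hyp E} (h : Btw y x z) :
    sinh (dist y z) • lift x = sinh (dist x z) • lift y + sinh (dist y x) • lift z := by
  have hD : dist y z = dist y x + dist x z := (h : dist y x + dist x z = dist y z).symm
  have e1 := hypA_lor_lift x y
  have e2 := hypA_lor_lift x z
  have e3 := hypA_lor_lift y z
  rw [dist_comm] at e1
  rw [hD] at e3 ⊢
  set s := dist y x
  set t := dist x z
  rw [← sub_eq_zero]
  have c1 := cosh_sq s
  have c2 := cosh_sq t
  apply hypA_eq_zero (lor_lift_self x)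
  · simp only [lor_sub_left, lor_add_left, lor_smul_left, lor_lift_self, lor_comm (lift y) (lift x),
      lor_comm (lift z) (lift x), e1, e2, sinh_add]
    ring
  · simp only [lor_sub_left, lor_add_left, lor_smul_left, lor_sub_right, lor_add_right,
      lor_smul_right, lor_lift_self, lor_comm (lift y) (lift x),
      lor_comm (lift z) (lift x), lor_comm (lift z) (lift y), e1, e2, e3, sinh_add, cosh_add]
    apply le_of_eq
    linear_combination (sinh t ^ 2) * c1 + (sinh s ^ 2) * c2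

theorem globK_hyp : GlobK (Hyp E) := by
  constructor
  · intro y z s hs0 hs
    rcases eq_or_lt_of_le (dist_nonneg : 0 ≤ dist y z) with hD | hD
    · refine ⟨y, ?_, ?_⟩
      · rw [dist_self]; linarith
      · simp [Btw]
    · have e3 := hypA_lor_lift y z
      obtain ⟨t, ht⟩ : ∃ t, t = dist y z - s := ⟨_, rfl⟩
      have ht0 : 0 ≤ t := by linarith
      have hDe : dist y z = s + t := by linarith
      have hS : 0 < sinh (s + t) := by rw [← hDe]; exact sinh_pos_iff.2 hD
      rw [hDe] at e3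
      have c1 := cosh_sq s
      have c2 := cosh_sq t
      set X : ℝ × E := (sinh (s + t))⁻¹ • (sinh t • lift y + sinh s • lift z) with hX
      have hXX : lor X X = -1 := by
        simp only [hX, lor_add_left, lor_smul_left, lor_add_right,
          lor_smul_right, lor_lift_self, lor_comm (lift z) (lift y), e3]
        field_simp
        simp only [sinh_add, cosh_add]
        linear_combination (sinh t ^ 2) * c1 + (sinh s ^ 2) * c2
      have hXy : lor X (lift y) = -cosh s := by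
        simp only [hX, lor_add_left, lor_smul_left, lor_lift_self, lor_comm (lift z) (lift y), e3]
        field_simp
        simp only [sinh_add, cosh_add]
        linear_combination (sinh t) * c1
      have hXz : lor X (lift z) = -cosh t := by
        simp only [hX, lor_add_left, lor_smul_left, lor_lift_self, e3]
        field_simp
        simp only [sinh_add, cosh_add]
        linear_combination (sinh s) * c2
      have hX0 : 0 < X.1 := by
        have h1 := one_le_lift_fst y
        have h2 := one_le_lift_fst z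
        have h3 : 0 ≤ sinh s := sinh_nonneg_iff.2 hs0
        have h4 : 0 ≤ sinh t := sinh_nonneg_iff.2 ht0
        have h5 : 0 < sinh s + sinh t := by
          by_contra hc
          have a1 : sinh s = 0 := by linarith
          have a2 : sinh t = 0 := by linarith
          rw [sinh_add, a1, a2] at hS
          simp at hS
        simp only [hX, Prod.smul_fst, Prod.fst_add, smul_eq_mul]
        apply mul_pos (inv_pos.2 hS)
        nlinarith
      have hl := lift_eq hXX hX0
      have d1 : dist y (Hyp.mk X.2) = s := hypA_dist_eq hs0 (by rw [hl, lor_comm, hXy])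
      have d2 : dist (Hyp.mk X.2) z = t := hypA_dist_eq ht0 (by rw [hl, hXz])
      exact ⟨Hyp.mk X.2, d1, by rw [Btw, d1, d2, hDe]⟩
  · intro p y x z h
    have h1 := congrArg (lor (lift p)) (hypA_btw_lift h)
    simp only [lor_add_right, lor_smul_right, hypA_lor_lift] at h1
    unfold KIneq
    linarith

theorem hypA_cosh_zero (z : Hyp E) : cosh (dist (Hyp.mk 0) z) = (lift z).1 := by
  rw [cosh_dist]; simp [lor, lift]

theorem proper_hyp [FiniteDimensional ℝ E] : ProperSpace (Hyp E) := by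
  have : ProperSpace E := FiniteDimensional.proper_real E
  refine ProperSpace.of_isCompact_closedBall_of_le 0 fun x r _ => ?_
  have h1 : IsCompact (Hyp.mk '' Metric.closedBall (0 : E) (cosh (dist (Hyp.mk 0) x + r))) :=
    (isCompact_closedBall _ _).image continuous_mk
  refine h1.of_isClosed_subset Metric.isClosed_closedBall fun y hy => ⟨y.val, ?_, rfl⟩
  rw [Metric.mem_closedBall] at hy
  rw [mem_closedBall_zero_iff]
  have h2 : dist (Hyp.mk 0) y ≤ dist (Hyp.mk 0) x + r := by
    have := dist_triangle (Hyp.mk 0) x y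
    rw [dist_comm x y] at this
    linarith
  have h3 : cosh (dist (Hyp.mk 0) y) ≤ cosh (dist (Hyp.mk 0) x + r) := by
    rw [cosh_le_cosh, abs_of_nonneg dist_nonneg]
    exact h2.trans (le_abs_self _)
  rw [hypA_cosh_zero] at h3
  have h4 := lift_fst_sq y
  have h5 := one_le_lift_fst y
  have h6 : ‖y.val‖ ≤ (lift y).1 := by
    exact (abs_le_of_sq_le_sq' (by nlinarith) (by linarith)).2
  linarith

/-- Two unit timelike vectors on the same sheet iff their product is negative. -/
theorem hypA_fst_pos {v w : ℝ × E} (hv : lor v v = -1) (hw : lor w w = -1) (h0 : 0 < w.1)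
    (h : lor v w < 0) : 0 < v.1 := by
  rcases lt_trichotomy v.1 0 with h1 | h1 | h1
  · have e1 := lift_eq (v := -v) (by rw [lor_neg_left, lor_neg_right, hv]; ring) (by simpa using h1)
    have e2 := lift_eq hw h0
    have := one_le_lor (Hyp.mk (-v).2) (Hyp.mk w.2)
    rw [e1, e2, lor_neg_left] at this
    linarith
  · simp only [lor, h1, real_inner_self_eq_norm_sq] at hv
    nlinarith [sq_nonneg ‖v.2‖]
  · exact h1

theorem mem_lor {g : (ℝ × E) ≃L[ℝ] (ℝ × E)} (h : ∀ v w, lor (g v) (g w) = lor v w)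
    (h0 : 0 < (g (1, 0)).1) : g ∈ Lor E := by
  refine ⟨h, fun v hv hv0 => ?_⟩
  refine hypA_fst_pos ((h v v).trans hv) ((h _ _).trans (by simp [lor])) h0 ?_
  rw [h]
  simpa [lor] using hv0

/-- The Lorentz form in the first variable, as a continuous linear map. -/
noncomputable def hypA_lorL (u : ℝ × E) : (ℝ × E) →L[ℝ] ℝ :=
  -(u.1 • ContinuousLinearMap.fst ℝ ℝ E) + (innerSL ℝ u.2).comp (ContinuousLinearMap.snd ℝ ℝ E)

theorem hypA_lorL_apply (u v : ℝ × E) : hypA_lorL u v = lor v u := by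
  simp [hypA_lorL, lor, real_inner_comm, mul_comm]

/-- The reflection in a unit spacelike vector. -/
theorem exists_refl {u : ℝ × E} (hu : lor u u = 1) :
    ∃ g : Lor E, ∀ v, g.1 v = v - (2 * lor v u) • u := by
  let f : (ℝ × E) →L[ℝ] (ℝ × E) :=
    ContinuousLinearMap.id ℝ _ - ((2 : ℝ) • hypA_lorL u).smulRight u
  have hf : ∀ v, f v = v - (2 * lor v u) • u := by
    intro v; simp [f, hypA_lorL_apply]
  have hff : ∀ v, f (f v) = v := by
    intro v
    rw [hf, hf, lor_sub_left, lor_smul_left, hu]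
    module
  let g : (ℝ × E) ≃L[ℝ] (ℝ × E) := ContinuousLinearEquiv.equivOfInverse f f hff hff
  have hg : ∀ v, g v = v - (2 * lor v u) • u := hf
  refine ⟨⟨g, mem_lor ?_ ?_⟩, hg⟩
  · intro v w
    rw [hg, hg]
    simp only [lor_sub_left, lor_sub_right, lor_smul_left, lor_smul_right, hu, lor_comm u w]
    ring
  · rw [hg]
    simp only [lor, one_mul, inner_zero_left, add_zero, Prod.fst_sub, Prod.smul_fst, smul_eq_mul]
    nlinarith [sq_nonneg u.1]

/-- The boost taking `x` to the origin; it fixes what is orthogonal to both. -/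
theorem exists_boost (x : Hyp E) : ∃ g : Lor E, g • x = Hyp.mk 0 ∧
    ∀ w : E, ⟪x.val, w⟫_ℝ = 0 → g.1 (0, w) = (0, w) := by
  rcases eq_or_lt_of_le (one_le_lift_fst x) with h1 | h1
  · refine ⟨1, ?_, fun w _ => rfl⟩
    have h2 := lift_fst_sq x
    rw [← h1] at h2
    have h3 : ‖x.val‖ = 0 := pow_eq_zero_iff (n := 2) (by norm_num) |>.1 (by linarith)
    rw [one_smul]
    exact (norm_eq_zero.1 h3 : x.val = 0)
  · obtain ⟨c, hc⟩ : ∃ c : ℝ, c = √(2 * ((lift x).1 - 1)) := ⟨_, rfl⟩
    have hc0 : 0 < c := by rw [hc]; exact Real.sqrt_pos.2 (by linarith)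
    have hc2 : c ^ 2 = 2 * ((lift x).1 - 1) := by rw [hc]; exact Real.sq_sqrt (by linarith)
    have e1 : lor (lift x) ((1 : ℝ), (0 : E)) = -(lift x).1 := by simp [lor]
    have e2 : lor ((1 : ℝ), (0 : E)) (lift x) = -(lift x).1 := by simp [lor]
    have e3 : lor ((1 : ℝ), (0 : E)) ((1 : ℝ), (0 : E)) = -1 := by simp [lor]
    have hu : lor (c⁻¹ • (lift x - ((1 : ℝ), (0 : E)))) (c⁻¹ • (lift x - ((1 : ℝ), (0 : E)))) = 1 := by
      simp only [lor_smul_left, lor_smul_right, lor_sub_left, lor_sub_right, e1, e2, e3,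
        lor_lift_self]
      field_simp
      linarith
    obtain ⟨g, hg⟩ := exists_refl hu
    refine ⟨g, hypA_lift_inj ?_, fun w hw => ?_⟩
    · rw [lift_smul, hg, hypA_lift_zero]
      simp only [lor_smul_right, lor_sub_right, e1, lor_lift_self, smul_smul]
      have : 2 * (c⁻¹ * (-1 - -(lift x).1)) * c⁻¹ = 1 := by
        field_simp
        linarith
      rw [this]
      simp
    · rw [hg]
      have : lor ((0 : ℝ), w) (c⁻¹ • (lift x - ((1 : ℝ), (0 : E)))) = 0 := by
        rw [lor_smul_right]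
        have h2 : (lift x).2 = x.val := rfl
        have h3 : ⟪w, x.val⟫_ℝ = 0 := by rw [real_inner_comm]; exact hw
        simp [lor, h2, h3]
      rw [this]
      simp

theorem hypA_hasFDerivAt_lift (x : E) :
    HasFDerivAt (fun y : E => lift (Hyp.mk y))
      ((((√(1 + ‖x‖ ^ 2))⁻¹ • innerSL ℝ x)).prod (ContinuousLinearMap.id ℝ E)) x := by
  have h1 := (hasStrictFDerivAt_norm_sq x).hasFDerivAt.const_add 1
  have h2 := h1.sqrt (by positivity)
  refine HasFDerivAt.prodMk (h2.congr_fderiv ?_) (hasFDerivAt_id x)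
  ext u
  have : 0 < √(1 + ‖x‖ ^ 2) := by positivity
  simp only [smul_apply, smul_eq_mul, innerSL_apply_apply, nsmul_eq_mul]
  field_simp
  simp

theorem hypA_contDiff_lift : ContDiff ℝ ∞ fun y : E => lift (Hyp.mk y) := by
  refine ContDiff.prodMk ?_ contDiff_id
  exact (contDiff_const.add (contDiff_norm_sq ℝ)).sqrt fun x => by positivity

/-- The differential of the lift. -/
noncomputable def hypA_D (x u : E) : ℝ × E := ((√(1 + ‖x‖ ^ 2))⁻¹ * ⟪x, u⟫_ℝ, u)

theorem hypA_fderiv_lift (x u : E) :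
    fderiv ℝ (fun y : E => lift (Hyp.mk y)) x u = hypA_D x u := by
  rw [(hypA_hasFDerivAt_lift x).fderiv]
  simp [hypA_D]

theorem hypA_Gh_eq (x u v : E) : Gh x u v = lor (hypA_D x u) (hypA_D x v) := by
  have h : 0 < √(1 + ‖x‖ ^ 2) := by positivity
  have h2 : √(1 + ‖x‖ ^ 2) ^ 2 = 1 + ‖x‖ ^ 2 := Real.sq_sqrt (by positivity)
  simp only [Gh, lor, hypA_D]
  generalize √(1 + ‖x‖ ^ 2) = c at h h2
  rw [← h2]
  field_simp
  ring

theorem hypA_D_orth (x u : E) : lor (hypA_D x u) (lift (Hyp.mk x)) = 0 := by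
  have h : 0 < √(1 + ‖x‖ ^ 2) := by positivity
  simp only [lor, hypA_D, lift, Hyp.val_mk, real_inner_comm x u]
  field_simp
  ring

theorem eq_zero_of_eventually {x : Hyp E} {v : ℝ × E}
    (h : ∀ᶠ y in 𝓝 x, lor (lift y) v = 0) : v = 0 := by
  have h0 : lor (lift x) v = 0 := h.self_of_nhds
  have h1 : (fun y : E => hypA_lorL v (lift (Hyp.mk y))) =ᶠ[𝓝 x.val] fun _ => 0 := by
    have : ∀ᶠ y in 𝓝 x.val, lor (lift (Hyp.mk y)) v = 0 := h
    filter_upwards [this] with y hy
    rw [hypA_lorL_apply, hy]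
  have h2 := (hypA_lorL v).hasFDerivAt.comp x.val (hypA_hasFDerivAt_lift x.val)
  have h3 : HasFDerivAt (fun y : E => hypA_lorL v (lift (Hyp.mk y))) (0 : E →L[ℝ] ℝ) x.val :=
    (hasFDerivAt_const (0 : ℝ) x.val).congr_of_eventuallyEq h1
  have h4 := h2.unique h3
  have h5 : ∀ u, lor (hypA_D x.val u) v = 0 := by
    intro u
    have := congrArg (fun L : E →L[ℝ] ℝ => L u) h4
    simpa [hypA_lorL_apply, hypA_D] using this
  -- `v` is orthogonal to `lift x`, hence tangent
  have hp : 0 < √(1 + ‖x.val‖ ^ 2) := by positivity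
  have h6 : v = hypA_D x.val v.2 := by
    refine Prod.ext ?_ rfl
    simp only [lor, lift] at h0
    simp only [hypA_D]
    field_simp
    linarith
  refine hypA_eq_zero (lor_lift_self x) (by rw [lor_comm]; exact h0) ?_
  have := h5 v.2
  rw [← h6] at this
  exact this.le

theorem arsinh_lor_lip {v : ℝ × E} (hv : lor v v = 1) (x y : Hyp E) :
    |arsinh (lor (lift x) v) - arsinh (lor (lift y) v)| ≤ dist x y := by
  set a := lor (lift x) v with ha
  set b := lor (lift y) v with hb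
  have hA : 0 < √(1 + a ^ 2) := by positivity
  have hB : 0 < √(1 + b ^ 2) := by positivity
  have hA2 : √(1 + a ^ 2) ^ 2 = 1 + a ^ 2 := Real.sq_sqrt (by positivity)
  have hB2 : √(1 + b ^ 2) ^ 2 = 1 + b ^ 2 := Real.sq_sqrt (by positivity)
  -- the normalised projections
  have key : ∀ z : Hyp E, ∃ z' : Hyp E, lift z' =
      (√(1 + lor (lift z) v ^ 2))⁻¹ • (lift z - lor (lift z) v • v) := by
    intro z
    have hC : 0 < √(1 + lor (lift z) v ^ 2) := by positivity
    have hC2 : √(1 + lor (lift z) v ^ 2) ^ 2 = 1 + lor (lift z) v ^ 2 :=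
      Real.sq_sqrt (by positivity)
    have e1 : lor ((√(1 + lor (lift z) v ^ 2))⁻¹ • (lift z - lor (lift z) v • v))
        ((√(1 + lor (lift z) v ^ 2))⁻¹ • (lift z - lor (lift z) v • v)) = -1 := by
      simp only [lor_smul_left, lor_smul_right, lor_sub_left, lor_sub_right, hv, lor_lift_self,
        lor_comm v (lift z)]
      field_simp
      linarith
    refine ⟨_, lift_eq e1 (hypA_fst_pos e1 (lor_lift_self z)
      (by linarith [one_le_lift_fst z]) ?_)⟩
    simp only [lor_smul_left, lor_sub_left, lor_lift_self, lor_comm v (lift z)]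
    apply mul_neg_of_pos_of_neg (inv_pos.2 hC)
    nlinarith [sq_nonneg (lor (lift z) v)]
  obtain ⟨x', hx'⟩ := key x
  obtain ⟨y', hy'⟩ := key y
  have h1 := one_le_lor x' y'
  rw [hx', hy'] at h1
  simp only [lor_smul_left, lor_smul_right, lor_sub_left, lor_sub_right, hv,
    lor_comm v (lift y), ← ha, ← hb, hypA_lor_lift] at h1
  have h2 : √(1 + a ^ 2) * √(1 + b ^ 2) ≤ cosh (dist x y) + a * b := by
    have h3 : -((√(1 + b ^ 2))⁻¹ * ((√(1 + a ^ 2))⁻¹ * (-cosh (dist x y) - a * b) -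
        b * ((√(1 + a ^ 2))⁻¹ * (a - a * 1)))) =
        (cosh (dist x y) + a * b) / (√(1 + a ^ 2) * √(1 + b ^ 2)) := by
      field_simp
      ring
    rw [h3, one_le_div (by positivity)] at h1
    exact h1
  have h4 : cosh (arsinh a - arsinh b) ≤ cosh (dist x y) := by
    rw [cosh_sub, cosh_arsinh, cosh_arsinh, sinh_arsinh, sinh_arsinh]
    linarith
  rwa [cosh_le_cosh, abs_of_nonneg (dist_nonneg (x := x) (y := y))] at h4

theorem abs_lor_lt {x : Hyp E} {v w : ℝ × E} (hv : lor v v = 1) (hw : lor w w = 1)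
    (h1 : |lor (lift x) v| < 1 / 2) (h2 : |lor (lift x) w| < 1 / 2) : |lor v w| < 3 / 2 := by
  have key := lor_cs (u := v + lor (lift x) v • lift x) (w := w + lor (lift x) w • lift x)
    (lor_lift_self x)
    (by rw [lor_add_left, lor_smul_left, lor_lift_self, lor_comm v]; ring)
    (by rw [lor_add_left, lor_smul_left, lor_lift_self, lor_comm w]; ring)
  simp only [lor_add_left, lor_add_right, lor_smul_left, lor_smul_right, lor_lift_self, hv, hw,
    lor_comm v (lift x), lor_comm w (lift x)] at key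
  set a := lor (lift x) v
  set b := lor (lift x) w
  set c := lor v w
  obtain ⟨a1, a2⟩ := abs_lt.1 h1
  obtain ⟨b1, b2⟩ := abs_lt.1 h2
  have a3 : a ^ 2 < 1 / 4 := by nlinarith
  have b3 : b ^ 2 < 1 / 4 := by nlinarith
  have k2 : (c + a * b) ^ 2 < (5 / 4) ^ 2 := by
    have : (1 + a ^ 2) * (1 + b ^ 2) < (5 / 4) * (5 / 4) :=
      mul_lt_mul'' (by linarith) (by linarith) (by positivity) (by positivity)
    nlinarith
  obtain ⟨k3, k4⟩ := abs_lt_of_sq_lt_sq' k2 (by norm_num)
  have ab1 : a * b < 1 / 4 := by nlinarith [sq_nonneg (a - b)]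
  have ab2 : -(1 / 4) < a * b := by nlinarith [sq_nonneg (a + b)]
  rw [abs_lt]
  constructor <;> linarith

theorem contDiff_smul (g : Lor E) : ContDiff ℝ ∞ fun x : E => (g • Hyp.mk x).val :=
  contDiff_snd.comp (g.1.contDiff.comp hypA_contDiff_lift)

theorem Gh_smul (g : Lor E) (x u v : E) :
    Gh (g • Hyp.mk x).val (fderiv ℝ (fun y : E => (g • Hyp.mk y).val) x u)
      (fderiv ℝ (fun y : E => (g • Hyp.mk y).val) x v) = Gh x u v := by
  have hF : HasFDerivAt (fun y : E => (g • Hyp.mk y).val)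
      (fderiv ℝ (fun y : E => (g • Hyp.mk y).val) x) x :=
    ((contDiff_smul g).differentiable (by simp) x).hasFDerivAt
  have h1 := HasFDerivAt.comp (f := fun y : E => (g • Hyp.mk y).val) x
    (hypA_hasFDerivAt_lift (g • Hyp.mk x).val) hF
  have h2 := (g.1 : (ℝ × E) →L[ℝ] (ℝ × E)).hasFDerivAt.comp x (hypA_hasFDerivAt_lift x)
  have h3 : ((fun y : E => lift (Hyp.mk y)) ∘ fun y : E => (g • Hyp.mk y).val) =
      (g.1 : (ℝ × E) →L[ℝ] (ℝ × E)) ∘ fun y : E => lift (Hyp.mk y) := by
    funext y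
    exact lift_smul g (Hyp.mk y)
  rw [h3] at h1
  have h4 := h1.unique h2
  have h5 : ∀ w, hypA_D (g • Hyp.mk x).val (fderiv ℝ (fun y : E => (g • Hyp.mk y).val) x w) =
      g.1 (hypA_D x w) := by
    intro w
    have := congrArg (fun L : E →L[ℝ] (ℝ × E) => L w) h4
    simpa [hypA_D] using this
  rw [hypA_Gh_eq, hypA_Gh_eq, h5, h5, g.2.1]

theorem Gh_pos (x : E) {u : E} (hu : u ≠ 0) : 0 < Gh x u u := by
  rw [hypA_Gh_eq]
  by_contra hc
  have := hypA_eq_zero (lor_lift_self (Hyp.mk x)) (hypA_D_orth x u) (not_lt.1 hc)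
  exact hu (congrArg Prod.snd this)

theorem Gh_cs (x u v : E) : Gh x u v ^ 2 ≤ Gh x u u * Gh x v v := by
  rw [hypA_Gh_eq, hypA_Gh_eq, hypA_Gh_eq]
  exact lor_cs (lor_lift_self (Hyp.mk x)) (hypA_D_orth x u) (hypA_D_orth x v)

end

theorem lift_pol (a θ : ℝ) :
    lift (pol a θ) = (cosh a, ((sinh a : ℝ) : ℂ) * Complex.exp (θ * Complex.I)) := by
  refine Prod.ext ?_ rfl
  simp only [lift, pol, Hyp.val_mk, norm_mul, Complex.norm_exp_ofReal_mul_I, mul_one,
    Complex.norm_real, Real.norm_eq_abs, sq_abs]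
  rw [← cosh_sq', Real.sqrt_sq (cosh_pos a).le]

theorem cosh_dist_pol (a b θ θ' : ℝ) :
    cosh (dist (pol a θ) (pol b θ')) = cosh a * cosh b - sinh a * sinh b * cos (θ - θ') := by
  rw [cosh_dist, lift_pol, lift_pol]
  simp only [lor, Complex.inner, Complex.mul_re, Complex.mul_im, Complex.conj_re, Complex.conj_im,
    Complex.ofReal_re, Complex.ofReal_im, Complex.exp_ofReal_mul_I_re, Complex.exp_ofReal_mul_I_im,
    cos_sub]
  ring

theorem hypA_inner_I1 (m : ℕ) (x y : ℂ) : ⟪I1 m x, I1 m y⟫_ℝ = ⟪x, y⟫_ℝ := by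
  have h01 : (0 : Fin (m + 4)) ≠ 1 := by simp
  simp [I1, inner_add_left, inner_add_right, EuclideanSpace.inner_single_left, h01, h01.symm,
    Complex.inner]
  ring

theorem dist_I1 (m : ℕ) (x y : Hyp ℂ) :
    dist (Hyp.mk (I1 m x.val)) (Hyp.mk (I1 m y.val)) = dist x y := by
  have hn : ∀ z : ℂ, ‖I1 m z‖ ^ 2 = ‖z‖ ^ 2 := fun z => by
    rw [← real_inner_self_eq_norm_sq, ← real_inner_self_eq_norm_sq, hypA_inner_I1]
  apply hypA_dist_eq dist_nonneg
  rw [cosh_dist, neg_neg]
  simp only [lor, lift, Hyp.val_mk, hn, hypA_inner_I1]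

theorem hypA_lor_sum_left {E : Type} [NormedAddCommGroup E] [InnerProductSpace ℝ E] {ι : Type}
    (s : Finset ι) (f : ι → ℝ × E) (w : ℝ × E) :
    lor (∑ i ∈ s, f i) w = ∑ i ∈ s, lor (f i) w := by
  simp only [← hypA_lorL_apply, map_sum]

/-- A point on finitely many pairwise orthogonal walls. -/
theorem hypA_exists_point {E : Type} [NormedAddCommGroup E] [InnerProductSpace ℝ E] {ι : Type}
    (s : Finset ι) (v : ι → ℝ × E) (h1 : ∀ i ∈ s, lor (v i) (v i) = 1)
    (h0 : ∀ i ∈ s, ∀ j ∈ s, i ≠ j → lor (v i) (v j) = 0) :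
    ∃ x : Hyp E, ∀ i ∈ s, lor (lift x) (v i) = 0 := by
  classical
  obtain ⟨e, he⟩ : ∃ e : ℝ × E, e = lift (Hyp.mk 0) := ⟨_, rfl⟩
  have hee : lor e e = -1 := he ▸ lor_lift_self _
  obtain ⟨w, hw⟩ : ∃ w : ℝ × E, w = e - ∑ i ∈ s, lor e (v i) • v i := ⟨_, rfl⟩
  have hwv : ∀ j ∈ s, lor w (v j) = 0 := by
    intro j hj
    rw [hw, lor_sub_left, hypA_lor_sum_left, Finset.sum_eq_single j]
    · rw [lor_smul_left, h1 j hj]; ring
    · intro i hi hij
      rw [lor_smul_left, h0 i hi j hj hij, mul_zero]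
    · intro h; exact absurd hj h
  have hwe : lor w e = -(1 + ∑ i ∈ s, lor e (v i) ^ 2) := by
    rw [hw, lor_sub_left, hypA_lor_sum_left, hee]
    simp only [lor_smul_left, lor_comm (v _) e, ← sq]
    ring
  have hww : lor w w = -(1 + ∑ i ∈ s, lor e (v i) ^ 2) := by
    rw [← hwe]
    conv_lhs => rw [lor_comm]; congr; rw [hw]
    rw [lor_sub_left, hypA_lor_sum_left, Finset.sum_eq_zero, lor_comm, sub_zero]
    intro i hi
    rw [lor_smul_left, lor_comm (v i), hwv i hi, mul_zero]
  have hS : 0 ≤ ∑ i ∈ s, lor e (v i) ^ 2 := Finset.sum_nonneg fun i _ => sq_nonneg _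
  obtain ⟨c, hc⟩ : ∃ c : ℝ, c = √(1 + ∑ i ∈ s, lor e (v i) ^ 2) := ⟨_, rfl⟩
  have hc0 : 0 < c := by rw [hc]; positivity
  have hc2 : c ^ 2 = 1 + ∑ i ∈ s, lor e (v i) ^ 2 := by
    rw [hc]; exact Real.sq_sqrt (by positivity)
  have e1 : lor (c⁻¹ • w) (c⁻¹ • w) = -1 := by
    rw [lor_smul_left, lor_smul_right, hww, ← hc2]
    field_simp
  have e2 : 0 < (c⁻¹ • w).1 := by
    refine hypA_fst_pos e1 hee (by rw [he]; linarith [one_le_lift_fst (Hyp.mk (0 : E))]) ?_
    rw [lor_smul_left, hwe]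
    exact mul_neg_of_pos_of_neg (inv_pos.2 hc0) (by linarith)
  refine ⟨Hyp.mk (c⁻¹ • w).2, fun i hi => ?_⟩
  rw [lift_eq e1 e2, lor_smul_left, hwv i hi, mul_zero]

/-- A linear isometry of space as a Lorentz transformation. -/
theorem hypA_exists_rot {E : Type} [NormedAddCommGroup E] [InnerProductSpace ℝ E]
    (U : E ≃ₗᵢ[ℝ] E) : ∃ g : Lor E, ∀ v, g.1 v = (v.1, U v.2) := by
  refine ⟨⟨(ContinuousLinearEquiv.refl ℝ ℝ).prodCongr U.toContinuousLinearEquiv,
    mem_lor (fun v w => ?_) (by simp)⟩, fun v => rfl⟩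
  change -(v.1 * w.1) + ⟪U v.2, U w.2⟫_ℝ = lor v w
  rw [U.inner_map_map]
  rfl

/-- Adapted frames. -/
theorem exists_frame {m : ℕ} (T : Set (Fin 4)) (v : Fin 4 → ℝ × Euc m)
    (h1 : ∀ i ∈ T, lor (v i) (v i) = 1) (h0 : ∀ i ∈ T, ∀ j ∈ T, i ≠ j → lor (v i) (v j) = 0) :
    ∃ Φ : Lor (Euc m), ∀ i ∈ T,
      Φ.1 (v i) = (0, EuclideanSpace.single (![0, 1, 2, 3] i) 1) := by
  classical
  obtain ⟨x, hx⟩ := hypA_exists_point (Set.toFinite T).toFinset v
    (fun i hi => h1 i ((Set.Finite.mem_toFinset _).1 hi))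
    (fun i hi j hj => h0 i ((Set.Finite.mem_toFinset _).1 hi) j ((Set.Finite.mem_toFinset _).1 hj))
  simp only [Set.Finite.mem_toFinset] at hx
  obtain ⟨g, hg, -⟩ := exists_boost x
  have hg1 : g.1 (lift x) = (1, 0) := by rw [← lift_smul, hg, hypA_lift_zero]
  have hf : ∀ i ∈ T, (g.1 (v i)).1 = 0 := by
    intro i hi
    have := g.2.1 (lift x) (v i)
    rw [hx i hi, hg1] at this
    simpa [lor] using this
  have hin : ∀ i ∈ T, ∀ j ∈ T, ⟪(g.1 (v i)).2, (g.1 (v j)).2⟫_ℝ = lor (v i) (v j) := by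
    intro i hi j _
    rw [← g.2.1 (v i) (v j), lor, hf i hi]
    ring
  let ι : Fin 4 → Fin (m + 4) := fun i => ![0, 1, 2, 3] i
  have hι : ∀ i, (ι i : ℕ) = i := by
    intro i
    have h2 : 2 % (m + 4) = 2 := Nat.mod_eq_of_lt (by omega)
    have h3 : 3 % (m + 4) = 3 := Nat.mod_eq_of_lt (by omega)
    fin_cases i <;> simp [ι, h2, h3]
  have hinj : Function.Injective ι := by
    intro i j h
    exact Fin.ext (by rw [← hι, ← hι, h])
  let u : Fin (m + 4) → Euc m := Function.extend ι (fun i => (g.1 (v i)).2) 0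
  have hu : ∀ i, u (ι i) = (g.1 (v i)).2 := fun i => hinj.extend_apply _ _ i
  have hon : Orthonormal ℝ ((ι '' T).domRestrict u) := by
    rw [orthonormal_iff_ite]
    rintro ⟨_, i, hi, rfl⟩ ⟨_, j, hj, rfl⟩
    change ⟪u (ι i), u (ι j)⟫_ℝ = _
    rw [hu, hu, hin i hi j hj]
    split_ifs with h
    · rw [← hinj (congrArg Subtype.val h), h1 i hi]
    · exact h0 i hi j hj fun hij => h (Subtype.ext (congrArg ι hij))
  obtain ⟨b, hb⟩ := hon.exists_orthonormalBasis_extension_of_card_eq (ι := Fin (m + 4)) (by simp)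
  obtain ⟨r, hr⟩ := hypA_exists_rot b.repr
  refine ⟨r * g, fun i hi => ?_⟩
  change r.1 (g.1 (v i)) = _
  rw [hr, hf i hi, ← hu, ← hb (ι i) ⟨i, hi, rfl⟩, OrthonormalBasis.repr_self]

end Pool.Agent.MP_39b1da_gt
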