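import Pool.Agent.MP_39b1da_gt.Lat2

/-! Freeness and cocompactness in matrix form. -/

set_option autoImplicit false

open Set Matrix Real

namespace Pool.Agent.MP_39b1da_gt.Lat

variable {n : ℕ}

lemma form_map (f : Rg →+* ℝ) (x : Fin (n + 1) → Rg) :
    f (x ⬝ᵥ JR n *ᵥ x) = (f ∘ x) ⬝ᵥ (JR n).map f *ᵥ (f ∘ x) := by
  simp [dotProduct, mulVec]

lemma quad_eq (P Q : Mat n ℝ) (v : Fin (n + 1) → ℝ) :
    v ⬝ᵥ (Pᵀ * Q * P) *ᵥ v = (P *ᵥ v) ⬝ᵥ Q *ᵥ (P *ᵥ v) := by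
  rw [Matrix.mul_assoc, ← mulVec_mulVec, dotProduct_mulVec, vecMul_transpose, mulVec_mulVec]

lemma ta_vec_zero {x : Fin (n + 1) → Rg} (h : dg n rt *ᵥ (ta ∘ x) = 0) : x = 0 := by
  have h6 := congrArg (fun v => dg n rt⁻¹ *ᵥ v) h
  simp only [mulVec_mulVec, dg_inv' rt0, one_mulVec, mulVec_zero] at h6
  ext1 i
  exact ta_zero (congrFun h6 i)

lemma no_short {k : Mat n ℝ} (hk : kᵀ * Jm n * k = Jm n) (x : Fin (n + 1) → Rg)
    (h1 : (k *ᵥ dg n rs *ᵥ (sg ∘ x)) ⬝ᵥ (k *ᵥ dg n rs *ᵥ (sg ∘ x)) < 1)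
    (h2 : (dg n rt *ᵥ (ta ∘ x)) ⬝ᵥ (dg n rt *ᵥ (ta ∘ x)) < 1) : x = 0 := by
  have e1 : sg (x ⬝ᵥ JR n *ᵥ x) =
      (k *ᵥ dg n rs *ᵥ (sg ∘ x)) ⬝ᵥ Jm n *ᵥ (k *ᵥ dg n rs *ᵥ (sg ∘ x)) := by
    rw [form_map, JR_sg, quad_eq, ← quad_eq k, hk]
  have e2 : ta (x ⬝ᵥ JR n *ᵥ x) = (dg n rt *ᵥ (ta ∘ x)) ⬝ᵥ (dg n rt *ᵥ (ta ∘ x)) := by
    have e : (JR n).map ta = (dg n rt)ᵀ * 1 * dg n rt := by
      rw [Matrix.mul_one, dg_tr, dg_mul, dg_map, map_neg, ta_om, ← rt_sq]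
    rw [form_map, e, quad_eq, one_mulVec]
  have h3 : x ⬝ᵥ JR n *ᵥ x = 0 := by
    refine small ?_ ?_
    · rw [e1]
      exact (abs_form_le _).trans_lt h1
    · rw [e2, abs_of_nonneg (dot_nonneg _)]
      exact h2
  rw [h3, map_zero] at e2
  exact ta_vec_zero (dotProduct_self_eq_zero.1 e2.symm)

lemma step_vec (f : Rg →+* ℝ) {r : ℝ} (hr : r ≠ 0) (X : Mat n Rg) (x : Fin (n + 1) → Rg) :
    cj f hr (1 + (4 : Rg) • X) *ᵥ (dg n r *ᵥ (f ∘ x)) =
      dg n r *ᵥ (f ∘ x) + (4 : ℝ) • dg n r *ᵥ (f ∘ (X *ᵥ x)) := by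
  rw [cj_vec, ← mulVec_smul, ← mulVec_add]
  congr 1
  ext i
  simp [add_mulVec, smul_mulVec, map_ofNat]

lemma rho_free (a : Gs n) {k k' : Mat n ℝ} (hk : kᵀ * Jm n * k = Jm n) (hkk : k' * k = 1)
    (hO : (k * rho n a * k')ᵀ * (k * rho n a * k') = 1) : a = 1 := by
  obtain ⟨hu, X, hX⟩ := a.2
  have hT := unit_ta hu
  rw [rho_apply, hX] at hO
  rw [hX] at hT
  let E1 : (Fin (n + 1) → Rg) → ℝ := fun x =>
    (k *ᵥ dg n rs *ᵥ (sg ∘ x)) ⬝ᵥ (k *ᵥ dg n rs *ᵥ (sg ∘ x))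
  let E2 : (Fin (n + 1) → Rg) → ℝ := fun x => (dg n rt *ᵥ (ta ∘ x)) ⬝ᵥ (dg n rt *ᵥ (ta ∘ x))
  have c1 : ∀ x, E1 (X *ᵥ x) ≤ E1 x / 4 := by
    intro x
    refine contr hO ?_
    rw [mulVec_mulVec, Matrix.mul_assoc, hkk, Matrix.mul_one, ← mulVec_mulVec, step_vec,
      mulVec_add, mulVec_smul]
  have c2 : ∀ x, E2 (X *ᵥ x) ≤ E2 x / 4 := fun x => contr hT (step_vec _ _ _ _)
  have d : ∀ x, X *ᵥ X *ᵥ x = 0 → X *ᵥ x = 0 := by
    intro x hx
    refine ta_vec_zero (nilp hT (step_vec _ _ X x) ?_)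
    rw [step_vec, hx]
    have : ta ∘ (0 : Fin (n + 1) → Rg) = 0 := by ext; simp
    rw [this, mulVec_zero, smul_zero, add_zero]
  have key : ∀ (p : ℕ) x, E1 x < 4 ^ p → E2 x < 4 ^ p → X *ᵥ x = 0 := by
    intro p
    induction p with
    | zero =>
      intro x h1 h2
      rw [pow_zero] at h1 h2
      rw [no_short hk x h1 h2, mulVec_zero]
    | succ p ih =>
      intro x h1 h2
      rw [pow_succ] at h1 h2
      exact d x (ih _ (by linarith [c1 x]) (by linarith [c2 x]))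
  have hX0 : X = 0 := by
    ext1 i j
    obtain ⟨p, hp⟩ := pow_unbounded_of_one_lt
      (max (E1 (Pi.single j 1)) (E2 (Pi.single j 1))) (by norm_num : (1 : ℝ) < 4)
    have := congrFun (key p _ ((le_max_left _ _).trans_lt hp) ((le_max_right _ _).trans_lt hp)) i
    simpa using this
  refine Subtype.ext (Units.ext ?_)
  rw [hX, hX0]
  simp

lemma dg_vec_le {r c : ℝ} (r0 : 0 ≤ r) (r1 : r ≤ 1) {v : Fin (n + 1) → ℝ} (h : ∀ i, |v i| ≤ c)
    (i : Fin (n + 1)) : |(dg n r *ᵥ v) i| ≤ c := by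
  rw [dg, mulVec_diagonal, abs_mul]
  have h1 : |if i = 0 then r else 1| ≤ 1 := by
    split_ifs
    · rwa [abs_of_nonneg r0]
    · simp
  have := mul_le_mul h1 (h i) (abs_nonneg _) zero_le_one
  linarith

lemma entry_form_le {A : Mat n ℝ} {c L : ℝ} (hc : |c| ≤ 1) (h : ∀ i j, |A i j| ≤ L)
    (i j : Fin (n + 1)) : |(Aᵀ * dg n c * A) i j| ≤ (n + 1) * L ^ 2 := by
  have key : ∀ l, |A l i * A l j| ≤ L ^ 2 := by
    intro l
    rw [abs_mul, pow_two]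
    exact mul_le_mul (h l i) (h l j) (abs_nonneg _) ((abs_nonneg _).trans (h l i))
  rw [form_entry]
  refine (abs_add_le _ _).trans ?_
  have e1 : |c * (A 0 i * A 0 j)| ≤ L ^ 2 := by
    rw [abs_mul]
    have := mul_le_mul hc (key 0) (abs_nonneg _) zero_le_one
    linarith
  have e2 : |∑ l : Fin n, A l.succ i * A l.succ j| ≤ n * L ^ 2 := by
    refine (Finset.abs_sum_le_sum_abs _ _).trans ?_
    exact (Finset.sum_le_card_nsmul _ _ (L ^ 2) fun l _ => key _).trans (by simp)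
  linarith

lemma gram_bound {k : Mat n ℝ} (hk : kᵀ * Jm n * k = Jm n) {V : Mat n Rg} {L : ℝ}
    (h1 : ∀ i j, |(k * dg n rs * V.map sg) i j| ≤ L) (h2 : ∀ i j, |ta (V i j)| ≤ 1)
    (i j : Fin (n + 1)) :
    |sg ((Vᵀ * JR n * V) i j)| ≤ (n + 1) * L ^ 2 ∧ |ta ((Vᵀ * JR n * V) i j)| ≤ n + 1 := by
  constructor
  · have e : (Vᵀ * JR n * V).map sg =
        (k * dg n rs * V.map sg)ᵀ * Jm n * (k * dg n rs * V.map sg) := by
      rw [gram_sg]
      conv_lhs => rw [← hk]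
      simp only [transpose_mul, Matrix.mul_assoc]
    have e2 := congrFun (congrFun e i) j
    rw [map_apply] at e2
    rw [e2]
    exact entry_form_le (by simp) h1 i j
  · have e2 := congrFun (congrFun (gram_ta V) i) j
    rw [map_apply] at e2
    have h3 : ∀ i j, |(dg n rt * V.map ta) i j| ≤ 1 := fun i j =>
      dg_vec_le (by linarith [rt_ge]) rt_le (v := fun i => ta (V i j)) (fun i => h2 i j) i
    have := entry_form_le (c := 1) (by simp) h3 i j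
    rw [dg_one, Matrix.mul_one, one_pow, mul_one] at this
    rwa [e2]

lemma half_class {V W : Mat n Rg}
    (hd : ∀ i j, (4 : Rg) * (Vᵀ * JR n * V).det ∣ W i j - V i j) :
    ∃ x : Mat n Rg, (1 + (4 : Rg) • x) * V = W := by
  choose Y hY using hd
  refine ⟨(V.det * (JR n).det) • (Matrix.of Y * adjugate V), ?_⟩
  rw [Matrix.add_mul, Matrix.one_mul, Matrix.smul_mul, Matrix.smul_mul, Matrix.mul_assoc,
    adjugate_mul, Matrix.mul_smul, Matrix.mul_one]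
  ext1 i j
  have := hY i j
  rw [det_mul, det_mul, det_transpose] at this
  simp only [Matrix.add_apply, Matrix.smul_apply, smul_eq_mul, of_apply]
  linear_combination -this

lemma same_class {V W : Mat n Rg} (hV : V.det ≠ 0) (hG : Vᵀ * JR n * V = Wᵀ * JR n * W)
    (hd : ∀ i j, (4 : Rg) * (Vᵀ * JR n * V).det ∣ W i j - V i j) :
    ∃ a : Gs n, (a.1 : Mat n Rg) * V = W := by
  obtain ⟨x, hx⟩ := half_class hd
  obtain ⟨y, hy⟩ := half_class (V := W) (W := V) fun i j => by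
    rw [← hG]
    exact dvd_sub_comm.1 (hd i j)
  have r1 : IsRegular V := isRegular_of_isLeftRegular_det (IsRegular.of_ne_zero hV).left
  have r2 : IsRegular Vᵀ := isRegular_of_isLeftRegular_det (IsRegular.of_ne_zero
    (by rw [det_transpose]; exact hV)).left
  have e1 : (1 + (4 : Rg) • y) * (1 + (4 : Rg) • x) = 1 :=
    r1.right (by simp only [Matrix.mul_assoc, hx, hy, Matrix.one_mul])
  refine ⟨⟨⟨1 + (4 : Rg) • x, 1 + (4 : Rg) • y, mul_eq_one_comm.1 e1, e1⟩, ?_, x, rfl⟩, hx⟩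
  refine r1.right (r2.left ?_)
  calc Vᵀ * (((1 + (4 : Rg) • x)ᵀ * JR n * (1 + (4 : Rg) • x)) * V)
      = ((1 + (4 : Rg) • x) * V)ᵀ * JR n * ((1 + (4 : Rg) • x) * V) := by
        simp only [transpose_mul, Matrix.mul_assoc]
    _ = Vᵀ * (JR n * V) := by rw [hx, ← hG, Matrix.mul_assoc]

lemma rho_cocpt (n : ℕ) : ∃ C : ℝ, ∀ k : Mat n ℝ, kᵀ * Jm n * k = Jm n →
    ∃ a : Gs n, |(k * rho n a) 0 0| ≤ C := by
  classical
  have hne : goldenRatio ≠ goldenConj := by linarith [goldenConj_neg, goldenRatio_pos]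
  have hn0 : (0 : ℝ) ≤ n := n.cast_nonneg
  set ε : ℝ := 1 / (2 * (n + 1) ^ 2) with hε
  have hε0 : 0 < ε := by positivity
  have hε1 : (n + 1) * ((n + 1) * ε) ^ 2 < 1 := by
    have : (n + 1) * ((n + 1) * ε) ^ 2 = 1 / (4 * (n + 1)) := by
      rw [hε]; field_simp; ring
    rw [this, div_lt_one (by positivity)]
    linarith
  have hε2 : ε ≤ (n + 1) * ε := by nlinarith
  have hε3 : ε ≤ 1 := by
    rw [hε, div_le_one (by positivity)]
    nlinarith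
  obtain ⟨L, hL⟩ := many (n := n) hne ε hε0
  have hfin := fin_mat (n := n) (max ((n + 1) * L ^ 2) (n + 1))
  set M₀ : Rg := (4 : Rg) * ∏ Γ ∈ hfin.toFinset.filter (fun Γ => Γ.det ≠ 0), Γ.det with hM₀
  have hM : M₀ ≠ 0 := mul_ne_zero (by norm_num)
    (Finset.prod_ne_zero_iff.2 fun Γ hΓ => (Finset.mem_filter.1 hΓ).2)
  have : Finite (Rg ⧸ Ideal.span {M₀}) :=
    Ideal.finiteQuotientOfFreeOfNeBot _ (by simpa using hM)
  let cl : Mat n Rg → Mat n Rg × Mat n (Rg ⧸ Ideal.span {M₀}) :=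
    fun V => (Vᵀ * JR n * V, V.map (Ideal.Quotient.mk _))
  let 𝒱 : Set (Mat n Rg) := {V | Vᵀ * JR n * V ∈ hfin.toFinset ∧ V.det ≠ 0}
  have hcl : (cl '' 𝒱).Finite := by
    refine (hfin.toFinset.finite_toSet.prod Set.finite_univ).subset ?_
    rintro _ ⟨V, hV, rfl⟩
    exact ⟨hV.1, Set.mem_univ _⟩
  obtain ⟨t, ht1, ht2, ht3⟩ := (Set.exists_subset_image_finite_and (p := fun u => cl '' 𝒱 ⊆ u)).1
    ⟨_, subset_rfl, hcl, subset_rfl⟩
  obtain ⟨C, hC⟩ := (ht2.image fun W => ∑ i, |(dg n rs * W.map sg)⁻¹ i 0|).bddAbove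
  refine ⟨L * C, fun k hk => ?_⟩
  have hdet : |(k * dg n rs).det| = rs := by
    rw [det_mul, abs_mul, abs_det hk, dg_det, one_mul, abs_of_pos (by linarith [rs_ge])]
  obtain ⟨A, B, hV2, hV3, hV4⟩ := hL (k * dg n rs)
    (by rw [← abs_pos, hdet]; linarith [rs_ge]) (by rw [hdet]; exact rs_le) (by
      intro a b hv2 hv1
      have h0 := no_short hk (fun i => (⟨a i, b i⟩ : Rg))
        (by
          rw [mulVec_mulVec]
          exact (dot_le hv1).trans_lt hε1)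
        ((dot_le (dg_vec_le (by linarith [rt_ge]) rt_le fun i => (hv2 i).trans hε2)).trans_lt hε1)
      exact ⟨funext fun i => congrArg QuadraticAlgebra.re (congrFun h0 i),
        funext fun i => congrArg QuadraticAlgebra.im (congrFun h0 i)⟩)
  let V : Mat n Rg := Matrix.of fun i j => ⟨A i j, B i j⟩
  change (V.map sg).det ≠ 0 at hV2
  change ∀ i j, |(k * dg n rs * V.map sg) i j| ≤ L at hV3
  change ∀ i j, |ta (V i j)| ≤ ε at hV4
  have hVd : V.det ≠ 0 := by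
    intro h0
    refine hV2 ?_
    rw [← RingHom.mapMatrix_apply, ← RingHom.map_det, h0, map_zero]
  have hV : V ∈ 𝒱 := by
    refine ⟨hfin.mem_toFinset.2 fun i j => ?_, hVd⟩
    have := gram_bound hk hV3 (fun i j => (hV4 i j).trans hε3) i j
    exact ⟨this.1.trans (le_max_left _ _), this.2.trans (le_max_right _ _)⟩
  obtain ⟨W, hWt, hW⟩ := ht3 ⟨V, hV, rfl⟩
  have hG : Vᵀ * JR n * V = Wᵀ * JR n * W := (congrArg Prod.fst hW).symm
  have hs0 : om ≠ 0 := by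
    intro h0
    have := sg_om
    rw [h0, map_zero] at this
    exact goldenRatio_ne_zero this.symm
  have hGd : (Vᵀ * JR n * V).det ≠ 0 := by
    rw [det_mul, det_mul, det_transpose, dg_det]
    exact mul_ne_zero (mul_ne_zero hVd (neg_ne_zero.2 hs0)) hVd
  obtain ⟨a, ha⟩ := same_class hVd hG fun i j => by
    have e1 : Ideal.Quotient.mk (Ideal.span {M₀}) (W i j) = Ideal.Quotient.mk _ (V i j) :=
      congrFun (congrFun (congrArg Prod.snd hW) i) j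
    rw [Ideal.Quotient.eq, Ideal.mem_span_singleton] at e1
    refine dvd_trans (mul_dvd_mul_left _ ?_) e1
    exact Finset.dvd_prod_of_mem _ (Finset.mem_filter.2 ⟨hV.1, hGd⟩)
  refine ⟨a⁻¹, ?_⟩
  have hWu : IsUnit (dg n rs * W.map sg).det := by
    rw [isUnit_iff_ne_zero, det_mul, dg_det, ← RingHom.mapMatrix_apply, ← RingHom.map_det]
    exact mul_ne_zero rs0 fun h0 => (ht1 hWt).2 (sg_zero h0)
  have hinv : rho n a⁻¹ * rho n a = 1 := by rw [← map_mul, inv_mul_cancel, map_one]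
  have e1 : rho n a * (dg n rs * V.map sg) = dg n rs * W.map sg := by
    rw [rho_apply, cj_mul_D, ha]
  have e2 : k * rho n a⁻¹ = (k * dg n rs * V.map sg) * (dg n rs * W.map sg)⁻¹ := by
    rw [Matrix.mul_assoc k, Matrix.mul_assoc k]
    congr 1
    have : dg n rs * V.map sg = rho n a⁻¹ * (dg n rs * W.map sg) := by
      rw [← e1, ← Matrix.mul_assoc, hinv, Matrix.one_mul]
    rw [this, Matrix.mul_nonsing_inv_cancel_right _ _ hWu]
  have hL0 : 0 ≤ L := (abs_nonneg _).trans (hV3 0 0)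
  rw [e2, Matrix.mul_apply]
  refine (Finset.abs_sum_le_sum_abs _ _).trans ?_
  refine le_trans ?_ (mul_le_mul_of_nonneg_left (hC ⟨W, hWt, rfl⟩) hL0)
  rw [Finset.mul_sum]
  refine Finset.sum_le_sum fun i _ => ?_
  rw [abs_mul]
  exact mul_le_mul_of_nonneg_right (hV3 0 i) (abs_nonneg _)

end Pool.Agent.MP_39b1da_gt.Lat
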