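import Pool.Agent.MP_39b1da_gt.HypA
import Pool.Agent.MP_39b1da_gt.Lat3

set_option autoImplicit false

namespace Pool.Agent.MP_39b1da_gt

open Filter Topology Set Real Matrix
open scoped ENNReal NNReal ContDiff InnerProductSpace

namespace Lat

variable {m : ℕ}

/-- Coordinates on Minkowski space. -/
noncomputable def co (m : ℕ) : (ℝ × Euc m) ≃ₗ[ℝ] (Fin (m + 4 + 1) → ℝ) where
  toFun v := Fin.cons v.1 fun i => v.2 i
  invFun x := (x 0, WithLp.toLp 2 fun i => x i.succ)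
  map_add' v w := by
    ext i
    induction i using Fin.cases <;> simp
  map_smul' c v := by
    ext i
    induction i using Fin.cases <;> simp
  left_inv v := by simp
  right_inv x := by
    ext i
    induction i using Fin.cases <;> simp

lemma co_zero (v : ℝ × Euc m) : co m v 0 = v.1 := rfl

lemma co_succ (v : ℝ × Euc m) (i : Fin (m + 4)) : co m v i.succ = v.2 i := rfl

lemma co_lor (v w : ℝ × Euc m) : lor v w = co m v ⬝ᵥ Jm (m + 4) *ᵥ co m w := by
  rw [form_vec]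
  simp only [co_zero, co_succ, lor, PiLp.inner_apply, RCLike.inner_apply, conj_trivial]
  simp [mul_comm]

lemma co_e0 : co m (1, 0) = Pi.single 0 1 := by
  ext i
  induction i using Fin.cases with
  | zero => simp [co_zero]
  | succ i => simp [co_succ]

lemma co_lat (x : Fin (m + 4 + 1) → Rg) :
    co m (lat (fun i => (x i).re) fun i => (x i).im) = dg (m + 4) rs *ᵥ (sg ∘ x) := by
  ext i
  rw [dg, mulVec_diagonal]
  induction i using Fin.cases with
  | zero => simp [co_zero, lat, rs, sg_apply]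
  | succ i => simp [co_succ, lat, sg_apply]

/-- The matrix of a Lorentz transformation. -/
noncomputable def toM (g : Lor (Euc m)) : Mat (m + 4) ℝ :=
  LinearMap.toMatrix' ((co m).toLinearMap ∘ₗ g.1.toLinearEquiv.toLinearMap ∘ₗ
    (co m).symm.toLinearMap)

lemma toM_vec (g : Lor (Euc m)) (v : ℝ × Euc m) : toM g *ᵥ co m v = co m (g.1 v) := by
  rw [toM, LinearMap.toMatrix'_mulVec]
  simp

lemma mat_ext {A B : Mat (m + 4) ℝ} (h : ∀ v, A *ᵥ co m v = B *ᵥ co m v) : A = B := by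
  ext i j
  obtain ⟨v, hv⟩ := (co m).surjective (Pi.single j 1)
  have := congrFun (h v) i
  simpa [hv] using this

lemma toM_mul (g h : Lor (Euc m)) : toM (g * h) = toM g * toM h :=
  mat_ext fun v => by rw [← mulVec_mulVec, toM_vec, toM_vec, toM_vec]; rfl

lemma toM_one : toM (1 : Lor (Euc m)) = 1 :=
  mat_ext fun v => by rw [toM_vec, one_mulVec]; rfl

lemma toM_inj : Function.Injective (toM (m := m)) := by
  intro g h e
  refine Subtype.ext (ContinuousLinearEquiv.ext (funext fun v => (co m).injective ?_))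
  rw [← toM_vec, ← toM_vec, e]

lemma bil_eq {n : ℕ} (P Q : Mat n ℝ) (v w : Fin (n + 1) → ℝ) :
    v ⬝ᵥ (Pᵀ * Q * P) *ᵥ w = (P *ᵥ v) ⬝ᵥ Q *ᵥ (P *ᵥ w) := by
  rw [Matrix.mul_assoc, ← mulVec_mulVec, dotProduct_mulVec, vecMul_transpose, mulVec_mulVec]

lemma toM_unit (g : Lor (Euc m)) : (toM g)ᵀ * Jm (m + 4) * toM g = Jm (m + 4) := by
  ext i j
  obtain ⟨v, hv⟩ := (co m).surjective (Pi.single i 1)
  obtain ⟨w, hw⟩ := (co m).surjective (Pi.single j 1)
  have := bil_eq (toM g) (Jm (m + 4)) (co m v) (co m w)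
  rw [toM_vec, toM_vec, ← co_lor, g.2.1, co_lor, hv, hw] at this
  simpa using this

lemma toM_00 (g : Lor (Euc m)) : toM g 0 0 = cosh (dist (g • Hyp.mk 0) (Hyp.mk (0 : Euc m))) := by
  have e : lift (Hyp.mk (0 : Euc m)) = (1, 0) := by simp [lift]
  have := congrFun (toM_vec g (1, 0)) 0
  rw [co_e0, co_zero] at this
  rw [cosh_dist, lift_smul, e]
  simp only [mulVec_single_one, col_apply] at this
  simp [lor, this]

lemma exists_toM {M : Mat (m + 4) ℝ} (hM : Mᵀ * Jm (m + 4) * M = Jm (m + 4)) (h0 : 0 < M 0 0) :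
    ∃ g : Lor (Euc m), toM g = M := by
  have hd : IsUnit M.det := by
    rw [isUnit_iff_ne_zero, ← abs_pos, abs_det hM]
    exact one_pos
  let e : (ℝ × Euc m) ≃ₗ[ℝ] (ℝ × Euc m) :=
    ((co m).trans (Matrix.toLinearEquiv' M (invertibleOfIsUnitDet M hd))).trans (co m).symm
  have he : ∀ v, co m (e.toContinuousLinearEquiv v) = M *ᵥ co m v := by
    intro v
    change co m ((co m).symm (Matrix.toLin' M (co m v))) = _
    simp
  refine ⟨⟨e.toContinuousLinearEquiv, mem_lor (fun v w => ?_) ?_⟩, mat_ext fun v => ?_⟩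
  · rw [co_lor, he, he, ← bil_eq, hM, co_lor]
  · rw [← co_zero, he, co_e0]
    simpa using h0
  · rw [toM_vec, he]

lemma cong_of {g : Lor (Euc m)} {X : Mat (m + 4) Rg}
    (h : toM g = cj sg rs0 (1 + (4 : Rg) • X)) : Cong4 g := by
  intro a b
  let x : Fin (m + 4 + 1) → Rg := fun i => ⟨a i, b i⟩
  refine ⟨fun i => ((X *ᵥ x) i).re, fun i => ((X *ᵥ x) i).im, (co m).injective ?_⟩
  have e1 : lat a b = lat (fun i => (x i).re) fun i => (x i).im := rfl
  rw [← toM_vec, e1, co_lat, h, cj_vec, ← co_lat]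
  congr 2 <;> ext i <;> simp [x, add_mulVec, smul_mulVec, QuadraticAlgebra.re_ofNat,
    QuadraticAlgebra.im_ofNat]

lemma of_cong {g : Lor (Euc m)} (h : Cong4 g) :
    ∃ X : Mat (m + 4) Rg, toM g = cj sg rs0 (1 + (4 : Rg) • X) := by
  choose a b hab using fun j : Fin (m + 4 + 1) =>
    h (fun i => ((Pi.single j 1 : Fin (m + 4 + 1) → Rg) i).re)
      fun i => ((Pi.single j 1 : Fin (m + 4 + 1) → Rg) i).im
  let X : Mat (m + 4) Rg := Matrix.of fun i j => ⟨a j i, b j i⟩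
  refine ⟨X, ?_⟩
  have key : toM g * dg (m + 4) rs = cj sg rs0 (1 + (4 : Rg) • X) * dg (m + 4) rs := by
    ext i j
    have e0 : sg ∘ (Pi.single j 1 : Fin (m + 4 + 1) → Rg) = Pi.single j 1 := by
      ext l
      by_cases hl : l = j <;> simp [hl]
    have e1 := toM_vec g (lat (fun i => ((Pi.single j 1 : Fin (m + 4 + 1) → Rg) i).re)
      fun i => ((Pi.single j 1 : Fin (m + 4 + 1) → Rg) i).im)
    have e2 := cj_vec sg rs0 (1 + (4 : Rg) • X) (Pi.single j 1)
    have e3 : dg (m + 4) rs *ᵥ (sg ∘ ((1 + (4 : Rg) • X) *ᵥ Pi.single j 1)) =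
        co m (lat ((fun i => ((Pi.single j 1 : Fin (m + 4 + 1) → Rg) i).re) + 4 • a j)
          ((fun i => ((Pi.single j 1 : Fin (m + 4 + 1) → Rg) i).im) + 4 • b j)) := by
      rw [← co_lat]
      congr 2 <;> ext i <;> simp [X, one_apply, Pi.single_apply, QuadraticAlgebra.re_ofNat,
        QuadraticAlgebra.im_ofNat]
    rw [hab, co_lat, ← e3, ← e2, e0, mulVec_mulVec, mulVec_mulVec] at e1
    simpa using congrFun e1 i
  have := congrArg (fun M => M * dg (m + 4) rs⁻¹) key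
  simpa only [Matrix.mul_assoc, dg_inv rs0, Matrix.mul_one] using this

lemma toM_inv_eq {g : Lor (Euc m)} {a : Gs (m + 4)} (h : toM g = rho (m + 4) a) :
    toM g⁻¹ = rho (m + 4) a⁻¹ := by
  calc toM g⁻¹ = toM g⁻¹ * (rho (m + 4) a * rho (m + 4) a⁻¹) := by
        rw [← map_mul, mul_inv_cancel, map_one, Matrix.mul_one]
    _ = rho (m + 4) a⁻¹ := by
        rw [← h, ← Matrix.mul_assoc, ← toM_mul, inv_mul_cancel, toM_one, Matrix.one_mul]

lemma mem_iff {g : Lor (Euc m)} : g ∈ Gam4 m ↔ ∃ a : Gs (m + 4), toM g = rho (m + 4) a := by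
  constructor
  · rintro ⟨h1, h2⟩
    obtain ⟨X, hX⟩ := of_cong h1
    obtain ⟨Y, hY⟩ := of_cong h2
    have e : (1 + (4 : Rg) • X) * (1 + (4 : Rg) • Y) = 1 := by
      refine cj_inj sg_inj rs0 ?_
      rw [map_mul, ← hX, ← hY, ← toM_mul, mul_inv_cancel, toM_one, map_one]
    refine ⟨⟨⟨_, _, e, mul_eq_one_comm.1 e⟩, of_unit_sg ?_, X, rfl⟩, hX⟩
    change (cj sg rs0 (1 + (4 : Rg) • X))ᵀ * _ * cj sg rs0 (1 + (4 : Rg) • X) = _
    rw [← hX]
    exact toM_unit g
  · rintro ⟨a, ha⟩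
    obtain ⟨X, hX⟩ := a.2.2
    obtain ⟨Y, hY⟩ := (a⁻¹).2.2
    exact ⟨cong_of (by rw [ha, rho_apply, hX]), cong_of (by rw [toM_inv_eq ha, rho_apply, hY])⟩

lemma exists_pm (a : Gs (m + 4)) :
    ∃ g : Lor (Euc m), toM g = rho (m + 4) a ∨ toM g = -rho (m + 4) a := by
  have h1 := one_le_abs (rho_unit a)
  rcases lt_trichotomy (rho (m + 4) a 0 0) 0 with h | h | h
  · obtain ⟨g, hg⟩ := exists_toM (M := -rho (m + 4) a) (by simpa using rho_unit a)
      (by simpa using h)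
    exact ⟨g, Or.inr hg⟩
  · rw [h, abs_zero] at h1
    linarith
  · obtain ⟨g, hg⟩ := exists_toM (rho_unit a) h
    exact ⟨g, Or.inl hg⟩

lemma dist_le_of {g : Lor (Euc m)} {C : ℝ} (h : |toM g 0 0| ≤ C) :
    dist (g • Hyp.mk 0) (Hyp.mk (0 : Euc m)) ≤ C := by
  rw [toM_00] at h
  have h1 := Real.self_le_sinh_iff.2 (dist_nonneg (x := g • Hyp.mk 0) (y := Hyp.mk (0 : Euc m)))
  linarith [le_abs_self (cosh (dist (g • Hyp.mk 0) (Hyp.mk (0 : Euc m)))),
    Real.sinh_lt_cosh (dist (g • Hyp.mk 0) (Hyp.mk (0 : Euc m)))]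

lemma cocpt_pm (m : ℕ) : ∃ C : ℝ, ∀ x : Hyp (Euc m), ∃ (g : Lor (Euc m)) (a : Gs (m + 4)),
    (toM g = rho (m + 4) a ∨ toM g = -rho (m + 4) a) ∧ dist (g • x) (Hyp.mk 0) ≤ C := by
  obtain ⟨C, hC⟩ := rho_cocpt (m + 4)
  refine ⟨C, fun x => ?_⟩
  obtain ⟨k, hk, -⟩ := exists_boost x
  obtain ⟨a, ha⟩ := hC (toM k) (toM_unit k)
  obtain ⟨g, hg⟩ := exists_pm a
  have h1 : |toM (k * g) 0 0| ≤ C := by
    rw [toM_mul]
    rcases hg with hg | hg <;> rw [hg] <;> simpa using ha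
  have h2 := dist_le_of h1
  refine ⟨g⁻¹, a⁻¹, ?_, ?_⟩
  · rcases hg with hg | hg
    · exact Or.inl (toM_inv_eq hg)
    · right
      calc toM g⁻¹ = toM g⁻¹ * (rho (m + 4) a * rho (m + 4) a⁻¹) := by
            rw [← map_mul, mul_inv_cancel, map_one, Matrix.mul_one]
        _ = -(toM g⁻¹ * toM g * rho (m + 4) a⁻¹) := by
            rw [hg]; simp [Matrix.mul_assoc]
        _ = -rho (m + 4) a⁻¹ := by rw [← toM_mul, inv_mul_cancel, toM_one, Matrix.one_mul]
  · rw [← dist_smul_lor (k * g), mul_smul, smul_inv_smul, hk, dist_comm]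
    exact h2

end Lat

open _root_.Pool.Agent.MP_39b1da_gt.Lat in
theorem isUnif_gam4 (m : ℕ) : IsUnif (Gam4 m) where
  free := by
    intro g hg x hx
    obtain ⟨a, ha⟩ := mem_iff.1 hg
    obtain ⟨k, hk, -⟩ := exists_boost x
    have h1 : (k * g * k⁻¹) • Hyp.mk (0 : Euc m) = Hyp.mk 0 := by
      rw [← hk, mul_smul, inv_smul_smul, mul_smul, hx]
    have h2 := orth_of_fix (toM_unit (k * g * k⁻¹)) (by rw [toM_00, h1]; simp)
    rw [toM_mul, toM_mul, ha] at h2
    have h3 := rho_free a (toM_unit k) (by rw [← toM_mul, inv_mul_cancel, toM_one]) h2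
    refine toM_inj ?_
    rw [ha, h3, map_one, toM_one]
  proper := by
    intro x R
    refine (((rho_fin (cosh (R + 2 * dist x (Hyp.mk 0)))).image (rho (m + 4))).preimage
      toM_inj.injOn).subset ?_
    rintro g ⟨hg, hR⟩
    obtain ⟨a, ha⟩ := mem_iff.1 hg
    refine ⟨a, ?_, ha.symm⟩
    have h1 : dist (g • Hyp.mk 0) (Hyp.mk (0 : Euc m)) ≤ R + 2 * dist x (Hyp.mk 0) := by
      have := dist_triangle4 (g • Hyp.mk 0) (g • x) x (Hyp.mk (0 : Euc m))
      rw [dist_smul_lor, dist_comm (Hyp.mk 0) x] at this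
      linarith
    change |rho (m + 4) a 0 0| ≤ _
    rw [← ha, toM_00, abs_of_pos (cosh_pos _), cosh_le_cosh, abs_of_nonneg dist_nonneg]
    exact h1.trans (le_abs_self _)
  cocpt := by
    obtain ⟨C, hC⟩ := cocpt_pm m
    by_cases h : ∃ (g : Lor (Euc m)) (a : Gs (m + 4)), toM g = -rho (m + 4) a
    · obtain ⟨b, a₀, hb⟩ := h
      refine ⟨C + dist (b • Hyp.mk (0 : Euc m)) (Hyp.mk 0), fun x => ?_⟩
      obtain ⟨g, a, hg | hg, hd⟩ := hC x
      · exact ⟨g, mem_iff.2 ⟨a, hg⟩, hd.trans (le_add_of_nonneg_right dist_nonneg)⟩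
      · refine ⟨b * g, mem_iff.2 ⟨a₀ * a, ?_⟩, ?_⟩
        · rw [toM_mul, hb, hg, map_mul]
          simp
        · have := dist_triangle (b • g • x) (b • Hyp.mk 0) (Hyp.mk (0 : Euc m))
          rw [dist_smul_lor] at this
          rw [mul_smul]
          linarith
    · refine ⟨C, fun x => ?_⟩
      obtain ⟨g, a, hg | hg, hd⟩ := hC x
      · exact ⟨g, mem_iff.2 ⟨a, hg⟩, hd⟩
      · exact absurd ⟨g, a, hg⟩ h

end Pool.Agent.MP_39b1da_gt
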