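import Mathlib

/-! Elementary facts on O(n,1) and O(n+1), and Minkowski's theorem for a pair of embeddings. -/

set_option autoImplicit false

open MeasureTheory Set Matrix

namespace Pool.Agent.MP_39b1da_gt.Lat

variable {n : ℕ}

/-- Square matrices of size `n + 1`. -/
abbrev Mat (n : ℕ) (α : Type) := Matrix (Fin (n + 1)) (Fin (n + 1)) α

/-- The diagonal matrix with entries `c, 1, …, 1`. -/
def dg (n : ℕ) {α : Type} [CommRing α] (c : α) : Mat n α :=
  diagonal fun i => if i = 0 then c else 1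

section
variable {α β : Type} [CommRing α] [CommRing β]

lemma dg_mul (a b : α) : dg n a * dg n b = dg n (a * b) := by
  simp only [dg, diagonal_mul_diagonal]
  congr 1
  ext i
  split_ifs <;> simp

lemma dg_one : dg n (1 : α) = 1 := by simp [dg]

lemma dg_tr (a : α) : (dg n a)ᵀ = dg n a := by simp [dg]

lemma dg_map (f : α →+* β) (a : α) : (dg n a).map f = dg n (f a) := by
  simp only [dg, diagonal_map (map_zero f)]
  congr 1
  ext i
  split_ifs <;> simp

lemma dg_det (a : α) : (dg n a).det = a := by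
  simp [dg]

lemma form_entry (c : α) (A B : Mat n α) (i j : Fin (n + 1)) :
    (Aᵀ * dg n c * B) i j = c * (A 0 i * B 0 j) + ∑ l : Fin n, A l.succ i * B l.succ j := by
  rw [Matrix.mul_apply, Fin.sum_univ_succ]
  simp [dg, mul_diagonal]
  ring

lemma form_vec (c : α) (v w : Fin (n + 1) → α) :
    v ⬝ᵥ dg n c *ᵥ w = c * (v 0 * w 0) + ∑ l : Fin n, v l.succ * w l.succ := by
  rw [dotProduct, Fin.sum_univ_succ]
  simp [dg, mulVec_diagonal]
  ring

end

/-- The Lorentz matrix. -/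
abbrev Jm (n : ℕ) : Mat n ℝ := dg n (-1)

lemma Jm_sq : Jm n * Jm n = 1 := by rw [dg_mul]; simp [dg_one]

lemma unit_tr {A : Mat n ℝ} (h : Aᵀ * Jm n * A = Jm n) : Aᵀᵀ * Jm n * Aᵀ = Jm n := by
  have h1 : (Jm n * Aᵀ * Jm n) * A = 1 := by
    calc (Jm n * Aᵀ * Jm n) * A = Jm n * (Aᵀ * Jm n * A) := by simp only [Matrix.mul_assoc]
      _ = 1 := by rw [h, Jm_sq]
  have h2 : A * (Jm n * Aᵀ * Jm n) = 1 := mul_eq_one_comm.1 h1
  rw [transpose_transpose]
  calc A * Jm n * Aᵀ = A * (Jm n * Aᵀ * Jm n) * Jm n := by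
        simp only [Matrix.mul_assoc, Jm_sq, Matrix.mul_one]
    _ = Jm n := by rw [h2, Matrix.one_mul]

lemma col_zero {A : Mat n ℝ} (h : Aᵀ * Jm n * A = Jm n) :
    1 + ∑ l : Fin n, A l.succ 0 ^ 2 = A 0 0 ^ 2 := by
  have := congrFun (congrFun h 0) 0
  rw [form_entry] at this
  simp only [dg, diagonal_apply_eq, if_true] at this
  simp only [pow_two]
  linarith

lemma col_succ {A : Mat n ℝ} (h : Aᵀ * Jm n * A = Jm n) (j : Fin n) :
    ∑ l : Fin n, A l.succ j.succ ^ 2 = 1 + A 0 j.succ ^ 2 := by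
  have := congrFun (congrFun h j.succ) j.succ
  rw [form_entry] at this
  simp only [dg, diagonal_apply_eq, Fin.succ_ne_zero, if_false] at this
  simp only [pow_two]
  linarith

lemma one_le_abs {A : Mat n ℝ} (h : Aᵀ * Jm n * A = Jm n) : 1 ≤ |A 0 0| := by
  have h1 := col_zero h
  have h2 : 0 ≤ ∑ l : Fin n, A l.succ 0 ^ 2 := Finset.sum_nonneg fun _ _ => sq_nonneg _
  rw [← sq_le_sq₀ zero_le_one (abs_nonneg _), sq_abs]
  linarith

lemma ent_le {A : Mat n ℝ} (h : Aᵀ * Jm n * A = Jm n) (i j : Fin (n + 1)) :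
    |A i j| ≤ |A 0 0| := by
  have c0 := col_zero h
  have r0 := col_zero (unit_tr h)
  simp only [transpose_apply] at r0
  have s1 : ∀ i : Fin n, A i.succ 0 ^ 2 ≤ ∑ l : Fin n, A l.succ 0 ^ 2 := fun i =>
    Finset.single_le_sum (f := fun l : Fin n => A l.succ 0 ^ 2) (fun _ _ => sq_nonneg _)
      (Finset.mem_univ i)
  have s2 : ∀ j : Fin n, A 0 j.succ ^ 2 ≤ ∑ l : Fin n, A 0 l.succ ^ 2 := fun j =>
    Finset.single_le_sum (f := fun l : Fin n => A 0 l.succ ^ 2) (fun _ _ => sq_nonneg _)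
      (Finset.mem_univ j)
  rw [← sq_le_sq₀ (abs_nonneg _) (abs_nonneg _), sq_abs, sq_abs]
  induction i using Fin.cases with
  | zero =>
    induction j using Fin.cases with
    | zero => exact le_rfl
    | succ j => linarith [s2 j]
  | succ i =>
    induction j using Fin.cases with
    | zero => linarith [s1 i]
    | succ j =>
      have s3 : A i.succ j.succ ^ 2 ≤ ∑ l : Fin n, A l.succ j.succ ^ 2 :=
        Finset.single_le_sum (f := fun l : Fin n => A l.succ j.succ ^ 2) (fun _ _ => sq_nonneg _)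
          (Finset.mem_univ i)
      linarith [s2 j, col_succ h j]

lemma abs_det {A : Mat n ℝ} (h : Aᵀ * Jm n * A = Jm n) : |A.det| = 1 := by
  have := congrArg Matrix.det h
  rw [det_mul, det_mul, det_transpose, dg_det] at this
  have h2 : A.det ^ 2 = 1 := by linarith
  rw [← sq_eq_sq₀ (abs_nonneg _) zero_le_one, sq_abs, h2, one_pow]

lemma orth_le {A : Mat n ℝ} (h : Aᵀ * A = 1) (i j : Fin (n + 1)) : |A i j| ≤ 1 := by
  have := congrFun (congrFun h j) j
  simp only [Matrix.mul_apply, transpose_apply, one_apply_eq] at this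
  have s : A i j * A i j ≤ ∑ l, A l j * A l j :=
    Finset.single_le_sum (f := fun l => A l j * A l j) (fun _ _ => mul_self_nonneg _)
      (Finset.mem_univ i)
  rw [← sq_le_sq₀ (abs_nonneg _) zero_le_one, sq_abs]
  nlinarith

lemma orth_of_fix {A : Mat n ℝ} (h : Aᵀ * Jm n * A = Jm n) (h0 : |A 0 0| ≤ 1) : Aᵀ * A = 1 := by
  have r0 := col_zero (unit_tr h)
  simp only [transpose_apply] at r0
  have h1 : A 0 0 ^ 2 = 1 := by
    rw [← sq_abs, le_antisymm h0 (one_le_abs h), one_pow]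
  have h2 : ∀ j : Fin n, A 0 j.succ = 0 := by
    intro j
    have s : A 0 j.succ ^ 2 ≤ ∑ l : Fin n, A 0 l.succ ^ 2 :=
      Finset.single_le_sum (f := fun l : Fin n => A 0 l.succ ^ 2) (fun _ _ => sq_nonneg _)
        (Finset.mem_univ j)
    nlinarith [sq_nonneg (A 0 j.succ)]
  ext i j
  have e := congrFun (congrFun h i) j
  have e2 := form_entry 1 A A i j
  rw [form_entry] at e
  rw [dg_one, Matrix.mul_one] at e2
  rw [e2]
  have e3 : (1 : Mat n ℝ) i j = Jm n i j + 2 * (A 0 i * A 0 j) := by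
    induction i using Fin.cases with
    | zero =>
      induction j using Fin.cases with
      | zero => simp [dg]; nlinarith
      | succ j => simp [dg, h2, (Fin.succ_ne_zero j).symm]
    | succ i => simp [dg, h2, one_apply, diagonal_apply]
  linarith

lemma dot_orth {O : Mat n ℝ} (h : Oᵀ * O = 1) (v w : Fin (n + 1) → ℝ) :
    (O *ᵥ v) ⬝ᵥ (O *ᵥ w) = v ⬝ᵥ w := by
  rw [dotProduct_mulVec, ← mulVec_transpose, mulVec_mulVec, h, one_mulVec]

lemma dot_nonneg (v : Fin (n + 1) → ℝ) : 0 ≤ v ⬝ᵥ v :=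
  Finset.sum_nonneg fun _ _ => mul_self_nonneg _

lemma contr {O : Mat n ℝ} (h : Oᵀ * O = 1) {v u : Fin (n + 1) → ℝ}
    (hu : O *ᵥ v = v + (4 : ℝ) • u) : u ⬝ᵥ u ≤ (v ⬝ᵥ v) / 4 := by
  have h1 := dot_orth h v v
  have h2 := dot_nonneg (v + (2 : ℝ) • u)
  rw [hu] at h1
  simp only [add_dotProduct, dotProduct_add, smul_dotProduct, dotProduct_smul, smul_eq_mul,
    dotProduct_comm u v] at h1 h2
  linarith

lemma nilp {O : Mat n ℝ} (h : Oᵀ * O = 1) {v u : Fin (n + 1) → ℝ}
    (hu : O *ᵥ v = v + (4 : ℝ) • u) (h0 : O *ᵥ u = u) : u = 0 := by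
  have h1 := dot_orth h u v
  rw [hu, h0] at h1
  simp only [dotProduct_add, dotProduct_smul, smul_eq_mul] at h1
  exact dotProduct_self_eq_zero.1 (by linarith)

lemma abs_form_le (v : Fin (n + 1) → ℝ) : |v ⬝ᵥ Jm n *ᵥ v| ≤ v ⬝ᵥ v := by
  have e := form_vec 1 v v
  rw [dg_one, one_mulVec] at e
  rw [form_vec, e]
  have : 0 ≤ ∑ l : Fin n, v l.succ * v l.succ := Finset.sum_nonneg fun _ _ => mul_self_nonneg _
  have := mul_self_nonneg (v 0)
  rw [abs_le]
  constructor <;> linarith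

lemma dot_le {v : Fin (n + 1) → ℝ} {c : ℝ} (h : ∀ i, |v i| ≤ c) : v ⬝ᵥ v ≤ (n + 1) * c ^ 2 := by
  refine (Finset.sum_le_card_nsmul _ _ (c ^ 2) fun i _ => ?_).trans (by simp)
  rw [← pow_two, ← sq_abs]
  exact pow_le_pow_left₀ (abs_nonneg _) (h i) 2

lemma mink {p q : ℝ} (hpq : p ≠ q) (ε : ℝ) (hε : 0 < ε) : ∃ η : ℝ, 0 < η ∧ ∀ g : Mat n ℝ,
    g.det ≠ 0 → |g.det| ≤ η → ∃ a b : Fin (n + 1) → ℤ, ¬ (a = 0 ∧ b = 0) ∧
      (∀ i, |(g *ᵥ fun j => (a j : ℝ) + b j * p) i| ≤ ε) ∧ ∀ i, |(a i : ℝ) + b i * q| ≤ ε := by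
  classical
  let B := Pi.basisFun ℝ (Fin (n + 1) ⊕ Fin (n + 1))
  let μ : Measure (Fin (n + 1) ⊕ Fin (n + 1) → ℝ) := Measure.addHaar
  have hF : μ (ZSpan.fundamentalDomain B) < ⊤ :=
    (ZSpan.fundamentalDomain_isBounded B).measure_lt_top
  set K := μ (ZSpan.fundamentalDomain B) *
    2 ^ Module.finrank ℝ (Fin (n + 1) ⊕ Fin (n + 1) → ℝ) with hK
  have hK' : K ≠ ⊤ := ENNReal.mul_ne_top hF.ne (ENNReal.pow_ne_top (by simp))
  set c := μ (Metric.closedBall 0 ε) with hc
  have hc0 : c ≠ 0 := (Metric.measure_closedBall_pos μ 0 hε).ne'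
  have hc1 : c ≠ ⊤ := measure_closedBall_lt_top.ne
  have hc2 : 0 < c.toReal := ENNReal.toReal_pos hc0 hc1
  have hk : 0 ≤ K.toReal := ENNReal.toReal_nonneg
  have hd : 0 < |(q - p) ^ (n + 1)| := abs_pos.2 (pow_ne_zero _ (sub_ne_zero.2 hpq.symm))
  set d := |(q - p) ^ (n + 1)| with hd'
  refine ⟨c.toReal / ((K.toReal + 1) * d), by positivity, fun g hg0 hg => ?_⟩
  let G : Matrix (Fin (n + 1) ⊕ Fin (n + 1)) (Fin (n + 1) ⊕ Fin (n + 1)) ℝ :=
    fromBlocks g 0 0 1 * fromBlocks 1 (p • 1) 1 (q • 1)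
  have hGd : G.det = g.det * (q - p) ^ (n + 1) := by
    rw [det_mul, det_fromBlocks_zero₂₁, det_fromBlocks_one₁₁, Matrix.one_mul, ← sub_smul,
      det_smul]
    simp
  let T := Matrix.toLin' G
  have hT : LinearMap.det T = g.det * (q - p) ^ (n + 1) := by rw [LinearMap.det_toLin', hGd]
  have hn : 0 < |g.det| := abs_pos.2 hg0
  have hlt : K < μ (T ⁻¹' Metric.closedBall 0 ε) := by
    rw [Measure.addHaar_preimage_linearMap μ
        (by rw [hT]; exact mul_ne_zero hg0 (abs_pos.1 hd)), hT, ← hc,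
      ← ENNReal.ofReal_toReal hc1, ← ENNReal.ofReal_mul (abs_nonneg _),
      ← ENNReal.ofReal_toReal hK', abs_inv, abs_mul, ← hd',
      ENNReal.ofReal_lt_ofReal_iff (by positivity), inv_mul_eq_div, lt_div_iff₀ (by positivity)]
    have h2 : |g.det| * ((K.toReal + 1) * d) ≤ c.toReal := (le_div_iff₀ (by positivity)).1 hg
    nlinarith [mul_pos hn hd]
  have : Countable (Submodule.span ℤ (Set.range B)).toAddSubgroup :=
    inferInstanceAs (Countable (Submodule.span ℤ (Set.range B)))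
  obtain ⟨v, hv0, hv⟩ := exists_ne_zero_mem_lattice_of_measure_mul_two_pow_lt_measure
    (ZSpan.isAddFundamentalDomain' B μ) (s := T ⁻¹' Metric.closedBall 0 ε)
    (fun x hx => by simpa using hx) ((convex_closedBall 0 ε).linear_preimage T) hlt
  have hv' : ∀ i, |(G *ᵥ (v : Fin (n + 1) ⊕ Fin (n + 1) → ℝ)) i| ≤ ε := by
    intro i
    have h1 : ‖T v‖ ≤ ε := by simpa using hv
    exact (norm_le_pi_norm (T v) i).trans h1
  have hm := (B.mem_span_iff_repr_mem ℤ (v : Fin (n + 1) ⊕ Fin (n + 1) → ℝ)).1 v.2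
  choose z hz using hm
  have hz' : (v : Fin (n + 1) ⊕ Fin (n + 1) → ℝ) =
      Sum.elim (fun i => (z (Sum.inl i) : ℝ)) fun i => (z (Sum.inr i) : ℝ) := by
    ext i
    have := hz i
    simp only [B, Pi.basisFun_repr, algebraMap_int_eq, eq_intCast] at this
    rcases i with i | i <;> simp [← this]
  rw [hz', ← mulVec_mulVec, fromBlocks_mulVec, fromBlocks_mulVec] at hv'
  refine ⟨fun i => z (Sum.inl i), fun i => z (Sum.inr i), fun h => hv0 (Subtype.ext ?_),
    fun i => ?_, fun i => ?_⟩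
  · rw [hz']
    ext i
    rcases i with i | i
    · simpa using congrFun h.1 i
    · simpa using congrFun h.2 i
  · have := hv' (Sum.inl i)
    simp only [Sum.elim_inl, zero_mulVec, add_zero, Sum.elim_comp_inl, Sum.elim_comp_inr,
      one_mulVec, smul_mulVec] at this
    have e : (fun j => ((z (Sum.inl j) : ℤ) : ℝ) + z (Sum.inr j) * p) =
        (fun i => (z (Sum.inl i) : ℝ)) + p • fun i => (z (Sum.inr i) : ℝ) := by
      ext j
      simp [mul_comm]
    rw [e]
    exact this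
  · have := hv' (Sum.inr i)
    simp only [Sum.elim_inr, zero_mulVec, zero_add, Sum.elim_comp_inl, Sum.elim_comp_inr,
      one_mulVec, smul_mulVec] at this
    simpa [mul_comm] using this

lemma many {p q : ℝ} (hpq : p ≠ q) (ε : ℝ) (hε : 0 < ε) : ∃ L : ℝ, ∀ g : Mat n ℝ,
    g.det ≠ 0 → |g.det| ≤ 2 →
      (∀ a b : Fin (n + 1) → ℤ, (∀ i, |(a i : ℝ) + b i * q| ≤ ε) →
        (∀ i, |(g *ᵥ fun j => (a j : ℝ) + b j * p) i| ≤ (n + 1) * ε) → a = 0 ∧ b = 0) →
      ∃ a b : Mat n ℤ, (Matrix.of fun i j => (a i j : ℝ) + b i j * p).det ≠ 0 ∧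
        (∀ i j, |(g * Matrix.of fun i j => (a i j : ℝ) + b i j * p) i j| ≤ L) ∧
        ∀ i j, |(a i j : ℝ) + b i j * q| ≤ ε := by
  classical
  obtain ⟨η, hη, hm⟩ := mink (n := n) hpq ε hε
  refine ⟨2 * ε / η + (n + 1) * ε, fun g hg0 hg hs => ?_⟩
  let S : Set (Fin (n + 1) → ℝ) := {u | (∀ i, |u i| ≤ 2 * ε / η + (n + 1) * ε) ∧
    ∃ a b : Fin (n + 1) → ℤ, (∀ i, |(a i : ℝ) + b i * q| ≤ ε) ∧
      u = g *ᵥ fun j => (a j : ℝ) + b j * p}
  have hS : Submodule.span ℝ S = ⊤ := by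
    by_contra hne
    obtain ⟨f, hf0, hf⟩ := Submodule.exists_le_ker_of_lt_top _ (lt_top_iff_ne_top.2 hne)
    let φ₀ : Fin (n + 1) → ℝ := fun i => f (Pi.single i 1)
    have hφ₀ : ∀ u, f u = φ₀ ⬝ᵥ u := by
      intro u
      conv_lhs => rw [pi_eq_sum_univ' u]
      simp [φ₀, dotProduct, mul_comm]
    obtain ⟨j, hj⟩ := Finite.exists_max fun i => |φ₀ i|
    have hj0 : φ₀ j ≠ 0 := by
      intro h0
      refine hf0 (LinearMap.ext fun u => ?_)
      have : φ₀ = 0 := funext fun i => abs_nonpos_iff.1 (by simpa [h0] using hj i)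
      rw [hφ₀, this]
      simp
    let φ : Fin (n + 1) → ℝ := (φ₀ j)⁻¹ • φ₀
    have hφj : φ j = 1 := by simp [φ, hj0]
    have hφ : ∀ i, |φ i| ≤ 1 := by
      intro i
      simp only [φ, Pi.smul_apply, smul_eq_mul, abs_mul, abs_inv]
      rw [inv_mul_le_iff₀ (abs_pos.2 hj0), mul_one]
      exact hj i
    let k : Mat n ℝ := updateRow 1 j ((η / 2) • φ)
    have hk : k.det = η / 2 := by
      have := det_updateRow_sum (1 : Mat n ℝ) j ((η / 2) • φ)
      have e : (∑ l, ((η / 2) • φ) l • (1 : Mat n ℝ) l) = (η / 2) • φ := by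
        ext i
        simp [Finset.sum_apply, one_apply]
      rw [e] at this
      rw [this]
      simp [hφj]
    have hη2 : |η / 2| = η / 2 := abs_of_pos (by positivity)
    obtain ⟨a, b, hv0, hv1, hv2⟩ := hm (k * g)
      (by
        rw [det_mul, hk]
        exact mul_ne_zero (by positivity) hg0)
      (by rw [det_mul, hk, abs_mul, hη2]; nlinarith)
    set u := g *ᵥ fun j => (a j : ℝ) + b j * p with hu
    rw [← mulVec_mulVec, ← hu] at hv1
    have h1 : ∀ i, i ≠ j → |u i| ≤ ε := by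
      intro i hi
      have := hv1 i
      simpa [k, mulVec, updateRow_ne hi, dotProduct, one_apply] using this
    have h2 : |φ ⬝ᵥ u| ≤ 2 * ε / η := by
      have := hv1 j
      simp only [k, mulVec, updateRow_self, smul_dotProduct, smul_eq_mul, abs_mul,
        hη2] at this
      rw [le_div_iff₀ hη]
      linarith
    have hn : (0 : ℝ) ≤ n * ε := by positivity
    have h3 : |u j| ≤ |φ ⬝ᵥ u| + (n + 1) * ε := by
      have e : u j = φ ⬝ᵥ u - ∑ i ∈ Finset.univ.erase j, φ i * u i := by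
        rw [dotProduct, ← Finset.add_sum_erase _ _ (Finset.mem_univ j), hφj]
        ring
      have e2 : |∑ i ∈ Finset.univ.erase j, φ i * u i| ≤ n * ε := by
        refine (Finset.abs_sum_le_sum_abs _ _).trans ?_
        refine (Finset.sum_le_card_nsmul _ _ ε fun i hi => ?_).trans ?_
        · rw [abs_mul]
          have := mul_le_mul (hφ i) (h1 i (Finset.ne_of_mem_erase hi)) (abs_nonneg _) zero_le_one
          linarith
        · rw [Finset.card_erase_of_mem (Finset.mem_univ j)]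
          simp
      rw [e]
      exact (abs_sub _ _).trans (by linarith)
    have hp : 0 < 2 * ε / η := by positivity
    have huS : u ∈ S := by
      refine ⟨fun i => ?_, a, b, hv2, rfl⟩
      by_cases hi : i = j
      · rw [hi]; linarith
      · linarith [h1 i hi]
    have h4 : φ ⬝ᵥ u = 0 := by
      have : f u = 0 := hf (Submodule.subset_span huS)
      rw [hφ₀] at this
      simp [φ, this]
    rw [h4, abs_zero] at h3
    refine hv0 (hs a b hv2 fun i => ?_)
    rw [← hu]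
    by_cases hi : i = j
    · rw [hi]; linarith
    · linarith [h1 i hi]
  have h3 : Module.finrank ℝ (Submodule.span ℝ S) = n + 1 := by rw [hS]; simp
  obtain ⟨u, huS, hli⟩ : ∃ u : Fin (n + 1) → Fin (n + 1) → ℝ,
      (∀ i, u i ∈ S) ∧ LinearIndependent ℝ u := by
    obtain ⟨f, hf1, -, hf2⟩ := Submodule.exists_fun_fin_finrank_span_eq ℝ S
    exact ⟨f ∘ Fin.cast h3.symm, fun i => hf1 _, hf2.comp _ (Fin.cast_injective _)⟩
  choose hu1 a b hv2 hv using huS
  let V : Mat n ℝ := Matrix.of fun i j => (a j i : ℝ) + b j i * p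
  have e : ∀ i j, (g * V) i j = u j i := by
    intro i j
    rw [hv j]
    rfl
  refine ⟨Matrix.of fun i j => a j i, Matrix.of fun i j => b j i, fun h0 => ?_,
    fun i j => (e i j).symm ▸ hu1 j i, fun i j => hv2 j i⟩
  have h4 : IsUnit (g * V) := by
    rw [← linearIndependent_cols_iff_isUnit]
    have : (g * V).col = u := by
      ext j i
      exact e i j
    rw [this]
    exact hli
  have h5 : V.det = 0 := h0
  rw [isUnit_iff_isUnit_det, det_mul, h5, mul_zero] at h4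
  exact not_isUnit_zero h4

end Pool.Agent.MP_39b1da_gt.Lat
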