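import Pool.Agent.MP_39b1da_gt.Lat1

/-! The congruence subgroup of level four of the orthogonal group of the golden form. -/

set_option autoImplicit false

open Set Matrix Real

namespace Pool.Agent.MP_39b1da_gt.Lat

variable {n : ℕ}

/-- The golden integers. -/
abbrev Rg : Type := QuadraticAlgebra ℤ 1 1

/-- The embedding that sends the generator to a root `p` of `x² = x + 1`. -/
def emb (p : ℝ) (hp : p ^ 2 = p + 1) : Rg →+* ℝ where
  toFun z := z.re + z.im * p
  map_one' := by simp [QuadraticAlgebra.re_one, QuadraticAlgebra.im_one]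
  map_zero' := by simp
  map_add' z w := by simp; ring
  map_mul' z w := by
    simp only [QuadraticAlgebra.re_mul, QuadraticAlgebra.im_mul]
    push_cast
    linear_combination (-(z.im * w.im : ℝ)) * hp

/-- The first embedding. -/
noncomputable def sg : Rg →+* ℝ := emb goldenRatio goldenRatio_sq

/-- The second embedding. -/
noncomputable def ta : Rg →+* ℝ := emb goldenConj goldenConj_sq

lemma sg_apply (z : Rg) : sg z = z.re + z.im * goldenRatio := rfl

lemma ta_apply (z : Rg) : ta z = z.re + z.im * goldenConj := rfl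

/-- The generator. -/
def om : Rg := ⟨0, 1⟩

lemma sg_om : sg om = goldenRatio := by simp [sg_apply, om]

lemma ta_om : ta om = goldenConj := by simp [ta_apply, om]

lemma emb_zero {p : ℝ} (hp : Irrational p) {a b : ℤ} (h : (a : ℝ) + b * p = 0) :
    a = 0 ∧ b = 0 := by
  by_cases hb : b = 0
  · subst hb
    simpa using h
  · exfalso
    have := (hp.intCast_mul hb).intCast_add a
    rw [h] at this
    exact this ⟨0, by simp⟩

lemma sg_zero {z : Rg} (h : sg z = 0) : z = 0 := by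
  obtain ⟨h1, h2⟩ := emb_zero goldenRatio_irrational h
  ext <;> simp [h1, h2]

lemma ta_zero {z : Rg} (h : ta z = 0) : z = 0 := by
  obtain ⟨h1, h2⟩ := emb_zero goldenConj_irrational h
  ext <;> simp [h1, h2]

lemma sg_inj : Function.Injective sg := (injective_iff_map_eq_zero _).2 fun _ => sg_zero

lemma ta_inj : Function.Injective ta := (injective_iff_map_eq_zero _).2 fun _ => ta_zero

instance : IsDomain Rg := ta_inj.isDomain ta

lemma norm_ge {z : Rg} (h : z ≠ 0) : 1 ≤ |sg z| * |ta z| := by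
  have e : sg z * ta z = ((z.re ^ 2 + z.re * z.im - z.im ^ 2 : ℤ) : ℝ) := by
    rw [sg_apply, ta_apply]
    push_cast
    linear_combination (z.re * z.im : ℝ) * goldenRatio_add_goldenConj +
      (z.im ^ 2 : ℝ) * goldenRatio_mul_goldenConj
  have h0 : sg z * ta z ≠ 0 := mul_ne_zero (fun h1 => h (sg_zero h1)) fun h1 => h (ta_zero h1)
  rw [← abs_mul, e]
  rw [e] at h0
  exact_mod_cast Int.one_le_abs (by exact_mod_cast h0)

lemma small {z : Rg} (h1 : |sg z| < 1) (h2 : |ta z| < 1) : z = 0 := by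
  by_contra h0
  have := norm_ge h0
  nlinarith [abs_nonneg (sg z), abs_nonneg (ta z)]

lemma fin_elt (C : ℝ) : {z : Rg | |sg z| ≤ C ∧ |ta z| ≤ C}.Finite := by
  have hI := Set.finite_Icc (-⌈2 * C⌉) ⌈2 * C⌉
  refine ((hI.prod hI).image fun p : ℤ × ℤ => (⟨p.1, p.2⟩ : Rg)).subset ?_
  rintro z ⟨h1, h2⟩
  refine ⟨(z.re, z.im), ?_, rfl⟩
  rw [sg_apply, abs_le] at h1
  rw [ta_apply, abs_le] at h2
  have h4 := Int.le_ceil (2 * C)
  have a1 := one_lt_goldenRatio
  have a2 := goldenConj_neg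
  have a3 := neg_one_lt_goldenConj
  have hb : |(z.im : ℝ)| ≤ C := by
    have e1 : |(z.im : ℝ) * (goldenRatio - goldenConj)| ≤ 2 * C :=
      abs_le.2 ⟨by linarith, by linarith⟩
    have e2 : 2 ≤ goldenRatio - goldenConj := by
      rw [goldenRatio_sub_goldenConj]
      exact Real.le_sqrt_of_sq_le (by norm_num)
    rw [abs_mul, abs_of_pos (by linarith : 0 < goldenRatio - goldenConj)] at e1
    nlinarith [abs_nonneg (z.im : ℝ)]
  have hc : |(z.im : ℝ) * goldenConj| ≤ C := by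
    rw [abs_mul, abs_of_neg a2]
    nlinarith [abs_nonneg (z.im : ℝ)]
  rw [abs_le] at hb hc
  refine ⟨⟨?_, ?_⟩, ?_, ?_⟩ <;> rw [← Int.cast_le (R := ℝ)] <;> push_cast <;> linarith

lemma fin_mat (C : ℝ) : {g : Mat n Rg | ∀ i j, |sg (g i j)| ≤ C ∧ |ta (g i j)| ≤ C}.Finite :=
  Set.Finite.pi' (t := fun _ : Fin (n + 1) =>
    {v : Fin (n + 1) → Rg | ∀ j, |sg (v j)| ≤ C ∧ |ta (v j)| ≤ C})
    fun _ => Set.Finite.pi' fun _ => fin_elt C

/-- The form over the ring. -/
abbrev JR (n : ℕ) : Mat n Rg := dg n (-om)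

/-- The first scale. -/
noncomputable def rs : ℝ := √goldenRatio

/-- The second scale. -/
noncomputable def rt : ℝ := √(-goldenConj)

lemma rs_sq : rs * rs = goldenRatio := Real.mul_self_sqrt goldenRatio_pos.le

lemma rt_sq : rt * rt = -goldenConj := Real.mul_self_sqrt (by linarith [goldenConj_neg])

lemma rs_ge : 1 ≤ rs := Real.one_le_sqrt.2 one_lt_goldenRatio.le

lemma rs_le : rs ≤ 2 := Real.sqrt_le_iff.2 ⟨by norm_num, by linarith [goldenRatio_lt_two]⟩

lemma rt_le : rt ≤ 1 := Real.sqrt_le_one.2 (by linarith [neg_one_lt_goldenConj])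

lemma rt_ge : 1 / 2 ≤ rt :=
  Real.le_sqrt_of_sq_le (by
    have := goldenRatio_add_goldenConj
    have := goldenRatio_sq
    nlinarith [one_lt_goldenRatio])

lemma rs0 : rs ≠ 0 := by linarith [rs_ge]

lemma rt0 : rt ≠ 0 := by linarith [rt_ge]

lemma dg_inv {r : ℝ} (hr : r ≠ 0) : dg n r * dg n r⁻¹ = 1 := by
  rw [dg_mul, mul_inv_cancel₀ hr, dg_one]

lemma dg_inv' {r : ℝ} (hr : r ≠ 0) : dg n r⁻¹ * dg n r = 1 := by
  rw [dg_mul, inv_mul_cancel₀ hr, dg_one]

/-- The conjugated embedding of matrices. -/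
noncomputable def cj (f : Rg →+* ℝ) {r : ℝ} (hr : r ≠ 0) : Mat n Rg →* Mat n ℝ where
  toFun g := dg n r * g.map f * dg n r⁻¹
  map_one' := by rw [Matrix.map_one _ (map_zero f) (map_one f), Matrix.mul_one, dg_inv hr]
  map_mul' a b := by
    rw [Matrix.map_mul]
    simp only [Matrix.mul_assoc]
    rw [← Matrix.mul_assoc (dg n r⁻¹) (dg n r), dg_inv' hr, Matrix.one_mul]

lemma cj_apply (f : Rg →+* ℝ) {r : ℝ} (hr : r ≠ 0) (g : Mat n Rg) :
    cj f hr g = dg n r * g.map f * dg n r⁻¹ := rfl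

lemma cj_mul_D (f : Rg →+* ℝ) {r : ℝ} (hr : r ≠ 0) (g V : Mat n Rg) :
    cj f hr g * (dg n r * V.map f) = dg n r * (g * V).map f := by
  rw [cj_apply, Matrix.map_mul]
  simp only [Matrix.mul_assoc]
  rw [← Matrix.mul_assoc (dg n r⁻¹) (dg n r), dg_inv' hr, Matrix.one_mul]

lemma cj_vec (f : Rg →+* ℝ) {r : ℝ} (hr : r ≠ 0) (g : Mat n Rg) (x : Fin (n + 1) → Rg) :
    cj f hr g *ᵥ (dg n r *ᵥ (f ∘ x)) = dg n r *ᵥ (f ∘ (g *ᵥ x)) := by
  rw [cj_apply, mulVec_mulVec, Matrix.mul_assoc, dg_inv' hr, Matrix.mul_one, ← mulVec_mulVec]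
  congr 1
  ext i
  simp [mulVec, dotProduct]

lemma cj_inj {f : Rg →+* ℝ} (hf : Function.Injective f) {r : ℝ} (hr : r ≠ 0) :
    Function.Injective (cj (n := n) f hr) := by
  intro a b h
  have e := congrArg (fun M => dg n r⁻¹ * M * dg n r) h
  simp only [cj_apply, Matrix.mul_assoc, dg_inv' hr, Matrix.mul_one] at e
  simp only [← Matrix.mul_assoc, dg_inv' hr, Matrix.one_mul] at e
  exact Matrix.map_injective hf e

lemma gram_sg (V : Mat n Rg) :
    (Vᵀ * JR n * V).map sg = (dg n rs * V.map sg)ᵀ * Jm n * (dg n rs * V.map sg) := by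
  have e : (dg n rs)ᵀ * Jm n * dg n rs = (JR n).map sg := by
    rw [dg_tr, dg_mul, dg_mul, dg_map, map_neg, sg_om, ← rs_sq]
    congr 1
    ring
  rw [Matrix.map_mul, Matrix.map_mul, transpose_map, ← e, transpose_mul]
  simp only [Matrix.mul_assoc]

lemma gram_ta (V : Mat n Rg) :
    (Vᵀ * JR n * V).map ta = (dg n rt * V.map ta)ᵀ * (dg n rt * V.map ta) := by
  have e : (dg n rt)ᵀ * dg n rt = (JR n).map ta := by
    rw [dg_tr, dg_mul, dg_map, map_neg, ta_om, ← rt_sq]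
  rw [Matrix.map_mul, Matrix.map_mul, transpose_map, ← e, transpose_mul]
  simp only [Matrix.mul_assoc]

lemma JR_sg : (JR n).map sg = (dg n rs)ᵀ * Jm n * dg n rs := by
  have e2 := gram_sg (1 : Mat n Rg)
  rwa [transpose_one, Matrix.one_mul, Matrix.mul_one,
    Matrix.map_one _ (map_zero sg) (map_one sg), Matrix.mul_one] at e2

lemma unit_sg {g : Mat n Rg} (hg : gᵀ * JR n * g = JR n) :
    (cj sg rs0 g)ᵀ * Jm n * cj sg rs0 g = Jm n := by
  have e1 := gram_sg g
  rw [hg, JR_sg] at e1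
  calc (cj sg rs0 g)ᵀ * Jm n * cj sg rs0 g
      = (dg n rs⁻¹)ᵀ * ((dg n rs * g.map sg)ᵀ * Jm n * (dg n rs * g.map sg)) * dg n rs⁻¹ := by
        simp only [cj_apply, transpose_mul, Matrix.mul_assoc]
    _ = (dg n rs * dg n rs⁻¹)ᵀ * Jm n * (dg n rs * dg n rs⁻¹) := by
        rw [← e1]; simp only [transpose_mul, Matrix.mul_assoc]
    _ = Jm n := by rw [dg_inv rs0]; simp

lemma of_unit_sg {g : Mat n Rg} (hg : (cj sg rs0 g)ᵀ * Jm n * cj sg rs0 g = Jm n) :
    gᵀ * JR n * g = JR n := by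
  refine Matrix.map_injective sg_inj ?_
  have e := cj_mul_D sg rs0 g 1
  rw [Matrix.map_one _ (map_zero sg) (map_one sg), Matrix.mul_one, Matrix.mul_one] at e
  change (gᵀ * JR n * g).map sg = (JR n).map sg
  rw [gram_sg, JR_sg, ← e]
  conv_rhs => rw [← hg]
  simp only [transpose_mul, Matrix.mul_assoc]

lemma unit_ta {g : Mat n Rg} (hg : gᵀ * JR n * g = JR n) :
    (cj ta rt0 g)ᵀ * cj ta rt0 g = 1 := by
  have e1 := gram_ta g
  have e2 := gram_ta (1 : Mat n Rg)
  rw [transpose_one, Matrix.one_mul, Matrix.mul_one,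
    Matrix.map_one _ (map_zero ta) (map_one ta), Matrix.mul_one] at e2
  rw [hg, e2] at e1
  calc (cj ta rt0 g)ᵀ * cj ta rt0 g
      = (dg n rt⁻¹)ᵀ * ((dg n rt * g.map ta)ᵀ * (dg n rt * g.map ta)) * dg n rt⁻¹ := by
        simp only [cj_apply, transpose_mul, Matrix.mul_assoc]
    _ = (dg n rt * dg n rt⁻¹)ᵀ * (dg n rt * dg n rt⁻¹) := by
        rw [← e1]; simp only [transpose_mul, Matrix.mul_assoc]
    _ = 1 := by rw [dg_inv rt0]; simp

lemma entry_le (f : Rg →+* ℝ) {r : ℝ} (hr : r ≠ 0) (r1 : 1 / 2 ≤ r) (r2 : r ≤ 2) {g : Mat n Rg}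
    {C : ℝ} (hC : ∀ i j, |cj f hr g i j| ≤ C) (i j : Fin (n + 1)) : |f (g i j)| ≤ 4 * C := by
  have e : g.map f = dg n r⁻¹ * cj f hr g * dg n r := by
    rw [cj_apply]
    simp only [Matrix.mul_assoc]
    rw [dg_inv' hr, Matrix.mul_one, ← Matrix.mul_assoc, dg_inv' hr, Matrix.one_mul]
  have e2 := congrFun (congrFun e i) j
  rw [map_apply, dg, dg, mul_diagonal, diagonal_mul] at e2
  have h1 : |if i = 0 then r⁻¹ else 1| ≤ 2 := by
    split_ifs
    · rw [abs_of_pos (by positivity), inv_le_comm₀ (by linarith) two_pos]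
      linarith
    · simp
  have h2 : |if j = 0 then r else 1| ≤ 2 := by
    split_ifs
    · rw [abs_of_pos (by linarith)]
      exact r2
    · simp
  have hC0 : 0 ≤ C := (abs_nonneg _).trans (hC 0 0)
  rw [e2, abs_mul, abs_mul]
  calc _ ≤ (2 * C) * 2 := mul_le_mul (mul_le_mul h1 (hC i j) (abs_nonneg _) zero_le_two) h2
        (abs_nonneg _) (by linarith)
    _ = 4 * C := by ring

/-- The principal congruence subgroup of level four of the orthogonal group. -/
def Gs (n : ℕ) : Subgroup (Mat n Rg)ˣ where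
  carrier := {g | (g : Mat n Rg)ᵀ * JR n * g = JR n ∧
    ∃ x : Mat n Rg, (g : Mat n Rg) = 1 + (4 : Rg) • x}
  one_mem' := ⟨by simp, 0, by simp⟩
  mul_mem' := by
    rintro a b ⟨ha, x, hx⟩ ⟨hb, y, hy⟩
    refine ⟨?_, x + y + (4 : Rg) • (x * y), ?_⟩
    · calc _ = (b : Mat n Rg)ᵀ * ((a : Mat n Rg)ᵀ * JR n * a) * b := by
            simp only [Units.val_mul, transpose_mul, Matrix.mul_assoc]
        _ = JR n := by rw [ha, hb]
    · rw [Units.val_mul, hx, hy]
      simp only [Matrix.add_mul, Matrix.mul_add, Matrix.one_mul, Matrix.mul_one, Matrix.smul_mul,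
        Matrix.mul_smul, smul_add]
      abel
  inv_mem' := by
    rintro a ⟨ha, x, hx⟩
    refine ⟨?_, -(x * (a⁻¹ : (Mat n Rg)ˣ)), ?_⟩
    · calc _ = ((a⁻¹ : (Mat n Rg)ˣ) : Mat n Rg)ᵀ * ((a : Mat n Rg)ᵀ * JR n * a) *
              (a⁻¹ : (Mat n Rg)ˣ) := by rw [ha]
        _ = ((a * a⁻¹ : (Mat n Rg)ˣ) : Mat n Rg)ᵀ * JR n * (a * a⁻¹ : (Mat n Rg)ˣ) := by
            simp only [Units.val_mul, transpose_mul, Matrix.mul_assoc]
        _ = JR n := by simp
    · have e := a.mul_inv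
      rw [hx, Matrix.add_mul, Matrix.one_mul, Matrix.smul_mul] at e
      rw [smul_neg, ← e]
      abel

/-- The representation in O(n,1). -/
noncomputable def rho (n : ℕ) : Gs n →* Mat n ℝ :=
  (cj sg rs0).comp ((Units.coeHom _).comp (Gs n).subtype)

lemma rho_apply (a : Gs n) : rho n a = cj sg rs0 (a.1 : Mat n Rg) := rfl

lemma rho_unit (a : Gs n) : (rho n a)ᵀ * Jm n * rho n a = Jm n := unit_sg a.2.1

lemma rho_fin (C : ℝ) : {a | |rho n a 0 0| ≤ C}.Finite := by
  refine Set.Finite.of_injOn (f := fun a : Gs n => (a.1 : Mat n Rg)) ?_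
    (fun a _ b _ hab => Subtype.ext (Units.ext hab)) (fin_mat (4 * max C 1))
  intro a ha i j
  exact ⟨entry_le sg rs0 (by linarith [rs_ge]) rs_le
    (fun i j => ((ent_le (rho_unit a) i j).trans ha).trans (le_max_left _ _)) i j,
    entry_le ta rt0 rt_ge (by linarith [rt_le])
      (fun i j => (orth_le (unit_ta a.2.1) i j).trans (le_max_right _ _)) i j⟩

end Pool.Agent.MP_39b1da_gt.Lat
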