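import Pool.Agent.MP_39b1da_gt.Basic

set_option autoImplicit false

namespace Pool.Agent.MP_39b1da_gt

open Filter Topology Set Real
open scoped ENNReal NNReal ContDiff InnerProductSpace

open Manifold Bundle in
theorem isLen_of_riemannian (E : Type) [NormedAddCommGroup E] [NormedSpace ℝ E] (M : Type)
    [EMetricSpace M] [ChartedSpace E M] [RiemannianBundle (fun x : M => TangentSpace 𝓘(ℝ, E) x)]
    (h : IsRiemannianManifold 𝓘(ℝ, E) M) : IsLen M := by
  intro x y r hr
  rw [h.out] at hr
  obtain ⟨γ, h0, h1, hs, hl⟩ := exists_lt_of_riemannianEDist_lt hr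
  let a : Path x y :=
    ⟨⟨fun t => γ t, hs.continuousOn.comp_continuous continuous_subtype_val fun t => t.2⟩, h0, h1⟩
  refine ⟨a, lt_of_le_of_lt ?_ hl⟩
  unfold eVariationOn
  refine iSup_le ?_
  rintro ⟨n, u, hu, -⟩
  have key : ∀ n : ℕ, ∑ i ∈ Finset.range n, edist (γ (u (i + 1))) (γ (u i)) ≤
      pathELength 𝓘(ℝ, E) γ (u 0) (u n) := by
    intro n
    induction n with
    | zero => simp
    | succ n ih =>
      have a1 : ((u 0 : unitInterval) : ℝ) ≤ u n := hu (Nat.zero_le n)
      have a2 : ((u n : unitInterval) : ℝ) ≤ u (n + 1) := hu (Nat.le_succ n)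
      rw [Finset.sum_range_succ, ← pathELength_add a1 a2]
      refine add_le_add ih ?_
      rw [edist_comm, h.out]
      exact riemannianEDist_le_pathELength
        (hs.mono (Icc_subset_Icc (u n).2.1 (u (n + 1)).2.2)) rfl rfl a2
  exact (key n).trans (pathELength_mono (u 0).2.1 (u n).2.2)

/-- A symmetric form, linear in the first slot, as a continuous bilinear map. -/
theorem Pack.exists_bilin {E : Type} [NormedAddCommGroup E] [NormedSpace ℝ E]
    [FiniteDimensional ℝ E] (g : E → E → ℝ) (symm : ∀ u v, g u v = g v u)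
    (lin : ∀ v, IsLinearMap ℝ fun u => g u v) :
    ∃ B : E →L[ℝ] E →L[ℝ] ℝ, ∀ u v, B u v = g u v := by
  let b : E →ₗ[ℝ] E →ₗ[ℝ] ℝ := LinearMap.mk₂ ℝ g
    (fun u u' v => (lin v).map_add u u') (fun c u v => (lin v).map_smul c u)
    (fun u v v' => by rw [symm u, symm u, symm u]; exact (lin u).map_add v v')
    (fun c u v => by rw [symm u, symm u]; exact (lin u).map_smul c v)
  exact ⟨LinearMap.toContinuousLinearMap
    ((LinearMap.toContinuousLinearMap (𝕜 := ℝ) (E := E) (F' := ℝ)).toLinearMap ∘ₗ b),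
    fun u v => rfl⟩

/-- The unit ball of a positive definite form in finite dimension is bounded. -/
theorem Pack.bounded {E : Type} [NormedAddCommGroup E] [NormedSpace ℝ E]
    [FiniteDimensional ℝ E] (B : E →L[ℝ] E →L[ℝ] ℝ) (pos : ∀ u, u ≠ 0 → 0 < B u u) :
    Bornology.IsVonNBounded ℝ {v : E | B v v < 1} := by
  have : ProperSpace E := FiniteDimensional.proper_real E
  have hc : Continuous fun v : E => B v v := by fun_prop
  obtain ⟨c, hc0, hcl⟩ : ∃ c : ℝ, 0 < c ∧ ∀ v : E, c * ‖v‖ ^ 2 ≤ B v v := by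
    rcases (Metric.sphere (0 : E) 1).eq_empty_or_nonempty with he | hne
    · refine ⟨1, one_pos, fun v => ?_⟩
      by_cases hv : v = 0
      · simp [hv]
      · exfalso
        have : ‖v‖⁻¹ • v ∈ Metric.sphere (0 : E) 1 := by
          simp [norm_smul, hv]
        rw [he] at this
        exact this
    · obtain ⟨w, hw, hmin⟩ := (isCompact_sphere (0 : E) 1).exists_isMinOn hne hc.continuousOn
      have hw0 : w ≠ 0 := by
        rintro rfl
        simp at hw
      refine ⟨B w w, pos w hw0, fun v => ?_⟩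
      by_cases hv : v = 0
      · simp [hv]
      · have hn : 0 < ‖v‖ := norm_pos_iff.2 hv
        have h1 : ‖v‖⁻¹ • v ∈ Metric.sphere (0 : E) 1 := by
          simp [norm_smul, hv]
        have h2 : B w w ≤ B (‖v‖⁻¹ • v) (‖v‖⁻¹ • v) := hmin h1
        simp only [map_smul, smul_apply, smul_eq_mul] at h2
        calc B w w * ‖v‖ ^ 2 ≤ (‖v‖⁻¹ * (‖v‖⁻¹ * B v v)) * ‖v‖ ^ 2 := by gcongr
          _ = B v v := by field_simp
  refine (NormedSpace.isVonNBounded_ball ℝ E (1 + c⁻¹)).subset fun v hv => ?_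
  have h1 : c * ‖v‖ ^ 2 < 1 := (hcl v).trans_lt hv
  have h2 : ‖v‖ ^ 2 < c⁻¹ := by
    rw [← one_div, lt_div_iff₀ hc0]; linarith
  rw [Metric.mem_ball, dist_zero_right]
  nlinarith [sq_nonneg (‖v‖ - 1), inv_pos.2 hc0]

set_option backward.isDefEq.respectTransparency false in
open Manifold Bundle in
/-- An atlas with compatible negatively curved metric tensors. -/
theorem package {E M ι : Type} [NormedAddCommGroup E] [NormedSpace ℝ E] [FiniteDimensional ℝ E]
    [TopologicalSpace M] [T2Space M] [CompactSpace M] [ConnectedSpace M]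
    (e : ι → OpenPartialHomeomorph M E) (G : ι → E → E → E → ℝ)
    (cover : ∀ x, ∃ i, x ∈ (e i).source)
    (smooth : ∀ i u v, ContDiff ℝ ∞ fun x => G i x u v)
    (symm : ∀ i x u v, G i x u v = G i x v u)
    (lin : ∀ i x v, IsLinearMap ℝ fun u => G i x u v)
    (pos : ∀ i x u, u ≠ 0 → 0 < G i x u u)
    (trans : ∀ i j, ∀ x ∈ (e i).target, (e i).symm x ∈ (e j).source →
      ContDiffAt ℝ ∞ (e j ∘ (e i).symm) x ∧ ∀ u v, G j (e j ((e i).symm x))
        (fderiv ℝ (e j ∘ (e i).symm) x u) (fderiv ℝ (e j ∘ (e i).symm) x v) = G i x u v)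
    (neg : ∀ i, ∃ Γ, IsChristoffel univ (G i) Γ ∧
      ∀ x u v : E, LinearIndependent ℝ ![u, v] → G i x (curv Γ x u v v) u < 0) :
    ∃ (M' : Type) (_ : EMetricSpace M') (_ : ChartedSpace E M')
      (_ : RiemannianBundle (fun x : M' => TangentSpace 𝓘(ℝ, E) x)),
      IsClosedNegCurved E M' ∧ Nonempty (M' ≃ₜ M) := by
  choose ix hix using cover
  choose B hB using fun i x => Pack.exists_bilin (G i x) (symm i x) (lin i x)
  have hBs : ∀ i, ContDiff ℝ ∞ (B i) := by
    intro i
    rw [contDiff_clm_apply_iff]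
    intro u
    rw [contDiff_clm_apply_iff]
    intro v
    simpa only [hB] using smooth i u v
  let cs : ChartedSpace E M :=
    { atlas := range e
      chartAt := fun x => e (ix x)
      mem_chart_source := hix
      chart_mem_atlas := fun x => ⟨ix x, rfl⟩ }
  have hch : ∀ x : M, chartAt E x = e (ix x) := fun _ => rfl
  have im : IsManifold 𝓘(ℝ, E) ∞ M := by
    refine isManifold_of_contDiffOn _ _ _ ?_
    rintro _ _ ⟨i, rfl⟩ ⟨j, rfl⟩ x hx
    simp only [mfld_simps] at hx ⊢
    exact (trans i j x hx.1 hx.2).1.contDiffWithinAt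
  let g : ContMDiffRiemannianMetric 𝓘(ℝ, E) ∞ E (fun x : M => TangentSpace 𝓘(ℝ, E) x) :=
    { inner := fun x => (B (ix x) (e (ix x) x) : E →L[ℝ] E →L[ℝ] ℝ)
      symm := fun x v w => (hB _ _ v w).trans ((symm _ _ v w).trans (hB _ _ w v).symm)
      pos := fun x v hv => (pos _ _ v hv).trans_eq (hB _ _ v v).symm
      isVonNBounded := fun x => Pack.bounded (B (ix x) (e (ix x) x))
        fun v hv => (pos _ _ v hv).trans_eq (hB _ _ v v).symm
      contMDiff := by
        intro x₀
        rw [contMDiffAt_section]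
        have h1 : ContMDiffAt 𝓘(ℝ, E) 𝓘(ℝ, E →L[ℝ] E →L[ℝ] ℝ) ∞
            (fun x => B (ix x₀) (chartAt E x₀ x)) x₀ :=
          ((hBs (ix x₀)).contMDiff.contMDiffAt).comp x₀
            (contMDiffOn_chart.contMDiffAt (chart_source_mem_nhds E x₀))
        refine h1.congr_of_eventuallyEq ?_
        filter_upwards [chart_source_mem_nhds E x₀] with x hx
        ext v w
        rw [hom_trivializationAt_apply]
        dsimp only
        rw [inCoordinates_apply_eq₂ hx hx (mem_univ _)]
        have h2 : ∀ z : E, (trivializationAt E (TangentSpace 𝓘(ℝ, E)) x₀).symm x z =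
            fderiv ℝ (e (ix x) ∘ (e (ix x₀)).symm) (e (ix x₀) x) z := by
          intro z
          have h3 := TangentBundle.symmL_trivializationAt_eq_core (I := 𝓘(ℝ, E)) hx
          rw [tangentBundleCore_coordChange_achart] at h3
          have h4 := congrArg (fun L => L z) h3
          simp only [mfld_simps, fderivWithin_univ] at h4
          rw [Trivialization.symmL_apply _ hx] at h4
          exact h4
        have h5 := (trans (ix x₀) (ix x) (e (ix x₀) x) ((e (ix x₀)).map_source hx)
          (by rw [(e (ix x₀)).left_inv hx]; exact hix x)).2 v w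
        rw [(e (ix x₀)).left_inv hx] at h5
        rw [h2, h2]
        simp only [Trivial.fiberBundle_trivializationAt', Trivial.linearMapAt_trivialization,
          LinearMap.id_coe, id_eq]
        exact (hB _ _ _ _).trans (h5.trans (hB _ _ v w).symm) }
  let rb : RiemannianBundle (fun x : M => TangentSpace 𝓘(ℝ, E) x) := ⟨g.toRiemannianMetric⟩
  have hsm : IsContMDiffRiemannianBundle 𝓘(ℝ, E) ∞ E (fun x : M => TangentSpace 𝓘(ℝ, E) x) :=
    ⟨g.inner, g.contMDiff, fun _ _ _ => rfl⟩
  have hct : IsContinuousRiemannianBundle E (fun x : M => TangentSpace 𝓘(ℝ, E) x) :=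
    ⟨g.inner, g.contMDiff.continuous, fun _ _ _ => rfl⟩
  have hneg : NegCurved E M := by
    rintro _ ⟨k, rfl⟩
    have hcm : ∀ y ∈ (e k).target, ∀ u v, chartMetric (e k) y u v = G k y u v := by
      intro y hy u v
      have hd : MDifferentiableAt 𝓘(ℝ, E) 𝓘(ℝ, E) (e k).symm y :=
        mdifferentiableAt_atlas_symm (show e k ∈ range e from ⟨k, rfl⟩) hy
      have h1 : mfderiv 𝓘(ℝ, E) 𝓘(ℝ, E) (e k).symm y =
          fderiv ℝ (e (ix ((e k).symm y)) ∘ (e k).symm) y := by
        rw [hd.mfderiv]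
        simp only [mfld_simps, fderivWithin_univ]
        rfl
      have h2 := (trans k (ix ((e k).symm y)) y hy (hix _)).2 u v
      unfold chartMetric tinner chartVec
      rw [h1]
      exact (hB _ _ _ _).trans h2
    obtain ⟨Γ, hΓ, hn⟩ := neg k
    refine ⟨Γ, fun x hx u v w => ?_, fun y hy u v huv => ?_⟩
    · have hf : ∀ a b : E, fderiv ℝ (fun y => chartMetric (e k) y a b) x =
          fderiv ℝ (fun y => G k y a b) x := by
        intro a b
        refine Filter.EventuallyEq.fderiv_eq ?_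
        filter_upwards [(e k).open_target.mem_nhds hx] with y hy using hcm y hy a b
      rw [hf, hf, hf, hcm x hx]
      exact hΓ x (mem_univ x) u v w
    · rw [hcm y hy]
      exact hn y u v huv
  refine ⟨M, EMetricSpace.ofRiemannianMetric 𝓘(ℝ, E) M, cs, rb,
    ⟨im, ‹CompactSpace M›, ‹ConnectedSpace M›, hsm, ?_, hneg⟩, ⟨Homeomorph.refl M⟩⟩
  exact @IsRiemannianManifold.mk E _ _ E _ _ M (_) (_) (_) (_) fun _ _ => rfl

end Pool.Agent.MP_39b1da_gt
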