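import Pool.Agent.MP_39b1da_gt.Basic

set_option autoImplicit false

namespace Pool.Agent.MP_39b1da_gt

open Filter Topology Set Real
open scoped ENNReal NNReal ContDiff InnerProductSpace

open MeasureTheory in
/-- A space of small dimension has countable covers with small sums of powers of diameters. -/
lemma pansu_cover {Z : Type} [MetricSpace Z] {Q : ℝ} (hQ : 0 < Q)
    (h : dimH (univ : Set Z) < ENNReal.ofReal Q) {η : ℝ≥0∞} (hη : 0 < η) :
    ∃ t : ℕ → Set Z, (∀ z, ∃ n, z ∈ t n) ∧ (∀ n, Metric.ediam (t n) ≤ 1) ∧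
      ∑' n, Metric.ediam (t n) ^ Q ≤ η := by
  borelize Z
  have h0 : Measure.hausdorffMeasure (Q.toNNReal : ℝ) (univ : Set Z) = 0 :=
    hausdorffMeasure_of_dimH_lt h
  rw [Real.coe_toNNReal Q hQ.le, Measure.hausdorffMeasure_apply] at h0
  simp only [ENNReal.iSup_eq_zero] at h0
  have h1 := (h0 1 one_pos).trans_lt hη
  simp only [iInf_lt_iff] at h1
  obtain ⟨t, h2, h3, h4⟩ := h1
  refine ⟨t, fun z => mem_iUnion.1 (h2 (mem_univ z)), h3, le_trans ?_ h4.le⟩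
  refine ENNReal.tsum_le_tsum fun n => ?_
  rcases (t n).eq_empty_or_nonempty with he | he
  · simp [he, hQ]
  · exact le_iSup (fun _ : (t n).Nonempty => Metric.ediam (t n) ^ Q) he

open MeasureTheory in
lemma pansu_holder {p s : ℝ} (h : p.HolderConjugate s) (x y : ℕ → ℝ≥0∞) :
    ∑' n, x n * y n ≤ (∑' n, x n ^ p) ^ (1 / p) * (∑' n, y n ^ s) ^ (1 / s) := by
  have := ENNReal.lintegral_mul_le_Lp_mul_Lq (Measure.count : Measure ℕ) h
    (f := x) (g := y) (measurable_from_nat).aemeasurable (measurable_from_nat).aemeasurable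
  simpa only [lintegral_count, Pi.mul_apply] using this

/-- The covering step: a disjoint subfamily of quasi-balls whose enlargements cover. -/
lemma pansu_vitali {Ω Z : Type} [Nonempty Ω] [MetricSpace Z] (Φ : Ω × ℝ → Z)
    (q : Ω × ℝ → Ω × ℝ → ℝ) {K₀ : ℝ}
    (q0 : ∀ a b, 0 ≤ q a b) (q1 : ∀ a b, q a b ≤ 1) (qs : ∀ a, q a a = 0)
    (qc : ∀ a b, q a b = q b a) (qt : ∀ a b c, q a c ≤ K₀ * max (q a b) (q b c))
    (hqs : ∀ K : ℝ, ∃ H : ℝ, ∀ a b c, q a b ≤ K * q a c → dist (Φ a) (Φ b) ≤ H * dist (Φ a) (Φ c)) :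
    ∃ K H : ℝ, 0 ≤ H ∧ ∀ t : ℕ → Set Z, (∀ z, ∃ n, z ∈ t n) → (∀ n, Metric.ediam (t n) ≤ 1) →
      ∃ (a : ℕ → Ω × ℝ) (r : ℕ → ℝ) (u : Set ℕ),
        (∀ j ∈ u, (a j).2 ∈ Icc (0 : ℝ) 1 ∧ 0 < r j ∧ r j ≤ 1) ∧
        (u.PairwiseDisjoint fun j => {b : Ω × ℝ | b.2 ∈ Icc (0 : ℝ) 1 ∧ q (a j) b ≤ r j}) ∧
        ∀ b : Ω × ℝ, b.2 ∈ Icc (0 : ℝ) 1 → (∃ i, Φ b = Φ (a i)) ∨
          ∃ j ∈ u, q (a j) b ≤ K * r j ∧
            dist (Φ (a j)) (Φ b) ≤ H * (Metric.ediam (t j)).toReal := by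
  obtain ⟨K1, hK1⟩ : ∃ K1, K1 = max K₀ 1 := ⟨_, rfl⟩
  have hK11 : 1 ≤ K1 := hK1 ▸ le_max_right _ _
  have qt' : ∀ a b c (m : ℝ), q a b ≤ m → q b c ≤ m → q a c ≤ K1 * m := by
    intro a b c m h1 h2
    refine (qt a b c).trans (mul_le_mul (hK1 ▸ le_max_left _ _) (max_le h1 h2) ?_ (by linarith))
    exact le_max_of_le_left (q0 a b)
  obtain ⟨H0, hH0⟩ := hqs 0
  obtain ⟨H, hH⟩ := hqs (2 * (2 * K1 ^ 2))
  refine ⟨2 * K1 ^ 2, max H 0, le_max_right _ _, fun t ht hdiam => ?_⟩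
  set P : ℕ → Set (Ω × ℝ) := fun n => {b | b.2 ∈ Icc (0 : ℝ) 1 ∧ Φ b ∈ t n} with hP
  choose! a ha using fun n (h : (P n).Nonempty) => h
  set r : ℕ → ℝ := fun n => sSup (q (a n) '' P n) with hr
  have hbdd : ∀ n, BddAbove (q (a n) '' P n) := fun n => ⟨1, by
    rintro _ ⟨b, -, rfl⟩; exact q1 _ _⟩
  have hle : ∀ n, ∀ b ∈ P n, q (a n) b ≤ r n := fun n b hb => le_csSup (hbdd n) ⟨b, hb, rfl⟩
  have hr1 : ∀ n, (P n).Nonempty → r n ≤ 1 := fun n hn => csSup_le (hn.image _) (by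
    rintro _ ⟨b, -, rfl⟩; exact q1 _ _)
  obtain ⟨u, hu, hdisj, hcov⟩ := Vitali.exists_disjoint_subfamily_covering_enlargement
    (fun j => {b : Ω × ℝ | b.2 ∈ Icc (0 : ℝ) 1 ∧ q (a j) b ≤ r j})
    {n | (P n).Nonempty ∧ 0 < r n} r 2 one_lt_two (fun n hn => hn.2.le) 1
    (fun n hn => hr1 n hn.1)
    (fun n hn => ⟨a n, (ha n hn.1).1, by rw [qs]; exact hn.2.le⟩)
  refine ⟨a, r, u, fun j hj => ⟨(ha j (hu hj).1).1, (hu hj).2, hr1 j (hu hj).1⟩, hdisj,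
    fun b hb => ?_⟩
  obtain ⟨i, hi⟩ := ht (Φ b)
  have hbP : b ∈ P i := ⟨hb, hi⟩
  by_cases hri : 0 < r i
  · right
    obtain ⟨j, hj, ⟨x, hxi, hxj⟩, hij⟩ := hcov i ⟨⟨b, hbP⟩, hri⟩
    have hrj : 0 < r j := (hu hj).2
    have h1 : q x b ≤ K1 * r i := qt' x (a i) b _ (by rw [qc]; exact hxi.2) (hle i b hbP)
    have h2 : K1 * r i ≤ K1 * (2 * r j) := mul_le_mul_of_nonneg_left hij (by linarith)
    have h3 : r j ≤ K1 * (2 * r j) := by nlinarith
    have h4 : q (a j) b ≤ 2 * K1 ^ 2 * r j := by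
      have := qt' (a j) x b _ (hxj.2.trans h3) (h1.trans h2)
      linarith
    refine ⟨j, hj, h4, ?_⟩
    obtain ⟨_, ⟨c, hc, rfl⟩, hc2⟩ := exists_lt_of_lt_csSup ((hu hj).1.image (q (a j)))
      (show r j / 2 < sSup (q (a j) '' P j) from half_lt_self hrj)
    have h5 : q (a j) b ≤ 2 * (2 * K1 ^ 2) * q (a j) c := by
      have : 2 * K1 ^ 2 * r j ≤ 2 * K1 ^ 2 * (2 * q (a j) c) :=
        mul_le_mul_of_nonneg_left (by linarith) (by positivity)
      linarith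
    have h6 : dist (Φ (a j)) (Φ c) ≤ (Metric.ediam (t j)).toReal := by
      rw [dist_edist]
      exact ENNReal.toReal_mono (ne_top_of_le_ne_top ENNReal.one_ne_top (hdiam j))
        (Metric.edist_le_ediam_of_mem (ha j (hu hj).1).2 hc.2)
    exact (hH _ _ _ h5).trans (mul_le_mul (le_max_left _ _) h6 dist_nonneg (le_max_right _ _))
  · left
    have h1 : q (a i) b ≤ 0 * q (a i) (a i) := by
      have := hle i b hbP
      linarith [not_lt.1 hri]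
    have h2 := hH0 _ _ _ h1
    rw [dist_self, mul_zero] at h2
    exact ⟨i, (dist_le_zero.1 h2).symm⟩

open MeasureTheory in
/-- The Pansu-Bourdon lower bound. -/
theorem pansu {Ω Z : Type} [MeasurableSpace Ω] (μ : Measure Ω) [IsProbabilityMeasure μ]
    [MetricSpace Z] (Φ : Ω × ℝ → Z) (q : Ω × ℝ → Ω × ℝ → ℝ) {K₀ s c₀ : ℝ} (hs : 1 < s)
    (q0 : ∀ a b, 0 ≤ q a b) (q1 : ∀ a b, q a b ≤ 1) (qs : ∀ a, q a a = 0)
    (qc : ∀ a b, q a b = q b a) (qt : ∀ a b c, q a c ≤ K₀ * max (q a b) (q b c))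
    (hqs : ∀ K : ℝ, ∃ H : ℝ, ∀ a b c, q a b ≤ K * q a c → dist (Φ a) (Φ b) ≤ H * dist (Φ a) (Φ c))
    (hc : ∀ w, Continuous fun θ : ℝ => Φ (w, θ)) (hc₀ : 0 < c₀)
    (hd : ∀ w, c₀ ≤ dist (Φ (w, 0)) (Φ (w, 1))) (hr : Regular μ q s) :
    ENNReal.ofReal (s / (s - 1)) ≤ dimH (univ : Set Z) := by
  classical
  by_contra hlt
  rw [not_le] at hlt
  have : Nonempty Ω := nonempty_of_isProbabilityMeasure μ
  have hconj : (s / (s - 1)).HolderConjugate s := (Real.HolderConjugate.conjExponent hs).symm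
  obtain ⟨Q, hQd⟩ : ∃ Q, Q = s / (s - 1) := ⟨_, rfl⟩
  rw [← hQd] at hlt hconj
  have hQ : 0 < Q := hconj.pos
  have hs0 : 0 < s := by linarith
  obtain ⟨K, H, hH, hvit⟩ := pansu_vitali Φ q q0 q1 qs qc qt hqs
  obtain ⟨C, hC⟩ := hr K
  have hM : ENNReal.ofReal (2 * H) * (C : ℝ≥0∞) ^ (1 / s) ≠ ⊤ :=
    ENNReal.mul_ne_top ENNReal.ofReal_ne_top
      (ENNReal.rpow_ne_top_of_nonneg (by positivity) ENNReal.coe_ne_top)
  obtain ⟨ε, hε, hεlt⟩ := ENNReal.exists_nnreal_pos_mul_lt hM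
    (show ENNReal.ofReal c₀ ≠ 0 by simpa using hc₀)
  obtain ⟨t, ht, hdiam, hsum⟩ := pansu_cover hQ hlt (η := (ε : ℝ≥0∞) ^ Q)
    (ENNReal.rpow_pos (by exact_mod_cast hε) ENNReal.coe_ne_top)
  obtain ⟨a, r, u, hu, hdisj, hcov⟩ := hvit t ht hdiam
  have hAR : ∀ j, ∃ (A : Set Ω) (R : Set (Ω × ℝ)), MeasurableSet A ∧ MeasurableSet R ∧
      (j ∈ u → ∀ b : Ω × ℝ, b.2 ∈ Icc (0 : ℝ) 1 → q (a j) b ≤ K * r j → b.1 ∈ A) ∧
      (∀ b ∈ R, j ∈ u ∧ b.2 ∈ Icc (0 : ℝ) 1 ∧ q (a j) b ≤ r j) ∧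
      μ A ^ s ≤ C * (μ.prod volume) R := by
    intro j
    by_cases hj : j ∈ u
    · obtain ⟨A, R, h1, h2, h3, h4, h5⟩ := hC (a j) (hu j hj).1 (r j) (hu j hj).2.1 (hu j hj).2.2
      exact ⟨A, R, h1, h2, fun _ => h3, fun b hb => ⟨hj, h4 b hb⟩, h5⟩
    · exact ⟨∅, ∅, MeasurableSet.empty, MeasurableSet.empty, fun h => absurd h hj, by simp,
        by simp [hs0]⟩
  choose A R hA hR hA2 hR2 hAR using hAR
  have hfin : ∀ j, Metric.ediam (t j) ≠ ⊤ := fun j =>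
    ne_top_of_le_ne_top ENNReal.one_ne_top (hdiam j)
  have key : ∀ w, ENNReal.ofReal c₀ ≤
      ∑' j, (A j).indicator (fun _ => ENNReal.ofReal (2 * H) * Metric.ediam (t j)) w := by
    intro w
    have hf : Continuous fun θ : ℝ => dist (Φ (w, 0)) (Φ (w, θ)) := continuous_const.dist (hc w)
    have hsub : Icc 0 c₀ ⊆ (range fun i => dist (Φ (w, 0)) (Φ (a i))) ∪
        ⋃ j, {y | w ∈ A j ∧ y ∈ Metric.closedBall (dist (Φ (w, 0)) (Φ (a j)))
          (H * (Metric.ediam (t j)).toReal)} := by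
      intro y hy
      have h1 := intermediate_value_Icc (zero_le_one' ℝ) hf.continuousOn
      obtain ⟨θ, hθ, rfl⟩ := h1 (show y ∈ Icc _ _ from ⟨by simpa using hy.1, hy.2.trans (hd w)⟩)
      rcases hcov (w, θ) hθ with ⟨i, hi⟩ | ⟨j, hj, h2, h3⟩
      · exact Or.inl ⟨i, by simp only [hi]⟩
      · refine Or.inr (mem_iUnion.2 ⟨j, hA2 j hj (w, θ) hθ h2, ?_⟩)
        rw [Metric.mem_closedBall]
        refine le_trans ?_ h3
        rw [dist_comm (Φ (a j))]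
        exact dist_dist_dist_le_right _ _ _
    have h2 := measure_mono (μ := volume) hsub
    rw [Real.volume_Icc, sub_zero] at h2
    refine h2.trans ((measure_union_le _ _).trans ?_)
    rw [(countable_range _).measure_zero, zero_add]
    refine (measure_iUnion_le _).trans (ENNReal.tsum_le_tsum fun j => ?_)
    by_cases hw : w ∈ A j
    · simp only [hw, true_and, indicator_of_mem, ofPred_mem_eq, Real.volume_closedBall]
      rw [← mul_assoc, ENNReal.ofReal_mul (by positivity), ENNReal.ofReal_toReal (hfin j)]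
    · simp [hw]
  have h1 : ENNReal.ofReal c₀ ≤ ∑' j, ENNReal.ofReal (2 * H) * Metric.ediam (t j) * μ (A j) := by
    have h2 := lintegral_mono (μ := μ) key
    rw [lintegral_const, measure_univ, mul_one,
      lintegral_tsum fun j => (measurable_const.indicator (hA j)).aemeasurable] at h2
    simpa only [lintegral_indicator_const (hA _)] using h2
  have h2 : ∑' j, μ (A j) ^ s ≤ C := by
    refine (ENNReal.tsum_le_tsum hAR).trans ?_
    have hd2 : Pairwise (Function.onFun Disjoint R) := by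
      intro i j hij
      rw [Function.onFun, Set.disjoint_left]
      intro b hbi hbj
      exact Set.disjoint_left.1 (hdisj (hR2 i b hbi).1 (hR2 j b hbj).1 hij) (hR2 i b hbi).2
        (hR2 j b hbj).2
    rw [ENNReal.tsum_mul_left, ← measure_iUnion hd2 hR]
    have h3 : (⋃ j, R j) ⊆ (univ : Set Ω) ×ˢ Icc (0 : ℝ) 1 := by
      intro b hb
      obtain ⟨j, hj⟩ := mem_iUnion.1 hb
      exact ⟨mem_univ _, (hR2 j b hj).2.1⟩
    have h4 := measure_mono (μ := μ.prod volume) h3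
    rw [Measure.prod_prod, measure_univ, Real.volume_Icc, sub_zero, ENNReal.ofReal_one,
      mul_one] at h4
    exact mul_le_of_le_one_right' h4
  have h3 := pansu_holder hconj (fun j => Metric.ediam (t j)) fun j => μ (A j)
  have h4 : (∑' j, Metric.ediam (t j) ^ Q) ^ (1 / Q) ≤ ε := by
    refine (ENNReal.rpow_le_rpow hsum (by positivity)).trans ?_
    rw [← ENNReal.rpow_mul, mul_one_div_cancel hQ.ne', ENNReal.rpow_one]
  have h5 : (∑' j, μ (A j) ^ s) ^ (1 / s) ≤ (C : ℝ≥0∞) ^ (1 / s) :=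
    ENNReal.rpow_le_rpow h2 (by positivity)
  simp only [mul_assoc] at h1
  rw [ENNReal.tsum_mul_left] at h1
  have h6 : ENNReal.ofReal c₀ ≤ ε * (ENNReal.ofReal (2 * H) * (C : ℝ≥0∞) ^ (1 / s)) := by
    refine h1.trans ?_
    rw [mul_left_comm]
    exact mul_le_mul_right (h3.trans (mul_le_mul' h4 h5)) _
  exact hεlt.not_ge h6

end Pool.Agent.MP_39b1da_gt
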