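import Pool.Agent.MP_39b1da_gt.Loc

set_option autoImplicit false

namespace Pool.Agent.MP_39b1da_gt

open Filter Topology Set Real
open scoped ENNReal NNReal ContDiff InnerProductSpace

section QIaux

variable {M : Type} [TopologicalSpace M] {m₀ : M}

/-- The lift of `a` from `x` ends at `y`. -/
def QIJoins (x y : UCover M m₀) (a : Path x.1 y.1) : Prop :=
  x.2.trans (Path.Homotopic.Quotient.mk a) = y.2

theorem QI_exists_joins (x y : UCover M m₀) : ∃ a, QIJoins x y a := by
  obtain ⟨a, ha⟩ := Path.Homotopic.Quotient.mk_surjective (x.2.symm.trans y.2)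
  refine ⟨a, ?_⟩
  unfold QIJoins
  rw [ha, ← Path.Homotopic.Quotient.trans_assoc]
  simp

theorem QIJoins.refl (x : UCover M m₀) : QIJoins x x (Path.refl x.1) := by
  unfold QIJoins
  simp

theorem QIJoins.symm {x y : UCover M m₀} {a : Path x.1 y.1} (h : QIJoins x y a) :
    QIJoins y x a.symm := by
  unfold QIJoins at *
  rw [← h, Path.Homotopic.Quotient.mk_symm, Path.Homotopic.Quotient.trans_assoc]
  simp

theorem QIJoins.trans {x y z : UCover M m₀} {a : Path x.1 y.1} {b : Path y.1 z.1}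
    (h : QIJoins x y a) (h' : QIJoins y z b) : QIJoins x z (a.trans b) := by
  unfold QIJoins at *
  rw [Path.Homotopic.Quotient.mk_trans, ← Path.Homotopic.Quotient.trans_assoc, h, h']

theorem QIJoins.congr {x y : UCover M m₀} {a b : Path x.1 y.1} (h : QIJoins x y a)
    (e : a.Homotopic b) : QIJoins x y b := by
  unfold QIJoins at *
  rw [← Path.Homotopic.Quotient.eq.2 e, h]

theorem QIJoins.split {x y : UCover M m₀} {a : Path x.1 y.1} (h : QIJoins x y a)
    (t : unitInterval) : ∃ (z : UCover M m₀) (a₁ : Path x.1 z.1) (a₂ : Path z.1 y.1),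
      QIJoins x z a₁ ∧ QIJoins z y a₂ ∧ (∀ s, a₁ s = a (Icc.convexComb 0 t s)) ∧
        ∀ s, a₂ s = a (Icc.convexComb t 1 s) := by
  let a₁ : Path x.1 (a t) := (a.subpath 0 t).cast a.source.symm rfl
  let a₂ : Path (a t) y.1 := (a.subpath t 1).cast rfl a.target.symm
  refine ⟨⟨a t, x.2.trans (Path.Homotopic.Quotient.mk a₁)⟩, a₁, a₂, rfl, ?_, fun _ => rfl,
    fun _ => rfl⟩
  have e : (a₁.trans a₂).Homotopic a := by
    have h1 : ((a.subpath 0 t).trans (a.subpath t 1)).Homotopic (a.subpath 0 1) :=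
      ⟨Path.Homotopy.subpathTransSubpath a 0 t 1⟩
    have h2 := h1.pathCast a.source.symm a.target.symm
    have e1 : ((a.subpath 0 t).trans (a.subpath t 1)).cast a.source.symm a.target.symm =
        a₁.trans a₂ := by
      ext s
      simp only [Path.cast_coe, Path.trans_apply, a₁, a₂]
    have e2 : (a.subpath 0 1).cast a.source.symm a.target.symm = a := by
      ext s
      simp
    rwa [e1, e2] at h2
  unfold QIJoins at *
  change (x.2.trans (Path.Homotopic.Quotient.mk a₁)).trans (Path.Homotopic.Quotient.mk a₂) = y.2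
  rw [Path.Homotopic.Quotient.trans_assoc, ← Path.Homotopic.Quotient.mk_trans,
    Path.Homotopic.Quotient.eq.2 e, h]

variable {B : Type} [PseudoEMetricSpace B] (g : M → B)

theorem QI_ulen_le {x y : UCover M m₀} {a : Path x.1 y.1} (h : QIJoins x y a) :
    ulen g x y ≤ eVariationOn (g ∘ a) univ :=
  iInf₂_le a h

theorem QI_ulen_lt {x y : UCover M m₀} {r : ℝ≥0∞} (h : ulen g x y < r) :
    ∃ a, QIJoins x y a ∧ eVariationOn (g ∘ a) univ < r := by
  obtain ⟨a, ha⟩ := iInf_lt_iff.1 h
  obtain ⟨h1, h2⟩ := iInf_lt_iff.1 ha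
  exact ⟨a, h1, h2⟩

theorem QI_var_refl (u : M) : eVariationOn (g ∘ Path.refl u) univ = 0 :=
  (eVariationOn.eq_zero_iff _).2 fun _ _ _ _ => by simp

theorem QI_ulen_self (x : UCover M m₀) : ulen g x x = 0 :=
  le_antisymm ((QI_ulen_le g (QIJoins.refl x)).trans (QI_var_refl g _).le) zero_le

theorem QI_ulen_symm_le (x y : UCover M m₀) : ulen g y x ≤ ulen g x y :=
  le_iInf₂ fun a h => (QI_ulen_le g (QIJoins.symm h)).trans (eVariationOn_symm g a).le

theorem QI_ulen_symm (x y : UCover M m₀) : ulen g x y = ulen g y x :=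
  le_antisymm (QI_ulen_symm_le g y x) (QI_ulen_symm_le g x y)

theorem QI_ulen_tri (x y z : UCover M m₀) : ulen g x z ≤ ulen g x y + ulen g y z := by
  refine ENNReal.le_iInf₂_add_iInf₂ fun a ha b hb => ?_
  exact (QI_ulen_le g (QIJoins.trans ha hb)).trans (eVariationOn_trans g a b).le

theorem QI_ulen_chain (p : ℕ → UCover M m₀) (N : ℕ) (h : ∀ i < N, ulen g (p i) (p (i + 1)) ≤ 1) :
    ulen g (p 0) (p N) ≤ N := by
  induction N with
  | zero => simp [QI_ulen_self]
  | succ N ih =>
    refine (QI_ulen_tri g _ (p N) _).trans ?_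
    push_cast
    exact add_le_add (ih fun i hi => h i (by omega)) (h N (by omega))

theorem QI_var_sub (u w : unitInterval → B) {s t : unitInterval} (hst : s ≤ t)
    (h : ∀ r, w r = u (Icc.convexComb s t r)) :
    eVariationOn w univ ≤ eVariationOn u (Icc s t) := by
  have : w = u ∘ Icc.convexComb s t := funext h
  rw [this]
  refine eVariationOn.comp_le_of_monotoneOn u _ (fun a _ b _ hab => ?_)
    fun r _ => ⟨Icc.le_convexComb hst r, Icc.convexComb_le hst r⟩
  have h1 : (a : ℝ) ≤ b := hab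
  have h2 : (s : ℝ) ≤ t := hst
  change ((Icc.convexComb s t a : unitInterval) : ℝ) ≤ (Icc.convexComb s t b : unitInterval)
  rw [Icc.coe_convexComb, Icc.coe_convexComb]
  nlinarith

theorem QI_var_add (u : unitInterval → B) {a b c : unitInterval} (hab : a ≤ b) (hbc : b ≤ c) :
    eVariationOn u (Icc a b) + eVariationOn u (Icc b c) = eVariationOn u (Icc a c) := by
  simpa using eVariationOn.Icc_add_Icc u (s := univ) hab hbc (mem_univ _)

theorem QI_var_cont {u : unitInterval → B} (hu : Continuous u) (hf : eVariationOn u univ ≠ ⊤) :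
    Continuous fun t => eVariationOn u (Icc 0 t) := by
  refine continuous_iff_continuousAt.2 fun x => ?_
  have hb : BoundedVariationOn u univ := hf
  have h1 := hb.tendsto_eVariationOn_Icc_zero_left (x := x) hu.continuousWithinAt
  have h2 := hb.tendsto_eVariationOn_Icc_zero_right x hu.continuousWithinAt
  simp only [univ_inter, nhdsWithin_univ] at h1 h2
  have hx : eVariationOn u (Icc 0 x) ≠ ⊤ :=
    ne_top_of_le_ne_top hf (eVariationOn.mono u (subset_univ _))
  refine (ENNReal.tendsto_nhds hx).2 fun e he => ?_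
  filter_upwards [h1.eventually (ge_mem_nhds he), h2.eventually (ge_mem_nhds he)] with y k1 k2
  rcases le_total x y with hxy | hxy
  · rw [← QI_var_add u (a := 0) x.2.1 hxy]
    exact ⟨tsub_le_self.trans le_self_add, add_le_add le_rfl k2⟩
  · rw [← QI_var_add u (a := 0) y.2.1 hxy]
    exact ⟨tsub_le_iff_right.2 (add_le_add le_rfl k1), le_self_add.trans le_self_add⟩

theorem QI_var_cut {u : unitInterval → B} (hu : Continuous u) {s r : ℝ≥0∞} (hs : s ≠ ⊤)
    (hr : r ≠ ⊤) (h : eVariationOn u univ ≤ s + r) :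
    ∃ t, eVariationOn u (Icc 0 t) ≤ s ∧ eVariationOn u (Icc t 1) ≤ r := by
  have e : Icc (0 : unitInterval) 1 = univ := Icc_bot_top
  by_cases h1 : eVariationOn u univ ≤ s
  · refine ⟨1, by rwa [e], ?_⟩
    rw [eVariationOn.subsingleton u (by simp)]
    exact zero_le
  · have hf : eVariationOn u univ ≠ ⊤ := ne_top_of_le_ne_top (ENNReal.add_ne_top.2 ⟨hs, hr⟩) h
    have := intermediate_value_univ (0 : unitInterval) 1 (QI_var_cont hu hf)
    obtain ⟨t, ht⟩ := this (show s ∈ _ from ⟨by
      rw [eVariationOn.subsingleton u (by simp)]; exact zero_le, by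
      rw [e]; exact (not_le.1 h1).le⟩)
    have ht' : eVariationOn u (Icc 0 t) = s := ht
    refine ⟨t, ht'.le, ?_⟩
    rw [← e, ← QI_var_add u (a := 0) (c := 1) t.2.1 t.2.2, ht'] at h
    exact (ENNReal.add_le_add_iff_left hs).1 h

theorem QI_cut (hg : Continuous g) {s : ℝ≥0∞} (hs : s ≠ ⊤) (N : ℕ) :
    ∀ (x y : UCover M m₀) (a : Path x.1 y.1), QIJoins x y a →
      eVariationOn (g ∘ a) univ ≤ (N + 1 : ℕ) * s →
      ∃ p : ℕ → UCover M m₀, p 0 = x ∧ p (N + 1) = y ∧ ∀ i < N + 1,
        ∃ b, QIJoins (p i) (p (i + 1)) b ∧ eVariationOn (g ∘ b) univ ≤ s := by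
  induction N with
  | zero =>
    intro x y a ha hv
    refine ⟨fun i => Nat.casesOn i x fun _ => y, rfl, rfl, fun i hi => ?_⟩
    obtain rfl : i = 0 := by omega
    exact ⟨a, ha, by simpa using hv⟩
  | succ N ih =>
    intro x y a ha hv
    obtain ⟨t, h1, h2⟩ := QI_var_cut (hg.comp a.continuous) hs
      (r := (N + 1 : ℕ) * s) (ENNReal.mul_ne_top (by simp) hs) (by
        refine hv.trans (le_of_eq ?_)
        push_cast; ring)
    obtain ⟨z, a₁, a₂, j1, j2, e1, e2⟩ := ha.split t
    obtain ⟨p, p0, pN, hp⟩ := ih z y a₂ j2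
      ((QI_var_sub (g ∘ a) (g ∘ a₂) (t := 1) t.2.2 fun r => congrArg g (e2 r)).trans h2)
    refine ⟨fun i => Nat.casesOn i x p, rfl, pN, fun i hi => ?_⟩
    cases i with
    | zero =>
      subst p0
      exact ⟨a₁, j1, (QI_var_sub (g ∘ a) (g ∘ a₁) (s := 0) t.2.1 fun r => congrArg g (e1 r)).trans h1⟩
    | succ i => exact hp i (by omega)

theorem QI_chain (hg : Continuous g) {s : ℝ} (hs : 0 < s) (x y : UCover M m₀)
    (hf : ulen g x y ≠ ⊤) : ∃ (N : ℕ) (p : ℕ → UCover M m₀), p 0 = x ∧ p N = y ∧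
      (∀ i < N, ∃ b, QIJoins (p i) (p (i + 1)) b ∧ eVariationOn (g ∘ b) univ ≤ ENNReal.ofReal s) ∧
      (N : ℝ) ≤ (ulen g x y).toReal / s + 2 := by
  obtain ⟨d, hd⟩ : ∃ d, d = (ulen g x y).toReal := ⟨_, rfl⟩
  have hd0 : 0 ≤ d := hd ▸ ENNReal.toReal_nonneg
  have h1 : ulen g x y < (⌈d / s⌉₊ + 1 : ℕ) * ENNReal.ofReal s := by
    rw [← ENNReal.ofReal_toReal hf, ← hd, ← ENNReal.ofReal_natCast,
      ← ENNReal.ofReal_mul (Nat.cast_nonneg _)]
    have h2 := Nat.le_ceil (d / s)
    rw [div_le_iff₀ hs] at h2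
    refine (ENNReal.ofReal_lt_ofReal_iff (by positivity)).2 ?_
    push_cast
    nlinarith
  obtain ⟨a, ha, hv⟩ := QI_ulen_lt g h1
  obtain ⟨p, p0, pN, hp⟩ := QI_cut g hg ENNReal.ofReal_ne_top _ x y a ha hv.le
  refine ⟨_, p, p0, pN, hp, ?_⟩
  have := Nat.ceil_lt_add_one (div_nonneg hd0 hs.le)
  rw [← hd]
  push_cast
  linarith

theorem QI_fin {S : Type} [PseudoMetricSpace S] (f : M → S) (hf : Continuous f) {η : ℝ}
    (hη : 0 < η) (h : ∀ (x y : UCover M m₀) (a : Path x.1 y.1), QIJoins x y a →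
      (∀ t, dist (f x.1) (f (a t)) < η) → ulen g x y ≠ ⊤) (x y : UCover M m₀) :
    ulen g x y ≠ ⊤ := by
  have key : ∀ (n : ℕ) (x y : UCover M m₀) (a : Path x.1 y.1), QIJoins x y a →
      (∀ s t : unitInterval, |(s : ℝ) - t| ≤ 1 / (n + 1) → dist (f (a s)) (f (a t)) < η) →
      ulen g x y ≠ ⊤ := by
    intro n
    induction n with
    | zero =>
      intro x y a ha hs
      refine h x y a ha fun t => ?_
      have := hs 0 t (by simpa [abs_of_nonneg t.2.1] using t.2.2)
      simpa using this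
    | succ n ih =>
      intro x y a ha hs
      have hn : (0 : ℝ) < n + 1 := by positivity
      obtain ⟨t, ht⟩ : ∃ t : unitInterval, (t : ℝ) = 1 / (n + 1 + 1) :=
        ⟨⟨_, by positivity, by rw [div_le_one (by positivity)]; linarith⟩, rfl⟩
      obtain ⟨z, a₁, a₂, j1, j2, e1, e2⟩ := ha.split t
      refine ne_top_of_le_ne_top (ENNReal.add_ne_top.2 ⟨h x z a₁ j1 fun r => ?_,
        ih z y a₂ j2 fun r r' hr => ?_⟩) (QI_ulen_tri g x z y)
      · have := hs 0 (Icc.convexComb 0 t r) (by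
          rw [Icc.coe_convexComb]
          push_cast
          rw [← ht, abs_le]
          constructor <;> nlinarith [r.2.1, r.2.2, t.2.1])
        rw [e1]
        simpa using this
      · rw [e2, e2]
        refine hs _ _ ?_
        rw [Icc.coe_convexComb, Icc.coe_convexComb]
        push_cast
        have e : (1 - (r : ℝ)) * t + r * 1 - ((1 - r') * t + r' * 1) = (1 - t) * (r - r') := by
          ring
        rw [e, abs_mul, abs_of_nonneg (by linarith [t.2.2] : (0 : ℝ) ≤ 1 - t)]
        calc (1 - (t : ℝ)) * |(r : ℝ) - r'| ≤ (1 - t) * (1 / (n + 1)) :=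
              mul_le_mul_of_nonneg_left hr (by linarith [t.2.2])
          _ = 1 / (n + 1 + 1) := by rw [ht]; field_simp; ring
  obtain ⟨a, ha⟩ := QI_exists_joins x y
  obtain ⟨δ, hδ, hu⟩ := Metric.uniformContinuous_iff.1
    (CompactSpace.uniformContinuous_of_continuous (hf.comp a.continuous)) η hη
  obtain ⟨n, hn⟩ := exists_nat_one_div_lt hδ
  exact key n x y a ha fun s t hst => hu (by
    rw [Subtype.dist_eq, Real.dist_eq]; exact hst.trans_lt hn)

end QIaux

theorem QI_small {M S : Type} [EMetricSpace M] [MetricSpace S] [CompactSpace S]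
    (f : M ≃ₜ S) {ε : ℝ} (h : LocK S ε) (hl : IsLen M) (m₀ : M) :
    ∃ η > 0, ∀ (x y : UCover M m₀) (a : Path x.1 y.1), QIJoins x y a →
      (∀ t, dist (f x.1) (f (a t)) < η) → ulen id x y ≤ 1 ∧ ulen f x y ≤ 1 := by
  have : CompactSpace M := f.symm.compactSpace
  have hε := h.pos
  obtain ⟨r, hr, h1⟩ := EMetric.uniformContinuous_iff.1
    (CompactSpace.uniformContinuous_of_continuous f.continuous) (ENNReal.ofReal (ε / 4))
    (ENNReal.ofReal_pos.2 (by positivity))
  obtain ⟨e, he, h2⟩ := EMetric.uniformContinuous_iff.1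
    (CompactSpace.uniformContinuous_of_continuous f.symm.continuous) (min r 1)
    (lt_min hr one_pos)
  obtain ⟨η₀, -, k1, k2⟩ := ENNReal.lt_iff_exists_real_btwn.1 he
  have hη₀ : 0 < η₀ := ENNReal.ofReal_pos.1 k1
  refine ⟨min η₀ (min (ε / 4) 1), by positivity, fun x y a ha hs => ?_⟩
  have hxy : dist (f x.1) (f y.1) < min η₀ (min (ε / 4) 1) := by simpa using hs 1
  have hom : ∀ b : Path x.1 y.1, (∀ t, dist (f x.1) (f (b t)) < ε / 4) → QIJoins x y b := by
    intro b hb
    have k := (h.homotopic (p := f x.1) (a.map f.continuous) (b.map f.continuous)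
      (fun t => (hs t).trans_le ((min_le_right _ _).trans (min_le_left _ _))) hb).map
        ⟨f.symm, f.symm.continuous⟩
    have k' := k.pathCast (f.symm_apply_apply x.1).symm (f.symm_apply_apply y.1).symm
    refine ha.congr ?_
    convert k' using 1 <;> ext t <;> simp
  constructor
  · have k : edist x.1 y.1 < min r 1 := by
      have := h2 (a := f x.1) (b := f y.1) (by
        refine lt_trans ?_ k2
        rw [edist_dist]
        exact (ENNReal.ofReal_lt_ofReal_iff hη₀).2 (hxy.trans_le (min_le_left _ _)))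
      simpa using this
    obtain ⟨b, hb⟩ := hl _ _ _ k
    have j : QIJoins x y b := hom b fun t => by
      have k1 : edist (b 0) (b t) ≤ eVariationOn b univ :=
        eVariationOn.edist_le b (mem_univ _) (mem_univ _)
      rw [b.source] at k1
      have := h1 (k1.trans_lt (hb.trans_le (min_le_left _ _)))
      rwa [edist_dist, ENNReal.ofReal_lt_ofReal_iff (by positivity)] at this
    exact (QI_ulen_le id j).trans (hb.le.trans (min_le_right _ _))
  · have k4 : dist (f x.1) (f y.1) < ε / 4 :=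
      hxy.trans_le ((min_le_right _ _).trans (min_le_left _ _))
    obtain ⟨c, hc, hv⟩ := h.exists_path (y := f x.1) (z := f y.1) (by linarith)
    let b : Path x.1 y.1 := (c.map f.symm.continuous).cast (f.symm_apply_apply x.1).symm
      (f.symm_apply_apply y.1).symm
    have eb : f ∘ b = c := by
      ext t
      simp [b]
    have j : QIJoins x y b := hom b fun t => by
      have k1 := hc 0 t
      rw [c.source] at k1
      have k3 : f (b t) = c t := congrFun eb t
      rw [k3, k1]
      have : |((0 : unitInterval) : ℝ) - t| ≤ 1 := by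
        simpa [abs_of_nonneg t.2.1] using t.2.2
      nlinarith [dist_nonneg (x := f x.1) (y := f y.1)]
    refine (QI_ulen_le f j).trans ?_
    rw [eb, hv, edist_dist]
    exact ENNReal.ofReal_le_one.2 (hxy.le.trans ((min_le_right _ _).trans (min_le_right _ _)))

/-- Two length structures on a compact space have quasi-isometric lifts. -/
theorem ulen_qi {M S : Type} [EMetricSpace M] [MetricSpace S] [CompactSpace S]
    [ConnectedSpace S] (f : M ≃ₜ S) {ε : ℝ} (h : LocK S ε) (hl : IsLen M) (m₀ : M) :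
    CoarseLen (udist (m₀ := m₀)) ∧ ∃ L : ℝ, ∀ x y : UCover M m₀,
      udist x y ≤ L * (ulen f x y).toReal + L ∧ (ulen f x y).toReal ≤ L * udist x y + L := by
  have : CompactSpace M := f.symm.compactSpace
  obtain ⟨η, hη, hs⟩ := QI_small f h hl m₀
  have f1 : ∀ x y : UCover M m₀, ulen id x y ≠ ⊤ := QI_fin id f f.continuous hη
    fun x y a ha k => ne_top_of_le_ne_top ENNReal.one_ne_top (hs x y a ha k).1
  have f2 : ∀ x y : UCover M m₀, ulen f x y ≠ ⊤ := QI_fin f f f.continuous hη
    fun x y a ha k => ne_top_of_le_ne_top ENNReal.one_ne_top (hs x y a ha k).2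
  refine ⟨⟨fun x => ?_, fun x y => ?_, fun x y z => ?_, fun x y => ?_⟩, ?_⟩
  · rw [udist_eq, QI_ulen_self]; rfl
  · rw [udist_eq, udist_eq, QI_ulen_symm]
  · rw [udist_eq, udist_eq, udist_eq, ← ENNReal.toReal_add (f1 _ _) (f1 _ _)]
    exact ENNReal.toReal_mono (ENNReal.add_ne_top.2 ⟨f1 _ _, f1 _ _⟩) (QI_ulen_tri id x y z)
  · obtain ⟨N, p, p0, pN, hp, hN⟩ := QI_chain id continuous_id one_pos x y (f1 x y)
    refine ⟨N, p, p0, pN, fun i hi => ?_, by simpa [udist_eq] using hN⟩
    obtain ⟨b, j, hb⟩ := hp i hi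
    rw [udist_eq]
    exact ENNReal.toReal_le_of_le_ofReal zero_le_one ((QI_ulen_le id j).trans hb)
  · obtain ⟨r, hr, h1⟩ := EMetric.uniformContinuous_iff.1
      (CompactSpace.uniformContinuous_of_continuous f.continuous) (ENNReal.ofReal η)
      (ENNReal.ofReal_pos.2 hη)
    obtain ⟨r₀, -, k1, k2⟩ := ENNReal.lt_iff_exists_real_btwn.1 hr
    have hr₀ : 0 < r₀ := ENNReal.ofReal_pos.1 k1
    obtain ⟨s, hs0, s1, s2⟩ : ∃ s : ℝ, 0 < s ∧ s ≤ r₀ ∧ s < η :=
      ⟨min r₀ (η / 2), by positivity, min_le_left _ _, (min_le_right _ _).trans_lt (by linarith)⟩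
    have fin : ∀ (N : ℕ) (u : ℝ≥0∞) (d : ℝ), 0 ≤ d → u ≤ N → (N : ℝ) ≤ d / s + 2 →
        u.toReal ≤ (1 / s + 2) * d + (1 / s + 2) := by
      intro N u d hd hu hN
      have k := ENNReal.toReal_mono (ENNReal.natCast_ne_top N) hu
      rw [ENNReal.toReal_natCast] at k
      have e : d / s = 1 / s * d := by ring
      have : 0 < 1 / s := by positivity
      nlinarith
    refine ⟨1 / s + 2, fun x y => ⟨?_, ?_⟩⟩
    · obtain ⟨N, p, p0, pN, hp, hN⟩ := QI_chain f f.continuous hs0 x y (f2 x y)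
      refine fin N _ _ ENNReal.toReal_nonneg ?_ hN
      rw [← p0, ← pN]
      refine QI_ulen_chain id p N fun i hi => ?_
      obtain ⟨b, j, hb⟩ := hp i hi
      refine (hs _ _ b j fun t => ?_).1
      have k : edist ((f ∘ b) 0) ((f ∘ b) t) ≤ _ :=
        (eVariationOn.edist_le (f ∘ b) (mem_univ _) (mem_univ _)).trans hb
      simp only [Function.comp, b.source] at k
      rw [edist_dist, ENNReal.ofReal_le_ofReal_iff hs0.le] at k
      linarith
    · obtain ⟨N, p, p0, pN, hp, hN⟩ := QI_chain id continuous_id hs0 x y (f1 x y)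
      refine fin N _ _ ENNReal.toReal_nonneg ?_ hN
      rw [← p0, ← pN]
      refine QI_ulen_chain f p N fun i hi => ?_
      obtain ⟨b, j, hb⟩ := hp i hi
      refine (hs _ _ b j fun t => ?_).2
      have k : edist ((id ∘ b) 0) ((id ∘ b) t) ≤ _ :=
        (eVariationOn.edist_le (id ∘ b) (mem_univ _) (mem_univ _)).trans hb
      simp only [Function.comp, b.source, id] at k
      have := h1 (k.trans_lt ((ENNReal.ofReal_le_ofReal s1).trans_lt k2))
      rwa [edist_dist, ENNReal.ofReal_lt_ofReal_iff hη] at this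

end Pool.Agent.MP_39b1da_gt
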