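import Pool.Agent.MP_39b1da_gt.HypA
import Pool.Agent.MP_39b1da_gt.QR

set_option autoImplicit false

namespace Pool.Agent.MP_39b1da_gt

open Filter Topology Set Real
open scoped ENNReal NNReal ContDiff InnerProductSpace

theorem Reg_pol_zero (θ : ℝ) : pol 0 θ = Hyp.mk 0 := by simp [pol]

theorem Reg_dist_pol (s t θ : ℝ) : dist (pol s θ) (pol t θ) = |s - t| := by
  have h := cosh_dist_pol s t θ θ
  rw [sub_self, cos_zero, mul_one, ← cosh_sub, ← cosh_abs (s - t)] at h
  exact cosh_injOn (mem_Ici.2 dist_nonneg) (mem_Ici.2 (abs_nonneg _)) h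

theorem Reg_sinh_dist_pol {s : ℝ} (hs : 0 ≤ s) (θ θ' : ℝ) :
    sinh (dist (pol s θ) (pol s θ') / 2) = |sin ((θ - θ') / 2)| * sinh s := by
  have h := cosh_dist_pol s s θ θ'
  set d := dist (pol s θ) (pol s θ') with hd
  have hd0 : 0 ≤ d := dist_nonneg
  have h1 : cosh d = 1 + 2 * sinh (d / 2) ^ 2 := by
    have : d = 2 * (d / 2) := by ring
    rw [this, cosh_two_mul, cosh_sq']
    have e : 2 * (d / 2) / 2 = d / 2 := by ring
    rw [e]; ring
  have h2 : cos (θ - θ') = 1 - 2 * sin ((θ - θ') / 2) ^ 2 := by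
    have : θ - θ' = 2 * ((θ - θ') / 2) := by ring
    rw [this, cos_two_mul, cos_sq']
    have e : 2 * ((θ - θ') / 2) / 2 = (θ - θ') / 2 := by ring
    rw [e]; ring
  have h3 : cosh s * cosh s = 1 + sinh s * sinh s := by
    have := cosh_sq' s; nlinarith
  have h4 : sinh (d / 2) ^ 2 = (|sin ((θ - θ') / 2)| * sinh s) ^ 2 := by
    rw [mul_pow, sq_abs]; rw [h1, h2, h3] at h; nlinarith
  have h5 : 0 ≤ sinh (d / 2) := sinh_nonneg_iff.2 (by linarith)
  have h6 : 0 ≤ |sin ((θ - θ') / 2)| * sinh s :=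
    mul_nonneg (abs_nonneg _) (sinh_nonneg_iff.2 hs)
  exact (pow_left_inj₀ h5 h6 two_ne_zero).1 h4

/-- The wall function along a ray of the plane. -/
theorem Reg_lor_pol (m : ℕ) (v : ℝ × Euc m) (t θ : ℝ) :
    lor (lift (Hyp.mk (I1 m (pol t θ).val))) v =
      -v.1 * cosh t + (cos θ * v.2 0 + sin θ * v.2 1) * sinh t := by
  have hre : (pol t θ).val.re = sinh t * cos θ := by
    simp [pol, Complex.exp_ofReal_mul_I_re, Complex.exp_ofReal_mul_I_im, -Complex.ofReal_sinh]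
  have him : (pol t θ).val.im = sinh t * sin θ := by
    simp [pol, Complex.exp_ofReal_mul_I_re, Complex.exp_ofReal_mul_I_im, -Complex.ofReal_sinh]
  have h0 : Hyp.mk (I1 m (pol 0 θ).val) = Hyp.mk 0 := by
    rw [Reg_pol_zero]
    congr 1
    ext i
    simp [I1]
  have h1 : (lift (Hyp.mk (I1 m (pol t θ).val))).1 = cosh t := by
    have h2 := cosh_dist (Hyp.mk (I1 m (pol 0 θ).val)) (Hyp.mk (I1 m (pol t θ).val))
    rw [dist_I1, Reg_dist_pol, cosh_abs, zero_sub, cosh_neg, h0] at h2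
    rw [h2]; simp [lor, lift]
  have h3 : (lift (Hyp.mk (I1 m (pol t θ).val))).2 = I1 m (pol t θ).val := rfl
  rw [lor, h1, h3, I1, inner_add_left, EuclideanSpace.inner_single_left,
    EuclideanSpace.inner_single_left, hre, him]
  simp only [conj_trivial]
  ring

theorem Reg_mono {α β s t : ℝ} (hα : 0 < α) (hs : 0 ≤ s) (hst : s ≤ t)
    (h : α * cosh s + β * sinh s ≤ 0) :
    (α * cosh t + β * sinh t) * cosh s ≤ (α * cosh s + β * sinh s) * cosh t := by
  have h1 : 0 < α * cosh s := mul_pos hα (cosh_pos s)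
  have h2 : 0 ≤ sinh s := sinh_nonneg_iff.2 hs
  have hβ : β ≤ 0 := by
    by_contra hc
    have := mul_nonneg (not_le.1 hc).le h2
    linarith
  have h3 : 0 ≤ sinh (t - s) := sinh_nonneg_iff.2 (by linarith)
  rw [sinh_sub] at h3
  nlinarith [mul_nonneg (neg_nonneg.2 hβ) h3]

section
variable {m : ℕ} {B : Branch m}

theorem Reg_h_neg (l : Lines B) {s t θ : ℝ} (hs : 0 ≤ s) (hst : s ≤ t)
    (h : l.h (pol s θ) < 0) : l.h (pol t θ) < 0 := by
  unfold Lines.h at *
  rw [Reg_lor_pol] at *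
  have hα : 0 < -l.1.2.1 := neg_pos.2 l.2.2.2
  have h1 := Reg_mono hα hs hst h.le
  have h2 := mul_neg_of_neg_of_pos h (cosh_pos t)
  by_contra hc
  have := mul_nonneg (not_lt.1 hc) (cosh_pos s).le
  linarith

theorem Reg_h_zero (l : Lines B) (θ : ℝ) : 0 < l.h (pol 0 θ) := by
  unfold Lines.h
  rw [Reg_lor_pol]
  simpa using l.2.2.2

theorem Reg_h_le (l : Lines B) {s t θ : ℝ} (h : l.h (pol t θ) < 0) :
    l.h (pol s θ) ≤ sinh |s - t| := by
  have h1 := arsinh_lor_lip (B.unit _ _ l.2.2.1) (Hyp.mk (I1 m (pol s θ).val))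
    (Hyp.mk (I1 m (pol t θ).val))
  rw [dist_I1, Reg_dist_pol] at h1
  have h2 : arsinh (l.h (pol t θ)) < 0 := arsinh_neg_iff.2 h
  have h3 : arsinh (l.h (pol s θ)) ≤ |s - t| := by
    have := (abs_le.1 h1).2
    unfold Lines.h at *
    linarith
  rw [← sinh_arsinh (l.h (pol s θ))]
  exact sinh_le_sinh.2 h3

/-- The lines whose wall function is bounded at a point. -/
theorem Reg_bdd (R : ℝ) : ∃ N : ℕ, ∀ x : Hyp ℂ,
    {l : Lines B | |l.h x| ≤ R}.Finite ∧ {l : Lines B | |l.h x| ≤ R}.ncard ≤ N := by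
  classical
  obtain ⟨N, hN⟩ := B.ufin R
  refine ⟨4 * N, fun x => ?_⟩
  set y : Hyp (Euc m) := Hyp.mk (I1 m x.val) with hy
  let F : Fin 4 → Finset (ℝ × Euc m) := fun c => (B.fin c y R).toFinset
  let G : Finset (Fin 4 × (ℝ × Euc m)) :=
    Finset.univ.biUnion fun c => (F c).image fun v => (c, v)
  have hG : G.card ≤ 4 * N := by
    refine (Finset.card_biUnion_le_card_mul _ _ N fun c _ => ?_).trans (by simp)
    refine Finset.card_image_le.trans ?_
    have := hN c y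
    rwa [Set.ncard_eq_toFinset_card _ (B.fin c y R)] at this
  have hmaps : ∀ l ∈ {l : Lines B | |l.h x| ≤ R}, (l.1 : Fin 4 × (ℝ × Euc m)) ∈ (G : Set _) := by
    intro l hl
    simp only [G, F, Finset.coe_biUnion, Finset.coe_univ, Finset.coe_image, mem_iUnion,
      mem_image, Finite.coe_toFinset, mem_ofPred_eq]
    exact ⟨l.1.1, mem_univ _, l.1.2, ⟨l.2.2.1, hl⟩, rfl⟩
  have hinj : InjOn (fun l : Lines B => (l.1 : Fin 4 × (ℝ × Euc m))) {l | |l.h x| ≤ R} :=
    fun a _ b _ h => Subtype.ext h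
  refine ⟨Finite.of_finite_image (G.finite_toSet.subset ?_) hinj, ?_⟩
  · rintro _ ⟨l, hl, rfl⟩
    exact hmaps l hl
  · refine (Set.ncard_le_ncard_of_injOn _ hmaps hinj G.finite_toSet).trans ?_
    rwa [Set.ncard_coe_finset]

theorem Reg_fin (t θ : ℝ) : {l : Lines B | l.h (pol t θ) < 0}.Finite := by
  obtain ⟨N, hN⟩ := Reg_bdd (B := B) (sinh |0 - t|)
  refine (hN (pol 0 θ)).1.subset fun l hl => ?_
  have h1 := Reg_h_zero l θ
  have h2 := Reg_h_le l (s := 0) hl
  simp only [mem_ofPred_eq]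
  rwa [abs_of_pos h1]

theorem Reg_lower (B : Branch m) : ∃ C₁ > 0, ∀ t θ : ℝ, 0 ≤ t →
    t ≤ C₁ * (({l : Lines B | l.h (pol t θ) < 0}.ncard : ℝ) + 1) := by
  obtain ⟨C, hC⟩ := B.dense
  have hpos : 0 < max C 1 := lt_max_of_lt_right one_pos
  refine ⟨max C 1, hpos, fun t θ ht => ?_⟩
  set D := max C 1 with hD
  have key : ∀ j : ℕ, j ≤ {l : Lines B | l.h (pol (j * D) θ) < 0}.ncard := by
    intro j
    induction j with
    | zero => exact Nat.zero_le _
    | succ j ih =>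
      have hj : (0 : ℝ) ≤ j * D := by positivity
      have hj' : (j : ℝ) * D ≤ ((j + 1 : ℕ) : ℝ) * D := by push_cast; nlinarith
      obtain ⟨c, hc, v, hv, h1, h2⟩ := hC (pol (j * D) θ).val (pol (((j + 1 : ℕ) : ℝ) * D) θ).val
        (by
          rw [dist_I1, Reg_dist_pol]
          push_cast
          rw [show (j : ℝ) * D - (j + 1) * D = -D by ring, abs_neg, abs_of_pos hpos]
          exact le_max_left _ _)
      have hv1 : v.1 < 0 := by
        rcases lt_trichotomy v.1 0 with h | h | h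
        · exact h
        · exact absurd h (B.gen0 c hc v hv)
        · exfalso
          rw [Reg_lor_pol] at h1 h2
          have h3 := Reg_mono (β := -(cos θ * v.2 0 + sin θ * v.2 1)) h hj hj' (by linarith)
          have h4 := mul_neg_of_neg_of_pos h2 (cosh_pos (j * D))
          have h5 := mul_nonneg h1 (cosh_pos (((j + 1 : ℕ) : ℝ) * D)).le
          linarith
      let l : Lines B := ⟨(c, v), hc, hv, hv1⟩
      refine Nat.succ_le_of_lt (ih.trans_lt (Set.ncard_lt_ncard ?_ (Reg_fin _ _)))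
      refine ⟨fun l' hl' => Reg_h_neg l' hj hj' hl', fun hsub => ?_⟩
      have : l.h (pol (j * D) θ) < 0 := hsub (show l.h _ < 0 from h2)
      exact absurd h1 (not_le.2 this)
  have h1 := key ⌊t / D⌋₊
  have h2 : (⌊t / D⌋₊ : ℝ) * D ≤ t := by
    have := Nat.floor_le (div_nonneg ht hpos.le)
    rwa [le_div_iff₀ hpos] at this
  have h3 : {l : Lines B | l.h (pol (⌊t / D⌋₊ * D) θ) < 0}.ncard ≤
      {l : Lines B | l.h (pol t θ) < 0}.ncard :=
    Set.ncard_le_ncard (fun l hl => Reg_h_neg l (by positivity) h2 hl) (Reg_fin _ _)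
  have h4 : (⌊t / D⌋₊ : ℝ) ≤ ({l : Lines B | l.h (pol t θ) < 0}.ncard : ℝ) := by
    exact_mod_cast h1.trans h3
  have h5 := Nat.lt_floor_add_one (t / D)
  rw [div_lt_iff₀ hpos] at h5
  nlinarith

theorem Reg_upper (B : Branch m) {c : ℝ} (hc : 0 ≤ c) : ∃ N : ℕ, ∀ s t θ : ℝ, |s - t| ≤ c + 3 →
    {l : Lines B | l.h (pol t θ) < 0}.ncard ≤
      {l : Lines B | l.h (pol s θ) ≤ -(1 / 8)}.ncard + N := by
  obtain ⟨N, hN⟩ := Reg_bdd (B := B) (sinh (c + 3))
  refine ⟨N, fun s t θ h => ?_⟩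
  have hf : {l : Lines B | l.h (pol s θ) ≤ -(1 / 8)}.Finite :=
    (Reg_fin s θ).subset fun l (hl : l.h _ ≤ _) => hl.trans_lt (by norm_num : -(1 / 8) < (0 : ℝ))
  refine le_trans (Set.ncard_le_ncard (t := {l : Lines B | l.h (pol s θ) ≤ -(1 / 8)} ∪
    {l : Lines B | |l.h (pol s θ)| ≤ sinh (c + 3)}) ?_ (hf.union (hN _).1))
    ((Set.ncard_union_le _ _).trans (Nat.add_le_add_left (hN _).2 _))
  intro l hl
  by_cases h1 : l.h (pol s θ) ≤ -(1 / 8)
  · exact Or.inl h1
  · right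
    have h2 := (Reg_h_le l (s := s) hl).trans (sinh_le_sinh.2 h)
    have h3 : c + 3 ≤ sinh (c + 3) := self_le_sinh_iff.2 (by linarith)
    exact abs_le.2 ⟨by linarith [not_le.1 h1], h2⟩

end

open MeasureTheory in
theorem Reg_cyl {ι : Type} {k : ℕ} [NeZero k] (w : ι → Fin k) {L : Set ι} (hL : L.Finite) :
    MeasurableSet {w' : ι → Fin k | ∀ l ∈ L, w' l = w l} ∧
    Measure.infinitePi (fun _ : ι => ProbabilityTheory.uniformOn (univ : Set (Fin k)))
      {w' : ι → Fin k | ∀ l ∈ L, w' l = w l} = ENNReal.ofReal (exp (-(L.ncard * log k))) := by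
  have e : {w' : ι → Fin k | ∀ l ∈ L, w' l = w l} =
      Set.pi (hL.toFinset : Set ι) fun l => {w l} := by
    ext w'; simp
  rw [e]
  refine ⟨MeasurableSet.pi (Finset.countable_toSet _) fun l _ => measurableSet_singleton _, ?_⟩
  rw [Measure.infinitePi_pi _ fun l _ => measurableSet_singleton _]
  have hk : (0 : ℝ) < k := by exact_mod_cast Nat.pos_of_ne_zero (NeZero.ne k)
  simp only [ProbabilityTheory.uniformOn_univ, Measure.count_singleton, Fintype.card_fin,
    Finset.prod_const]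
  rw [Set.ncard_eq_toFinset_card _ hL, exp_neg, exp_nat_mul, exp_log hk, ← inv_pow,
    ENNReal.ofReal_pow (by positivity), ENNReal.ofReal_inv_of_pos hk, ENNReal.ofReal_natCast,
    one_div]

open MeasureTheory in
theorem regular_apts {m : ℕ} (B : Branch m) : ∃ C₁ > 0, ∀ k : ℕ, 2 ≤ k →
    ∀ (X : Type) [MetricSpace X] (x₀ : X) (A : Apts B k X x₀),
      (∀ w θ, IsRay x₀ fun t => A.σ w (pol t θ)) ∧
      (∀ w θ θ', qr (fun t => A.σ w (pol t θ)) (fun t => A.σ w (pol t θ')) =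
        |sin ((θ - θ') / 2)|) ∧
      ∃ (_ : MeasurableSpace (Lines B → Fin k)) (μ : Measure (Lines B → Fin k)),
        IsProbabilityMeasure μ ∧ Regular μ (fun a b =>
          qr (fun t => A.σ a.1 (pol t a.2)) (fun t => A.σ b.1 (pol t b.2))) (1 + C₁ / log k) := by
  obtain ⟨C₁, hC₁, hlow⟩ := Reg_lower B
  refine ⟨C₁, hC₁, fun k hk X _ x₀ A => ?_⟩
  have : NeZero k := ⟨by omega⟩
  have hray : ∀ w θ, IsRay x₀ fun t => A.σ w (pol t θ) := fun w θ =>
    ⟨by simp only [Reg_pol_zero, A.base], fun s t _ _ => by rw [A.iso, Reg_dist_pol]⟩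
  have hsin : ∀ w θ θ', qr (fun t => A.σ w (pol t θ)) (fun t => A.σ w (pol t θ')) =
      |sin ((θ - θ') / 2)| := by
    intro w θ θ'
    refine le_antisymm (qr_le fun s hs => ?_) ?_
    · rw [A.iso, Reg_sinh_dist_pol hs.le]
    · have h := qr_ge (hray w θ) (hray w θ') one_pos
      rw [A.iso, Reg_sinh_dist_pol zero_le_one] at h
      exact le_of_mul_le_mul_right h (sinh_pos_iff.2 one_pos)
  refine ⟨hray, hsin, inferInstance,
    Measure.infinitePi fun _ => ProbabilityTheory.uniformOn (univ : Set (Fin k)), inferInstance,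
    fun K => ?_⟩
  obtain ⟨ε, hε, hmis⟩ := A.mis
  have hκ : 0 < log k := log_pos (by exact_mod_cast hk)
  set c := |K| / ε with hc
  have hc0 : 0 ≤ c := by positivity
  obtain ⟨N, hN⟩ := Reg_upper B hc0
  refine ⟨(10 * exp (N * log k + C₁ * (N + 1))).toNNReal, fun a ha r hr hr1 => ?_⟩
  set T := -log r with hT
  have hT0 : 0 ≤ T := neg_nonneg.2 (log_nonpos hr.le hr1)
  have hrT : exp (-T) = r := by rw [hT, neg_neg, exp_log hr]
  set T' := max (T - c) 0 with hT'
  have hT'0 : 0 ≤ T' := le_max_right _ _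
  obtain ⟨u, hu0, hu1, hu⟩ : ∃ u : ℝ, 0 ≤ u ∧ u + r / 10 ≤ 1 ∧
      ∀ θ ∈ Icc u (u + r / 10), |a.2 - θ| ≤ r / 10 := by
    by_cases h : a.2 ≤ 1 / 2
    · exact ⟨a.2, ha.1, by linarith, fun θ hθ => abs_le.2 ⟨by linarith [hθ.2], by linarith [hθ.1]⟩⟩
    · exact ⟨a.2 - r / 10, by linarith, by linarith [ha.2],
        fun θ hθ => abs_le.2 ⟨by linarith [hθ.2], by linarith [hθ.1]⟩⟩
  have hf : {l : Lines B | l.h (pol T' a.2) ≤ -(1 / 8)}.Finite :=
    (Reg_fin T' a.2).subset fun l (hl : l.h _ ≤ _) => hl.trans_lt (by norm_num : -(1 / 8) < (0 : ℝ))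
  obtain ⟨mA, eA⟩ := Reg_cyl a.1 hf
  obtain ⟨mR, eR⟩ := Reg_cyl a.1 (Reg_fin (B := B) (T + 3) a.2)
  refine ⟨_, _ ×ˢ Icc u (u + r / 10), mA, mR.prod measurableSet_Icc, ?_, ?_, ?_⟩
  · intro b _ hq l hl
    refine hmis b.1 a.1 b.2 a.2 T' hT'0 (fun t ht0 ht => ?_) l hl
    rcases ht0.eq_or_lt with h0 | h0
    · subst h0
      simp only [Reg_pol_zero, A.base, dist_self]
      exact hε.le
    · have ht' : t ≤ T - c := by
        rcases le_max_iff.1 ht with h | h
        · exact h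
        · linarith
      have h1 := qr_ge (hray a.1 a.2) (hray b.1 b.2) h0
      have h2 : 0 ≤ sinh t := sinh_nonneg_iff.2 ht0
      have h3 : sinh t ≤ exp (T - c) / 2 := by
        rw [sinh_eq]
        have := exp_le_exp.2 ht'
        have := exp_pos (-t)
        linarith
      have h4 : r * exp (T - c) = exp (-c) := by
        rw [← hrT, ← exp_add]; congr 1; ring
      have h5 : |K| * exp (-c) ≤ ε := by
        have h6 : c + 1 ≤ exp c := add_one_le_exp c
        have h7 : |K| = c * ε := by rw [hc]; field_simp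
        rw [exp_neg, ← div_eq_mul_inv, div_le_iff₀ (exp_pos c), h7]
        nlinarith
      have h8 : K * r ≤ |K| * r := mul_le_mul_of_nonneg_right (le_abs_self K) hr.le
      have h9 : sinh (dist (A.σ a.1 (pol t a.2)) (A.σ b.1 (pol t b.2)) / 2) ≤ ε / 2 := by
        calc _ ≤ _ := h1
          _ ≤ (|K| * r) * sinh t := mul_le_mul_of_nonneg_right (hq.trans h8) h2
          _ ≤ (|K| * r) * (exp (T - c) / 2) := mul_le_mul_of_nonneg_left h3 (by positivity)
          _ = |K| * (r * exp (T - c)) / 2 := by ring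
          _ ≤ ε / 2 := by rw [h4]; linarith
      have h10 := (self_le_sinh_iff (x := dist (A.σ a.1 (pol t a.2)) (A.σ b.1 (pol t b.2)) / 2)).2
        (by positivity)
      rw [dist_comm]
      linarith
  · rintro ⟨w, θ⟩ ⟨hw, hθ⟩
    refine ⟨⟨hu0.trans hθ.1, hθ.2.trans hu1⟩, ?_⟩
    have h1 := qr_tri (hray a.1 a.2) (hray w a.2) (hray w θ)
    have h2 : qr (fun t => A.σ a.1 (pol t a.2)) (fun t => A.σ w (pol t a.2)) ≤ exp (-(T + 3)) :=
      qr_le_exp (hray a.1 a.2) (hray w a.2) fun t ht0 ht =>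
        A.agree _ _ _ fun l hl => (hw l (Reg_h_neg l ht0 ht hl)).symm
    have h3 : exp (-(T + 3)) ≤ r / 10 := by
      rw [neg_add, exp_add, hrT, exp_neg, ← div_eq_mul_inv]
      refine div_le_div_of_nonneg_left hr.le (by norm_num) ?_
      have h4 : exp 3 = exp 1 ^ 3 := by rw [← exp_nat_mul]; norm_num
      have h5 : (2.7 : ℝ) ≤ exp 1 := by linarith [exp_one_gt_d9]
      rw [h4]
      calc (10 : ℝ) ≤ 2.7 ^ 3 := by norm_num
        _ ≤ _ := pow_le_pow_left₀ (by norm_num) h5 3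
    have h4 : qr (fun t => A.σ w (pol t a.2)) (fun t => A.σ w (pol t θ)) ≤ r / 10 := by
      rw [hsin]
      refine abs_sin_le_abs.trans ?_
      have := hu θ hθ
      rw [abs_div, abs_two]
      linarith [abs_nonneg (a.2 - θ)]
    have h5 := max_le (h2.trans h3) h4
    change qr (fun t => A.σ a.1 (pol t a.2)) (fun t => A.σ w (pol t θ)) ≤ r
    linarith
  · rw [Measure.prod_prod, eA, eR, Real.volume_Icc, ENNReal.ofReal_rpow_of_pos (exp_pos _),
      ← exp_mul, ← ENNReal.ofReal_mul (exp_pos _).le]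
    change _ ≤ ENNReal.ofReal _ * _
    rw [← ENNReal.ofReal_mul (by positivity)]
    refine ENNReal.ofReal_le_ofReal ?_
    have h1 := hN T' (T + 3) a.2 (by
      have : T' ≤ T := max_le (by linarith) hT0
      have : T - c ≤ T' := le_max_left _ _
      exact abs_le.2 ⟨by linarith, by linarith⟩)
    have h2 := hlow (T + 3) a.2 (by linarith)
    set n' := {l : Lines B | l.h (pol T' a.2) ≤ -(1 / 8)}.ncard
    set n := {l : Lines B | l.h (pol (T + 3) a.2) < 0}.ncard
    have h3 : (n : ℝ) ≤ n' + N := by exact_mod_cast h1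
    have e : 10 * exp (N * log k + C₁ * (N + 1)) * (exp (-(n * log k)) * (u + r / 10 - u)) =
        exp (N * log k + C₁ * (N + 1) + -(n * log k) + -T) := by
      rw [exp_add _ (-T), exp_add _ (-(n * log k)), hrT]; ring
    rw [e]
    refine exp_le_exp.2 ?_
    have e2 : -(n' * log k) * (1 + C₁ / log k) = -(n' * log k) - n' * C₁ := by
      field_simp; ring
    rw [e2]
    nlinarith [mul_le_mul_of_nonneg_right h3 hκ.le, mul_le_mul_of_nonneg_left h3 hC₁.le]

end Pool.Agent.MP_39b1da_gt
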