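import Pool.Agent.MP_39b1da_gt.Loc

set_option autoImplicit false

namespace Pool.Agent.MP_39b1da_gt

open Filter Topology Set Real
open scoped ENNReal NNReal ContDiff InnerProductSpace

section
variable {M N : Type} [TopologicalSpace M] [MetricSpace N]

/-- The pulled back length distance. -/
noncomputable def singD (pj : M → N) (x y : M) : ℝ≥0∞ :=
  ⨅ a : Path x y, eVariationOn (pj ∘ a) univ

theorem singD_le (pj : M → N) {x y : M} (a : Path x y) :
    singD pj x y ≤ eVariationOn (pj ∘ a) univ := iInf_le _ a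

theorem singD_self (pj : M → N) (x : M) : singD pj x x = 0 := by
  refine le_antisymm ((singD_le pj (Path.refl x)).trans (le_of_eq ?_)) bot_le
  refine eVariationOn.constant_on ?_
  rintro _ ⟨s, _, rfl⟩ _ ⟨t, _, rfl⟩
  simp

theorem singD_comm (pj : M → N) (x y : M) : singD pj x y = singD pj y x := by
  have : ∀ x y : M, singD pj x y ≤ singD pj y x := fun x y =>
    le_iInf fun a => (singD_le pj a.symm).trans (eVariationOn_symm pj a).le
  exact le_antisymm (this x y) (this y x)

theorem singD_tri (pj : M → N) (x y z : M) : singD pj x z ≤ singD pj x y + singD pj y z :=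
  ENNReal.le_iInf_add_iInf fun a b => (singD_le pj (a.trans b)).trans (eVariationOn_trans pj a b).le

theorem edist_le_singD (pj : M → N) (x y : M) : edist (pj x) (pj y) ≤ singD pj x y :=
  le_iInf fun a => by
    simpa using eVariationOn.edist_le (pj ∘ a) (mem_univ (0 : unitInterval)) (mem_univ 1)

theorem singD_chart_le (pj : M → N) {Z : Type} [MetricSpace Z] (e : OpenPartialHomeomorph M Z)
    (hK : GlobK Z)
    (hlip : ∀ z ∈ e.target, ∀ z' ∈ e.target, dist (pj (e.symm z)) (pj (e.symm z')) ≤ dist z z')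
    {z0 : Z} {r : ℝ} (hr : Metric.ball z0 (3 * r) ⊆ e.target) {z z' : Z}
    (hz : z ∈ Metric.ball z0 r) (hz' : z' ∈ Metric.ball z0 r) :
    singD pj (e.symm z) (e.symm z') ≤ edist z z' := by
  obtain ⟨c, hc, hc'⟩ := (hK.locK (ε := dist z z' + 1) (by positivity)).exists_path
    (y := z) (z := z') (by linarith)
  have hct : ∀ t, c t ∈ e.target := by
    intro t
    refine hr ?_
    have h1 := hc 0 t
    rw [c.source] at h1
    have h2 : |((0 : unitInterval) : ℝ) - t| ≤ 1 := by
      have := t.2.1; have := t.2.2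
      rw [abs_le]; constructor <;> simp <;> linarith
    have h3 : dist z (c t) ≤ dist z z' := by
      rw [h1]; exact mul_le_of_le_one_left dist_nonneg h2
    have h4 := dist_triangle_right z z' z0
    have h5 := dist_triangle_left (c t) z0 z
    rw [Metric.mem_ball] at *
    linarith
  let a : Path (e.symm z) (e.symm z') :=
    { toFun := fun t => e.symm (c t)
      continuous_toFun := e.continuousOn_symm.comp_continuous c.continuous hct
      source' := by simp
      target' := by simp }
  refine (singD_le pj a).trans ?_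
  have hL : LipschitzOnWith 1 (fun w => pj (e.symm w)) e.target :=
    LipschitzOnWith.of_dist_le_mul fun w hw w' hw' => by simpa using hlip w hw w' hw'
  have := hL.comp_eVariationOn_le (g := c) (s := univ) (fun t _ => hct t)
  rw [hc', ENNReal.coe_one, one_mul] at this
  exact this

theorem singD_chart_ge [T2Space M] (pj : M → N) {Z : Type} [MetricSpace Z]
    (e : OpenPartialHomeomorph M Z)
    (hiso : ∀ z ∈ e.target, ∀ᶠ z' in 𝓝 z, dist (pj (e.symm z)) (pj (e.symm z')) = dist z z')
    {z0 : Z} {r : ℝ} (hr : Metric.ball z0 (3 * r) ⊆ e.target)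
    (hcpt : IsCompact (Metric.closedBall z0 (2 * r))) {z : Z}
    (hz : z ∈ Metric.ball z0 r) {y : M} (hy : singD pj (e.symm z) y < ENNReal.ofReal r) :
    y ∈ e.source ∧ edist z (e y) ≤ singD pj (e.symm z) y := by
  classical
  have hr0 : 0 < r := Metric.pos_of_mem_ball hz
  have hsub : Metric.closedBall z0 (2 * r) ⊆ Metric.ball z0 (3 * r) :=
    Metric.closedBall_subset_ball (by linarith)
  let K : Set M := e.symm '' Metric.closedBall z0 (2 * r)
  have hK : IsClosed K := (hcpt.image_of_continuousOn
    (e.continuousOn_symm.mono (hsub.trans hr))).isClosed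
  let φ : M → ℝ := fun m => if m ∈ K then min (dist z (e m)) r else r
  have hKs : ∀ m ∈ K, m ∈ e.source ∧ e m ∈ Metric.closedBall z0 (2 * r) := by
    rintro _ ⟨w, hw, rfl⟩
    have := hr (hsub hw)
    exact ⟨e.map_target this, by rwa [e.right_inv this]⟩
  have hφ : ∀ m ∈ e.source, φ m = min (dist z (e m)) r := by
    intro m hm
    simp only [φ]
    split_ifs with h
    · rfl
    · have h1 : e m ∉ Metric.closedBall z0 (2 * r) := fun h' => h ⟨e m, h', e.left_inv hm⟩
      rw [Metric.mem_closedBall, not_le] at h1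
      have h2 := dist_triangle_left (e m) z0 z
      rw [Metric.mem_ball] at hz
      exact (min_eq_right (by linarith)).symm
  have hloc : ∀ m : M, ∀ᶠ m' in 𝓝 m, edist (φ m) (φ m') ≤ edist (pj m) (pj m') := by
    intro m
    by_cases hm : m ∈ e.source
    · have h1 := (e.continuousAt hm).eventually (hiso (e m) (e.map_source hm))
      filter_upwards [h1, e.open_source.mem_nhds hm] with m' h2 h3
      rw [e.left_inv hm, e.left_inv h3] at h2
      rw [edist_dist, edist_dist, h2, hφ m hm, hφ m' h3]
      refine ENNReal.ofReal_le_ofReal ?_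
      rw [Real.dist_eq]
      refine (abs_min_sub_min_le_max _ _ _ _).trans (max_le ?_ (by simp))
      rw [dist_comm z, dist_comm z]
      exact abs_dist_sub_le _ _ _
    · have h1 : m ∉ K := fun h => hm (hKs m h).1
      filter_upwards [hK.isOpen_compl.mem_nhds h1] with m' h2
      have h3 : m' ∉ K := h2
      simp [φ, h1, h3]
  have hzt : z ∈ e.target := hr (Metric.ball_subset_ball (by linarith) hz)
  have h0 : φ (e.symm z) = 0 := by
    rw [hφ _ (e.map_target hzt), e.right_inv hzt, dist_self]
    exact min_eq_left hr0.le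
  have hmain : edist (0 : ℝ) (φ y) ≤ singD pj (e.symm z) y := by
    refine le_iInf fun a => ?_
    have := edist_le_var (φ ∘ a) (pj ∘ a)
      (fun t => (a.continuous.tendsto t).eventually (hloc (a t)))
    simpa [h0] using this
  have hφ0 : 0 ≤ φ y := by
    simp only [φ]; split_ifs
    · exact le_min dist_nonneg hr0.le
    · exact hr0.le
  rw [edist_dist, Real.dist_eq, zero_sub, abs_neg, abs_of_nonneg hφ0] at hmain
  have hlt : φ y < r := (ENNReal.ofReal_lt_ofReal_iff hr0).1 (hmain.trans_lt hy)
  have hyK : y ∈ K := by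
    by_contra h
    simp [φ, h] at hlt
  have hys := (hKs y hyK).1
  refine ⟨hys, ?_⟩
  rw [hφ y hys] at hlt hmain
  have : min (dist z (e y)) r = dist z (e y) := min_eq_left (by
    rcases min_lt_iff.1 hlt with h | h
    · exact h.le
    · exact absurd h (lt_irrefl _))
  rwa [this, ← edist_dist] at hmain

/-- The space with the pulled back length distance. -/
def SingS (_pj : M → N) : Type := M

noncomputable instance singPseudo (pj : M → N) : PseudoEMetricSpace (SingS pj) where
  edist := singD (M := M) pj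
  edist_self := singD_self (M := M) pj
  edist_comm := singD_comm (M := M) pj
  edist_triangle := singD_tri (M := M) pj

/-- The identity map. -/
def singTo (pj : M → N) : M ≃ SingS pj := Equiv.refl M

theorem edist_singTo (pj : M → N) (x y : M) : edist (singTo pj x) (singTo pj y) = singD pj x y :=
  rfl

end

/-- The length metric pulled back along `pj` on a space with singular local models. -/
theorem sing_metric {M N : Type} [TopologicalSpace M] [T2Space M] [CompactSpace M]
    [ConnectedSpace M] [MetricSpace N] (pj : M → N)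
    (hloc : ∀ x : M, ∃ (Z : Type) (_ : MetricSpace Z) (e : OpenPartialHomeomorph M Z),
      x ∈ e.source ∧ GlobK Z ∧ LocallyCompactSpace Z ∧
      (∀ z ∈ e.target, ∀ z' ∈ e.target, dist (pj (e.symm z)) (pj (e.symm z')) ≤ dist z z') ∧
      ∀ z ∈ e.target, ∀ᶠ z' in 𝓝 z, dist (pj (e.symm z)) (pj (e.symm z')) = dist z z') :
    ∃ (S : Type) (_ : MetricSpace S) (f : M ≃ₜ S) (ε : ℝ), LocK S ε ∧
      (∀ x y, dist (pj x) (pj y) ≤ dist (f x) (f y)) ∧
      ∀ (x y : M) (a : Path x y), edist (f x) (f y) ≤ eVariationOn (pj ∘ a) univ := by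
  have hloc' : ∀ x : M, ∃ (Z : Type) (_ : MetricSpace Z) (e : OpenPartialHomeomorph M Z) (r : ℝ),
      0 < r ∧ x ∈ e.source ∧ GlobK Z ∧ Metric.ball (e x) r ⊆ e.target ∧
      (∀ z ∈ Metric.ball (e x) r, ∀ z' ∈ Metric.ball (e x) r,
        singD pj (e.symm z) (e.symm z') = edist z z') ∧
      ∀ y, singD pj x y = 0 → y = x := by
    intro x
    obtain ⟨Z, _, e, hx, hK, hlc, hlip, hiso⟩ := hloc x
    obtain ⟨C, hC, hCt, hCc⟩ := local_compact_nhds (e.open_target.mem_nhds (e.map_source hx))
    obtain ⟨ρ, hρ, hρC⟩ := Metric.mem_nhds_iff.1 hC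
    have h1 : Metric.ball (e x) (3 * (ρ / 3)) ⊆ e.target := by
      rw [show 3 * (ρ / 3) = ρ by ring]; exact hρC.trans hCt
    have h2 : IsCompact (Metric.closedBall (e x) (2 * (ρ / 3))) :=
      hCc.of_isClosed_subset Metric.isClosed_closedBall
        ((Metric.closedBall_subset_ball (by linarith)).trans hρC)
    have h3 : Metric.ball (e x) (ρ / 6) ⊆ Metric.ball (e x) (ρ / 3) :=
      Metric.ball_subset_ball (by linarith)
    have h4 : Metric.ball (e x) (ρ / 6) ⊆ e.target :=
      (Metric.ball_subset_ball (by linarith)).trans h1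
    refine ⟨Z, inferInstance, e, ρ / 6, by linarith, hx, hK, h4, fun z hz z' hz' => ?_,
      fun y hy => ?_⟩
    · have h5 := singD_chart_le pj e hK hlip h1 (h3 hz) (h3 hz')
      refine le_antisymm h5 ?_
      have h6 : edist z z' < ENNReal.ofReal (ρ / 3) := by
        rw [edist_dist, ENNReal.ofReal_lt_ofReal_iff (by linarith)]
        have := dist_triangle_right z z' (e x)
        rw [Metric.mem_ball] at hz hz'
        linarith
      have := (singD_chart_ge pj e hiso h1 h2 (h3 hz) (h5.trans_lt h6)).2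
      rwa [e.right_inv (h4 hz')] at this
    · have := singD_chart_ge pj e hiso h1 h2 (z := e x) (Metric.mem_ball_self (by linarith))
        (y := y) (by rw [e.left_inv hx, hy]; simpa using hρ)
      rw [e.left_inv hx, hy, nonpos_iff_eq_zero, edist_eq_zero] at this
      exact (e.injOn hx this.1 this.2).symm
  choose Z mZ e r hr hx hK hball hD hsep using hloc'
  have hV : ∀ x, ∀ ρ, IsOpen ((e x).source ∩ e x ⁻¹' Metric.ball (e x x) ρ) := fun x ρ =>
    (e x).isOpen_inter_preimage Metric.isOpen_ball
  have hDV : ∀ x, ∀ y ∈ (e x).source, e x y ∈ Metric.ball (e x x) (r x) →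
      ∀ y' ∈ (e x).source, e x y' ∈ Metric.ball (e x x) (r x) →
      singD pj y y' = edist (e x y) (e x y') := by
    intro x y hy h1 y' hy' h2
    rw [← hD x _ h1 _ h2, (e x).left_inv hy, (e x).left_inv hy']
  have hcont : Continuous (singTo pj) := by
    refine continuous_iff_continuousAt.2 fun x => ?_
    rw [ContinuousAt, EMetric.tendsto_nhds]
    intro ε hε
    have h1 := EMetric.tendsto_nhds.1 ((e x).continuousAt (hx x)) ε hε
    filter_upwards [h1, (hV x (r x)).mem_nhds ⟨hx x, Metric.mem_ball_self (hr x)⟩] with y h2 h3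
    rw [edist_singTo, hDV x y h3.1 h3.2 x (hx x) (Metric.mem_ball_self (hr x))]
    exact h2
  let mE : EMetricSpace (SingS pj) :=
    { singPseudo pj with eq_of_edist_eq_zero := fun {x y} h => (hsep x y h).symm }
  have hfin : ∀ x y : SingS pj, edist x y ≠ ⊤ := by
    intro x y
    have : ConnectedSpace (SingS pj) := (singTo pj).surjective.connectedSpace hcont
    have h1 : IsClopen (Metric.eball y ⊤) := ⟨Metric.isClosed_eball_top, Metric.isOpen_eball⟩
    have h2 := h1.eq_univ ⟨y, Metric.mem_eball_self (by simp)⟩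
    have h3 : x ∈ Metric.eball y ⊤ := h2 ▸ mem_univ x
    exact (Metric.mem_eball.1 h3).ne
  let mS : MetricSpace (SingS pj) := EMetricSpace.toMetricSpace hfin
  let f : M ≃ₜ SingS pj := Continuous.homeoOfEquivCompactToT2 (f := singTo pj) hcont
  have hf : ∀ x y, edist (f x) (f y) = singD pj x y := fun x y => rfl
  have hdist : ∀ x, ∀ y ∈ (e x).source, e x y ∈ Metric.ball (e x x) (r x) →
      ∀ y' ∈ (e x).source, e x y' ∈ Metric.ball (e x x) (r x) →
      dist (f y) (f y') = dist (e x y) (e x y') := by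
    intro x y hy h1 y' hy' h2
    rw [dist_edist, dist_edist, hf, hDV x y hy h1 y' hy' h2]
  have : CompactSpace (SingS pj) := f.compactSpace
  obtain ⟨δ, hδ, hδ'⟩ := lebesgue_number_lemma_of_metric (s := (univ : Set (SingS pj)))
    (c := fun x : M => f '' ((e x).source ∩ e x ⁻¹' Metric.ball (e x x) (r x / 4)))
    isCompact_univ (fun x => f.isOpenMap _ (hV x _)) (fun p _ => by
      obtain ⟨x, rfl⟩ := f.surjective p
      exact mem_iUnion.2 ⟨x, x, ⟨hx x, Metric.mem_ball_self (by linarith [hr x])⟩, rfl⟩)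
  have hδ2 : ∀ p : M, ∃ x, ∀ y, dist (f p) (f y) < δ →
      y ∈ (e x).source ∧ e x y ∈ Metric.ball (e x x) (r x / 4) := by
    intro p
    obtain ⟨x, hx'⟩ := hδ' (f p) (mem_univ _)
    refine ⟨x, fun y hy => ?_⟩
    obtain ⟨y', hy', h⟩ := hx' (Metric.mem_ball'.2 hy)
    rwa [← f.injective h]
  have hsm : ∀ x, Metric.ball (e x x) (r x / 4) ⊆ Metric.ball (e x x) (r x) := fun x =>
    Metric.ball_subset_ball (by linarith [hr x])
  refine ⟨SingS pj, mS, f, δ / 3, ⟨by linarith, fun y z hyz s hs hs' => ?_,
    fun p y w z h1 h2 hb => ?_⟩, fun x y => ?_, fun x y a => (hf x y).le.trans (singD_le pj a)⟩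
  · obtain ⟨y, rfl⟩ := f.surjective y
    obtain ⟨z, rfl⟩ := f.surjective z
    obtain ⟨x, hx'⟩ := hδ2 y
    obtain ⟨hy1, hy2⟩ := hx' y (by simpa using hδ)
    obtain ⟨hz1, hz2⟩ := hx' z (by linarith)
    have hd := hdist x y hy1 (hsm x hy2) z hz1 (hsm x hz2)
    obtain ⟨w, hw1, hw2⟩ := (hK x).btw (e x y) (e x z) s hs (hd ▸ hs')
    have hw : w ∈ Metric.ball (e x x) (r x) := by
      have h1 := dist_triangle_right (e x y) (e x z) (e x x)
      have h2 := dist_triangle_left w (e x x) (e x y)
      rw [Metric.mem_ball] at *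
      linarith [hr x]
    have hwt := hball x hw
    have hw' : e x ((e x).symm w) ∈ Metric.ball (e x x) (r x) := by rwa [(e x).right_inv hwt]
    have e1 := hdist x y hy1 (hsm x hy2) _ ((e x).map_target hwt) hw'
    have e2 := hdist x _ ((e x).map_target hwt) hw' z hz1 (hsm x hz2)
    rw [(e x).right_inv hwt] at e1 e2
    exact ⟨f ((e x).symm w), e1.trans hw1, by unfold Btw at *; rw [e1, e2, hd, hw2]⟩
  · obtain ⟨p, rfl⟩ := f.surjective p
    obtain ⟨y, rfl⟩ := f.surjective y
    obtain ⟨z, rfl⟩ := f.surjective z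
    obtain ⟨w, rfl⟩ := f.surjective w
    obtain ⟨x, hx'⟩ := hδ2 p
    obtain ⟨hp1, hp2⟩ := hx' p (by simpa using hδ)
    obtain ⟨hy1, hy2⟩ := hx' y (by linarith)
    obtain ⟨hz1, hz2⟩ := hx' z (by linarith)
    obtain ⟨hw1, hw2⟩ := hx' w (by
      have h3 := dist_triangle_left (f y) (f z) (f p)
      have h4 := dist_triangle (f p) (f y) (f w)
      have h5 := dist_nonneg (x := f w) (y := f z)
      unfold Btw at hb
      linarith)
    have hp3 := hsm x hp2
    have hy3 := hsm x hy2
    have hz3 := hsm x hz2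
    have hw3 := hsm x hw2
    unfold Btw at hb
    unfold KIneq
    rw [hdist x y hy1 hy3 w hw1 hw3, hdist x w hw1 hw3 z hz1 hz3,
      hdist x y hy1 hy3 z hz1 hz3] at *
    rw [hdist x p hp1 hp3 w hw1 hw3, hdist x p hp1 hp3 y hy1 hy3, hdist x p hp1 hp3 z hz1 hz3]
    exact (hK x).k _ _ _ _ hb
  · rw [dist_edist, dist_edist]
    exact ENNReal.toReal_mono (hfin _ _) (edist_le_singD pj x y)

end Pool.Agent.MP_39b1da_gt
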