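import Pool.Agent.MP_39b1da_gt.Trans1

set_option autoImplicit false

namespace Pool.Agent.MP_39b1da_gt

open Filter Topology Set Real
open scoped ENNReal NNReal ContDiff InnerProductSpace

variable {m : ℕ}

/-- Near `x` the two projections differ by one Lorentz transformation. -/
theorem tr_lor (D : Setup m) {k : ℕ} (hk : 1 ≤ k) (c c' : BChart D k) {x : Euc m}
    (hx : x ∈ c.e.target) (hx' : c.e.symm x ∈ c'.e.source) :
    ∃ G : Lor (Euc m), (∀ w, D.q (c'.Φ⁻¹ • G • w) = D.q (c.Φ⁻¹ • w)) ∧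
      ∀ᶠ y in 𝓝 x, Hyp.mk (pr (cond c'.b1 k 1) (cond c'.b2 k 1) (c'.e (c.e.symm y))) =
        G • Hyp.mk (pr (cond c.b1 k 1) (cond c.b2 k 1) y) := by
  have hc : ∀ b : Bool, 1 ≤ cond b k 1 := by
    intro b; cases b
    · exact le_rfl
    · exact hk
  have c1 : ContinuousAt c.e.symm x := c.e.continuousAt_symm hx
  have hT : ContinuousAt (fun y => c'.e (c.e.symm y)) x :=
    ContinuousAt.comp (f := c.e.symm) (c'.e.continuousAt hx') c1
  have ev : ∀ᶠ y in 𝓝 x,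
      D.q (c.Φ⁻¹ • Hyp.mk (pr (cond c.b1 k 1) (cond c.b2 k 1) y)) =
      D.q (c'.Φ⁻¹ • Hyp.mk (pr (cond c'.b1 k 1) (cond c'.b2 k 1) (c'.e (c.e.symm y)))) := by
    filter_upwards [c.e.open_target.mem_nhds hx, c1.eventually (c'.e.open_source.mem_nhds hx')]
      with y h1 h2
    rw [← c.base y h1, ← c'.base _ (c'.e.map_source h2), c'.e.left_inv h2]
  obtain ⟨g, hg, e⟩ := (D.q_eq _ _).1 ev.self_of_nhds
  have hq : ∀ w, D.q (g • w) = D.q w := fun w => ((D.q_eq _ _).2 ⟨g, hg, rfl⟩).symm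
  obtain ⟨ε, hε, hiso⟩ := D.q_iso
  refine ⟨c'.Φ * g * c.Φ⁻¹, fun w => ?_, ?_⟩
  · rw [mul_smul, mul_smul, inv_smul_smul, hq]
  have ca : ContinuousAt (fun y : Euc m =>
      g • c.Φ⁻¹ • Hyp.mk (pr (cond c.b1 k 1) (cond c.b2 k 1) y)) x :=
    ((continuous_const_smul g).comp ((continuous_const_smul c.Φ⁻¹).comp
      (continuous_mk.comp (continuous_pr (hc _) (hc _))))).continuousAt
  have cb : ContinuousAt (fun y : Euc m =>
      c'.Φ⁻¹ • Hyp.mk (pr (cond c'.b1 k 1) (cond c'.b2 k 1) (c'.e (c.e.symm y)))) x :=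
    ContinuousAt.comp (f := fun y => c'.e (c.e.symm y))
      ((continuous_const_smul c'.Φ⁻¹).comp
        (continuous_mk.comp (continuous_pr (hc _) (hc _)))).continuousAt hT
  have nb := Metric.ball_mem_nhds
    (g • c.Φ⁻¹ • Hyp.mk (pr (cond c.b1 k 1) (cond c.b2 k 1) x)) hε
  have nb' := nb
  nth_rewrite 1 [e] at nb'
  filter_upwards [ev, ca.eventually nb, cb.eventually nb'] with y h1 h2 h3
  have h4 := (hiso _).1 _ h2 _ h3
  rw [hq, h1, dist_self] at h4
  have h5 := dist_eq_zero.1 h4.symm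
  rw [mul_smul, mul_smul, h5, smul_inv_smul]

/-- A Lorentz transformation that keeps a coordinate near a point fixes the basis vector. -/
theorem tr_fix (G : Lor (Euc m)) (i : Fin (m + 4)) {w : Hyp (Euc m)}
    (h : ∀ᶠ y in 𝓝 w, (G • y).val i = y.val i) :
    G.1 (0, EuclideanSpace.single i (1 : ℝ)) = (0, EuclideanSpace.single i (1 : ℝ)) := by
  have e : ∀ v : ℝ × Euc m, lor v (0, EuclideanSpace.single i (1 : ℝ)) = v.2 i := by
    intro v
    simp [lor, EuclideanSpace.inner_single_right]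
  have e2 : ∀ v, G.1 (G.1.symm v) = v := fun v => G.1.apply_symm_apply v
  have h1 : G.1.symm (0, EuclideanSpace.single i (1 : ℝ)) -
      (0, EuclideanSpace.single i (1 : ℝ)) = 0 := by
    refine eq_zero_of_eventually (x := w) ?_
    filter_upwards [h] with y hy
    rw [lor_sub_right, ← G.2.1, e2, e, e, ← val_smul, hy]
    exact sub_self _
  have h2 := congrArg G.1 (sub_eq_zero.1 h1)
  rw [e2] at h2
  exact h2.symm

theorem tr_fix1 (G : Lor (Euc m)) {w : Hyp (Euc m)}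
    (h : ∀ᶠ y in 𝓝 w, Z1 (G • y).val = Z1 y.val) (a : ℂ) : G.1 (0, I1 m a) = (0, I1 m a) := by
  have h0 := tr_fix G 0 (h.mono fun y hy => congrArg Complex.re hy)
  have h1 := tr_fix G 1 (h.mono fun y hy => congrArg Complex.im hy)
  have e : ((0 : ℝ), I1 m a) = a.re • ((0 : ℝ), EuclideanSpace.single (0 : Fin (m + 4)) (1 : ℝ)) +
      a.im • ((0 : ℝ), EuclideanSpace.single (1 : Fin (m + 4)) (1 : ℝ)) := by
    rw [tr_I1_eq]; simp
  rw [e, map_add, map_smul, map_smul, h0, h1]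

theorem tr_fix2 (G : Lor (Euc m)) {w : Hyp (Euc m)}
    (h : ∀ᶠ y in 𝓝 w, Z2 (G • y).val = Z2 y.val) (a : ℂ) : G.1 (0, I2 m a) = (0, I2 m a) := by
  have h0 := tr_fix G 2 (h.mono fun y hy => congrArg Complex.re hy)
  have h1 := tr_fix G 3 (h.mono fun y hy => congrArg Complex.im hy)
  have e : ((0 : ℝ), I2 m a) = a.re • ((0 : ℝ), EuclideanSpace.single (2 : Fin (m + 4)) (1 : ℝ)) +
      a.im • ((0 : ℝ), EuclideanSpace.single (3 : Fin (m + 4)) (1 : ℝ)) := by
    rw [tr_I2_eq]; simp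
  rw [e, map_add, map_smul, map_smul, h0, h1]

/-- The order of branching that is not shared with the other chart. -/
def trN (k : ℕ) (b b' : Bool) : ℕ := cond (b && !b') k 1

/-- The shared part of the branched covering. -/
noncomputable def trD (k : ℕ) (b b' : Bool) (z : ℂ) : ℂ := cond (b && b') (beta k z - z) 0

theorem tr_split (k : ℕ) (b b' : Bool) (z : ℂ) :
    beta (cond b k 1) z - z = (beta (trN k b b') z - z) + trD k b b' z := by
  cases b <;> cases b' <;> simp [trN, trD, tr_beta_one]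

theorem tr_pr_split (k : ℕ) (b₁ b₁' b₂ b₂' : Bool) (y : Euc m) :
    pr (cond b₁ k 1) (cond b₂ k 1) y = pr (trN k b₁ b₁') (trN k b₂ b₂') y +
      I1 m (trD k b₁ b₁' (Z1 y)) + I2 m (trD k b₂ b₂' (Z2 y)) := by
  simp only [pr]
  rw [tr_split k b₁ b₁', tr_split k b₂ b₂']
  simp only [← trI1_apply, ← trI2_apply, map_add]
  abel

theorem tr_one_le {k : ℕ} (hk : 1 ≤ k) (b b' : Bool) : 1 ≤ trN k b b' := by
  cases b <;> cases b' <;> simp [trN, hk]

theorem tr_lift_split {k : ℕ} (hk : 1 ≤ k) (b₁ b₁' b₂ b₂' : Bool) (y : Euc m) :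
    lift (Hyp.mk (pr (cond b₁ k 1) (cond b₂ k 1) y)) =
      lift (Hyp.mk (pr (trN k b₁ b₁') (trN k b₂ b₂') y)) +
        (0, I1 m (trD k b₁ b₁' (Z1 y))) + (0, I2 m (trD k b₂ b₂' (Z2 y))) := by
  have hc : ∀ b : Bool, 1 ≤ cond b k 1 := by
    intro b; cases b
    · exact le_rfl
    · exact hk
  refine Prod.ext ?_ (tr_pr_split k b₁ b₁' b₂ b₂' y)
  simp only [lift, Hyp.val_mk, Prod.fst_add, add_zero, tr_norm_pr (hc _) (hc _),
    tr_norm_pr (tr_one_le hk _ _) (tr_one_le hk _ _)]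

theorem trOK_of {k : ℕ} (hk : 1 ≤ k) {b b' : Bool} {z : ℂ}
    (h : b = true → b' = false → 1 / 16 < ‖z‖) : TrOK (trN k b b') z := by
  cases b <;> cases b'
  · exact trOK_one z
  · exact trOK_one z
  · exact trOK_ne hk (norm_pos_iff.1 (by linarith [h rfl rfl]))
  · exact trOK_one z

theorem tr_term {k : ℕ} {l : ℝ → ℝ} (hl : ∀ t, 1 / 256 ≤ t → l t = ((k : ℝ) ^ 2 - 1) / t)
    {b b' : Bool} {z z' : ℂ} {o o' : ℝ} (h : b = true → b' = false → 1 / 16 < ‖z‖)
    (h' : b' = true → b = false → 1 / 16 < ‖z'‖) (e : b = true → b' = true → z' = z ∧ o' = o) :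
    (cond b' l 0) (z'.re ^ 2 + z'.im ^ 2) * o' -
        (((trN k b' b : ℕ) : ℝ) ^ 2 - 1) / (z'.re ^ 2 + z'.im ^ 2) * o' =
      (cond b l 0) (z.re ^ 2 + z.im ^ 2) * o -
        (((trN k b b' : ℕ) : ℝ) ^ 2 - 1) / (z.re ^ 2 + z.im ^ 2) * o := by
  have key : ∀ w : ℂ, 1 / 16 < ‖w‖ → l (w.re ^ 2 + w.im ^ 2) =
      ((k : ℝ) ^ 2 - 1) / (w.re ^ 2 + w.im ^ 2) := by
    intro w hw
    refine hl _ ?_
    have h3 := Complex.sq_norm w
    rw [Complex.normSq_apply] at h3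
    nlinarith
  cases b <;> cases b'
  · simp [trN]
  · simp [trN, key _ (h' rfl rfl)]
  · simp [trN, key _ (h rfl rfl)]
  · obtain ⟨e1, e2⟩ := e rfl rfl
    rw [e1, e2]

theorem chart_trans (D : Setup m) {k : ℕ} (hk : 1 ≤ k) {l : ℝ → ℝ}
    (hl : ∀ t, 1 / 256 ≤ t → l t = ((k : ℝ) ^ 2 - 1) / t) (c c' : BChart D k) {x : Euc m}
    (hx : x ∈ c.e.target) (hx' : c.e.symm x ∈ c'.e.source) :
    ContDiffAt ℝ ∞ (c'.e ∘ c.e.symm) x ∧ ∀ u v,
      Gm (cond c'.b1 l 0) (cond c'.b2 l 0) (c'.e (c.e.symm x))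
        (fderiv ℝ (c'.e ∘ c.e.symm) x u) (fderiv ℝ (c'.e ∘ c.e.symm) x v) =
      Gm (cond c.b1 l 0) (cond c.b2 l 0) x u v := by
  obtain ⟨G, hq, hG⟩ := tr_lor D hk c c' hx hx'
  have c1 : ContinuousAt c.e.symm x := c.e.continuousAt_symm hx
  have hT : ContinuousAt (c'.e ∘ c.e.symm) x :=
    ContinuousAt.comp (f := c.e.symm) (c'.e.continuousAt hx') c1
  have ev : ∀ᶠ y in 𝓝 x, y ∈ c.e.target ∧ c.e.symm y ∈ c'.e.source :=
    Filter.Eventually.and (c.e.open_target.mem_nhds hx)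
      (c1.eventually (c'.e.open_source.mem_nhds hx'))
  have hTx := c'.e.map_source hx'
  have hinv := c'.e.left_inv hx'
  have cG : Tendsto (fun w : Hyp (Euc m) => G • w)
      (𝓝 (Hyp.mk (pr (cond c.b1 k 1) (cond c.b2 k 1) x)))
      (𝓝 (Hyp.mk (pr (cond c'.b1 k 1) (cond c'.b2 k 1) (c'.e (c.e.symm x))))) := by
    rw [hG.self_of_nhds]
    exact (continuous_const_smul G).tendsto _
  -- the shared branched planes
  have z1 : c.b1 = true → c'.b1 = true → ∀ᶠ y in 𝓝 x, Z1 (c'.e (c.e.symm y)) = Z1 y := by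
    intro h h'
    filter_upwards [ev] with y hy
    rw [← (c.br1 h y hy.1).1, ← (c'.br1 h' _ (c'.e.map_source hy.2)).1, c'.e.left_inv hy.2]
  have z2 : c.b2 = true → c'.b2 = true → ∀ᶠ y in 𝓝 x, Z2 (c'.e (c.e.symm y)) = Z2 y := by
    intro h h'
    filter_upwards [ev] with y hy
    rw [← (c.br2 h y hy.1).1, ← (c'.br2 h' _ (c'.e.map_source hy.2)).1, c'.e.left_inv hy.2]
  have f1 : c.b1 = true → c'.b1 = true → ∀ a, G.1 (0, I1 m a) = (0, I1 m a) := by
    intro h h'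
    refine tr_fix1 G (w := Hyp.mk (pr (cond c.b1 k 1) (cond c.b2 k 1) x)) ?_
    filter_upwards [(c.br1 h x hx).2, cG.eventually (c'.br1 h' _ hTx).2] with w e1 e2
    rw [← e1, ← e2, hq]
  have f2 : c.b2 = true → c'.b2 = true → ∀ a, G.1 (0, I2 m a) = (0, I2 m a) := by
    intro h h'
    refine tr_fix2 G (w := Hyp.mk (pr (cond c.b1 k 1) (cond c.b2 k 1) x)) ?_
    filter_upwards [(c.br2 h x hx).2, cG.eventually (c'.br2 h' _ hTx).2] with w e1 e2
    rw [← e1, ← e2, hq]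
  have d1 : ∀ᶠ y in 𝓝 x, G.1 (0, I1 m (trD k c.b1 c'.b1 (Z1 y))) =
      (0, I1 m (trD k c'.b1 c.b1 (Z1 (c'.e (c.e.symm y))))) := by
    have i0 : ((0 : ℝ), I1 m 0) = 0 := by rw [← trI1_apply, map_zero]; rfl
    rcases Bool.eq_false_or_eq_true c.b1 with h | h <;>
      rcases Bool.eq_false_or_eq_true c'.b1 with h' | h'
    · filter_upwards [z1 h h'] with y hy
      rw [f1 h h', hy, h, h']
    all_goals
      refine Eventually.of_forall fun y => ?_
      simp only [trD, h, h', Bool.and_false, Bool.and_true, Bool.and_self, cond_false, i0,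
        map_zero]
  have d2 : ∀ᶠ y in 𝓝 x, G.1 (0, I2 m (trD k c.b2 c'.b2 (Z2 y))) =
      (0, I2 m (trD k c'.b2 c.b2 (Z2 (c'.e (c.e.symm y))))) := by
    have i0 : ((0 : ℝ), I2 m 0) = 0 := by rw [← trI2_apply, map_zero]; rfl
    rcases Bool.eq_false_or_eq_true c.b2 with h | h <;>
      rcases Bool.eq_false_or_eq_true c'.b2 with h' | h'
    · filter_upwards [z2 h h'] with y hy
      rw [f2 h h', hy, h, h']
    all_goals
      refine Eventually.of_forall fun y => ?_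
      simp only [trD, h, h', Bool.and_false, Bool.and_true, Bool.and_self, cond_false, i0,
        map_zero]
  -- the equation for the transition map
  have main : ∀ᶠ y in 𝓝 x, pr (trN k c'.b1 c.b1) (trN k c'.b2 c.b2) ((c'.e ∘ c.e.symm) y) =
      ((fun w : Euc m => (G • Hyp.mk w).val) ∘ pr (trN k c.b1 c'.b1) (trN k c.b2 c'.b2)) y := by
    filter_upwards [hG, d1, d2] with y e e1 e2
    have e3 := congrArg Hyp.val e
    rw [Hyp.val_mk, val_smul, tr_lift_split hk _ c'.b1 _ c'.b2, map_add, map_add, e1, e2,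
      tr_pr_split k _ c.b1 _ c.b2] at e3
    exact add_right_cancel (add_right_cancel e3)
  have n1 : c.b1 = true → c'.b1 = false → 1 / 16 < ‖Z1 x‖ := by
    intro h h'
    have := c'.un1 h' _ hTx
    rwa [hinv, (c.br1 h x hx).1] at this
  have n2 : c.b2 = true → c'.b2 = false → 1 / 16 < ‖Z2 x‖ := by
    intro h h'
    have := c'.un2 h' _ hTx
    rwa [hinv, (c.br2 h x hx).1] at this
  have n1' : c'.b1 = true → c.b1 = false → 1 / 16 < ‖Z1 (c'.e (c.e.symm x))‖ := by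
    intro h' h
    have := c.un1 h _ hx
    rwa [← (c'.br1 h' _ hTx).1, hinv]
  have n2' : c'.b2 = true → c.b2 = false → 1 / 16 < ‖Z2 (c'.e (c.e.symm x))‖ := by
    intro h' h
    have := c.un2 h _ hx
    rwa [← (c'.br2 h' _ hTx).1, hinv]
  have o1 := trOK_of hk n1
  have o2 := trOK_of hk n2
  have o1' := trOK_of hk n1'
  have o2' := trOK_of hk n2'
  have su := tr_pr_smooth o1 o2
  have su' := tr_pr_smooth o1' o2'
  have sG := (contDiff_smul G).contDiffAt (x := pr (trN k c.b1 c'.b1) (trN k c.b2 c'.b2) x)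
  have sT : ContDiffAt ℝ ∞ (c'.e ∘ c.e.symm) x :=
    tr_smooth_of_comp hT (sG.comp x su) su' (tr_pr_inj o1' o2') main
  refine ⟨sT, fun u v => ?_⟩
  have dT := (sT.differentiableAt (by simp)).hasFDerivAt
  have du := (su.differentiableAt (by simp)).hasFDerivAt
  have du' := (su'.differentiableAt (by simp)).hasFDerivAt
  have dG := (sG.differentiableAt (by simp)).hasFDerivAt
  have ch := (HasFDerivAt.comp (f := c'.e ∘ c.e.symm) x du' dT).unique
    ((dG.comp x du).congr_of_eventuallyEq main)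
  have ch' := fun w => congrArg (fun L : Euc m →L[ℝ] Euc m => L w) ch
  simp only [ContinuousLinearMap.comp_apply] at ch'
  have m1 := tr_pr_metric o1' o2' (fderiv ℝ (c'.e ∘ c.e.symm) x u)
    (fderiv ℝ (c'.e ∘ c.e.symm) x v)
  have m0 := main.self_of_nhds
  simp only [Function.comp_apply] at m0
  rw [ch', ch', m0, Gh_smul, tr_pr_metric o1 o2] at m1
  have w1 : c.b1 = true → c'.b1 = true → ∀ w, Z1 (fderiv ℝ (c'.e ∘ c.e.symm) x w) = Z1 w := by
    intro h h' w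
    have := ((trZ1 m).hasFDerivAt.comp x dT).unique
      ((trZ1 m).hasFDerivAt.congr_of_eventuallyEq (z1 h h'))
    exact congrArg (fun L : Euc m →L[ℝ] ℂ => L w) this
  have w2 : c.b2 = true → c'.b2 = true → ∀ w, Z2 (fderiv ℝ (c'.e ∘ c.e.symm) x w) = Z2 w := by
    intro h h' w
    have := ((trZ2 m).hasFDerivAt.comp x dT).unique
      ((trZ2 m).hasFDerivAt.congr_of_eventuallyEq (z2 h h'))
    exact congrArg (fun L : Euc m →L[ℝ] ℂ => L w) this
  have q1 : ∀ a b : Euc m, om1 a b = trOm (Z1 a) (Z1 b) := fun _ _ => rfl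
  have q2 : ∀ a b : Euc m, om2 a b = trOm (Z2 a) (Z2 b) := fun _ _ => rfl
  have t1 := tr_term hl (o := om1 x u * om1 x v)
    (o' := om1 (c'.e (c.e.symm x)) (fderiv ℝ (c'.e ∘ c.e.symm) x u) *
      om1 (c'.e (c.e.symm x)) (fderiv ℝ (c'.e ∘ c.e.symm) x v)) n1 n1'
    fun h h' => ⟨(z1 h h').self_of_nhds, by
      simp only [q1, w1 h h', (z1 h h').self_of_nhds]⟩
  have t2 := tr_term hl (o := om2 x u * om2 x v)
    (o' := om2 (c'.e (c.e.symm x)) (fderiv ℝ (c'.e ∘ c.e.symm) x u) *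
      om2 (c'.e (c.e.symm x)) (fderiv ℝ (c'.e ∘ c.e.symm) x v)) n2 n2'
    fun h h' => ⟨(z2 h h').self_of_nhds, by
      simp only [q2, w2 h h', (z2 h h').self_of_nhds]⟩
  simp only [Z1, Z2] at t1 t2
  simp only [Gm]
  linarith

end Pool.Agent.MP_39b1da_gt
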