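import Pool.Agent.MP_39b1da_gt.Loc

set_option autoImplicit false
set_option linter.unusedSectionVars false
set_option linter.style.haveILetI false

namespace Pool.Agent.MP_39b1da_gt

open Filter Topology Set Real
open scoped ENNReal NNReal ContDiff InnerProductSpace unitInterval

section Basic

variable {M S : Type} [TopologicalSpace M] {m₀ : M}

open Path

theorem uc_mk_eq {m m₁ m₂ : M} (q : Homotopic.Quotient m₀ m) (b : Path m m₁) (b' : Path m m₂)
    (h : ∀ t, b t = b' t) :
    (⟨m₁, q.trans (Homotopic.Quotient.mk b)⟩ : UCover M m₀) = ⟨m₂, q.trans (Homotopic.Quotient.mk b')⟩ := by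
  obtain rfl : m₁ = m₂ := by rw [← b.target, ← b'.target]; exact h 1
  obtain rfl : b = b' := Path.ext (funext h)
  rfl

theorem uc_snd_eq {y : UCover M m₀} {q : Homotopic.Quotient m₀ y.1} (h : (⟨y.1, q⟩ : UCover M m₀) = y) :
    q = y.2 := by
  obtain ⟨m, q'⟩ := y
  exact eq_of_heq (Sigma.mk.inj h).2

/-- The explicit lift of a path to the universal cover. -/
noncomputable def ucLift (x : UCover M m₀) {m : M} (a : Path x.1 m) (t : I) : UCover M m₀ :=
  ⟨a t, x.2.trans (Homotopic.Quotient.mk ((a.subpath 0 t).cast a.source.symm rfl))⟩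

theorem ucLift_fst (x : UCover M m₀) {m : M} (a : Path x.1 m) (t : I) :
    (ucLift x a t).1 = a t := rfl

theorem ucLift_zero (x : UCover M m₀) {m : M} (a : Path x.1 m) : ucLift x a 0 = x := by
  have h := uc_mk_eq x.2 ((a.subpath 0 0).cast a.source.symm rfl) (Path.refl x.1)
    (fun t => by simp)
  rw [Homotopic.Quotient.mk_refl, Homotopic.Quotient.trans_refl] at h
  exact h

theorem ucLift_one (x : UCover M m₀) {m : M} (a : Path x.1 m) :
    ucLift x a 1 = ⟨m, x.2.trans (Homotopic.Quotient.mk a)⟩ :=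
  uc_mk_eq x.2 _ a (fun t => by simp)

theorem ucLift_step (x : UCover M m₀) {m : M} (a : Path x.1 m) (s t : I) :
    (ucLift x a s).2.trans (Homotopic.Quotient.mk (a.subpath s t)) = (ucLift x a t).2 := by
  change (x.2.trans _).trans _ = x.2.trans _
  rw [Homotopic.Quotient.trans_assoc]
  congr 1
  exact Quotient.sound ⟨Path.Homotopy.subpathTransSubpath a 0 s t⟩

theorem uc_exists_path (x y : UCover M m₀) :
    ∃ a : Path x.1 y.1, x.2.trans (Homotopic.Quotient.mk a) = y.2 := by
  obtain ⟨a, ha⟩ := Quotient.exists_rep (x.2.symm.trans y.2)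
  refine ⟨a, ?_⟩
  have : Homotopic.Quotient.mk a = x.2.symm.trans y.2 := ha
  rw [this, ← Homotopic.Quotient.trans_assoc, Homotopic.Quotient.trans_symm, Homotopic.Quotient.refl_trans]

theorem uc_cancel {x : UCover M m₀} {m : M} {q q' : Homotopic.Quotient x.1 m}
    (h : x.2.trans q = x.2.trans q') : q = q' := by
  have := congrArg (fun r => x.2.symm.trans r) h
  simpa only [← Homotopic.Quotient.trans_assoc, Homotopic.Quotient.symm_trans, Homotopic.Quotient.refl_trans] using this

variable [PseudoEMetricSpace S] (f : M → S)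

theorem ulen_le {x y : UCover M m₀} (a : Path x.1 y.1) (ha : x.2.trans (Homotopic.Quotient.mk a) = y.2) :
    ulen f x y ≤ eVariationOn (f ∘ a) univ :=
  iInf₂_le a ha

theorem ulen_lt {x y : UCover M m₀} {r : ℝ≥0∞} (h : ulen f x y < r) :
    ∃ a : Path x.1 y.1, x.2.trans (Homotopic.Quotient.mk a) = y.2 ∧ eVariationOn (f ∘ a) univ < r := by
  simpa only [ulen, iInf_lt_iff, exists_prop] using h

theorem ulen_self (x : UCover M m₀) : ulen f x x = 0 := by
  refine le_antisymm ((ulen_le f (Path.refl x.1) (Homotopic.Quotient.trans_refl _)).trans ?_) zero_le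
  refine (eVariationOn.constant_on ?_).le
  rintro _ ⟨s, -, rfl⟩ _ ⟨t, -, rfl⟩
  rfl

theorem ulen_symm_le (x y : UCover M m₀) : ulen f y x ≤ ulen f x y := by
  refine le_iInf₂ fun a ha => ?_
  rw [← eVariationOn_symm]
  refine ulen_le f a.symm ?_
  rw [← ha, Homotopic.Quotient.mk_symm, Homotopic.Quotient.trans_assoc, Homotopic.Quotient.trans_symm, Homotopic.Quotient.trans_refl]

theorem ulen_symm (x y : UCover M m₀) : ulen f x y = ulen f y x :=
  le_antisymm (ulen_symm_le f y x) (ulen_symm_le f x y)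

theorem ulen_tri (x y z : UCover M m₀) : ulen f x z ≤ ulen f x y + ulen f y z := by
  unfold ulen
  refine ENNReal.le_iInf₂_add_iInf₂ fun a ha b hb => ?_
  rw [← eVariationOn_trans]
  refine ulen_le f (a.trans b) ?_
  rw [Homotopic.Quotient.mk_trans, ← Homotopic.Quotient.trans_assoc, ha, hb]

theorem edist_le_ulen (x y : UCover M m₀) : edist (f x.1) (f y.1) ≤ ulen f x y := by
  refine le_iInf₂ fun a _ => ?_
  simpa using eVariationOn.edist_le (f ∘ a) (mem_univ 0) (mem_univ 1)

theorem ulen_ucLift_le (x : UCover M m₀) {m : M} (a : Path x.1 m) {s t : I} (hst : s ≤ t) :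
    ulen f (ucLift x a s) (ucLift x a t) ≤ eVariationOn (f ∘ a) (Icc s t) := by
  refine (ulen_le f (x := ucLift x a s) (y := ucLift x a t) (a.subpath s t)
    (ucLift_step x a s t)).trans ?_
  refine eVariationOn.comp_le_of_monotoneOn (f ∘ a) (Icc.convexComb s t) ?_ ?_
  · intro u _ v _ huv
    have h1 : (u : ℝ) ≤ v := huv
    have h2 : (s : ℝ) ≤ t := hst
    change ((1 - u) * s + u * t : ℝ) ≤ (1 - v) * s + v * t
    nlinarith
  · intro u _
    have := Path.range_subpathAux s t
    rw [uIcc_of_le hst] at this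
    exact this ▸ mem_range_self u

end Basic

section Local

variable {M S : Type} [TopologicalSpace M] [MetricSpace S] {m₀ : M} (f : M ≃ₜ S) {ε : ℝ}

open Path

theorem uc_homotopic (h : LocK S ε) {p : S} {x y : M} (a b : Path x y)
    (ha : ∀ t, dist p (f (a t)) < ε / 4) (hb : ∀ t, dist p (f (b t)) < ε / 4) :
    Homotopic.Quotient.mk a = Homotopic.Quotient.mk b := by
  have h1 := h.homotopic (a.map f.continuous) (b.map f.continuous) ha hb
  have h2 := ContinuousMap.HomotopicRel.comp_continuousMap h1 (f.symm : C(S, M))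
  have e : ∀ c : Path x y, (f.symm : C(S, M)).comp (c.map f.continuous).toContinuousMap =
      c.toContinuousMap := fun c => by ext t; simp
  rw [e, e] at h2
  exact Quotient.sound h2

theorem uc_geod (h : LocK S ε) {x y : M} (hxy : dist (f x) (f y) < ε) :
    ∃ a : Path x y, (∀ t, dist (f x) (f (a t)) ≤ dist (f x) (f y)) ∧
      eVariationOn (f ∘ a) univ = edist (f x) (f y) := by
  obtain ⟨c, hc1, hc2⟩ := h.exists_path hxy
  refine ⟨⟨⟨fun t => f.symm (c t), by fun_prop⟩, by simp, by simp⟩, fun t => ?_, ?_⟩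
  · have := hc1 0 t
    simp only [Path.source, Icc.coe_zero, zero_sub, abs_neg] at this
    change dist (f x) (f (f.symm (c t))) ≤ _
    rw [f.apply_symm_apply, this, abs_of_nonneg t.2.1]
    exact mul_le_of_le_one_left dist_nonneg t.2.2
  · rw [← hc2]
    congr 1
    funext t
    exact f.apply_symm_apply _

theorem ulen_eq_of_small (h : LocK S ε) {p : S} {x y : UCover M m₀} (a : Path x.1 y.1)
    (ha : x.2.trans (Homotopic.Quotient.mk a) = y.2) (hp : ∀ t, dist p (f (a t)) < ε / 16) :
    ulen f x y = edist (f x.1) (f y.1) := by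
  have h0 := hp 0
  have h1 := hp 1
  rw [a.source] at h0
  rw [a.target] at h1
  have hε := h.pos
  have hxy : dist (f x.1) (f y.1) < ε / 8 := by
    have := dist_triangle_left (f x.1) (f y.1) p
    linarith
  obtain ⟨c, hc1, hc2⟩ := uc_geod f h (x := x.1) (y := y.1) (by linarith)
  refine le_antisymm ?_ (edist_le_ulen f x y)
  rw [← hc2]
  refine ulen_le f c ?_
  rw [← ha, uc_homotopic f h (p := p) c a (fun t => ?_) (fun t => by linarith [hp t])]
  have := dist_triangle p (f x.1) (f (c t))
  linarith [hc1 t]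

theorem uc_short {x y : M} (a : Path x y) {r : ℝ}
    (ha : eVariationOn (f ∘ a) univ < ENNReal.ofReal r) (t : I) : dist (f x) (f (a t)) < r := by
  have := (eVariationOn.edist_le (f ∘ a) (mem_univ 0) (mem_univ t)).trans_lt ha
  rw [edist_lt_ofReal] at this
  simpa using this

theorem ulen_eq_of_near (h : LocK S ε) {x y z : UCover M m₀}
    (hy : ulen f x y < ENNReal.ofReal (ε / 16)) (hz : ulen f x z < ENNReal.ofReal (ε / 16)) :
    ulen f y z = edist (f y.1) (f z.1) := by
  obtain ⟨a, ha1, ha2⟩ := ulen_lt f hy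
  obtain ⟨b, hb1, hb2⟩ := ulen_lt f hz
  refine ulen_eq_of_small f h (p := f x.1) (a.symm.trans b) ?_ fun t => ?_
  · rw [← ha1, ← hb1, Homotopic.Quotient.mk_trans, Homotopic.Quotient.mk_symm, Homotopic.Quotient.trans_assoc,
      ← Homotopic.Quotient.trans_assoc (Homotopic.Quotient.mk a), Homotopic.Quotient.trans_symm, Homotopic.Quotient.refl_trans]
  · have : (a.symm.trans b) t ∈ range a.symm ∪ range b := by
      rw [← Path.trans_range]; exact mem_range_self t
    rw [Path.symm_range] at this
    rcases this with ⟨s, hs⟩ | ⟨s, hs⟩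
    · rw [← hs]; exact uc_short f a ha2 s
    · rw [← hs]; exact uc_short f b hb2 s

theorem eq_of_ulen_eq_zero (h : LocK S ε) {x y : UCover M m₀} (hxy : ulen f x y = 0) : x = y := by
  have hε := h.pos
  have h1 : x.1 = y.1 := f.injective (edist_le_zero.1 (hxy ▸ edist_le_ulen f x y))
  obtain ⟨a, ha1, ha2⟩ := ulen_lt f (r := ENNReal.ofReal (ε / 4)) (x := x) (y := y)
    (by rw [hxy]; simpa using hε)
  obtain ⟨m, q⟩ := x
  obtain ⟨m', q'⟩ := y
  obtain rfl : m = m' := h1
  have := uc_homotopic f h (p := f m) a (Path.refl m) (uc_short f a ha2) (fun t => by simpa using hε)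
  rw [this, Homotopic.Quotient.mk_refl, Homotopic.Quotient.trans_refl] at ha1
  exact congrArg (Sigma.mk m) ha1

/-- The lifted length distance as an extended metric. -/
@[reducible] noncomputable def ucEMetric (h : LocK S ε) (m₀ : M) : EMetricSpace (UCover M m₀) where
  edist := ulen f
  edist_self := ulen_self f
  edist_comm := ulen_symm f
  edist_triangle := ulen_tri f
  eq_of_edist_eq_zero := eq_of_ulen_eq_zero f h

theorem ucLift_local (h : LocK S ε) (x : UCover M m₀) {m : M} (a : Path x.1 m) (s : I) :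
    ∀ᶠ t in 𝓝 s, ulen f (ucLift x a t) (ucLift x a s) = edist (f (a t)) (f (a s)) := by
  have hε := h.pos
  have hc : Continuous fun t => f (a t) := by fun_prop
  obtain ⟨η, hη, hball⟩ := Metric.continuous_iff.1 hc s (ε / 16) (by linarith)
  filter_upwards [Metric.ball_mem_nhds s hη] with t ht
  refine ulen_eq_of_small f h (p := f (a s)) (x := ucLift x a t) (y := ucLift x a s)
    (a.subpath t s) (ucLift_step x a t s) fun u => ?_
  have : (a.subpath t s) u ∈ a '' uIcc t s := by
    rw [← Path.range_subpath]; exact mem_range_self u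
  obtain ⟨v, hv, hv'⟩ := this
  change dist (f (a s)) (f ((a.subpath t s) u)) < _
  rw [← hv', dist_comm]
  refine hball v (lt_of_le_of_lt ?_ ht)
  have hv2 : (v : ℝ) ∈ uIcc (t : ℝ) s := by
    rcases le_total t s with hts | hts
    · rw [uIcc_of_le hts] at hv; exact Icc_subset_uIcc hv
    · rw [uIcc_of_ge hts] at hv; exact Icc_subset_uIcc' hv
  exact Real.dist_right_le_of_mem_uIcc hv2

theorem ucLift_continuous (h : LocK S ε) (x : UCover M m₀) {m : M} (a : Path x.1 m) :
    letI := ucEMetric f h m₀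
    Continuous (ucLift x a) := by
  letI := ucEMetric f h m₀
  refine continuous_iff_continuousAt.2 fun s => ?_
  rw [ContinuousAt, tendsto_iff_edist_tendsto_0]
  have hc : Continuous fun t => edist (f (a t)) (f (a s)) := by fun_prop
  have := hc.tendsto s
  rw [edist_self] at this
  exact this.congr' ((ucLift_local f h x a s).mono fun t ht => ht.symm)

theorem ulen_ne_top (h : LocK S ε) (x y : UCover M m₀) : ulen f x y ≠ ⊤ := by
  letI := ucEMetric f h m₀
  obtain ⟨a, ha⟩ := uc_exists_path x y
  have hc := ucLift_continuous f h x a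
  have hcl : IsClopen (ucLift x a ⁻¹' Metric.eball x ⊤) :=
    ⟨Metric.isClosed_eball_top.preimage hc, Metric.isOpen_eball.preimage hc⟩
  have h0 : (0 : I) ∈ ucLift x a ⁻¹' Metric.eball x ⊤ := by
    simp [ucLift_zero]
  have h1 : (1 : I) ∈ ucLift x a ⁻¹' Metric.eball x ⊤ := by
    rw [hcl.eq_univ ⟨0, h0⟩]; trivial
  rw [mem_preimage, ucLift_one, ha, Metric.mem_eball'] at h1
  exact h1.ne

/-- The lifted length metric. -/
@[reducible] noncomputable def ucMetric (h : LocK S ε) (m₀ : M) : MetricSpace (UCover M m₀) :=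
  @EMetricSpace.toMetricSpace _ (ucEMetric f h m₀) (ulen_ne_top f h)

theorem uc_ballIso (h : LocK S ε) (m₀ : M) :
    letI := ucMetric f h m₀
    BallIso (fun x : UCover M m₀ => f x.1) (ε / 16) := by
  letI := ucMetric f h m₀
  have hε := h.pos
  have he : ∀ x y : UCover M m₀, edist x y = ulen f x y := fun _ _ => rfl
  refine ⟨by linarith, fun x => ⟨fun y hy z hz => ?_, fun s hs => ?_⟩⟩
  · rw [Metric.mem_ball', ← edist_lt_ofReal, he] at hy hz
    rw [dist_edist, dist_edist, he, ulen_eq_of_near f h hy hz]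
  · rw [Metric.mem_ball'] at hs
    obtain ⟨s, rfl⟩ := f.surjective s
    obtain ⟨c, -, hc⟩ := uc_geod f h (x := x.1) (y := s) (by linarith)
    refine ⟨⟨s, x.2.trans (Homotopic.Quotient.mk c)⟩, ?_, rfl⟩
    rw [Metric.mem_ball', ← edist_lt_ofReal, he]
    refine (ulen_le f (y := ⟨s, x.2.trans (Homotopic.Quotient.mk c)⟩) c rfl).trans_lt ?_
    rw [hc, edist_lt_ofReal]
    exact hs

/-- The explicit lift as a path. -/
noncomputable def ucPath (h : LocK S ε) {x y : UCover M m₀} (a : Path x.1 y.1)
    (ha : x.2.trans (Homotopic.Quotient.mk a) = y.2) :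
    letI := ucMetric f h m₀
    Path x y :=
  letI := ucMetric f h m₀
  ⟨⟨ucLift x a, ucLift_continuous f h x a⟩, ucLift_zero x a, by
    change ucLift x a 1 = y
    rw [ucLift_one, ha]
    rfl⟩

theorem uc_isLen (h : LocK S ε) (m₀ : M) :
    letI := ucMetric f h m₀
    IsLen (UCover M m₀) := by
  letI := ucMetric f h m₀
  intro x y r hr
  obtain ⟨a, ha1, ha2⟩ := ulen_lt f hr
  refine ⟨ucPath f h a ha1, lt_of_le_of_lt (iSup_le ?_) ha2⟩
  rintro ⟨n, u, hu, -⟩
  calc ∑ i ∈ Finset.range n, edist (ucLift x a (u (i + 1))) (ucLift x a (u i))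
      ≤ ∑ i ∈ Finset.range n, eVariationOn (f ∘ a) (Icc (u i) (u (i + 1))) := by
        refine Finset.sum_le_sum fun i _ => ?_
        rw [edist_comm]
        exact ulen_ucLift_le f x a (hu (Nat.le_succ i))
    _ = eVariationOn (f ∘ a) (Icc (u 0) (u n)) := eVariationOn.sum' _ hu
    _ ≤ eVariationOn (f ∘ a) univ := eVariationOn.mono _ (subset_univ _)

theorem uc_complete_of_ballIso {A : Type} [MetricSpace A] [CompleteSpace S] {p : A → S} {δ : ℝ}
    (hp : BallIso p δ) : CompleteSpace A := by
  refine Metric.complete_of_cauchySeq_tendsto fun u hu => ?_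
  obtain ⟨N, hN⟩ := Metric.cauchySeq_iff'.1 hu (δ / 2) (by linarith [hp.1])
  have hb : ∀ n ≥ N, u n ∈ Metric.ball (u N) δ := fun n hn =>
    Metric.mem_ball.2 (by linarith [hN n hn, hp.1])
  have hcs : CauchySeq fun n => p (u n) := by
    refine Metric.cauchySeq_iff.2 fun η hη => ?_
    obtain ⟨K, hK⟩ := Metric.cauchySeq_iff.1 hu η hη
    refine ⟨max K N, fun m hm n hn => ?_⟩
    rw [(hp.2 (u N)).1 _ (hb m (le_of_max_le_right hm)) _ (hb n (le_of_max_le_right hn))]
    exact hK m (le_of_max_le_left hm) n (le_of_max_le_left hn)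
  obtain ⟨s, hs⟩ := cauchySeq_tendsto_of_complete hcs
  have hsN : dist s (p (u N)) ≤ δ / 2 := by
    refine le_of_tendsto (hs.dist tendsto_const_nhds) ?_
    filter_upwards [eventually_ge_atTop N] with n hn
    rw [(hp.2 (u N)).1 _ (hb n hn) _ (hb N le_rfl)]
    exact (hN n hn).le
  obtain ⟨y, hy, rfl⟩ := (hp.2 (u N)).2 (Metric.mem_ball.2 (by linarith [hp.1] : dist s _ < δ))
  refine ⟨y, tendsto_iff_dist_tendsto_zero.2 ?_⟩
  refine (tendsto_iff_dist_tendsto_zero.1 hs).congr' ?_
  filter_upwards [eventually_ge_atTop N] with n hn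
  exact (hp.2 (u N)).1 _ (hb n hn) _ hy

theorem uc_simplyConnected (h : LocK S ε) (m₀ : M) :
    letI := ucMetric f h m₀
    SimplyConnectedSpace (UCover M m₀) := by
  letI := ucMetric f h m₀
  have cov := (uc_ballIso f h m₀).isCoveringMap
  have hfst : Continuous fun x : UCover M m₀ => x.1 := by
    have := f.symm.continuous.comp cov.continuous
    simpa [Function.comp_def] using this
  rw [simply_connected_iff_paths_homotopic]
  refine ⟨⟨⟨ubase m₀⟩, fun x y => ?_⟩, fun x y => ⟨?_⟩⟩
  · obtain ⟨a, ha⟩ := uc_exists_path x y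
    exact ⟨ucPath f h a ha⟩
  · have key : ∀ g : Path x y, x.2.trans (Homotopic.Quotient.mk (g.map hfst)) = y.2 := by
      intro g
      have e : ucLift x (g.map hfst) = g :=
        cov.eq_of_comp_eq (ucLift_continuous f h x _) g.continuous rfl 0
          (by rw [ucLift_zero, g.source])
      have e1 := congrFun e 1
      rw [ucLift_one, g.target] at e1
      exact uc_snd_eq e1
    intro g g'
    apply cov.injective_path_homotopic_map x y
    induction g using Homotopic.Quotient.ind with | mk g =>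
    induction g' using Homotopic.Quotient.ind with | mk g' =>
    have e := uc_cancel ((key g).trans (key g').symm)
    exact congrArg (fun q => Homotopic.Quotient.map q (f : C(M, S))) e

end Local

/-- The universal cover with the lifted length metric. -/
theorem ucover_space {M S : Type} [TopologicalSpace M] [MetricSpace S] [CompactSpace S]
    [ConnectedSpace S] (f : M ≃ₜ S) {ε : ℝ} (h : LocK S ε) (m₀ : M) :
    ∃ _ : MetricSpace (UCover M m₀), (∀ x y : UCover M m₀, edist x y = ulen f x y) ∧
      CompleteSpace (UCover M m₀) ∧ SimplyConnectedSpace (UCover M m₀) ∧ IsLen (UCover M m₀) ∧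
      ∃ δ, BallIso (fun x : UCover M m₀ => f x.1) δ :=
  letI := ucMetric f h m₀
  ⟨this, fun _ _ => rfl, uc_complete_of_ballIso (uc_ballIso f h m₀), uc_simplyConnected f h m₀,
    uc_isLen f h m₀, _, uc_ballIso f h m₀⟩

end Pool.Agent.MP_39b1da_gt
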