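import Pool.Agent.MP_39b1da_gt.WallsEx2

/-!
The walls of colours `0` and `2` cut the plane into bounded pieces.
-/

set_option autoImplicit false

namespace Pool.Agent.MP_39b1da_gt

open Filter Topology Set Real
open scoped ENNReal NNReal ContDiff InnerProductSpace

variable {m : ℕ}

/-- The unit vectors orthogonal to the plane. -/
noncomputable def wE (j : Fin (m + 2)) : ℝ × Euc m := (0, EuclideanSpace.single j.succ.succ 1)

theorem wLor_wE (v : ℝ × Euc m) (j : Fin (m + 2)) : lor v (wE j) = v.2 j.succ.succ := by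
  simp [lor, wE, EuclideanSpace.inner_single_right]

/-- Points of the plane. -/
def wIn (x : Hyp (Euc m)) : Prop := ∀ j : Fin (m + 2), lor (lift x) (wE j) = 0

theorem wIn_I1 (w : ℂ) : wIn (Hyp.mk (I1 m w)) := by
  intro j
  rw [wLor_wE]
  simp [lift, I1, Fin.succ_succ_ne_one]

theorem wIn_smul {g : Lor (Euc m)} (hg : ∀ j, g.1 (wE j) = wE j) {x : Hyp (Euc m)}
    (hx : wIn x) : wIn (g • x) := by
  intro j
  rw [lift_smul, ← hg, g.2.1, hx]

theorem wInv_fix {E : Type} [NormedAddCommGroup E] [InnerProductSpace ℝ E] {g : Lor E}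
    {v : ℝ × E} (h : g.1 v = v) : (g⁻¹).1 v = v := by
  have : (g⁻¹).1 (g.1 v) = v := g.1.symm_apply_apply v
  rwa [h] at this

theorem wLor_inv {E : Type} [NormedAddCommGroup E] [InnerProductSpace ℝ E] (g : Lor E)
    (x : Hyp E) (v : ℝ × E) : lor (lift (g⁻¹ • x)) v = lor (lift x) (g.1 v) := by
  rw [← g.2.1, ← lift_smul, smul_inv_smul]

theorem wLor_in {x : Hyp (Euc m)} (hx : wIn x) (v : ℝ × Euc m) :
    lor (lift x) v = -((lift x).1 * v.1) + x.val 0 * v.2 0 + x.val 1 * v.2 1 := by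
  have h : ∀ j : Fin (m + 2), x.val j.succ.succ = 0 := fun j => (wLor_wE (lift x) j).symm.trans (hx j)
  have e : (lift x).2 = x.val := rfl
  simp only [lor, e, PiLp.inner_apply, RCLike.inner_apply, conj_trivial]
  rw [Fin.sum_univ_succ, Fin.sum_univ_succ]
  simp only [h, mul_zero, Finset.sum_const_zero, Fin.succ_zero_eq_one]
  ring

/-- The rational parts of the normals of the hexagon. -/
def wHa : Fin 6 → Fin 5 → ℤ :=
  ![![0, 0, 1, 0, 0], ![-1, 0, 0, 0, 0], ![-1, 0, 0, 0, 0], ![0, 0, 0, 0, 0], ![0, 0, 0, 0, 0],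
    ![-1, 0, 0, 0, 0]]

/-- The irrational parts of the normals of the hexagon. -/
def wHb : Fin 6 → Fin 5 → ℤ :=
  ![![0, 0, 0, 0, 0], ![0, -1, 0, 0, 0], ![0, 1, 0, 0, 0], ![-1, -1, -1, 0, 0],
    ![-1, 1, -1, 0, 0], ![0, 0, -1, 0, 0]]

/-- The classes of the normals of the hexagon. -/
def wHj : Fin 6 → Fin 6 := ![0, 2, 2, 1, 1, 3]

/-- The normals of the hexagon. -/
noncomputable def wH (m : ℕ) (k : Fin 6) : ℝ × Euc m := lat (wV m (wHa k)) (wV m (wHb k))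

theorem wH_mem (k : Fin 6) : wH m k ∈ wS m (wCol (wHj k)) :=
  wMem _ _ _ (by revert k; decide) (by revert k; decide) (by revert k; decide)
    (by revert k; decide)

theorem wH_col : ∀ k : Fin 6, wCol (wHj k) = 0 ∨ wCol (wHj k) = 2 := by decide

theorem wH_wE (k : Fin 6) (j : Fin (m + 2)) : lor (wE j) (wH m k) = 0 := by
  have h1 : ∀ k : Fin 6, wHa k 3 = 0 ∧ wHa k 4 = 0 ∧ wHb k 3 = 0 ∧ wHb k 4 = 0 := by decide
  rw [lor_comm, wLor_wE]
  refine Fin.cases ?_ (Fin.cases ?_ fun j => ?_) j <;> simp [wH, lat, wV, h1]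

/-- A lattice vector inside the cone over the hexagon. -/
noncomputable def wN (m : ℕ) : ℝ × Euc m := lat (wV m ![2, 0, 1, 0, 0]) (wV m 0)

theorem wN_pos (k : Fin 6) : 0 < lor (wN m) (wH m k) := by
  have h1 : ∀ k : Fin 6, -1 ≤ wP (m := 0) ![2, 0, 1, 0, 0] 0 (wHa k) (wHb k) ∧
      1 ≤ wP (m := 0) ![2, 0, 1, 0, 0] 0 (wHa k) (wHb k) +
        wQ (m := 0) ![2, 0, 1, 0, 0] 0 (wHa k) (wHb k) ∧
      0 ≤ wQ (m := 0) ![2, 0, 1, 0, 0] 0 (wHa k) (wHb k) := by decide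
  rw [wN, wH, wLor_eq, wP_wV, wQ_wV]
  obtain ⟨-, h2, h3⟩ := h1 k
  have h2' : (1 : ℝ) ≤ (wP (m := 0) ![2, 0, 1, 0, 0] 0 (wHa k) (wHb k) : ℤ) +
    (wQ (m := 0) ![2, 0, 1, 0, 0] 0 (wHa k) (wHb k) : ℤ) := by exact_mod_cast h2
  have h3' : (0 : ℝ) ≤ (wQ (m := 0) ![2, 0, 1, 0, 0] 0 (wHa k) (wHb k) : ℤ) := by
    exact_mod_cast h3
  nlinarith [one_lt_goldenRatio]

theorem wN_neg (g : Lor (Euc m)) (x : Hyp (Euc m)) : lor (lift x) (g.1 (wN m)) < 0 := by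
  have h1 : lor (wN m) (wN m) = 1 - 4 * goldenRatio := by
    rw [wN, wLor_eq, wP_wV, wQ_wV, show wP (m := 0) ![(2 : ℤ), 0, 1, 0, 0] 0 ![2, 0, 1, 0, 0] 0 = 1
      by decide, show wQ (m := 0) ![(2 : ℤ), 0, 1, 0, 0] 0 ![2, 0, 1, 0, 0] 0 = -4 by decide]
    push_cast; ring
  have h2 : 0 < (wN m).1 := by
    have := Real.sqrt_pos.2 goldenRatio_pos
    simpa [wN, lat, wV] using goldenRatio_pos
  have h3 : 0 < 4 * goldenRatio - 1 := by linarith [one_lt_goldenRatio]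
  have h4 := Real.sqrt_pos.2 h3
  have h5 := Real.mul_self_sqrt h3.le
  set t := √(4 * goldenRatio - 1)
  have h6 : lor (t⁻¹ • wN m) (t⁻¹ • wN m) = -1 := by
    rw [lor_smul_left, lor_smul_right, h1, show 1 - 4 * goldenRatio = -(t * t) by linarith]
    field_simp
  have h7 := lift_eq h6 (by simpa using mul_pos (inv_pos.2 h4) h2)
  have h8 := one_le_lor x (g • Hyp.mk (t⁻¹ • wN m).2)
  rw [lift_smul, h7, map_smul, lor_smul_right] at h8
  by_contra hc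
  nlinarith [mul_nonneg (inv_pos.2 h4).le (not_lt.1 hc)]

theorem wHexR {φ s T p q : ℝ} (hφ : 1.618 < φ ∧ φ < 1.619) (hs : s * s = φ)
    (h6 : -1 = -(T * T) + p * p + q * q) (h0 : 0 ≤ q) (h1 : p * φ ≤ T * s)
    (h2 : 0 ≤ T * s + p * φ) (h3 : q * φ + p * φ ≤ T * (s * φ))
    (h4 : q * φ ≤ T * (s * φ) + p * φ) (h5 : q * φ ≤ T * s) : T ≤ 3 := by
  have h : 0 < φ := by linarith
  obtain ⟨y, hy⟩ : ∃ y, T * s = y * φ := ⟨T * s / φ, by field_simp⟩
  have h9 : T ^ 2 = φ * y ^ 2 := by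
    refine mul_left_cancel₀ h.ne' ?_
    linear_combination (T * s + y * φ) * hy - T ^ 2 * hs
  rw [← mul_assoc] at h3 h4
  rw [hy] at h1 h2 h3 h4 h5
  have k1 : |p| ≤ y := abs_le.2 ⟨by nlinarith, by nlinarith⟩
  have k2 : q ≤ y := by nlinarith
  have k3 : |p| + q ≤ y * φ := by
    rcases abs_cases p with e | e <;> rw [e.1] <;> nlinarith
  have k4 := abs_nonneg p
  have k5 : p * p = |p| ^ 2 := by rw [sq_abs, sq]
  have k6 : |p| ^ 2 + q * q ≤ 1.4 * y ^ 2 := by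
    have k7 := mul_nonneg (sub_nonneg.2 k1) (sub_nonneg.2 k2)
    have k8 : |p| + q ≤ 1.62 * y := by nlinarith
    rcases le_total (|p| + q) y with e | e
    · nlinarith [mul_nonneg k4 h0]
    · nlinarith [mul_nonneg (sub_nonneg.2 e) (sub_nonneg.2 k8)]
  have k9 : y ^ 2 ≤ 5 := by nlinarith [sq_nonneg y]
  nlinarith

/-- The hexagon is bounded. -/
theorem wHex {x : Hyp (Euc m)} (hx : wIn x) (h : ∀ k, 0 ≤ lor (lift x) (wH m k)) :
    dist x (Hyp.mk 0) ≤ 3 := by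
  have hs := Real.mul_self_sqrt goldenRatio_pos.le
  have h0 := h 0
  have h1 := h 1
  have h2 := h 2
  have h3 := h 3
  have h4 := h 4
  have h5 := h 5
  have h6 := wLor_in hx (lift x)
  rw [lor_lift_self] at h6
  simp only [wLor_in hx, wH, lat] at h0 h1 h2 h3 h4 h5
  generalize √goldenRatio = s at *
  simp [wV, wHa, wHb] at h0 h1 h2 h3 h4 h5
  have h7 : cosh (dist x (Hyp.mk 0)) = (lift x).1 := by
    rw [cosh_dist]; simp [lor, lift]
  have h8 := wHexR wPhi_bd hs h6 h0 h1 h2 h3 h4 h5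
  have h9 := Real.self_le_sinh_iff.2 (dist_nonneg (x := x) (y := Hyp.mk 0))
  linarith [Real.sinh_lt_cosh (dist x (Hyp.mk 0))]

/-- Every point lies on the positive side of the six walls of a translate of the hexagon. -/
theorem wChamber (x : Hyp (Euc m)) : ∃ g : Lor (Euc m), wCong g ∧ (∀ j, g.1 (wE j) = wE j) ∧
    ∀ k, 0 ≤ lor (lift x) (g.1 (wH m k)) := by
  let A : Set (ℝ × Euc m) := {v | (∃ g : Lor (Euc m), wCong g ∧ (∀ j, g.1 (wE j) = wE j) ∧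
    g.1 (wN m) = v) ∧ -lor (lift x) v ≤ -lor (lift x) (wN m)}
  have hA : A.Finite := by
    refine (wFin x (lor (wN m) (wN m)) (-lor (lift x) (wN m))).subset ?_
    rintro _ ⟨⟨g, h1, -, rfl⟩, h2⟩
    obtain ⟨a, b, e, -⟩ := h1 (wV m ![2, 0, 1, 0, 0]) (wV m 0)
    exact ⟨⟨a, b, e⟩, g.2.1 _ _, by rwa [abs_of_neg (wN_neg g x)]⟩
  obtain ⟨_, ⟨⟨g, h1, h2, rfl⟩, h3⟩, h4⟩ := Set.exists_min_image A (fun v => -lor (lift x) v) hA
    ⟨wN m, ⟨1, fun a b => ⟨a, b, rfl, rfl, rfl⟩, fun _ => rfl, rfl⟩, le_rfl⟩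
  refine ⟨g, h1, h2, fun k => ?_⟩
  obtain ⟨r, hr⟩ := exists_refl (wH_mem (m := m) k).1
  have e : lor (lift x) ((g * r).1 (wN m)) = lor (lift x) (g.1 (wN m)) -
      2 * lor (wN m) (wH m k) * lor (lift x) (g.1 (wH m k)) := by
    change lor (lift x) (g.1 (r.1 (wN m))) = _
    rw [hr, map_sub, map_smul, lor_sub_right, lor_smul_right]
  by_contra hc
  have h5 := mul_pos (wN_pos (m := m) k) (neg_pos.2 (not_le.1 hc))
  have h6 := h4 ((g * r).1 (wN m)) ⟨⟨g * r, wCong_mul h1 (wCong_refl hr), fun j => by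
    change g.1 (r.1 (wE j)) = _
    rw [hr, wH_wE, mul_zero, zero_smul, sub_zero, h2], rfl⟩, by linarith⟩
  linarith

theorem wDense {x y : Hyp (Euc m)} (hx : wIn x) (hy : wIn y) (h : 7 ≤ dist x y) :
    ∃ c, (c = 0 ∨ c = 2) ∧ ∃ v ∈ wS m c, 0 ≤ lor (lift x) v ∧ lor (lift y) v < 0 := by
  obtain ⟨g, h1, h2, h3⟩ := wChamber x
  by_contra hc
  have h4 : ∀ k, 0 ≤ lor (lift y) (g.1 (wH m k)) := fun k => not_lt.1 fun hk =>
    hc ⟨_, wH_col k, _, wS_map h1 (wH_mem k), h3 k, hk⟩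
  have h5 := wHex (wIn_smul (fun j => wInv_fix (h2 j)) hx) fun k => by rw [wLor_inv]; exact h3 k
  have h6 := wHex (wIn_smul (fun j => wInv_fix (h2 j)) hy) fun k => by rw [wLor_inv]; exact h4 k
  have h7 := dist_triangle_right (g⁻¹ • x) (g⁻¹ • y) (Hyp.mk 0)
  rw [dist_smul_lor] at h7
  linarith

/-- A point off countably many walls. -/
theorem wOff {E : Type} [NormedAddCommGroup E] [InnerProductSpace ℝ E] [CompleteSpace E]
    {A : Set (ℝ × E)} (hA : A.Countable) (h0 : ∀ v ∈ A, v ≠ 0) :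
    ∃ x : Hyp E, ∀ v ∈ A, lor (lift x) v ≠ 0 := by
  have : BaireSpace (Hyp E) := inferInstanceAs (BaireSpace E)
  have : Nonempty (Hyp E) := ⟨Hyp.mk 0⟩
  have h : Dense (⋂ v ∈ A, {x : Hyp E | lor (lift x) v ≠ 0}) := by
    refine dense_biInter_of_isOpen (fun v _ => ?_) hA fun v hv x => ?_
    · exact isOpen_ne_fun (f := fun x : Hyp E => lor (lift x) v) (by unfold lor; fun_prop)
        continuous_const
    · rw [mem_closure_iff_frequently]
      intro hc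
      exact h0 v hv (eq_zero_of_eventually (hc.mono fun y hy => not_not.1 hy))
  obtain ⟨x, hx⟩ := h.nonempty
  exact ⟨x, fun v hv => Set.mem_iInter₂.1 hx v hv⟩

theorem wLat_zero {a b : Fin (m + 4 + 1) → ℤ} (i : Fin (m + 4 + 1))
    (h : (a i : ℝ) + b i * goldenRatio = 0) : wR a i = 0 ∧ wR b i = 0 := by
  obtain ⟨h1, h2⟩ := wIrr goldenRatio_irrational h
  simp [wR, h1, h2]

theorem wGen : ∃ x : Hyp (Euc m), ∀ c, ∀ v ∈ wS m c, lor (lift x) v ≠ 0 := by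
  obtain ⟨x, hx⟩ := wOff (Set.countable_iUnion (wS_countable (m := m))) fun v hv h0 => by
    obtain ⟨c, h, -⟩ := Set.mem_iUnion.1 hv
    simp [h0, lor] at h
  exact ⟨x, fun c v hv => hx v (Set.mem_iUnion.2 ⟨c, hv⟩)⟩

theorem wNorm_I1 (w : ℂ) : ‖I1 m w‖ ^ 2 = ‖w‖ ^ 2 := by
  rw [EuclideanSpace.real_norm_sq_eq, Fin.sum_univ_succ, Fin.sum_univ_succ, Complex.sq_norm,
    Complex.normSq_apply]
  simp [I1, Fin.succ_succ_ne_one, sq]

theorem wLor_I1 (w : ℂ) (v : ℝ × Euc m) :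
    lor (lift (Hyp.mk (I1 m w))) v = lor (lift (Hyp.mk w)) (v.1, Z1 v.2) := by
  rw [wLor_in (wIn_I1 w)]
  simp only [lor, lift, Hyp.val_mk, wNorm_I1, Complex.inner]
  simp [I1, Z1]
  ring

theorem wGen0 : ∃ w : ℂ, ∀ c, c = 0 ∨ c = 2 → ∀ v ∈ wS m c,
    lor (lift (Hyp.mk (I1 m w))) v ≠ 0 := by
  obtain ⟨x, hx⟩ := wOff (((wS_countable (m := m) 0).union (wS_countable 2)).image
    fun v => (v.1, Z1 v.2)) (by
      rintro _ ⟨v, hv, rfl⟩ h0
      obtain ⟨c, hc, -, a, b, j, rfl, rfl, h3, h4⟩ : ∃ c, (c = 0 ∨ c = 2) ∧ v ∈ wS m c :=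
        hv.elim (fun h => ⟨0, Or.inl rfl, h⟩) fun h => ⟨2, Or.inr rfl, h⟩
      have e0 : √goldenRatio * ((a 0 : ℝ) + b 0 * goldenRatio) = 0 := congrArg Prod.fst h0
      have e1 := wLat_zero 0 ((mul_eq_zero.1 e0).resolve_left (Real.sqrt_pos.2 goldenRatio_pos).ne')
      have e2 := wLat_zero (a := a) (b := b) (Fin.succ 1) (congrArg (fun p => p.2.im) h0)
      rw [h3, h4] at e1 e2
      exact wPlane_tab j hc ⟨e1.1, e1.2, e2.1, e2.2⟩)
  refine ⟨x.val, fun c hc v hv => ?_⟩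
  rw [wLor_I1]
  refine hx _ ⟨v, ?_, rfl⟩
  rcases hc with rfl | rfl
  exacts [Or.inl hv, Or.inr hv]

theorem wQuad : ∃ x : Hyp (Euc m), ∀ c, ∃ v ∈ wS m c, lor (lift x) v = 0 := by
  have hs := Real.sq_sqrt goldenRatio_pos.le
  have hx := wIn_I1 (m := m) (√goldenRatio : ℝ)
  have h1 : (lift (Hyp.mk (I1 m (√goldenRatio : ℝ)))).1 = goldenRatio := by
    simp only [lift, Hyp.val_mk, wNorm_I1, Complex.norm_real, Real.norm_eq_abs, sq_abs, hs]
    rw [add_comm, ← goldenRatio_sq, Real.sqrt_sq goldenRatio_pos.le]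
  refine ⟨Hyp.mk (I1 m (√goldenRatio : ℝ)), fun c => ?_⟩
  fin_cases c
  · refine ⟨_, wH_mem 0, ?_⟩
    simp only [wLor_in hx, wH, lat]
    generalize √goldenRatio = s
    simp [wV, wHa, wHb, I1]
  · exact ⟨_, wS_w1, hx 0⟩
  · refine ⟨_, wH_mem 1, ?_⟩
    simp only [wLor_in hx, wH, lat, h1]
    generalize √goldenRatio = s
    simp [wV, wHa, wHb, I1]
    ring
  · exact ⟨_, wS_w3, hx 1⟩

end Pool.Agent.MP_39b1da_gt
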