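import Pool.Agent.MP_39b1da_gt.Lat
import Pool.Agent.MP_39b1da_gt.WallsEx3

/-!
The four families of walls, moved so that the origin lies off the walls of colours `0` and `2`.
-/

set_option autoImplicit false

namespace Pool.Agent.MP_39b1da_gt

open Filter Topology Set Real
open scoped ENNReal NNReal ContDiff InnerProductSpace

theorem wUnif_conj {E : Type} [NormedAddCommGroup E] [InnerProductSpace ℝ E]
    {Γ : Subgroup (Lor E)} (h : IsUnif Γ) (k : Lor E) :
    IsUnif (Γ.comap (MulAut.conj k).toMonoidHom) := by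
  have hm : ∀ g, g ∈ Γ.comap (MulAut.conj k).toMonoidHom ↔ k * g * k⁻¹ ∈ Γ := fun _ => Iff.rfl
  refine ⟨fun g hg x hx => ?_, fun x R => ?_, ?_⟩
  · have := h.free _ ((hm g).1 hg) (k • x) (by rw [mul_smul, mul_smul, inv_smul_smul, hx])
    simpa using this
  · refine (h.proper (k • x) R).preimage (f := fun g => k * g * k⁻¹)
      (MulAut.conj k).injective.injOn |>.subset fun g hg => ⟨(hm g).1 hg.1, ?_⟩
    rw [mul_smul, mul_smul, inv_smul_smul, dist_smul_lor]
    exact hg.2
  · obtain ⟨R, hR⟩ := h.cocpt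
    refine ⟨R + dist (Hyp.mk (0 : E)) (k • Hyp.mk 0), fun x => ?_⟩
    obtain ⟨g, hg, e⟩ := hR (k • x)
    refine ⟨k⁻¹ * g * k, (hm _).2 (by simpa [mul_assoc] using hg), ?_⟩
    rw [← dist_smul_lor k, mul_smul, mul_smul, smul_inv_smul]
    linarith [dist_triangle (g • k • x) (Hyp.mk 0) (k • Hyp.mk 0)]

theorem exists_walls (m : ℕ) : Nonempty (Walls m) := by
  obtain ⟨w, hw⟩ := wGen0 (m := m)
  obtain ⟨h, h1, h2⟩ := exists_boost (Hyp.mk (I1 m w))
  have h3 : ∀ j, (h⁻¹).1 (wE j) = wE j := fun j => wInv_fix (h2 _ (by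
    simpa [lor, wE, lift] using wIn_I1 (m := m) w j))
  have h4 : h⁻¹ • Hyp.mk 0 = Hyp.mk (I1 m w) := by rw [← h1, inv_smul_smul]
  generalize h⁻¹ = k at h3 h4
  have e1 : ∀ v, k.1 ((k⁻¹).1 v) = v := fun v => k.1.apply_symm_apply v
  have e2 : ∀ v, (k⁻¹).1 (k.1 v) = v := fun v => k.1.symm_apply_apply v
  have e3 : ∀ (x : Hyp (Euc m)) v, lor (lift (k • x)) (k.1 v) = lor (lift x) v := fun x v => by
    rw [lift_smul, k.2.1]
  refine ⟨{ Γ := (Gam4 m).comap (MulAut.conj k).toMonoidHom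
            S := fun c => k.1 ⁻¹' wS m c
            unif := wUnif_conj (isUnif_gam4 m) k
            unit := fun c v hv => (k.2.1 v v).symm.trans hv.1
            neg := fun c v hv => ?_
            same := fun c v hv w hw => ?_
            diff := fun c c' hc v hv w hw => ?_
            fin := fun c x R => ?_
            inv := fun g hg c v hv => ?_
            w1 := ?_
            w3 := ?_
            gen0 := fun c hc v hv h0 => ?_
            gen := ?_
            quad := ?_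
            dense := ⟨7, fun x y hxy => ?_⟩ }⟩
  · rw [Set.mem_preimage, map_neg]
    exact wS_neg hv
  · have := wS_same hv hw
    rwa [← map_neg, k.1.injective.eq_iff, k.1.injective.eq_iff, k.2.1] at this
  · have := wS_diff hc hv hw
    rwa [k.2.1] at this
  · refine (wS_fin c (k • x) R).preimage k.1.injective.injOn |>.subset fun v hv => ⟨hv.1, ?_⟩
    rw [e3]
    exact hv.2
  · have := wS_map (wCong_of_cong4 (show k * g * k⁻¹ ∈ Gam4 m from hg).1) hv
    change k.1 (g.1 ((k⁻¹).1 (k.1 v))) ∈ _ at this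
    rwa [e2] at this
  · change k.1 (wE 0) ∈ wS m 1
    rw [h3]
    exact wS_w1
  · change k.1 (wE 1) ∈ wS m 3
    rw [h3]
    exact wS_w3
  · refine hw c hc _ hv ?_
    rw [← h4, e3]
    simp [lor, lift, h0]
  · obtain ⟨x, hx⟩ := wGen (m := m)
    exact ⟨k⁻¹ • x, fun c v hv => by rw [wLor_inv]; exact hx c _ hv⟩
  · obtain ⟨x, hx⟩ := wQuad (m := m)
    refine ⟨k⁻¹ • x, fun c => ?_⟩
    obtain ⟨v, hv, e⟩ := hx c
    exact ⟨(k⁻¹).1 v, by rwa [Set.mem_preimage, e1], by rw [wLor_inv, e1, e]⟩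
  · obtain ⟨c, hc, v, hv, a1, a2⟩ := wDense (wIn_smul h3 (wIn_I1 x)) (wIn_smul h3 (wIn_I1 y))
      (by rwa [dist_smul_lor])
    exact ⟨c, hc, (k⁻¹).1 v, by rwa [Set.mem_preimage, e1], by rwa [← e3, e1],
      by rwa [← e3, e1]⟩

end Pool.Agent.MP_39b1da_gt
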