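import Pool.Agent.MP_39b1da_gt.Patch
import Pool.Agent.MP_39b1da_gt.CH
import Pool.Agent.MP_39b1da_gt.UC
import Pool.Agent.MP_39b1da_gt.QI
import Pool.Agent.MP_39b1da_gt.BdryEst
import Pool.Agent.MP_39b1da_gt.Pansu
import Pool.Agent.MP_39b1da_gt.WallsEx
import Pool.Agent.MP_39b1da_gt.Signs
import Pool.Agent.MP_39b1da_gt.Charts
import Pool.Agent.MP_39b1da_gt.Trans
import Pool.Agent.MP_39b1da_gt.Sing
import Pool.Agent.MP_39b1da_gt.Curv
import Pool.Agent.MP_39b1da_gt.AdmEx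
import Pool.Agent.MP_39b1da_gt.Pack
import Pool.Agent.MP_39b1da_gt.AptEx
import Pool.Agent.MP_39b1da_gt.Reg

set_option autoImplicit false

namespace Pool.Agent.MP_39b1da_gt

open Filter Topology Set Real Manifold Bundle
open scoped ENNReal NNReal ContDiff InnerProductSpace

variable {m : ℕ}

theorem adm_cond {l : ℝ → ℝ} (hl : Adm l) (b : Bool) : Adm (cond b l 0) := by
  cases b
  · exact adm_zero
  · exact hl

theorem one_le_cond {k : ℕ} (hk : 1 ≤ k) (b : Bool) : 1 ≤ cond b k 1 := by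
  cases b
  · exact le_rfl
  · exact hk

/-- The smooth negatively curved structure on the branched cover. -/
theorem smooth_BM (D : Setup m) {k : ℕ} (hk : 1 ≤ k) :
    ∃ (M : Type) (_ : EMetricSpace M) (_ : ChartedSpace (Euc m) M)
      (_ : RiemannianBundle (fun x : M => TangentSpace 𝓘(ℝ, Euc m) x)),
      IsClosedNegCurved (Euc m) M ∧ Nonempty (M ≃ₜ BM D k) := by
  obtain ⟨l, hl, hl'⟩ := exists_adm (k := k) (by exact_mod_cast hk)
  have := compact_BM D hk
  have := connected_BM D hk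
  exact package (fun c : BChart D k => c.e) (fun c => Gm (cond c.b1 l 0) (cond c.b2 l 0))
    (exists_chart D hk) (fun c => Gm_smooth (adm_cond hl _) (adm_cond hl _))
    (fun c => Gm_symm) (fun c => Gm_linear)
    (fun c x u hu => Gm_pos (adm_cond hl _) (adm_cond hl _) x hu)
    (fun c c' x hx hx' => chart_trans D hk hl' c c' hx hx')
    (fun c => Gm_neg (adm_cond hl _) (adm_cond hl _))

/-- The singular metric on the branched cover. -/
theorem sing_BM (D : Setup m) {k : ℕ} (hk : 1 ≤ k) :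
    ∃ (S : Type) (_ : MetricSpace S) (f : BM D k ≃ₜ S) (ε : ℝ), LocK S ε ∧
      (∀ x y : BM D k, dist x.1.1 y.1.1 ≤ dist (f x) (f y)) ∧
      ∀ (x y : BM D k) (a : Path x y),
        edist (f x) (f y) ≤ eVariationOn ((fun z : BM D k => z.1.1) ∘ a) univ := by
  have := compact_BM D hk
  have := connected_BM D hk
  refine sing_metric (fun z : BM D k => z.1.1) fun x => ?_
  obtain ⟨c, hc⟩ := exists_chart D hk x
  obtain ⟨Z, _, h, hZ, h1, h2⟩ := cone_model m (cond c.b1 k 1) (cond c.b2 k 1)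
    (one_le_cond hk _) (one_le_cond hk _)
  obtain ⟨δ, hδ, hq⟩ := D.q_iso
  have key : ∀ z ∈ (c.e.transHomeomorph h.symm).target,
      ((c.e.transHomeomorph h.symm).symm z).1.1 =
        D.q (c.Φ⁻¹ • Hyp.mk (pr (cond c.b1 k 1) (cond c.b2 k 1) (h z))) := fun z hz =>
    c.base (h z) hz
  refine ⟨Z, inferInstance, c.e.transHomeomorph h.symm, hc, hZ,
    h.isClosedEmbedding.locallyCompactSpace, fun z hz z' hz' => ?_, fun z hz => ?_⟩
  · rw [key z hz, key z' hz']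
    exact (D.q_lip _ _).trans ((dist_smul_lor _ _ _).le.trans (h1 z z'))
  · have ho := (c.e.transHomeomorph h.symm).open_target.mem_nhds hz
    filter_upwards [ho, h2 z, Metric.ball_mem_nhds z hδ] with z' hz' e hb
    rw [key z hz, key z' hz', ← e, ← dist_smul_lor c.Φ⁻¹]
    refine (hq _).1 _ (Metric.mem_ball_self hδ) _ ?_
    rw [Metric.mem_ball, dist_smul_lor, dist_comm, e, dist_comm]
    exact hb

/-- The boundary estimate from a family of planes. -/
theorem cdim_ge {X : Type} [MetricSpace X] (hK : GlobK X) {d : X → X → ℝ} (hd : CoarseLen d)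
    {L : ℝ} (hq : ∀ x y, d x y ≤ L * dist x y + L ∧ dist x y ≤ L * d x y + L) (o : X)
    {Ω : Type} [MeasurableSpace Ω] (μ : MeasureTheory.Measure Ω)
    [MeasureTheory.IsProbabilityMeasure μ] (c : Ω → ℝ → ℝ → X) (hray : ∀ w θ, IsRay o (c w θ))
    (hsin : ∀ w θ θ', qr (c w θ) (c w θ') = |sin ((θ - θ') / 2)|) {s : ℝ} (hs : 1 < s)
    (hr : Regular μ (fun a b => qr (c a.1 a.2) (c b.1 b.2)) s) :
    ENNReal.ofReal (s / (s - 1)) ≤ cdim d o := by
  obtain ⟨e, he⟩ := boundary_est hK hd hq o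
  unfold cdim
  refine le_iInf fun ρ => le_iInf fun hρ => ?_
  obtain ⟨e1, e2, e3⟩ := he hρ.choose ρ hρ.choose_spec.1 hρ.choose_spec.2
  have hsin2 : 0 < sin (1 / 2) := sin_pos_of_pos_of_lt_pi (by norm_num) (by linarith [pi_gt_three])
  obtain ⟨η, hη, e3⟩ := e3 _ hsin2
  refine pansu μ (Z := Bdry d o) (fun a => e ⟨c a.1 a.2, hray a.1 a.2⟩)
    (fun a b => qr (c a.1 a.2) (c b.1 b.2)) (K₀ := 10) (c₀ := η) hs
    (fun a b => qr_nonneg (hray _ _) (hray _ _)) (fun a b => qr_le_one (hray _ _) (hray _ _))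
    (fun a => qr_self _) (fun a b => qr_comm _ _)
    (fun a b c => qr_tri (hray _ _) (hray _ _) (hray _ _)) (fun K => ?_) (fun w => ?_) hη
    (fun w => e3 _ _ ?_) hr
  · obtain ⟨H, hH⟩ := e1 K
    exact ⟨H, fun a b c h => hH ⟨_, hray a.1 a.2⟩ ⟨_, hray b.1 b.2⟩ ⟨_, hray c.1 c.2⟩ h⟩
  · refine Metric.continuous_iff.2 fun θ r hr => ?_
    obtain ⟨κ, hκ, h⟩ := e2 (r / 2) (by linarith)
    refine ⟨κ, hκ, fun θ' hθ => lt_of_le_of_lt (h _ _ ?_) (by linarith)⟩
    change qr (c w θ') (c w θ) ≤ κ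
    rw [hsin]
    refine (Real.abs_sin_le_abs).trans ?_
    rw [Real.dist_eq] at hθ
    rw [abs_div, abs_two]
    linarith [abs_nonneg (θ' - θ)]
  · change sin (1 / 2) ≤ qr (c w 0) (c w 1)
    rw [hsin, show ((0 : ℝ) - 1) / 2 = -(1 / 2) by norm_num, sin_neg, abs_neg]
    exact le_abs_self _

theorem lower (D : Setup m) : ∃ C₁ > 0, ∀ k : ℕ, 2 ≤ k →
    ∃ (M : Type) (_ : EMetricSpace M) (_ : ChartedSpace (Euc m) M)
      (_ : RiemannianBundle (fun x : M => TangentSpace 𝓘(ℝ, Euc m) x)) (o : M),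
      (IsClosedNegCurved (Euc m) M ∧ ∃ ρ, IsVisual udist (ubase o) ρ) ∧
      ENNReal.ofReal (log k / C₁) ≤ cdim udist (ubase o) := by
  obtain ⟨C₁, hC₁, hreg⟩ := regular_apts D.toBranch
  refine ⟨C₁, hC₁, fun k hk => ?_⟩
  have hk1 : 1 ≤ k := by omega
  obtain ⟨M, i1, i2, i3, hM, ⟨g⟩⟩ := smooth_BM D hk1
  obtain ⟨S, _, f, ε, hS, hS1, hS2⟩ := sing_BM D hk1
  obtain ⟨m₀, hm₀⟩ := exists_apts D hk1
  have := compact_BM D hk1
  have := connected_BM D hk1
  have hcS : CompactSpace S := f.compactSpace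
  have : ConnectedSpace S := f.surjective.connectedSpace f.continuous
  have hl : IsLen M := by
    obtain ⟨_, -, -, -, h, -⟩ := hM
    exact isLen_of_riemannian (Euc m) M h
  obtain ⟨_, hX, _, hsc, hXl, δ, hδ⟩ := ucover_space (g.trans f) hS (g.symm m₀)
  obtain ⟨hcl, L, hL⟩ := ulen_qi (g.trans f) hS hl (g.symm m₀)
  have hK0 := hδ.locK hS
  obtain ⟨δ', hg⟩ := ugeo_of_simplyConnected hK0 hXl
  have hK := globK_of_ugeo hK0 hg
  have hq : ∀ x y : UCover M (g.symm m₀),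
      udist x y ≤ L * dist x y + L ∧ dist x y ≤ L * udist x y + L := by
    intro x y
    rw [dist_edist, hX]
    exact hL x y
  obtain ⟨C, -, -, h4⟩ := morse hK hcl hq
  refine ⟨M, i1, i2, i3, g.symm m₀, ⟨hM, exists_visual hcl _ (h4 _)⟩, ?_⟩
  obtain ⟨A⟩ := hm₀ S _ f _ δ (ubase (g.symm m₀)) hcS hS1 hS2 hδ hsc hK
    (congrArg f (g.apply_symm_apply m₀))
  obtain ⟨hray, hsin, _, μ, hμ, hr⟩ := hreg k hk _ _ A
  have hlog : 0 < log k := Real.log_pos (by exact_mod_cast (by omega : 1 < k))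
  have hs : 1 < 1 + C₁ / log k := by have := div_pos hC₁ hlog; linarith
  refine le_trans (ENNReal.ofReal_le_ofReal ?_)
    (cdim_ge hK hcl hq _ μ (fun w θ t => A.σ w (pol t θ)) hray hsin hs hr)
  rw [add_sub_cancel_left, div_le_div_iff₀ hC₁ (div_pos hC₁ hlog), mul_div_cancel₀ _ hlog.ne']
  nlinarith [mul_pos (div_pos hC₁ hlog) hC₁]

theorem cdimUnbounded (m : ℕ) : CdimUnbounded (Euc m) := by
  obtain ⟨W⟩ := exists_walls m
  obtain ⟨B⟩ := exists_branch W
  obtain ⟨D⟩ := exists_setup B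
  obtain ⟨C₁, hC₁, h⟩ := lower D
  choose M i1 i2 i3 o h1 h2 using fun i : ℕ => h (i + 2) (by omega)
  refine ⟨M, i1, i2, i3, o, h1, tendsto_nhds_top_mono' ?_ h2⟩
  refine ENNReal.tendsto_ofReal_atTop.comp (Tendsto.atTop_div_const hC₁ ?_)
  exact tendsto_log_atTop.comp (tendsto_natCast_atTop_atTop.comp (tendsto_add_atTop_nat 2))

end Pool.Agent.MP_39b1da_gt
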