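import Pool.Agent.MP_39b1da_gt.Loc

set_option autoImplicit false

namespace Pool.Agent.MP_39b1da_gt

open Filter Topology Set Real
open scoped ENNReal NNReal ContDiff InnerProductSpace

theorem Morse_cosh_half (x : ℝ) : cosh x = 1 + 2 * sinh (x / 2) ^ 2 := by
  have h := cosh_two_mul (x / 2)
  rw [show 2 * (x / 2) = x by ring, cosh_sq'] at h
  linarith

theorem Morse_cosh_sub (u v : ℝ) : cosh (u + v) - cosh (u - v) = 2 * (sinh u * sinh v) := by
  rw [cosh_add, cosh_sub]; ring

theorem Morse_sinh_mul_le {g a : ℝ} (ha : 0 ≤ a) : sinh g * sinh (a - g) ≤ sinh a / 2 := by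
  have h1 := Morse_cosh_sub g (a - g)
  rw [add_sub_cancel] at h1
  have h2 := one_le_cosh (g - (a - g))
  have h3 := cosh_sub_sinh a
  have h4 : exp (-a) ≤ 1 := exp_le_one_iff.2 (by linarith)
  linarith

theorem Morse_sinh_le_exp {s g : ℝ} (h : s ≤ g) : sinh s ≤ exp (s - g) * sinh g := by
  have h1 : exp (g - s) * sinh s ≤ sinh g := by
    have e : sinh g = sinh (s + (g - s)) := by rw [add_sub_cancel]
    rw [e, sinh_add, ← cosh_add_sinh (g - s)]
    have h1 : sinh s ≤ cosh s := (sinh_lt_cosh s).le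
    have h2 : 0 ≤ sinh (g - s) := sinh_nonneg_iff.2 (by linarith)
    nlinarith
  have h2 : exp (s - g) * exp (g - s) = 1 := by rw [← exp_add]; simp
  calc sinh s = exp (s - g) * (exp (g - s) * sinh s) := by rw [← mul_assoc, h2, one_mul]
    _ ≤ _ := mul_le_mul_of_nonneg_left h1 (exp_pos _).le

theorem Morse_le_one {x : ℝ} (hx : 0 ≤ x) (h : cosh x ≤ 3 / 2) : x ≤ 1 := by
  have h1 : (3 / 2 : ℝ) ≤ cosh 1 := by
    rw [cosh_eq]
    have := exp_one_gt_d9
    have := exp_neg_one_gt_d9
    linarith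
  have h2 := cosh_le_cosh.1 (h.trans h1)
  rwa [abs_of_nonneg hx, abs_one] at h2

section
variable {X : Type} [MetricSpace X]

theorem Morse_btw_symm {y x z : X} (h : Btw y x z) : Btw z x y := by
  unfold Btw at *
  rw [dist_comm z x, dist_comm x y, dist_comm z y]; linarith

theorem Morse_key (h : GlobK X) {p y z y' z' : X} (by' : Btw p y' y) (bz' : Btw p z' z)
    (e' : dist p y' = dist p z') :
    sinh (dist p y) * sinh (dist p z) * (cosh (dist y' z') - 1) ≤
      sinh (dist p y') ^ 2 * (cosh (dist y z) - cosh (dist p y - dist p z)) := by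
  have k1 := h.k z p y' y by'
  have k2 := h.k y' p z' z bz'
  unfold KIneq at k1 k2
  have e1 : dist y' y = dist p y - dist p y' := by have := by'; unfold Btw at this; linarith
  have e2 : dist z' z = dist p z - dist p y' := by have := bz'; unfold Btw at this; linarith
  rw [e1, dist_comm z y', dist_comm z p, dist_comm z y, sinh_sub] at k1
  rw [e2, dist_comm y' p, ← e', sinh_sub] at k2
  rw [cosh_sub]
  have ha : 0 ≤ sinh (dist p y) := sinh_nonneg_iff.2 dist_nonneg
  have hs : 0 ≤ sinh (dist p y') := sinh_nonneg_iff.2 dist_nonneg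
  have k3 := mul_le_mul_of_nonneg_left k1 hs
  have k4 := mul_le_mul_of_nonneg_left k2 ha
  have k5 := cosh_sq' (dist p y')
  generalize sinh (dist p y) = sa at *
  generalize cosh (dist p y) = ca at *
  generalize sinh (dist p z) = sb at *
  generalize cosh (dist p z) = cb at *
  generalize sinh (dist p y') = ss at *
  generalize cosh (dist p y') = cs at *
  generalize cosh (dist y z) = cc at *
  generalize cosh (dist y' z') = cd at *
  generalize cosh (dist y' z) = ce at *
  have k6 : sa * sb * cs ^ 2 = sa * sb * (1 + ss ^ 2) := by rw [k5]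
  nlinarith

theorem GlobK.ratio (h : GlobK X) {p y z y' z' : X} (by' : Btw p y' y) (bz' : Btw p z' z)
    (e : dist p y = dist p z) (e' : dist p y' = dist p z') :
    sinh (dist y' z' / 2) * sinh (dist p y) ≤ sinh (dist y z / 2) * sinh (dist p y') := by
  have k := Morse_key h by' bz' e'
  rw [← e, sub_self, cosh_zero, Morse_cosh_half (dist y' z'), Morse_cosh_half (dist y z)] at k
  have h1 : 0 ≤ sinh (dist y z / 2) * sinh (dist p y') :=
    mul_nonneg (sinh_nonneg_iff.2 (by positivity)) (sinh_nonneg_iff.2 dist_nonneg)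
  refine (abs_le_of_sq_le_sq' ?_ h1).2
  nlinarith

theorem GlobK.fellow (h : GlobK X) {p y z y' z' : X} (by' : Btw p y' y) (bz' : Btw p z' z)
    (e' : dist p y' = dist p z') (hs : dist p y' ≤ gp dist p y z) :
    cosh (dist y' z') ≤ 1 + exp (2 * (dist p y' - gp dist p y z)) / 2 := by
  have k := Morse_key h by' bz' e'
  have hE := exp_pos (2 * (dist p y' - gp dist p y z))
  rcases (dist_nonneg : 0 ≤ dist p y').eq_or_lt with h0 | h0
  · have e1 : p = y' := dist_eq_zero.1 h0.symm
    have e2 : p = z' := dist_eq_zero.1 (e' ▸ h0.symm)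
    have e3 : dist y' z' = 0 := by rw [← e1, ← e2, dist_self]
    rw [e3, cosh_zero]
    linarith
  have ha : 0 < dist p y := by
    have := by'; unfold Btw at this; linarith [dist_nonneg (x := y') (y := y)]
  have hb : 0 < dist p z := by
    have := bz'; unfold Btw at this; linarith [dist_nonneg (x := z') (y := z)]
  set g := gp dist p y z with hg
  have hg' : g = (dist p y + dist p z - dist y z) / 2 := rfl
  have hga : 0 ≤ dist p y - g := by
    have := dist_triangle p y z; linarith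
  have hgb : 0 ≤ dist p z - g := by
    have := dist_triangle p z y; rw [dist_comm z y] at this; linarith
  have k1 := Morse_cosh_sub (dist p y - g) (dist p z - g)
  rw [show dist p y - g + (dist p z - g) = dist y z by linarith,
    show dist p y - g - (dist p z - g) = dist p y - dist p z by ring] at k1
  rw [k1] at k
  have k2 := Morse_sinh_mul_le (g := g) ha.le
  have k3 := Morse_sinh_mul_le (g := g) hb.le
  have k4 := Morse_sinh_le_exp hs
  have p1 : 0 < sinh (dist p y) := sinh_pos_iff.2 ha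
  have p2 : 0 < sinh (dist p z) := sinh_pos_iff.2 hb
  have p3 : 0 ≤ sinh (dist p y - g) := sinh_nonneg_iff.2 hga
  have p4 : 0 ≤ sinh (dist p z - g) := sinh_nonneg_iff.2 hgb
  have p5 : 0 ≤ sinh (dist p y') := sinh_nonneg_iff.2 h0.le
  have p6 : 0 ≤ sinh g := sinh_nonneg_iff.2 (h0.le.trans hs)
  have k5 : sinh (dist p y') ^ 2 ≤ (exp (dist p y' - g) * sinh g) ^ 2 :=
    pow_le_pow_left₀ p5 k4 2
  have k6 : exp (2 * (dist p y' - g)) = exp (dist p y' - g) ^ 2 := by
    rw [two_mul, exp_add, sq]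
  have k7 : (sinh g * sinh (dist p y - g)) * (sinh g * sinh (dist p z - g)) ≤
      (sinh (dist p y) / 2) * (sinh (dist p z) / 2) :=
    mul_le_mul k2 k3 (by positivity) (by positivity)
  have k8 : sinh (dist p y) * sinh (dist p z) * (cosh (dist y' z') - 1) ≤
      sinh (dist p y) * sinh (dist p z) * (exp (2 * (dist p y' - g)) / 2) := by
    calc _ ≤ _ := k
      _ ≤ (exp (dist p y' - g) * sinh g) ^ 2 *
          (2 * (sinh (dist p y - g) * sinh (dist p z - g))) :=
        mul_le_mul_of_nonneg_right k5 (by positivity)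
      _ = 2 * exp (dist p y' - g) ^ 2 *
          ((sinh g * sinh (dist p y - g)) * (sinh g * sinh (dist p z - g))) := by ring
      _ ≤ 2 * exp (dist p y' - g) ^ 2 * ((sinh (dist p y) / 2) * (sinh (dist p z) / 2)) :=
        mul_le_mul_of_nonneg_left k7 (by positivity)
      _ = _ := by rw [k6]; ring
  have := le_of_mul_le_mul_left k8 (by positivity)
  linarith

theorem Morse_fellow_one (h : GlobK X) {p y z y' z' : X} (by' : Btw p y' y) (bz' : Btw p z' z)
    (e' : dist p y' = dist p z') (hs : dist p y' ≤ gp dist p y z) : dist y' z' ≤ 1 := by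
  have k := h.fellow by' bz' e' hs
  have h1 : exp (2 * (dist p y' - gp dist p y z)) ≤ 1 := exp_le_one_iff.2 (by linarith)
  exact Morse_le_one dist_nonneg (by linarith)

theorem Morse_gp_le (p y z : X) : gp dist p y z ≤ dist p z := by
  have := dist_triangle p z y
  rw [dist_comm z y] at this
  unfold gp; linarith

theorem Morse_gp_nonneg (p y z : X) : 0 ≤ gp dist p y z := by
  have := dist_triangle y p z
  rw [dist_comm y p] at this
  unfold gp; linarith

omit [MetricSpace X] in
theorem Morse_gp_comm {d : X → X → ℝ} (hd : ∀ x y, d x y = d y x) (p y z : X) :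
    gp d p y z = gp d p z y := by
  unfold gp; rw [hd y z]; ring

/-- A companion point on another side, up to the Gromov product. -/
theorem Morse_side (h : GlobK X) {p y y' : X} (z : X) (b : Btw p y' y)
    (hs : dist p y' ≤ gp dist p y z) :
    ∃ z', Btw p z' z ∧ dist p z' = dist p y' ∧ dist y' z' ≤ 1 := by
  obtain ⟨u, hu, bu⟩ := h.btw p z (dist p y') dist_nonneg (hs.trans (Morse_gp_le p y z))
  exact ⟨u, bu, hu, Morse_fellow_one h b bu hu.symm hs⟩

/-- Triangles are thin. -/
theorem Morse_thin (h : GlobK X) {x z y : X} (b : Btw x z y) (w : X) :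
    ∃ u, (Btw x u w ∨ Btw y u w) ∧ dist z u ≤ 1 := by
  rcases le_total (dist x z) (gp dist x y w) with h1 | h1
  · obtain ⟨u, bu, -, hu⟩ := Morse_side h w b h1
    exact ⟨u, Or.inl bu, hu⟩
  · obtain ⟨u, bu, -, hu⟩ := Morse_side h w (Morse_btw_symm b) (by
      unfold Btw at b
      unfold gp at h1 ⊢
      rw [dist_comm y z, dist_comm y x]; linarith)
    exact ⟨u, Or.inr bu, hu⟩

/-- A geodesic stays logarithmically close to any chain joining its ends. -/
theorem Morse_log (h : GlobK X) {A : ℝ} (hA : 0 ≤ A) (j : ℕ) : ∀ (p : ℕ → X) (N : ℕ) (z : X),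
    N ≤ 2 ^ j → (∀ i < N, dist (p i) (p (i + 1)) ≤ A) → Btw (p 0) z (p N) →
    ∃ i ≤ N, dist z (p i) ≤ j + A := by
  induction j with
  | zero =>
    intro p N z hN hp b
    refine ⟨0, Nat.zero_le _, ?_⟩
    unfold Btw at b
    have h1 : dist (p 0) (p N) ≤ A := by
      obtain rfl | rfl : N = 0 ∨ N = 1 := by omega
      · rwa [dist_self]
      · exact hp 0 one_pos
    rw [dist_comm]
    have := dist_nonneg (x := z) (y := p N)
    simp only [Nat.cast_zero]; linarith
  | succ j ih =>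
    intro p N z hN hp b
    push_cast
    rcases le_total N (2 ^ j) with h1 | h1
    · obtain ⟨i, hi, e⟩ := ih p N z h1 hp b
      exact ⟨i, hi, by linarith⟩
    obtain ⟨u, bu | bu, hu⟩ := Morse_thin h b (p (2 ^ j))
    · obtain ⟨i, hi, e⟩ := ih p (2 ^ j) u le_rfl (fun i hi => hp i (by omega)) bu
      exact ⟨i, by omega, by linarith [dist_triangle z u (p i)]⟩
    · obtain ⟨i, hi, e⟩ := ih (fun i => p (2 ^ j + i)) (N - 2 ^ j) u (by omega)
        (fun i hi => hp (2 ^ j + i) (by omega)) (by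
          have : 2 ^ j + (N - 2 ^ j) = N := by omega
          simp only [this, add_zero]
          exact Morse_btw_symm bu)
      exact ⟨2 ^ j + i, by omega, by linarith [dist_triangle z u (p (2 ^ j + i))]⟩

theorem Morse_log' (h : GlobK X) {A : ℝ} (hA : 0 ≤ A) (k : ℕ) (p : ℕ → X) (N : ℕ)
    (hp : ∀ i < N, dist (p i) (p (i + 1)) ≤ A) {i j : ℕ} (hi : i ≤ N) (hj : j ≤ N)
    (hij : |(i : ℝ) - j| ≤ 2 ^ k) {z : X} (b : Btw (p i) z (p j)) :
    ∃ l ≤ N, dist z (p l) ≤ k + A := by
  wlog hle : i ≤ j generalizing i j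
  · exact this hj hi (by rwa [abs_sub_comm]) (Morse_btw_symm b) (by omega)
  have h1 : j - i ≤ 2 ^ k := by
    have h2 : ((j - i : ℕ) : ℝ) ≤ ((2 ^ k : ℕ) : ℝ) := by
      push_cast [Nat.cast_sub hle]
      have := (abs_le.1 hij).1
      linarith
    exact_mod_cast h2
  obtain ⟨l, hl, e⟩ := Morse_log h hA k (fun n => p (i + n)) (j - i) z h1
    (fun n hn => hp (i + n) (by omega)) (by
      have : i + (j - i) = j := by omega
      simpa only [this, add_zero] using b)
  exact ⟨i + l, by omega, e⟩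

omit [MetricSpace X] in
theorem Morse_chain_le {d : X → X → ℝ} (hd : CoarseLen d) {p : ℕ → X} {N : ℕ}
    (hp : ∀ i < N, d (p i) (p (i + 1)) ≤ 1) (i n : ℕ) (hn : i + n ≤ N) :
    d (p i) (p (i + n)) ≤ n := by
  induction n with
  | zero => simp [hd.self]
  | succ n ih =>
    have h1 := hd.tri (p i) (p (i + n)) (p (i + n + 1))
    have h2 := hp (i + n) (by omega)
    have h3 := ih (by omega)
    rw [← add_assoc]; push_cast; linarith

omit [MetricSpace X] in
theorem Morse_chain_le' {d : X → X → ℝ} (hd : CoarseLen d) {p : ℕ → X} {N : ℕ}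
    (hp : ∀ i < N, d (p i) (p (i + 1)) ≤ 1) {i j : ℕ} (hij : i ≤ j) (hj : j ≤ N) :
    d (p i) (p j) ≤ j - i := by
  have := Morse_chain_le hd hp i (j - i) (by omega)
  rwa [show i + (j - i) = j by omega, Nat.cast_sub hij] at this

omit [MetricSpace X] in
theorem Morse_chain_ge {d : X → X → ℝ} (hd : CoarseLen d) {p : ℕ → X} {N : ℕ}
    (hp : ∀ i < N, d (p i) (p (i + 1)) ≤ 1) (hN : (N : ℝ) ≤ d (p 0) (p N) + 2) {i j : ℕ}
    (hi : i ≤ N) (hj : j ≤ N) : |(i : ℝ) - j| ≤ d (p i) (p j) + 2 := by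
  wlog hle : i ≤ j generalizing i j
  · rw [abs_sub_comm, hd.symm]; exact this hj hi (by omega)
  have h1 := Morse_chain_le' hd hp (Nat.zero_le i) hi
  have h2 := Morse_chain_le' hd hp hj le_rfl
  have h3 := hd.tri (p 0) (p i) (p N)
  have h4 := hd.tri (p i) (p j) (p N)
  have h5 : (i : ℝ) ≤ j := by exact_mod_cast hle
  rw [abs_of_nonpos (by linarith)]
  simp only [Nat.cast_zero] at h1
  linarith

/-- The point of a geodesic at distance `2 D` before `z`, or its end, with a chain point near. -/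
theorem Morse_end (h : GlobK X) {p : ℕ → X} {N : ℕ} {x y z : X} {D : ℝ} (hD : 0 ≤ D)
    (hx : ∃ i ≤ N, p i = x) (b : Btw x z y)
    (near : ∀ w, Btw x w y → ∃ i ≤ N, dist w (p i) ≤ D + 1)
    (far : ∀ i ≤ N, D - 1 ≤ dist z (p i)) :
    ∃ x', ∃ i ≤ N, Btw x x' z ∧ dist x' z ≤ 2 * D ∧ dist x' (p i) ≤ D + 1 ∧
      D - 1 + dist x' (p i) ≤ dist x' z := by
  rcases le_total (dist x z) (2 * D) with h1 | h1
  · obtain ⟨i, hi, e⟩ := hx
    refine ⟨x, i, hi, by simp [Btw], h1, by rw [e, dist_self]; linarith, ?_⟩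
    have := far i hi
    rw [e, dist_comm] at this
    rw [e, dist_self]; linarith
  · obtain ⟨w, hw, bw⟩ := h.btw x z (dist x z - 2 * D) (by linarith) (by linarith)
    have h2 : dist w z = 2 * D := by unfold Btw at bw; linarith
    obtain ⟨i, hi, e⟩ := near w (by
      unfold Btw at *
      have := dist_triangle x w y
      have := dist_triangle w z y
      linarith)
    exact ⟨w, i, hi, bw, h2.le, e, by linarith⟩

/-- The Morse lemma for chains. -/
theorem Morse_near (h : GlobK X) {d : X → X → ℝ} (hd : CoarseLen d) {L : ℝ} (hL : 0 ≤ L)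
    (hq : ∀ x y, dist x y ≤ L * d x y + L ∧ d x y ≤ L * dist x y + L) :
    ∃ R : ℝ, ∀ (p : ℕ → X) (N : ℕ), (∀ i < N, d (p i) (p (i + 1)) ≤ 1) →
      (N : ℝ) ≤ d (p 0) (p N) + 2 → ∀ z, Btw (p 0) z (p N) → ∃ i ≤ N, dist z (p i) ≤ R := by
  obtain ⟨K, hK⟩ := exists_nat_ge (15 * L + 2)
  refine ⟨2 * (4 + K + 2 * L) + 1, fun p N hp hN => ?_⟩
  have hp' : ∀ i < N, dist (p i) (p (i + 1)) ≤ 2 * L := fun i hi => by
    have h1 := (hq (p i) (p (i + 1))).1
    have h2 := mul_le_mul_of_nonneg_left (hp i hi) hL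
    linarith
  set S : Set ℝ := {r | ∃ z, Btw (p 0) z (p N) ∧ ∀ i ≤ N, r ≤ dist z (p i)} with hS
  have S0 : (0 : ℝ) ∈ S := ⟨p 0, by simp [Btw], fun _ _ => dist_nonneg⟩
  have Sb : BddAbove S := by
    refine ⟨dist (p 0) (p N), ?_⟩
    rintro r ⟨z, b, hz⟩
    have h1 := hz 0 (Nat.zero_le _)
    unfold Btw at b
    rw [dist_comm] at h1
    linarith [dist_nonneg (x := z) (y := p N)]
  set D := sSup S with hD
  have hD0 : 0 ≤ D := le_csSup Sb S0
  have near : ∀ w, Btw (p 0) w (p N) → ∃ i ≤ N, dist w (p i) ≤ D + 1 := by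
    intro w b
    by_contra hc
    push Not at hc
    have : D + 1 ≤ D := le_csSup Sb ⟨w, b, fun i hi => (hc i hi).le⟩
    linarith
  suffices hb : D ≤ 2 * (4 + K + 2 * L) by
    intro z b
    obtain ⟨i, hi, e⟩ := near z b
    exact ⟨i, hi, by linarith⟩
  obtain ⟨r, ⟨z, b, hz⟩, hr⟩ := exists_lt_of_lt_csSup ⟨0, S0⟩ (show D - 1 < D by linarith)
  have far : ∀ i ≤ N, D - 1 ≤ dist z (p i) := fun i hi => hr.le.trans (hz i hi)
  obtain ⟨x', i, hi, bx, x1, x2, x3⟩ := Morse_end h hD0 ⟨0, Nat.zero_le _, rfl⟩ b near far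
  obtain ⟨y', j, hj, by', y1, y2, y3⟩ := Morse_end h hD0 ⟨N, le_rfl, rfl⟩ (Morse_btw_symm b)
    (fun w bw => near w (Morse_btw_symm bw)) far
  have hK0 : (0 : ℝ) ≤ K := Nat.cast_nonneg K
  have b' : Btw x' z y' := by
    unfold Btw at *
    have h1 := dist_triangle4 (p 0) x' y' (p N)
    have h2 := dist_triangle x' z y'
    rw [dist_comm y' z, dist_comm (p N) z] at by'
    rw [dist_comm y' (p N)] at h1
    linarith
  obtain ⟨u, bu | bu, hu⟩ := Morse_thin h b' (p i)
  · unfold Btw at bu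
    have h1 := dist_triangle x' u z
    rw [dist_comm u z] at h1
    linarith [dist_nonneg (x := u) (y := p i)]
  obtain ⟨v, bv | bv, hv⟩ := Morse_thin h bu (p j)
  · unfold Btw at bv
    have h1 := dist_triangle4 y' v u z
    rw [dist_comm u z, dist_comm v u] at h1
    linarith [dist_nonneg (x := v) (y := p j)]
  have c1 : dist (p i) (p j) ≤ 6 * D + 2 := by
    have h1 := dist_triangle4 (p i) x' y' (p j)
    have h2 := dist_triangle x' z y'
    rw [dist_comm z y'] at h2
    rw [dist_comm (p i) x'] at h1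
    linarith
  have c2 : |(i : ℝ) - j| ≤ 6 * L * D + (3 * L + 2) := by
    have h1 := Morse_chain_ge hd hp hN hi hj
    have h2 := (hq (p i) (p j)).2
    have h3 := mul_le_mul_of_nonneg_left c1 hL
    linarith
  have c3 : |(i : ℝ) - j| ≤ 2 ^ (⌈D / 2⌉₊ + K) := by
    have h1 : D / 2 + 1 ≤ 2 ^ ⌈D / 2⌉₊ := by
      have h2 : ((⌈D / 2⌉₊ + 1 : ℕ) : ℝ) ≤ ((2 ^ ⌈D / 2⌉₊ : ℕ) : ℝ) := by
        exact_mod_cast Nat.lt_two_pow_self
      push_cast at h2
      linarith [Nat.le_ceil (D / 2)]
    have h2 : 15 * L + 2 ≤ (2 : ℝ) ^ K := by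
      have h3 : ((K : ℕ) : ℝ) ≤ ((2 ^ K : ℕ) : ℝ) := by exact_mod_cast Nat.lt_two_pow_self.le
      push_cast at h3
      linarith
    have h3 : (D / 2 + 1) * (15 * L + 2) ≤ 2 ^ ⌈D / 2⌉₊ * 2 ^ K :=
      mul_le_mul h1 h2 (by positivity) (by positivity)
    rw [pow_add]
    have h4 : 0 ≤ L * D := by positivity
    nlinarith
  obtain ⟨l, hl, e⟩ := Morse_log' h (by positivity) _ p N hp' hi hj c3 bv
  have c4 := far l hl
  have c5 := dist_triangle4 z u v (p l)
  have c6 : (⌈D / 2⌉₊ : ℝ) < D / 2 + 1 := Nat.ceil_lt_add_one (by positivity)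
  push_cast at e
  linarith

theorem morse (h : GlobK X) {d : X → X → ℝ} (hd : CoarseLen d) {L : ℝ}
    (hq : ∀ x y, d x y ≤ L * dist x y + L ∧ dist x y ≤ L * d x y + L) :
    ∃ C : ℝ, (∀ x z y, Btw x z y → d x z + d z y ≤ d x y + C) ∧
      (∀ o x y w, Btw o w x → dist o w = gp dist o x y → |gp d o x y - d o w| ≤ C) ∧
      ∀ o x y z, min (gp d o x y) (gp d o y z) - C ≤ gp d o x z := by
  rcases isEmpty_or_nonempty X with hX | ⟨⟨x₀⟩⟩
  · exact ⟨0, fun x => isEmptyElim x, fun x => isEmptyElim x, fun x => isEmptyElim x⟩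
  have hL : 0 ≤ L := by simpa [hd.self] using (hq x₀ x₀).1
  obtain ⟨R, hR⟩ := Morse_near h hd hL fun x y => (hq x y).symm
  have one : ∀ {a b : X}, dist a b ≤ 1 → d a b ≤ 2 * L ∧ d b a ≤ 2 * L := by
    intro a b hab
    have h1 := (hq a b).1
    have h2 := mul_le_mul_of_nonneg_left hab hL
    rw [hd.symm b a]
    constructor <;> linarith
  obtain ⟨C, m1⟩ : ∃ C : ℝ, ∀ x z y, Btw x z y → d x z + d z y ≤ d x y + C := by
    refine ⟨2 + 2 * (L * R + L), fun x z y b => ?_⟩
    obtain ⟨N, p, rfl, rfl, hp, hN⟩ := hd.chain x y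
    obtain ⟨i, hi, e⟩ := hR p N hp hN z b
    have h1 := (hq z (p i)).1
    have h2 := mul_le_mul_of_nonneg_left e hL
    have h3 := Morse_chain_le' hd hp (Nat.zero_le i) hi
    have h4 := Morse_chain_le' hd hp hi le_rfl
    have h5 := hd.tri (p 0) (p i) z
    have h6 := hd.tri z (p i) (p N)
    rw [hd.symm (p i) z] at h5
    simp only [Nat.cast_zero] at h3
    linarith
  have hC : 0 ≤ C := by simpa [hd.self] using m1 x₀ x₀ x₀ (by simp [Btw])
  have m2 : ∀ o x y w, Btw o w x → dist o w = gp dist o x y →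
      |gp d o x y - d o w| ≤ C + 2 * L := by
    intro o x y w b e
    obtain ⟨w1, b1, -, e1⟩ := Morse_side h y b e.le
    obtain ⟨w2, b2, -, e2⟩ := Morse_side h y (Morse_btw_symm b) (by
      unfold Btw at b
      unfold gp at e ⊢
      rw [dist_comm x w, dist_comm x o]; linarith)
    have a1 := m1 _ _ _ b
    have a2 := m1 _ _ _ b1
    have a3 := m1 _ _ _ b2
    have a4 := one e1
    have a5 := one e2
    have t1 := hd.tri o w x
    have t2 := hd.tri o w y
    have t3 := hd.tri x w y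
    have t4 := hd.tri o w1 w
    have t5 := hd.tri w w1 y
    have t6 := hd.tri x w2 w
    have t7 := hd.tri w w2 y
    have s1 := hd.symm x w
    unfold gp
    rw [abs_le]
    constructor <;> linarith [a4.1, a4.2, a5.1, a5.2]
  have m3 : ∀ o x y z b, Btw o b y → dist o b ≤ gp dist o y x → dist o b ≤ gp dist o y z →
      d o b - C - 4 * L ≤ gp d o x z := by
    intro o x y z b bb h1 h2
    obtain ⟨a, ba, -, ea⟩ := Morse_side h x bb h1
    obtain ⟨c, bc, -, ec⟩ := Morse_side h z bb h2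
    have a1 := m1 _ _ _ ba
    have a2 := m1 _ _ _ bc
    have a4 := one ea
    have a5 := one ec
    have t1 := hd.tri x a z
    have t2 := hd.tri a b z
    have t3 := hd.tri b c z
    have t4 := hd.tri o a b
    have t5 := hd.tri o c b
    have s1 := hd.symm x a
    unfold gp
    linarith [a4.1, a4.2, a5.1, a5.2]
  refine ⟨2 * C + 6 * L, fun x z y b => by linarith [m1 x z y b],
    fun o x y w b e => by linarith [m2 o x y w b e], fun o x y z => ?_⟩
  have g1 : gp dist o y x ≤ dist o y := by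
    rw [Morse_gp_comm dist_comm]; exact Morse_gp_le _ _ _
  have g2 : gp dist o y z ≤ dist o y := by
    rw [Morse_gp_comm dist_comm]; exact Morse_gp_le _ _ _
  rcases le_total (gp dist o y x) (gp dist o y z) with h1 | h1
  · obtain ⟨b, eb, bb⟩ := h.btw o y _ (Morse_gp_nonneg o y x) g1
    have a1 := m3 o x y z b bb eb.le (eb.le.trans h1)
    have a2 := (abs_le.1 (m2 o y x b bb eb)).2
    rw [Morse_gp_comm hd.symm] at a2
    linarith [min_le_left (gp d o x y) (gp d o y z)]
  · obtain ⟨b, eb, bb⟩ := h.btw o y _ (Morse_gp_nonneg o y z) g2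
    have a1 := m3 o x y z b bb (eb.le.trans h1) eb.le
    have a2 := (abs_le.1 (m2 o y z b bb eb)).2
    linarith [min_le_right (gp d o x y) (gp d o y z)]

end

end Pool.Agent.MP_39b1da_gt
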