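import Pool.Agent.MP_39b1da_gt.HypA
import Pool.Agent.MP_39b1da_gt.Loc

set_option autoImplicit false

namespace Pool.Agent.MP_39b1da_gt

open Filter Topology Set Real
open scoped ENNReal NNReal ContDiff InnerProductSpace

/-- The hyperbolic law of cosines. -/
noncomputable def patchH (s t θ : ℝ) : ℝ := cosh s * cosh t - sinh s * sinh t * cos θ

theorem patchH_comm (s t θ : ℝ) : patchH s t θ = patchH t s θ := by
  unfold patchH; ring

theorem patchH_zero (t θ : ℝ) : patchH 0 t θ = cosh t := by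
  simp [patchH]

theorem patchH_pi (s t : ℝ) : patchH s t π = cosh (s + t) := by
  simp [patchH, cosh_add]

theorem patchH_mono {s t θ θ' : ℝ} (hs : 0 ≤ s) (ht : 0 ≤ t) (h0 : 0 ≤ θ) (h : θ ≤ θ')
    (h1 : θ' ≤ π) : patchH s t θ ≤ patchH s t θ' := by
  have h2 := cos_le_cos_of_nonneg_of_le_pi h0 h1 h
  have h3 : 0 ≤ sinh s * sinh t := mul_nonneg (sinh_nonneg_iff.2 hs) (sinh_nonneg_iff.2 ht)
  unfold patchH
  nlinarith

theorem patchH_le_inv {s t θ θ' : ℝ} (hs : 0 < s) (ht : 0 < t) (h0 : 0 ≤ θ') (h1 : θ ≤ π)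
    (h : patchH s t θ ≤ patchH s t θ') : θ ≤ θ' := by
  by_contra hc
  have hlt : θ' < θ := lt_of_not_ge hc
  have h2 := cos_lt_cos_of_nonneg_of_le_pi h0 h1 hlt
  have h3 : 0 < sinh s * sinh t := mul_pos (sinh_pos_iff.2 hs) (sinh_pos_iff.2 ht)
  unfold patchH at h
  nlinarith

theorem patchH_aff (s a b θ : ℝ) :
    sinh a * patchH s b θ = sinh (a - s) * cosh b + sinh s * patchH a b θ := by
  unfold patchH
  rw [sinh_sub]; ring

theorem one_le_patchH {s t : ℝ} (θ : ℝ) (hs : 0 ≤ s) (ht : 0 ≤ t) : 1 ≤ patchH s t θ := by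
  have h3 : 0 ≤ sinh s * sinh t := mul_nonneg (sinh_nonneg_iff.2 hs) (sinh_nonneg_iff.2 ht)
  have h1 := one_le_cosh (s - t)
  have h2 := cos_le_one θ
  rw [cosh_sub] at h1
  unfold patchH
  nlinarith

theorem patch_cosh_arsinh {X Y : ℝ} (hX : 0 ≤ X) (h : X ^ 2 = 1 + Y ^ 2) :
    cosh (arsinh Y) = X := by
  rw [cosh_arsinh, ← h, Real.sqrt_sq hX]

/-- The segment of a hinge of angle `a + b` meets the ray of angle `a`. -/
theorem patch_mid {s t a b : ℝ} (hs : 0 ≤ s) (ht : 0 ≤ t) (ha : 0 ≤ a) (hb : 0 ≤ b)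
    (hab : a + b < π) : ∃ u α β : ℝ, 0 ≤ u ∧ u ≤ max s t ∧ 0 ≤ α ∧ 0 ≤ β ∧
      cosh α = patchH s u a ∧ cosh β = patchH u t b ∧ cosh (α + β) = patchH s t (a + b) := by
  rcases hs.eq_or_lt with rfl | hs
  · exact ⟨0, 0, t, le_rfl, le_max_left _ _, le_rfl, ht, by simp [patchH], by simp [patchH],
      by simp [patchH]⟩
  rcases ht.eq_or_lt with rfl | ht
  · exact ⟨0, s, 0, le_rfl, le_max_right _ _, hs.le, le_rfl, by simp [patchH], by simp [patchH],
      by simp [patchH]⟩
  rcases ha.eq_or_lt with rfl | ha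
  · have h1 := one_le_patchH b hs.le ht.le
    refine ⟨s, 0, arcosh (patchH s t b), hs.le, le_max_left _ _, le_rfl, arcosh_nonneg h1, ?_,
      cosh_arcosh h1, by rw [zero_add, zero_add, cosh_arcosh h1]⟩
    have := cosh_sq s
    simp only [patchH, cos_zero, cosh_zero]; nlinarith
  have hsa : 0 < sin a := sin_pos_of_pos_of_lt_pi ha (by linarith)
  have hsb : 0 ≤ sin b := sin_nonneg_of_nonneg_of_le_pi hb (by linarith)
  have hsab : 0 ≤ sin (a + b) := sin_nonneg_of_nonneg_of_le_pi (by linarith) hab.le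
  have hS := sinh_pos_iff.2 hs
  have hT := sinh_pos_iff.2 ht
  have hC := one_le_patchH (a + b) hs.le ht.le
  obtain ⟨C, hCdef⟩ : ∃ C, C = patchH s t (a + b) := ⟨_, rfl⟩
  rw [← hCdef] at hC ⊢
  obtain ⟨l, hl⟩ : ∃ l, l = sinh t * sin b := ⟨_, rfl⟩
  obtain ⟨m, hm⟩ : ∃ m, m = sinh s * sin a := ⟨_, rfl⟩
  have hl0 : 0 ≤ l := hl ▸ mul_nonneg hT.le hsb
  have hm0 : 0 < m := hm ▸ mul_pos hS hsa
  have hlm : 0 ≤ l * m := mul_nonneg hl0 hm0.le
  have hN : (l + m) ^ 2 ≤ l ^ 2 + m ^ 2 + 2 * l * m * C := by nlinarith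
  obtain ⟨n, hn⟩ : ∃ n, n = √(l ^ 2 + m ^ 2 + 2 * l * m * C) := ⟨_, rfl⟩
  have hn2 : n ^ 2 = l ^ 2 + m ^ 2 + 2 * l * m * C := by
    rw [hn, Real.sq_sqrt (le_trans (sq_nonneg _) hN)]
  have hn1 : l + m ≤ n := hn ▸ Real.le_sqrt_of_sq_le hN
  have hn0 : 0 < n := by linarith
  obtain ⟨S, hSd⟩ : ∃ S, S = √(C ^ 2 - 1) := ⟨_, rfl⟩
  have hS2 : S ^ 2 = C ^ 2 - 1 := by rw [hSd, Real.sq_sqrt (by nlinarith)]
  have hS0 : 0 ≤ S := hSd ▸ Real.sqrt_nonneg _
  have cs := cosh_sq s
  have ct := cosh_sq t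
  have cps := cosh_pos s
  have cpt := cosh_pos t
  have e1 : sin (a + b) ^ 2 = sin a ^ 2 + sin b ^ 2 + 2 * sin a * sin b * cos (a + b) := by
    rw [sin_add, cos_add]
    have h1 := sin_sq_add_cos_sq a
    have h2 := sin_sq_add_cos_sq b
    linear_combination (sin a) ^ 2 * h2 + (sin b) ^ 2 * h1
  have e2 : sin b = sin (a + b) * cos a - cos (a + b) * sin a := by
    rw [← sin_sub]; ring_nf
  have e3 : sin a = sin (a + b) * cos b - cos (a + b) * sin b := by
    rw [← sin_sub]; ring_nf
  have hC' : C = cosh s * cosh t - sinh s * sinh t * cos (a + b) := hCdef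
  have hu : cosh (arsinh (sinh s * sinh t * sin (a + b) / n)) =
      (l * cosh s + m * cosh t) / n := by
    refine patch_cosh_arsinh (by positivity) ?_
    field_simp
    rw [hn2, hC', e1, hl, hm]
    linear_combination (sinh t * sin b) ^ 2 * cs + (sinh s * sin a) ^ 2 * ct
  have hα : cosh (arsinh (m * S / n)) = (l + m * C) / n := by
    refine patch_cosh_arsinh (by positivity) ?_
    field_simp
    rw [hn2, hS2]; ring
  have hβ : cosh (arsinh (l * S / n)) = (m + l * C) / n := by
    refine patch_cosh_arsinh (by positivity) ?_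
    field_simp
    rw [hn2, hS2]; ring
  refine ⟨arsinh (sinh s * sinh t * sin (a + b) / n), arsinh (m * S / n), arsinh (l * S / n),
    arsinh_nonneg_iff.2 (by positivity), ?_, arsinh_nonneg_iff.2 (by positivity),
    arsinh_nonneg_iff.2 (by positivity), ?_, ?_, ?_⟩
  · have h1 : cosh s ≤ cosh (max s t) := cosh_le_cosh.2 (by
      rw [abs_of_pos hs, abs_of_pos (lt_max_of_lt_left hs)]; exact le_max_left _ _)
    have h2 : cosh t ≤ cosh (max s t) := cosh_le_cosh.2 (by
      rw [abs_of_pos ht, abs_of_pos (lt_max_of_lt_left hs)]; exact le_max_right _ _)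
    have h3 : cosh (arsinh (sinh s * sinh t * sin (a + b) / n)) ≤ cosh (max s t) := by
      rw [hu, div_le_iff₀ hn0]
      have := cosh_pos (max s t)
      nlinarith
    have h4 := cosh_le_cosh.1 h3
    rw [abs_of_pos (lt_max_of_lt_left hs)] at h4
    exact (le_abs_self _).trans h4
  · rw [hα, patchH, hu, sinh_arsinh]
    field_simp
    rw [hC', hm]
    have : l = sinh t * (sin (a + b) * cos a - cos (a + b) * sin a) := by rw [← e2, hl]
    rw [this]
    linear_combination (-(sinh t * (sin (a + b) * cos a - cos (a + b) * sin a))) * cs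
  · rw [hβ, patchH, hu, sinh_arsinh]
    field_simp
    rw [hC', hl]
    have : m = sinh s * (sin (a + b) * cos b - cos (a + b) * sin b) := by rw [← e3, hm]
    rw [this]
    linear_combination (-(sinh s * (sin (a + b) * cos b - cos (a + b) * sin b))) * ct
  · rw [cosh_add, hα, hβ, sinh_arsinh, sinh_arsinh]
    field_simp
    rw [hn2, hS2]; ring

section
variable {X : Type} [MetricSpace X]

theorem patch_cosh_le {a b : ℝ} (ha : 0 ≤ a) (h : a ≤ b) : cosh a ≤ cosh b :=
  cosh_le_cosh.2 (by rw [abs_of_nonneg ha, abs_of_nonneg (ha.trans h)]; exact h)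

theorem patch_le_of_cosh {a b : ℝ} (hb : 0 ≤ b) (h : cosh a ≤ cosh b) : a ≤ b := by
  have := cosh_le_cosh.1 h
  rw [abs_of_nonneg hb] at this
  exact (le_abs_self _).trans this

theorem Btw.patch_symm {y x z : X} (h : Btw y x z) : Btw z x y := by
  unfold Btw at *
  rw [dist_comm z x, dist_comm x y, dist_comm z y]; linarith

theorem Btw.patch_trans {p w y z : X} (h1 : Btw p w y) (h2 : Btw p y z) : Btw p w z := by
  unfold Btw at *
  have := dist_triangle p w z
  have := dist_triangle w y z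
  linarith

theorem Btw.patch_self {p w : X} (h : Btw p w p) : w = p := by
  unfold Btw at h
  rw [dist_self, dist_comm p w] at h
  exact dist_eq_zero.1 (by linarith)

theorem Btw.patch_le {p w y : X} (h : Btw p w y) : dist p w ≤ dist p y := by
  unfold Btw at h
  have := dist_nonneg (x := w) (y := y)
  linarith

/-- The comparison angle at `p`. -/
noncomputable def patchAng (p y z : X) : ℝ :=
  arccos ((cosh (dist p y) * cosh (dist p z) - cosh (dist y z)) /
    (sinh (dist p y) * sinh (dist p z)))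

theorem patchAng_comm (p y z : X) : patchAng p y z = patchAng p z y := by
  unfold patchAng
  rw [dist_comm z y, mul_comm (cosh (dist p y)), mul_comm (sinh (dist p y))]

theorem patchAng_nonneg (p y z : X) : 0 ≤ patchAng p y z := arccos_nonneg _

theorem patchAng_le (p y z : X) : patchAng p y z ≤ π := arccos_le_pi _

theorem patchH_ang (p y z : X) :
    patchH (dist p y) (dist p z) (patchAng p y z) = cosh (dist y z) := by
  by_cases hy : y = p
  · subst hy; rw [dist_self, patchH_zero]
  by_cases hz : z = p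
  · subst hz; rw [dist_self, patchH_comm, patchH_zero, dist_comm]
  have ha := sinh_pos_iff.2 (dist_pos.2 (Ne.symm hy))
  have hb := sinh_pos_iff.2 (dist_pos.2 (Ne.symm hz))
  have hab := mul_pos ha hb
  have h1 : cosh (dist y z) ≤ cosh (dist p y + dist p z) :=
    patch_cosh_le dist_nonneg (dist_triangle_left _ _ _)
  have h2 : cosh (dist p y - dist p z) ≤ cosh (dist y z) := cosh_le_cosh.2 (by
    rw [abs_of_nonneg (dist_nonneg (x := y) (y := z)), dist_comm p y, dist_comm p z]
    exact abs_dist_sub_le _ _ _)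
  rw [cosh_add] at h1
  rw [cosh_sub] at h2
  unfold patchH patchAng
  rw [cos_arccos (by rw [le_div_iff₀ hab]; linarith) (by rw [div_le_iff₀ hab]; linarith)]
  field_simp
  ring

/-- The angle at `p` between the directions to `y` and `z` is at most `θ`. -/
def PatchLe (p y z : X) (θ : ℝ) : Prop :=
  ∃ η : ℝ, 0 < η ∧ ∀ y' z' : X, Btw p y' y → Btw p z' z → dist p y' ≤ η → dist p z' ≤ η →
    cosh (dist y' z') ≤ patchH (dist p y') (dist p z') θ

theorem PatchLe.symm {p y z : X} {θ : ℝ} (h : PatchLe p y z θ) : PatchLe p z y θ := by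
  obtain ⟨η, h0, h⟩ := h
  refine ⟨η, h0, fun y' z' b1 b2 d1 d2 => ?_⟩
  rw [dist_comm y' z', patchH_comm]
  exact h z' y' b2 b1 d2 d1

theorem PatchLe.mono {p y z : X} {θ θ' : ℝ} (h : PatchLe p y z θ) (h0 : 0 ≤ θ) (h1 : θ ≤ θ')
    (h2 : θ' ≤ π) : PatchLe p y z θ' := by
  obtain ⟨η, hη, h⟩ := h
  exact ⟨η, hη, fun y' z' b1 b2 d1 d2 =>
    (h y' z' b1 b2 d1 d2).trans (patchH_mono dist_nonneg dist_nonneg h0 h1 h2)⟩

theorem patchLe_self (p z : X) (θ : ℝ) : PatchLe p p z θ := by
  refine ⟨1, one_pos, fun y' z' b1 _ _ _ => ?_⟩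
  rw [b1.patch_self, dist_self, patchH_zero]

theorem patchLe_pi (p y z : X) : PatchLe p y z π := by
  refine ⟨1, one_pos, fun y' z' _ _ _ _ => ?_⟩
  rw [patchH_pi]
  exact patch_cosh_le dist_nonneg (dist_triangle_left _ _ _)

theorem PatchLe.add {p y x z : X} {a b : ℝ} (hb : HasBtw p x) (hx : x ≠ p)
    (h1 : PatchLe p y x a) (h2 : PatchLe p x z b) (ha0 : 0 ≤ a) (hb0 : 0 ≤ b)
    (hab : a + b < π) : PatchLe p y z (a + b) := by
  obtain ⟨η1, e1, h1⟩ := h1
  obtain ⟨η2, e2, h2⟩ := h2
  have hd : 0 < dist p x := dist_pos.2 hx.symm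
  refine ⟨min (min η1 η2) (dist p x), by positivity, fun y' z' b1 b2 d1 d2 => ?_⟩
  obtain ⟨u, α, β, u0, u1, α0, β0, c1, c2, c3⟩ :=
    patch_mid (dist_nonneg (x := p) (y := y')) (dist_nonneg (x := p) (y := z')) ha0 hb0 hab
  have u2 : u ≤ min (min η1 η2) (dist p x) := u1.trans (max_le d1 d2)
  simp only [le_min_iff] at d1 d2 u2
  obtain ⟨x', dx, bx⟩ := hb u u0 u2.2
  have k1 := h1 y' x' b1 bx d1.1.1 (dx ▸ u2.1.1)
  have k2 := h2 x' z' bx b2 (dx ▸ u2.1.2) d2.1.2
  rw [dx, ← c1] at k1
  rw [dx, ← c2] at k2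
  rw [← c3]
  exact patch_cosh_le dist_nonneg ((dist_triangle y' x' z').trans
    (add_le_add (patch_le_of_cosh α0 k1) (patch_le_of_cosh β0 k2)))

theorem PatchLe.pi_le {y x z : X} {θ : ℝ} (hb : ∀ u v : X, HasBtw u v) (b : Btw y x z)
    (hy : y ≠ x) (hz : z ≠ x) (h : PatchLe x y z θ) (h0 : 0 ≤ θ) : π ≤ θ := by
  obtain ⟨η, e, h⟩ := h
  have d1 : 0 < dist x y := dist_pos.2 hy.symm
  have d2 : 0 < dist x z := dist_pos.2 hz.symm
  have hs : 0 < min η (min (dist x y) (dist x z)) := by positivity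
  obtain ⟨s, hsd⟩ : ∃ s, s = min η (min (dist x y) (dist x z)) := ⟨_, rfl⟩
  have s1 : s ≤ η := hsd ▸ min_le_left _ _
  have s2 : s ≤ dist x y := hsd ▸ (min_le_right _ _).trans (min_le_left _ _)
  have s3 : s ≤ dist x z := hsd ▸ (min_le_right _ _).trans (min_le_right _ _)
  rw [← hsd] at hs
  obtain ⟨y', dy, by'⟩ := hb x y s hs.le s2
  obtain ⟨z', dz, bz'⟩ := hb x z s hs.le s3
  have k := h y' z' by' bz' (dy ▸ s1) (dz ▸ s1)
  rw [dy, dz] at k
  refine patchH_le_inv hs hs h0 le_rfl (le_trans ?_ k)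
  rw [patchH_pi]
  refine patch_cosh_le (by linarith) ?_
  unfold Btw at b by' bz'
  have t1 := dist_triangle4 y y' z' z
  rw [dist_comm y x] at b
  rw [dist_comm y y'] at t1
  linarith

/-- The angle at `p` is at most the comparison angle. -/
def PatchA (p y z : X) : Prop := PatchLe p y z (patchAng p y z)

theorem PatchA.symm {p y z : X} (h : PatchA p y z) : PatchA p z y := by
  unfold PatchA at *
  rw [patchAng_comm]; exact h.symm

theorem patchA_self (p z : X) : PatchA p p z := patchLe_self _ _ _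

theorem patch_sum_ge {p y x z : X} (hb : ∀ u v : X, HasBtw u v) (b : Btw y x z)
    (hy : y ≠ x) (hz : z ≠ x) (hp : p ≠ x) (h1 : PatchA x y p) (h2 : PatchA x p z) :
    π ≤ patchAng x y p + patchAng x p z := by
  by_contra hc
  have hlt := lt_of_not_ge hc
  have a0 := patchAng_nonneg x y p
  have b0 := patchAng_nonneg x p z
  exact hc ((PatchLe.add (hb x p) hp h1 h2 a0 b0 hlt).pi_le hb b hy hz (add_nonneg a0 b0))

theorem patch_k {p y x z : X} (hb : ∀ u v : X, HasBtw u v) (b : Btw y x z)
    (h1 : PatchA x y p) (h2 : PatchA x p z) : KIneq p y x z := by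
  unfold KIneq
  by_cases hy : y = x
  · subst hy; simp
  by_cases hz : z = x
  · subst hz; simp
  have b' : dist y z = dist x y + dist x z := by
    unfold Btw at b; rw [dist_comm x y]; exact b.symm
  by_cases hp : p = x
  · subst hp
    rw [b', sinh_add, dist_comm y p, dist_self, cosh_zero]; linarith
  have h := patch_sum_ge hb b hy hz hp h1 h2
  have hc : cos (patchAng x y p) ≤ -cos (patchAng x p z) := by
    rw [← cos_pi_sub]
    exact cos_le_cos_of_nonneg_of_le_pi (by linarith [patchAng_le x p z]) (patchAng_le _ _ _)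
      (by linarith)
  have e1 := patchH_ang x y p
  have e2 := patchH_ang x p z
  rw [dist_comm y p] at e1
  rw [← e1, ← e2, b', sinh_add, dist_comm y x, dist_comm p x]
  unfold patchH
  have s1 := sinh_nonneg_iff.2 (dist_nonneg (x := x) (y := y))
  have s2 := sinh_nonneg_iff.2 (dist_nonneg (x := x) (y := z))
  have s3 := sinh_nonneg_iff.2 (dist_nonneg (x := x) (y := p))
  have := mul_nonneg (mul_nonneg (mul_nonneg s1 s2) s3) (sub_nonneg.2 hc)
  nlinarith

theorem patch_k_le {p y w z : X} (b : Btw p w y) (k : KIneq z p w y) :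
    cosh (dist w z) ≤ patchH (dist p w) (dist p z) (patchAng p y z) := by
  by_cases hy : y = p
  · subst hy
    rw [b.patch_self, dist_self, patchH_zero]
  have ha := sinh_pos_iff.2 (dist_pos.2 (Ne.symm hy))
  refine le_of_mul_le_mul_left ?_ ha
  rw [patchH_aff, patchH_ang]
  unfold KIneq at k
  unfold Btw at b
  have e : dist p y - dist p w = dist w y := by linarith
  rw [e, dist_comm w z, dist_comm p z, dist_comm y z]
  exact k

theorem patch_small {ε : ℝ} (h : LocK X ε) {p y z : X} (hy : dist p y < ε / 2)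
    (hz : dist p z < ε / 2) : PatchA p y z := by
  by_cases hzp : z = p
  · subst hzp; exact (patchA_self _ _).symm
  refine ⟨1, one_pos, fun y' z' b1 b2 _ _ => ?_⟩
  have e0 := h.pos
  have l1 := b1.patch_le
  have k1 := patch_k_le b1 (h.k z p y' y (by rw [dist_comm]; linarith)
    (by linarith [dist_triangle_left z y p]) b1)
  have k2 := h.k y' p z' z (by rw [dist_comm]; linarith)
    (by linarith [dist_triangle_left y' z p]) b2
  have ha := sinh_pos_iff.2 (dist_pos.2 (Ne.symm hzp))
  refine le_of_mul_le_mul_left ?_ ha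
  rw [patchH_comm, patchH_aff, patchH_comm]
  unfold KIneq at k2
  unfold Btw at b2
  have e : dist p z - dist p z' = dist z' z := by linarith
  have s1 := sinh_nonneg_iff.2 (dist_nonneg (x := p) (y := z'))
  rw [e, dist_comm p y']
  rw [dist_comm p y'] at k1
  nlinarith

theorem patch_ext {δ : ℝ} (hg : UGeo X δ) {y w p z : X} (b : Btw y w p) (hw : w ≠ y)
    (h : PatchA y w z) (k : KIneq z y w p) : PatchA y p z := by
  by_cases hz : z = y
  · subst hz; exact (patchA_self _ _).symm
  have d1 : 0 < dist y w := dist_pos.2 hw.symm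
  have d2 : 0 < dist y z := dist_pos.2 (Ne.symm hz)
  have h1 : patchAng y w z ≤ patchAng y p z := by
    refine patchH_le_inv d1 d2 (patchAng_nonneg _ _ _) (patchAng_le _ _ _) ?_
    rw [patchH_ang]
    exact patch_k_le b k
  refine PatchLe.mono ?_ (patchAng_nonneg y w z) h1 (patchAng_le _ _ _)
  obtain ⟨η, e, h⟩ := h
  refine ⟨min η (dist y w), by positivity, fun y' z' b1 b2 l1 l2 => ?_⟩
  rw [le_min_iff] at l1 l2
  obtain ⟨w', dw, bw⟩ := hg.btw y w (dist y y') dist_nonneg l1.2
  have : y' = w' := hg.uniq y y' w' p b1 (bw.patch_trans b) dw.symm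
  exact h y' z' (this ▸ bw) b2 l1.1 l2.1

theorem patch_two {q p w : X} (hp : p ≠ q) (hw : w ≠ q) (hpw : p ≠ w) :
    patchAng q p w + patchAng w p q ≤ π := by
  have e1 := patchH_ang q p w
  have e2 := patchH_ang w p q
  rw [dist_comm w p, dist_comm w q, dist_comm p q] at e2
  have a0 : 0 < dist q p := dist_pos.2 hp.symm
  have h0 : 0 < dist q w := dist_pos.2 hw.symm
  have c0 : 0 < dist p w := dist_pos.2 hpw
  have h2 : cosh (dist q p - dist p w) ≤ cosh (dist q w) := cosh_le_cosh.2 (by
    rw [abs_of_pos h0, dist_comm p w]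
    exact abs_dist_sub_le _ _ _)
  generalize dist q p = a at *
  generalize dist q w = h at *
  generalize dist p w = e at *
  have sa := sinh_pos_iff.2 a0
  have sh := sinh_pos_iff.2 h0
  have se := sinh_pos_iff.2 c0
  have sae := sinh_pos_iff.2 (add_pos a0 c0)
  by_contra hc
  have hlt : π - patchAng w p q < patchAng q p w := by linarith [lt_of_not_ge hc]
  have h3 := cos_lt_cos_of_nonneg_of_le_pi (by linarith [patchAng_le w p q])
    (patchAng_le q p w) hlt
  rw [cos_pi_sub] at h3
  unfold patchH at e1 e2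
  have h4 := mul_pos (mul_pos (mul_pos sa sh) se) (sub_pos.2 h3)
  have h5 := mul_le_mul_of_nonneg_left h2 sae.le
  rw [sinh_add, cosh_sub] at h5
  have ca := cosh_sq a
  have ce := cosh_sq e
  have h6 : (sinh a * cosh e + cosh a * sinh e) * (cosh a * cosh e - sinh a * sinh e) =
      sinh a * cosh a + sinh e * cosh e := by
    linear_combination (sinh a * cosh a) * ce + (sinh e * cosh e) * ca
  have h7 : sinh a * sinh h * sinh e * (-cos (patchAng w p q) - cos (patchAng q p w)) =
      sinh a * cosh a + sinh e * cosh e - (sinh a * cosh e + cosh a * sinh e) * cosh h := by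
    linear_combination sinh a * e2 + sinh e * e1
  linarith

theorem patch_apex {q p w z : X} (hb : ∀ u v : X, HasBtw u v) (b : Btw p w z)
    (h1 : PatchA q p w) (h2 : PatchA q w z) (h3 : PatchA w p q) (h4 : PatchA w q z) :
    PatchA q p z := by
  by_cases hp : p = q
  · subst hp; exact patchA_self _ _
  by_cases hz : z = q
  · subst hz; exact (patchA_self _ _).symm
  by_cases hpw : p = w
  · subst hpw; exact h2
  by_cases hzw : z = w
  · subst hzw; exact h1
  have d1 : 0 < dist q p := dist_pos.2 (Ne.symm hp)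
  have d2 : 0 < dist q z := dist_pos.2 (Ne.symm hz)
  by_cases hw : w = q
  · subst hw
    refine (patchLe_pi w p z).mono pi_pos.le ?_ (patchAng_le _ _ _)
    refine patchH_le_inv d1 d2 (patchAng_nonneg _ _ _) le_rfl ?_
    unfold Btw at b
    rw [patchH_pi, patchH_ang, dist_comm w p, b]
  have s1 := patch_sum_ge hb b hpw hzw (Ne.symm hw) h3 h4
  have s2 := patch_two hp hw hpw
  have s3 := patch_two hz hw hzw
  rw [patchAng_comm q z w, patchAng_comm w z q] at s3
  have a0 := patchAng_nonneg q p w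
  have b0 := patchAng_nonneg q w z
  have s4 : patchAng q p w + patchAng q w z ≤ π := by linarith
  have s5 : patchAng q p w + patchAng q w z ≤ patchAng q p z := by
    refine patchH_le_inv d1 d2 (patchAng_nonneg _ _ _) s4 ?_
    have t := dist_triangle (pol (dist q p) 0) (pol (dist q w) (-patchAng q p w))
      (pol (dist q z) (-(patchAng q p w + patchAng q w z)))
    have c1 := cosh_dist_pol (dist q p) (dist q w) 0 (-patchAng q p w)
    have c2 := cosh_dist_pol (dist q w) (dist q z) (-patchAng q p w)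
      (-(patchAng q p w + patchAng q w z))
    have c3 := cosh_dist_pol (dist q p) (dist q z) 0 (-(patchAng q p w + patchAng q w z))
    rw [zero_sub, neg_neg] at c1 c3
    rw [show -patchAng q p w - -(patchAng q p w + patchAng q w z) = patchAng q w z by ring] at c2
    have f1 := patch_le_of_cosh dist_nonneg (c1.trans (patchH_ang q p w)).le
    have f2 := patch_le_of_cosh dist_nonneg (c2.trans (patchH_ang q w z)).le
    rw [patchH_ang]
    unfold Btw at b
    exact c3.ge.trans (patch_cosh_le dist_nonneg (by linarith))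
  rcases s4.eq_or_lt with e | s4
  · exact (patchLe_pi q p z).mono pi_pos.le (e ▸ s5) (patchAng_le _ _ _)
  · exact (PatchLe.add (hb q w) hw h1 h2 a0 b0 s4).mono (add_nonneg a0 b0) s5 (patchAng_le _ _ _)

theorem patch_thin {ε δ η : ℝ} (h : LocK X ε) (hg : UGeo X δ) (h0 : 0 < η) (h1 : η ≤ δ)
    (h2 : η ≤ ε / 4) (n : ℕ) : ∀ p y z : X, dist y z < η → dist p y ≤ n * η →
      dist p z ≤ n * η → PatchA y p z := by
  induction n with
  | zero =>
    intro p y z _ hy _
    have : p = y := dist_le_zero.1 (by simpa using hy)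
    subst this; exact patchA_self _ _
  | succ n ih =>
    intro p y z hyz hy hz
    by_cases hpy : p = y
    · subst hpy; exact patchA_self _ _
    have n0 : (0 : ℝ) < n + 1 := by positivity
    have t0 : (0 : ℝ) ≤ n / (n + 1) := by positivity
    have t1 : (n : ℝ) / (n + 1) < 1 := by rw [div_lt_one n0]; linarith
    have key : ∀ d : ℝ, 0 ≤ d → d ≤ (n + 1 : ℕ) * η → 0 ≤ n / (n + 1) * d ∧
        n / (n + 1) * d ≤ d ∧ n / (n + 1) * d ≤ n * η ∧ d - n / (n + 1) * d ≤ η := by
      intro d d0 d1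
      push_cast at d1
      refine ⟨by positivity, by nlinarith, ?_, ?_⟩
      · rw [div_mul_eq_mul_div, div_le_iff₀ n0]
        have : (0 : ℝ) ≤ n := by positivity
        nlinarith
      · have : d - n / (n + 1) * d = d / (n + 1) := by field_simp; ring
        rw [this, div_le_iff₀ n0]; linarith
    obtain ⟨y0, y1, y2, y3⟩ := key _ dist_nonneg hy
    obtain ⟨z0, z1, z2, z3⟩ := key _ dist_nonneg hz
    obtain ⟨y', dy, by'⟩ := hg.btw p y _ y0 y1
    obtain ⟨z', dz, bz'⟩ := hg.btw p z _ z0 z1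
    have c := hg.close p y z y' z' _ (by linarith) by' bz' dy dz t0 t1.le
    have ey : dist y' y ≤ η := by unfold Btw at by'; linarith
    have ez : dist z' z ≤ η := by unfold Btw at bz'; linarith
    have c' : dist y' z' < η := by linarith
    have tz : dist y' z < ε / 2 := by linarith [dist_triangle y' z' z]
    have A1 : PatchA y' p z := patch_apex hg.btw bz' (ih p y' z' c' (dy ▸ y2) (dz ▸ z2))
      (patch_small h (by linarith) tz)
      (ih p z' y' (by rwa [dist_comm]) (dz ▸ z2) (dy ▸ y2))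
      (patch_small h (by rw [dist_comm]; linarith) (by linarith))
    have K : KIneq z y y' p := patch_k hg.btw by'.patch_symm
      (patch_small h (by linarith) tz) A1.symm
    refine patch_ext hg by'.patch_symm ?_
      (patch_small h (by rw [dist_comm]; linarith) (by linarith)) K
    rintro rfl
    have : 0 < dist p y' := dist_pos.2 hpy
    nlinarith

theorem patch_all {ε δ : ℝ} (h : LocK X ε) (hg : UGeo X δ) (p y z : X) : PatchA y p z := by
  have e0 := h.pos
  have e1 := hg.pos
  obtain ⟨η, hη⟩ : ∃ η, η = min δ (ε / 4) := ⟨_, rfl⟩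
  have h0 : 0 < η := by rw [hη]; positivity
  have thin : ∀ p y z : X, dist y z < η → PatchA y p z := by
    intro p y z hyz
    obtain ⟨n, hn⟩ := exists_nat_ge (max (dist p y) (dist p z) / η)
    rw [div_le_iff₀ h0, max_le_iff] at hn
    exact patch_thin h hg h0 (hη ▸ min_le_left _ _) (hη ▸ min_le_right _ _) n p y z hyz hn.1 hn.2
  have key : ∀ n : ℕ, ∀ y : X, dist y z ≤ n * (η / 2) → PatchA y p z := by
    intro n
    induction n with
    | zero =>
      intro y hy
      exact thin p y z (by simp only [Nat.cast_zero, zero_mul] at hy; linarith)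
    | succ n ih =>
      intro y hy
      by_cases hs : dist y z < η
      · exact thin p y z hs
      have hs' := le_of_not_gt hs
      obtain ⟨w, dw, bw⟩ := hg.btw y z (η / 2) (by linarith) (by linarith)
      have hw : w ≠ y := by
        rintro rfl
        rw [dist_self] at dw; linarith
      have A := ih w (by unfold Btw at bw; push_cast at hy; linarith)
      have K : KIneq p y w z := patch_k hg.btw bw
        (thin p w y (by rw [dist_comm]; linarith)).symm A
      exact (patch_ext hg bw hw (thin p y w (by linarith)).symm K).symm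
  obtain ⟨n, hn⟩ := exists_nat_ge (dist y z / (η / 2))
  rw [div_le_iff₀ (by positivity)] at hn
  exact key n y hn

end

/-- Patchwork: local curvature bound and continuously varying geodesics give the global bound. -/
theorem globK_of_ugeo {X : Type} [MetricSpace X] {ε δ : ℝ} (h : LocK X ε) (hg : UGeo X δ) :
    GlobK X :=
  ⟨hg.btw, fun p y x z b => patch_k hg.btw b (patch_all h hg p x y).symm (patch_all h hg p x z)⟩

end Pool.Agent.MP_39b1da_gt
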