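import Pool.Agent.MP_39b1da_gt.HypA

/-! The quotient of hyperbolic space by a uniform lattice. -/

set_option autoImplicit false

namespace Pool.Agent.MP_39b1da_gt

open Filter Topology Set Real
open scoped ENNReal NNReal ContDiff InnerProductSpace

section
variable {E : Type} [NormedAddCommGroup E] [InnerProductSpace ℝ E]

theorem signs_exists_min {Γ : Subgroup (Lor E)} (h : IsUnif Γ) (x y : Hyp E) :
    ∃ g ∈ Γ, ∀ g' ∈ Γ, dist x (g • y) ≤ dist x (g' • y) := by
  have hf : {g | g ∈ Γ ∧ dist x (g • y) ≤ dist x y}.Finite := by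
    refine (h.proper y (2 * dist x y)).subset ?_
    rintro g ⟨h1, h2⟩
    refine ⟨h1, ?_⟩
    have := dist_triangle_left (g • y) y x
    linarith
  obtain ⟨g, ⟨h1, h2⟩, h3⟩ := Set.exists_min_image _ (fun g : Lor E => dist x (g • y)) hf
    ⟨1, Γ.one_mem, by simp⟩
  refine ⟨g, h1, fun g' hg' => ?_⟩
  by_cases hc : dist x (g' • y) ≤ dist x y
  · exact h3 g' ⟨hg', hc⟩
  · linarith

/-- The distance between orbits. -/
noncomputable def signsD {Γ : Subgroup (Lor E)} (h : IsUnif Γ) (x y : Hyp E) : ℝ :=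
  dist x ((signs_exists_min h x y).choose • y)

theorem signsD_le {Γ : Subgroup (Lor E)} (h : IsUnif Γ) (x y : Hyp E) {g : Lor E} (hg : g ∈ Γ) :
    signsD h x y ≤ dist x (g • y) := (signs_exists_min h x y).choose_spec.2 g hg

theorem signsD_eq {Γ : Subgroup (Lor E)} (h : IsUnif Γ) (x y : Hyp E) :
    ∃ g ∈ Γ, signsD h x y = dist x (g • y) :=
  ⟨_, (signs_exists_min h x y).choose_spec.1, rfl⟩

theorem signsD_le_of {Γ : Subgroup (Lor E)} (h : IsUnif Γ) (x y : Hyp E) {a b : Lor E}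
    (ha : a ∈ Γ) (hb : b ∈ Γ) : signsD h (a • x) (b • y) ≤ signsD h x y := by
  obtain ⟨g, hg, e⟩ := signsD_eq h x y
  have := signsD_le h (a • x) (b • y) (g := a * g * b⁻¹)
    (Γ.mul_mem (Γ.mul_mem ha hg) (Γ.inv_mem hb))
  rw [mul_smul, mul_smul, inv_smul_smul, dist_smul_lor] at this
  rw [e]; exact this

theorem signsD_inv {Γ : Subgroup (Lor E)} (h : IsUnif Γ) (x y : Hyp E) {a b : Lor E}
    (ha : a ∈ Γ) (hb : b ∈ Γ) : signsD h (a • x) (b • y) = signsD h x y := by
  refine le_antisymm (signsD_le_of h x y ha hb) ?_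
  have := signsD_le_of h (a • x) (b • y) (Γ.inv_mem ha) (Γ.inv_mem hb)
  rwa [inv_smul_smul, inv_smul_smul] at this

theorem signsD_comm_le {Γ : Subgroup (Lor E)} (h : IsUnif Γ) (x y : Hyp E) :
    signsD h x y ≤ signsD h y x := by
  obtain ⟨g, hg, e⟩ := signsD_eq h y x
  have := signsD_le h x y (Γ.inv_mem hg)
  rw [← dist_smul_lor g, smul_inv_smul, dist_comm] at this
  rw [e]; exact this

/-- The orbit relation. -/
def signsRel (Γ : Subgroup (Lor E)) : Setoid (Hyp E) where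
  r x y := ∃ g ∈ Γ, g • x = y
  iseqv := ⟨fun x => ⟨1, Γ.one_mem, one_smul _ _⟩,
    fun ⟨g, hg, e⟩ => ⟨g⁻¹, Γ.inv_mem hg, by rw [← e, inv_smul_smul]⟩,
    fun ⟨g, hg, e⟩ ⟨k, hk, e'⟩ => ⟨k * g, Γ.mul_mem hk hg, by rw [mul_smul, e, e']⟩⟩

/-- The orbit space. -/
def SignsQ (Γ : Subgroup (Lor E)) : Type := Quotient (signsRel Γ)

/-- The projection to the orbit space. -/
def signsq (Γ : Subgroup (Lor E)) (x : Hyp E) : SignsQ Γ := Quotient.mk (signsRel Γ) x

theorem signsq_surj (Γ : Subgroup (Lor E)) : Function.Surjective (signsq Γ) :=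
  Quotient.mk_surjective

theorem signsq_eq (Γ : Subgroup (Lor E)) (x y : Hyp E) :
    signsq Γ x = signsq Γ y ↔ ∃ g ∈ Γ, g • x = y := Quotient.eq

/-- The distance of the orbit space. -/
noncomputable def signsDQ {Γ : Subgroup (Lor E)} (h : IsUnif Γ) : SignsQ Γ → SignsQ Γ → ℝ :=
  Quotient.lift₂ (s₁ := signsRel Γ) (s₂ := signsRel Γ) (signsD h) (by
    rintro x y _ _ ⟨a, ha, rfl⟩ ⟨b, hb, rfl⟩
    exact (signsD_inv h x y ha hb).symm)

/-- The metric of the orbit space. -/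
@[reducible] noncomputable def signsMet {Γ : Subgroup (Lor E)} (h : IsUnif Γ) :
    MetricSpace (SignsQ Γ) where
  dist := signsDQ h
  dist_self := by
    intro a
    obtain ⟨x, rfl⟩ := signsq_surj Γ a
    change signsD h x x = 0
    refine le_antisymm ?_ dist_nonneg
    simpa using signsD_le h x x Γ.one_mem
  dist_comm := by
    intro a b
    obtain ⟨x, rfl⟩ := signsq_surj Γ a
    obtain ⟨y, rfl⟩ := signsq_surj Γ b
    exact le_antisymm (signsD_comm_le h x y) (signsD_comm_le h y x)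
  dist_triangle := by
    intro a b c
    obtain ⟨x, rfl⟩ := signsq_surj Γ a
    obtain ⟨y, rfl⟩ := signsq_surj Γ b
    obtain ⟨z, rfl⟩ := signsq_surj Γ c
    change signsD h x z ≤ signsD h x y + signsD h y z
    obtain ⟨g, hg, e⟩ := signsD_eq h x y
    obtain ⟨k, hk, e'⟩ := signsD_eq h y z
    have h1 := signsD_le h x z (Γ.mul_mem hg hk)
    have h2 := dist_triangle x (g • y) ((g * k) • z)
    rw [mul_smul, dist_smul_lor, ← mul_smul] at h2
    linarith
  eq_of_dist_eq_zero := by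
    intro a b hab
    obtain ⟨x, rfl⟩ := signsq_surj Γ a
    obtain ⟨y, rfl⟩ := signsq_surj Γ b
    change signsD h x y = 0 at hab
    obtain ⟨g, hg, e⟩ := signsD_eq h x y
    rw [hab] at e
    exact ((signsq_eq Γ y x).2 ⟨g, hg, (dist_eq_zero.1 e.symm).symm⟩).symm

theorem signs_displacement [FiniteDimensional ℝ E] {Γ : Subgroup (Lor E)} (h : IsUnif Γ) :
    ∃ δ : ℝ, 0 < δ ∧ ∀ g ∈ Γ, g ≠ 1 → ∀ x : Hyp E, δ ≤ dist (g • x) x := by
  have := proper_hyp (E := E)
  obtain ⟨R, hR⟩ := h.cocpt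
  have hf := h.proper (Hyp.mk 0) (2 * R + 1)
  have h1 : ∀ g ∈ {g | g ∈ Γ ∧ dist (g • Hyp.mk (0 : E)) (Hyp.mk 0) ≤ 2 * R + 1},
      ∀ᶠ δ : ℝ in 𝓝[>] 0, g ≠ 1 → ∀ x ∈ Metric.closedBall (Hyp.mk (0 : E)) R,
        δ ≤ dist (g • x) x := by
    rintro g ⟨hg, -⟩
    by_cases hg1 : g = 1
    · exact Eventually.of_forall fun _ hh => absurd hg1 hh
    rcases (Metric.closedBall (Hyp.mk (0 : E)) R).eq_empty_or_nonempty with he | he
    · exact Eventually.of_forall fun _ _ x hx => by rw [he] at hx; exact hx.elim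
    have hc : Continuous fun x : Hyp E => dist (g • x) x :=
      (isometry_smul (Hyp E) g).continuous.dist continuous_id
    obtain ⟨x₀, -, hm⟩ := (isCompact_closedBall (Hyp.mk (0 : E)) R).exists_isMinOn he
      hc.continuousOn
    have hp : 0 < dist (g • x₀) x₀ := dist_pos.2 fun e => hg1 (h.free g hg x₀ e)
    filter_upwards [Ioo_mem_nhdsGT hp] with δ hδ _ x hx
    exact hδ.2.le.trans (hm hx)
  obtain ⟨δ, ⟨h2, h3⟩, h4⟩ := (((eventually_all_finite hf).2 h1).and
    (Ioo_mem_nhdsGT (zero_lt_one' ℝ))).and self_mem_nhdsWithin |>.exists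
  refine ⟨δ, h4, fun g hg hg1 x => ?_⟩
  obtain ⟨k, hk, hx⟩ := hR x
  have e : dist (g • x) x = dist ((k * g * k⁻¹) • k • x) (k • x) := by
    rw [mul_smul, mul_smul, inv_smul_smul, dist_smul_lor]
  have hne : k * g * k⁻¹ ≠ 1 := fun hh => hg1 (by
    have : g = k⁻¹ * (k * g * k⁻¹) * k := by group
    rw [this, hh]; group)
  have hm : k * g * k⁻¹ ∈ Γ := Γ.mul_mem (Γ.mul_mem hk hg) (Γ.inv_mem hk)
  rw [e]
  by_contra hc
  refine hc (h2 _ ⟨hm, ?_⟩ hne _ hx)
  have t1 := dist_triangle4 ((k * g * k⁻¹) • Hyp.mk (0 : E)) ((k * g * k⁻¹) • k • x) (k • x)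
    (Hyp.mk 0)
  rw [dist_smul_lor, dist_comm (Hyp.mk (0 : E))] at t1
  linarith [h3.2, not_le.1 hc]

theorem signs_cont {Γ : Subgroup (Lor E)} (h : IsUnif Γ) (F : SignsQ Γ → ℂ)
    (hF : Continuous fun x => F (signsq Γ x)) :
    @Continuous _ _ (signsMet h).toPseudoMetricSpace.toUniformSpace.toTopologicalSpace _ F := by
  let _ := signsMet h
  refine Metric.continuous_iff.2 fun b ε hε => ?_
  obtain ⟨x, rfl⟩ := signsq_surj Γ b
  obtain ⟨δ, hδ, h1⟩ := Metric.continuous_iff.1 hF x ε hε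
  refine ⟨δ, hδ, fun a ha => ?_⟩
  obtain ⟨y, rfl⟩ := signsq_surj Γ a
  rw [dist_comm] at ha
  change signsD h x y < δ at ha
  obtain ⟨g, hg, e⟩ := signsD_eq h x y
  have := h1 (g • y) (by rw [dist_comm, ← e]; exact ha)
  rwa [← (signsq_eq Γ y (g • y)).2 ⟨g, hg, rfl⟩] at this

end

theorem signs_setup {m : ℕ} (B : Branch m) : Nonempty (Setup m) := by
  have h := B.unif
  let _ := signsMet h
  have := proper_hyp (E := Euc m)
  have hlip : ∀ x y, dist (signsq B.Γ x) (signsq B.Γ y) ≤ dist x y := fun x y => by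
    change signsD h x y ≤ _
    simpa using signsD_le h x y B.Γ.one_mem
  have hq : Continuous (signsq B.Γ) :=
    (LipschitzWith.of_dist_le_mul (K := 1) fun x y => by simpa using hlip x y).continuous
  have : CompactSpace (SignsQ B.Γ) := by
    obtain ⟨R, hR⟩ := h.cocpt
    refine ⟨?_⟩
    have : signsq B.Γ '' Metric.closedBall (Hyp.mk 0) R = univ := by
      refine eq_univ_of_forall fun a => ?_
      obtain ⟨x, rfl⟩ := signsq_surj B.Γ a
      obtain ⟨g, hg, hx⟩ := hR x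
      exact ⟨g • x, hx, ((signsq_eq B.Γ x _).2 ⟨g, hg, rfl⟩).symm⟩
    rw [← this]
    exact (isCompact_closedBall _ _).image hq
  have hc : ∀ c c', Continuous fun x => (⟨B.f c x, B.f c' x⟩ : ℂ) := fun c c' => by
    have : (fun x => (⟨B.f c x, B.f c' x⟩ : ℂ)) =
        fun x => (B.f c x : ℂ) + (B.f c' x : ℂ) * Complex.I := by
      funext x; apply Complex.ext <;> simp
    rw [this]
    have h1 := B.f_cont c
    have h2 := B.f_cont c'
    fun_prop
  let F : Fin 4 → Fin 4 → SignsQ B.Γ → ℂ := fun c c' =>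
    Quotient.lift (s := signsRel B.Γ) (fun x => (⟨B.f c x, B.f c' x⟩ : ℂ)) (by
      rintro x _ ⟨g, hg, rfl⟩
      simp only [B.f_inv g hg])
  obtain ⟨δ, hδ, hd⟩ := signs_displacement h
  refine ⟨{ toBranch := B
            N := SignsQ B.Γ
            q := signsq B.Γ
            q_surj := signsq_surj _
            q_eq := signsq_eq _
            q_lip := hlip
            q_iso := ⟨δ / 4, by positivity, fun a => ⟨fun a' h1 a'' h2 => ?_, fun b hb => ?_⟩⟩
            F1 := F 0 1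
            F2 := F 2 3
            F1_cont := signs_cont h _ (hc 0 1)
            F2_cont := signs_cont h _ (hc 2 3)
            F1_q := fun _ => rfl
            F2_q := fun _ => rfl }⟩
  · refine le_antisymm (hlip _ _) ?_
    change _ ≤ signsD h a' a''
    obtain ⟨g, hg, e⟩ := signsD_eq h a' a''
    rw [e]
    by_cases hg1 : g = 1
    · rw [hg1, one_smul]
    have t1 := hd g hg hg1 a''
    have t2 := dist_triangle_left (g • a'') a'' a'
    have t3 := dist_triangle_right a' a'' a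
    rw [Metric.mem_ball] at h1 h2
    linarith
  · obtain ⟨y, rfl⟩ := signsq_surj B.Γ b
    rw [Metric.mem_ball, dist_comm] at hb
    change signsD h a y < δ / 4 at hb
    obtain ⟨g, hg, e⟩ := signsD_eq h a y
    exact ⟨g • y, by rw [Metric.mem_ball, dist_comm, ← e]; exact hb,
      ((signsq_eq B.Γ y _).2 ⟨g, hg, rfl⟩).symm⟩

end Pool.Agent.MP_39b1da_gt
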