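import Pool.Agent.MP_39b1da_gt.Cone

/-!
Calculus of the branched covering of the model away from the branch locus.
-/

set_option autoImplicit false

namespace Pool.Agent.MP_39b1da_gt

open Filter Topology Set Real
open scoped ENNReal NNReal ContDiff InnerProductSpace

variable {m : ℕ}

theorem tr_beta_one : beta 1 = id := by
  funext z
  simp [beta]

theorem tr_beta_eq (k : ℕ) : beta k = fun w : ℂ => (‖w‖ ^ (k - 1))⁻¹ • w ^ k := by
  funext w
  simp [beta, div_eq_mul_inv, mul_comm]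

theorem tr_phi_smooth (k : ℕ) {z : ℂ} (hz : z ≠ 0) :
    ContDiffAt ℝ ∞ (fun w : ℂ => (‖w‖ ^ (k - 1))⁻¹) z := by
  have h1 : ContDiffAt ℝ ∞ (fun w : ℂ => ‖w‖) z := contDiffAt_norm ℝ hz
  have h2 : 0 < ‖z‖ := norm_pos_iff.2 hz
  exact (h1.pow _).inv (by positivity)

theorem tr_beta_smooth (k : ℕ) {z : ℂ} (hz : z ≠ 0) : ContDiffAt ℝ ∞ (beta k) z := by
  rw [tr_beta_eq]
  exact (tr_phi_smooth k hz).smul (contDiffAt_id.pow _)

theorem tr_beta_deriv {k : ℕ} (hk : 1 ≤ k) {z : ℂ} (hz : z ≠ 0) (h : ℂ) :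
    ∃ ρ : ℝ, fderiv ℝ (beta k) z h = beta k z * (k * h / z + ρ) := by
  have h1 := ((tr_phi_smooth k hz).differentiableAt (by simp)).hasFDerivAt
  have h2 : HasFDerivAt (fun w : ℂ => w ^ k)
      ((ContinuousLinearMap.toSpanSingleton ℂ ((k : ℂ) * z ^ (k - 1))).restrictScalars ℝ) z :=
    (hasDerivAt_pow k z).hasFDerivAt.restrictScalars ℝ
  have h3 := (h1.smul h2).fderiv
  have h4 : 0 < ‖z‖ := norm_pos_iff.2 hz
  refine ⟨fderiv ℝ (fun w : ℂ => (‖w‖ ^ (k - 1))⁻¹) z h * ‖z‖ ^ (k - 1), ?_⟩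
  have h5 : fderiv ℝ (beta k) z h = (‖z‖ ^ (k - 1))⁻¹ • (h * (k * z ^ (k - 1))) +
      fderiv ℝ (fun w : ℂ => (‖w‖ ^ (k - 1))⁻¹) z h • z ^ k := by
    rw [tr_beta_eq]
    erw [h3]
    simp
  rw [h5]
  obtain ⟨j, rfl⟩ : ∃ j, k = j + 1 := ⟨k - 1, by omega⟩
  have h6 : ((‖z‖ : ℝ) : ℂ) ≠ 0 := by exact_mod_cast h4.ne'
  simp only [beta, Nat.add_sub_cancel, Complex.real_smul]
  push_cast
  field_simp
  ring

/-- The angular form on the plane. -/
def trOm (z h : ℂ) : ℝ := z.re * h.im - z.im * h.re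

/-- The covering `beta n` is smooth at `z` and stretches the angular direction by `n`. -/
structure TrOK (n : ℕ) (z : ℂ) : Prop where
  one_le : 1 ≤ n
  smooth : ContDiffAt ℝ ∞ (beta n) z
  rad : ∀ h, ⟪beta n z, fderiv ℝ (beta n) z h⟫_ℝ = ⟪z, h⟫_ℝ
  ang : ∀ h h', ⟪fderiv ℝ (beta n) z h, fderiv ℝ (beta n) z h'⟫_ℝ =
    ⟪h, h'⟫_ℝ + ((n : ℝ) ^ 2 - 1) / (z.re ^ 2 + z.im ^ 2) * (trOm z h * trOm z h')

theorem trOK_one (z : ℂ) : TrOK 1 z := by
  refine ⟨le_rfl, ?_, ?_, ?_⟩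
  · rw [tr_beta_one]; exact contDiffAt_id
  · intro h; rw [tr_beta_one]; simp
  · intro h h'; rw [tr_beta_one]; simp

theorem tr_inner (a b : ℂ) : ⟪a, b⟫_ℝ = a.re * b.re + a.im * b.im := by
  simp [Complex.inner]
  ring

theorem trOK_ne {k : ℕ} (hk : 1 ≤ k) {z : ℂ} (hz : z ≠ 0) : TrOK k z := by
  have hs := tr_beta_smooth k hz
  have hrad : ∀ h, ⟪beta k z, fderiv ℝ (beta k) z h⟫_ℝ = ⟪z, h⟫_ℝ := by
    intro h
    have h1 := (hs.differentiableAt (by simp)).hasFDerivAt.norm_sq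
    have h2 := (hasFDerivAt_id (𝕜 := ℝ) z).norm_sq
    have h3 : (fun w => ‖beta k w‖ ^ 2) = fun w : ℂ => ‖id w‖ ^ 2 := by
      funext w; rw [norm_beta hk]; rfl
    rw [h3] at h1
    have h4 := congrArg (fun L : ℂ →L[ℝ] ℝ => L h) (h1.unique h2)
    simp at h4 ⊢
    linarith
  have hn : (beta k z).re ^ 2 + (beta k z).im ^ 2 = z.re ^ 2 + z.im ^ 2 := by
    have h1 := norm_beta hk z
    have h2 := Complex.sq_norm (beta k z)
    have h3 := Complex.sq_norm z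
    rw [Complex.normSq_apply] at h2 h3
    rw [h1] at h2
    nlinarith
  have hpos : 0 < z.re ^ 2 + z.im ^ 2 := by
    have h3 := Complex.normSq_pos.2 hz
    rw [Complex.normSq_apply] at h3
    nlinarith
  have key : ∀ h, ∃ w : ℂ, fderiv ℝ (beta k) z h = beta k z * w ∧
      w.re = (z.re * h.re + z.im * h.im) / (z.re ^ 2 + z.im ^ 2) ∧
      w.im = k * trOm z h / (z.re ^ 2 + z.im ^ 2) := by
    intro h
    obtain ⟨ρ, hρ⟩ := tr_beta_deriv hk hz h
    refine ⟨_, hρ, ?_, ?_⟩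
    · have h1 := hrad h
      rw [hρ, tr_inner, tr_inner] at h1
      generalize (k * h / z + ρ : ℂ) = w at h1 ⊢
      simp only [Complex.mul_re, Complex.mul_im] at h1
      rw [eq_div_iff hpos.ne', ← h1, ← hn]
      ring
    · simp only [Complex.add_im, Complex.ofReal_im, add_zero, Complex.div_im, Complex.mul_im,
        Complex.mul_re, Complex.natCast_re, Complex.natCast_im, Complex.normSq_apply, trOm]
      have : z.re * z.re + z.im * z.im = z.re ^ 2 + z.im ^ 2 := by ring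
      rw [this]
      field_simp
      ring
  refine ⟨hk, hs, hrad, fun h h' => ?_⟩
  obtain ⟨w, e, e1, e2⟩ := key h
  obtain ⟨w', e', e1', e2'⟩ := key h'
  rw [e, e', tr_inner, tr_inner]
  have h1 : (beta k z * w).re * (beta k z * w').re + (beta k z * w).im * (beta k z * w').im =
      (z.re ^ 2 + z.im ^ 2) * (w.re * w'.re + w.im * w'.im) := by
    simp only [Complex.mul_re, Complex.mul_im]
    rw [← hn]
    ring
  rw [h1, e1, e2, e1', e2']
  simp only [trOm]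
  field_simp
  ring

/-- The first complex coordinate as a linear map. -/
noncomputable def trZ1 (m : ℕ) : Euc m →L[ℝ] ℂ :=
  LinearMap.toContinuousLinearMap
    { toFun := Z1
      map_add' := fun x y => by apply Complex.ext <;> simp [Z1]
      map_smul' := fun t x => by apply Complex.ext <;> simp [Z1] }

/-- The second complex coordinate as a linear map. -/
noncomputable def trZ2 (m : ℕ) : Euc m →L[ℝ] ℂ :=
  LinearMap.toContinuousLinearMap
    { toFun := Z2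
      map_add' := fun x y => by apply Complex.ext <;> simp [Z2]
      map_smul' := fun t x => by apply Complex.ext <;> simp [Z2] }

/-- The first coordinate plane as a linear map. -/
noncomputable def trI1 (m : ℕ) : ℂ →L[ℝ] Euc m :=
  Complex.reCLM.smulRight (EuclideanSpace.single 0 1) +
    Complex.imCLM.smulRight (EuclideanSpace.single 1 1)

/-- The second coordinate plane as a linear map. -/
noncomputable def trI2 (m : ℕ) : ℂ →L[ℝ] Euc m :=
  Complex.reCLM.smulRight (EuclideanSpace.single 2 1) +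
    Complex.imCLM.smulRight (EuclideanSpace.single 3 1)

theorem trZ1_apply (x : Euc m) : trZ1 m x = Z1 x := rfl

theorem trZ2_apply (x : Euc m) : trZ2 m x = Z2 x := rfl

theorem tr_I1_eq (w : ℂ) : I1 m w =
    w.re • EuclideanSpace.single 0 (1 : ℝ) + w.im • EuclideanSpace.single 1 (1 : ℝ) := by
  ext i
  simp [I1]

theorem tr_I2_eq (w : ℂ) : I2 m w =
    w.re • EuclideanSpace.single 2 (1 : ℝ) + w.im • EuclideanSpace.single 3 (1 : ℝ) := by
  ext i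
  simp [I2]

theorem trI1_apply (w : ℂ) : trI1 m w = I1 m w := by
  rw [tr_I1_eq]; simp [trI1]

theorem trI2_apply (w : ℂ) : trI2 m w = I2 m w := by
  rw [tr_I2_eq]; simp [trI2]

theorem tr_inner_I1 (a : ℂ) (y : Euc m) : ⟪I1 m a, y⟫_ℝ = a.re * y 0 + a.im * y 1 := by
  simp [I1, inner_add_left, EuclideanSpace.inner_single_left]

theorem tr_inner_I2 (a : ℂ) (y : Euc m) : ⟪I2 m a, y⟫_ℝ = a.re * y 2 + a.im * y 3 := by
  simp [I2, inner_add_left, EuclideanSpace.inner_single_left]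

theorem tr_ne01 : (0 : Fin (m + 4)) ≠ 1 := by simp
theorem tr_ne02 : (0 : Fin (m + 4)) ≠ 2 := by
  intro h; have := congrArg Fin.val h; simp [Nat.mod_eq_of_lt] at this
theorem tr_ne03 : (0 : Fin (m + 4)) ≠ 3 := by
  intro h; have := congrArg Fin.val h; simp [Nat.mod_eq_of_lt] at this
theorem tr_ne12 : (1 : Fin (m + 4)) ≠ 2 := by
  intro h; have := congrArg Fin.val h; simp [Nat.mod_eq_of_lt] at this
theorem tr_ne13 : (1 : Fin (m + 4)) ≠ 3 := by
  intro h; have := congrArg Fin.val h; simp [Nat.mod_eq_of_lt] at this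
theorem tr_ne23 : (2 : Fin (m + 4)) ≠ 3 := by
  intro h; have := congrArg Fin.val h; simp [Nat.mod_eq_of_lt] at this

/-- Replace the two complex coordinates. -/
noncomputable def trRep (x : Euc m) (a b : ℂ) : Euc m := x + I1 m (a - Z1 x) + I2 m (b - Z2 x)

theorem tr_inner_rep (x y : Euc m) (a b c d : ℂ) : ⟪trRep x a b, trRep y c d⟫_ℝ =
    ⟪x, y⟫_ℝ - ⟪Z1 x, Z1 y⟫_ℝ - ⟪Z2 x, Z2 y⟫_ℝ + ⟪a, c⟫_ℝ + ⟪b, d⟫_ℝ := by
  have h0 : trRep y c d 0 = c.re := by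
    simp [trRep, I1, I2, Z1, Z2, tr_ne02, tr_ne03]
  have h1 : trRep y c d 1 = c.im := by
    simp [trRep, I1, I2, Z1, Z2, tr_ne01.symm, tr_ne12, tr_ne13]
  have h2 : trRep y c d 2 = d.re := by
    simp [trRep, I1, I2, Z1, Z2, tr_ne02.symm, tr_ne12.symm, tr_ne23]
  have h3 : trRep y c d 3 = d.im := by
    simp [trRep, I1, I2, Z1, Z2, tr_ne03.symm, tr_ne13.symm, tr_ne23.symm]
  have h4 : ⟪x, trRep y c d⟫_ℝ = ⟪x, y⟫_ℝ + ((c - Z1 y).re * x 0 + (c - Z1 y).im * x 1) +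
      ((d - Z2 y).re * x 2 + (d - Z2 y).im * x 3) := by
    rw [trRep, inner_add_right, inner_add_right, real_inner_comm (I1 m _),
      real_inner_comm (I2 m _), tr_inner_I1, tr_inner_I2]
  rw [show trRep x a b = x + I1 m (a - Z1 x) + I2 m (b - Z2 x) from rfl, inner_add_left,
    inner_add_left, h4, tr_inner_I1, tr_inner_I2, h0, h1, h2, h3]
  simp only [tr_inner, Z1, Z2, Complex.sub_re, Complex.sub_im]
  ring

theorem tr_norm_pr {k₁ k₂ : ℕ} (h₁ : 1 ≤ k₁) (h₂ : 1 ≤ k₂) (x : Euc m) :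
    ‖pr k₁ k₂ x‖ ^ 2 = ‖x‖ ^ 2 := by
  have h := tr_inner_rep x x (beta k₁ (Z1 x)) (beta k₂ (Z2 x)) (beta k₁ (Z1 x)) (beta k₂ (Z2 x))
  simp only [real_inner_self_eq_norm_sq, norm_beta h₁, norm_beta h₂] at h
  rw [show pr k₁ k₂ x = trRep x (beta k₁ (Z1 x)) (beta k₂ (Z2 x)) from rfl, h]
  ring

theorem tr_pr_eq (k₁ k₂ : ℕ) : (pr k₁ k₂ : Euc m → Euc m) = fun x =>
    x + trI1 m (beta k₁ (trZ1 m x) - trZ1 m x) + trI2 m (beta k₂ (trZ2 m x) - trZ2 m x) := by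
  funext x
  rw [trI1_apply, trI2_apply]
  rfl

theorem tr_pr_smooth {k₁ k₂ : ℕ} {x : Euc m} (h₁ : TrOK k₁ (Z1 x)) (h₂ : TrOK k₂ (Z2 x)) :
    ContDiffAt ℝ ∞ (pr k₁ k₂) x := by
  rw [tr_pr_eq]
  have a1 : ContDiffAt ℝ ∞ (fun y => beta k₁ (trZ1 m y)) x :=
    ContDiffAt.comp (g := beta k₁) x h₁.smooth (trZ1 m).contDiff.contDiffAt
  have a2 : ContDiffAt ℝ ∞ (fun y => beta k₂ (trZ2 m y)) x :=
    ContDiffAt.comp (g := beta k₂) x h₂.smooth (trZ2 m).contDiff.contDiffAt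
  exact (contDiffAt_id.add ((trI1 m).contDiff.contDiffAt.comp x
    (a1.sub (trZ1 m).contDiff.contDiffAt))).add
      ((trI2 m).contDiff.contDiffAt.comp x (a2.sub (trZ2 m).contDiff.contDiffAt))

theorem tr_pr_deriv {k₁ k₂ : ℕ} {x : Euc m} (h₁ : TrOK k₁ (Z1 x)) (h₂ : TrOK k₂ (Z2 x))
    (u : Euc m) : fderiv ℝ (pr k₁ k₂) x u =
      trRep u (fderiv ℝ (beta k₁) (Z1 x) (Z1 u)) (fderiv ℝ (beta k₂) (Z2 x) (Z2 u)) := by
  have b1 := (h₁.smooth.differentiableAt (by simp)).hasFDerivAt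
  have b2 := (h₂.smooth.differentiableAt (by simp)).hasFDerivAt
  have a1 := HasFDerivAt.comp (f := trZ1 m) x b1 (trZ1 m).hasFDerivAt
  have a2 := HasFDerivAt.comp (f := trZ2 m) x b2 (trZ2 m).hasFDerivAt
  have h := (((hasFDerivAt_id x).add ((trI1 m).hasFDerivAt.comp x
    (a1.sub (trZ1 m).hasFDerivAt))).add
      ((trI2 m).hasFDerivAt.comp x (a2.sub (trZ2 m).hasFDerivAt))).fderiv
  rw [tr_pr_eq]
  erw [h]
  simp only [trRep, ← trI1_apply, ← trI2_apply]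
  rfl

theorem tr_pr_metric {k₁ k₂ : ℕ} {x : Euc m} (h₁ : TrOK k₁ (Z1 x)) (h₂ : TrOK k₂ (Z2 x))
    (u v : Euc m) : Gh (pr k₁ k₂ x) (fderiv ℝ (pr k₁ k₂) x u) (fderiv ℝ (pr k₁ k₂) x v) =
      Gh x u v + ((k₁ : ℝ) ^ 2 - 1) / (x 0 ^ 2 + x 1 ^ 2) * (om1 x u * om1 x v) +
        ((k₂ : ℝ) ^ 2 - 1) / (x 2 ^ 2 + x 3 ^ 2) * (om2 x u * om2 x v) := by
  have e : ∀ w, ⟪pr k₁ k₂ x, fderiv ℝ (pr k₁ k₂) x w⟫_ℝ = ⟪x, w⟫_ℝ := by
    intro w
    rw [tr_pr_deriv h₁ h₂,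
      show pr k₁ k₂ x = trRep x (beta k₁ (Z1 x)) (beta k₂ (Z2 x)) from rfl, tr_inner_rep,
      h₁.rad, h₂.rad]
    ring
  rw [Gh, Gh, e, e, tr_norm_pr h₁.one_le h₂.one_le, tr_pr_deriv h₁ h₂, tr_pr_deriv h₁ h₂,
    tr_inner_rep, h₁.ang, h₂.ang]
  simp only [trOm, Z1, Z2, om1, om2]
  ring

theorem tr_pr_inj {k₁ k₂ : ℕ} {x : Euc m} (h₁ : TrOK k₁ (Z1 x)) (h₂ : TrOK k₂ (Z2 x)) :
    Function.Injective (fderiv ℝ (pr k₁ k₂) x) := by
  refine (injective_iff_map_eq_zero _).2 fun u hu => ?_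
  by_contra hne
  have h := tr_pr_metric h₁ h₂ u u
  rw [hu] at h
  have h0 : Gh (pr k₁ k₂ x) (0 : Euc m) 0 = 0 := by simp [Gh]
  have h1 := Gh_pos x hne
  have k1 : (1 : ℝ) ≤ k₁ := by exact_mod_cast h₁.one_le
  have k2 : (1 : ℝ) ≤ k₂ := by exact_mod_cast h₂.one_le
  have h2 : 0 ≤ ((k₁ : ℝ) ^ 2 - 1) / (x 0 ^ 2 + x 1 ^ 2) * (om1 x u * om1 x u) :=
    mul_nonneg (div_nonneg (by nlinarith) (by positivity)) (mul_self_nonneg _)
  have h3 : 0 ≤ ((k₂ : ℝ) ^ 2 - 1) / (x 2 ^ 2 + x 3 ^ 2) * (om2 x u * om2 x u) :=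
    mul_nonneg (div_nonneg (by nlinarith) (by positivity)) (mul_self_nonneg _)
  linarith

/-- A continuous solution of a smooth nondegenerate equation is smooth. -/
theorem tr_smooth_of_comp {E : Type} [NormedAddCommGroup E] [NormedSpace ℝ E]
    [FiniteDimensional ℝ E] {T S f : E → E} {x : E} (hT : ContinuousAt T x)
    (hS : ContDiffAt ℝ ∞ S x) (hf : ContDiffAt ℝ ∞ f (T x))
    (hi : Function.Injective (fderiv ℝ f (T x))) (h : ∀ᶠ y in 𝓝 x, f (T y) = S y) :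
    ContDiffAt ℝ ∞ T x := by
  have : CompleteSpace E := FiniteDimensional.complete ℝ E
  let L : E ≃L[ℝ] E := (LinearEquiv.ofInjectiveEndo
    (fderiv ℝ f (T x) : E →ₗ[ℝ] E) hi).toContinuousLinearEquiv
  have hL : HasFDerivAt f (L : E →L[ℝ] E) (T x) := by
    have : (L : E →L[ℝ] E) = fderiv ℝ f (T x) := by ext v; rfl
    rw [this]
    exact (hf.differentiableAt (by simp)).hasFDerivAt
  have hn : (∞ : WithTop ℕ∞) ≠ 0 := by simp
  have h1 := hf.to_localInverse hL hn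
  have h2 : ∀ᶠ y in 𝓝 (T x), hf.localInverse hL hn (f y) = y :=
    (hf.hasStrictFDerivAt' hL hn).eventually_left_inverse
  rw [h.self_of_nhds] at h1
  refine (h1.comp x hS).congr_of_eventuallyEq ?_
  filter_upwards [h, hT.tendsto.eventually h2] with y e1 e2
  simp only [Function.comp]
  rw [← e1, e2]

end Pool.Agent.MP_39b1da_gt
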