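import Pool.Agent.MP_39b1da_gt.Basic

/-!
Arithmetic of the lattice: the form takes values in the golden integers and its conjugate is
positive definite.
-/

set_option autoImplicit false

namespace Pool.Agent.MP_39b1da_gt

open Filter Topology Set Real
open scoped ENNReal NNReal ContDiff InnerProductSpace

variable {m : ℕ}

/-- The rational part of the form on lattice vectors. -/
def wP {R : Type} [CommRing R] (a b a' b' : Fin (m + 4 + 1) → R) : R :=
  -(a 0 * b' 0 + b 0 * a' 0 + b 0 * b' 0) +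
    ∑ i : Fin (m + 4), (a i.succ * a' i.succ + b i.succ * b' i.succ)

/-- The irrational part of the form on lattice vectors. -/
def wQ {R : Type} [CommRing R] (a b a' b' : Fin (m + 4 + 1) → R) : R :=
  -(a 0 * a' 0 + b 0 * b' 0 + (a 0 * b' 0 + b 0 * a' 0 + b 0 * b' 0)) +
    ∑ i : Fin (m + 4), (a i.succ * b' i.succ + b i.succ * a' i.succ + b i.succ * b' i.succ)

/-- The form, with `t` in place of the golden ratio. -/
noncomputable def wF (t : ℝ) (a b a' b' : Fin (m + 4 + 1) → ℤ) : ℝ :=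
  -(t * ((a 0 + b 0 * t) * (a' 0 + b' 0 * t))) +
    ∑ i : Fin (m + 4), ((a i.succ : ℝ) + b i.succ * t) * (a' i.succ + b' i.succ * t)

theorem wF_eq {t : ℝ} (ht : t ^ 2 = t + 1) (a b a' b' : Fin (m + 4 + 1) → ℤ) :
    wF t a b a' b' = (wP a b a' b' : ℤ) + (wQ a b a' b' : ℤ) * t := by
  have h : ∀ i : Fin (m + 4), ((a i.succ : ℝ) + b i.succ * t) * (a' i.succ + b' i.succ * t) =
      (a i.succ * a' i.succ + b i.succ * b' i.succ) +
      (a i.succ * b' i.succ + b i.succ * a' i.succ + b i.succ * b' i.succ) * t := by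
    intro i
    linear_combination (b i.succ * b' i.succ : ℝ) * ht
  simp only [wF, wP, wQ, h, Finset.sum_add_distrib, ← Finset.sum_mul]
  push_cast
  linear_combination (-(a 0 * b' 0 + b 0 * a' 0 : ℝ) - (b 0 * b' 0 : ℝ) * (t + 1)) * ht

theorem wLor_lat (a b a' b' : Fin (m + 4 + 1) → ℤ) :
    lor (lat a b) (lat a' b') = wF goldenRatio a b a' b' := by
  have h : √goldenRatio * √goldenRatio = goldenRatio := Real.mul_self_sqrt goldenRatio_pos.le
  simp only [lor, lat, wF, PiLp.inner_apply, RCLike.inner_apply, conj_trivial]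
  congr 1
  · linear_combination (-((a 0 + b 0 * goldenRatio) * (a' 0 + b' 0 * goldenRatio) : ℝ)) * h
  · exact Finset.sum_congr rfl fun i _ => mul_comm _ _

theorem wLor_eq (a b a' b' : Fin (m + 4 + 1) → ℤ) :
    lor (lat a b) (lat a' b') = (wP a b a' b' : ℤ) + (wQ a b a' b' : ℤ) * goldenRatio := by
  rw [wLor_lat, wF_eq goldenRatio_sq]

theorem wIrr {t : ℝ} (ht : Irrational t) {p q : ℤ} (h : (p : ℝ) + q * t = 0) :
    p = 0 ∧ q = 0 := by
  by_cases hq : q = 0
  · subst hq
    simpa using h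
  · exfalso
    have hq' : (q : ℝ) ≠ 0 := by exact_mod_cast hq
    refine ht ⟨-p / q, ?_⟩
    push_cast
    field_simp
    linarith

theorem wPhi_bd : 1.618 < goldenRatio ∧ goldenRatio < 1.619 := by
  have h1 := goldenRatio_sq
  have h2 := one_lt_goldenRatio
  constructor <;> nlinarith

theorem wPsi_eq : goldenConj = 1 - goldenRatio := by
  linarith [goldenRatio_add_goldenConj]

theorem wCoord_le (a b : Fin (m + 4 + 1) → ℤ) (i : Fin (m + 4 + 1)) :
    ((a i : ℝ) + b i * goldenConj) ^ 2 ≤ 2 * wF goldenConj a b a b := by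
  have h1 := wPhi_bd
  have h2 := wPsi_eq
  have h3 : 0 ≤ ∑ i : Fin (m + 4), ((a i.succ : ℝ) + b i.succ * goldenConj) *
      (a i.succ + b i.succ * goldenConj) := Finset.sum_nonneg fun i _ => mul_self_nonneg _
  have h4 := mul_self_nonneg ((a 0 : ℝ) + b 0 * goldenConj)
  unfold wF
  refine Fin.cases ?_ (fun j => ?_) i
  · nlinarith
  · have h5 := Finset.single_le_sum (f := fun i : Fin (m + 4) =>
      ((a i.succ : ℝ) + b i.succ * goldenConj) * (a i.succ + b i.succ * goldenConj))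
      (fun i _ => mul_self_nonneg _) (Finset.mem_univ j)
    have h6 := mul_self_nonneg ((a j.succ : ℝ) + b j.succ * goldenConj)
    nlinarith

theorem wF_pos {a b : Fin (m + 4 + 1) → ℤ} (h : ¬(a = 0 ∧ b = 0)) :
    0 < wF goldenConj a b a b := by
  by_contra hc
  refine h ?_
  have : ∀ i, a i = 0 ∧ b i = 0 := fun i => wIrr goldenConj_irrational
    (pow_eq_zero_iff (two_ne_zero) |>.1 (le_antisymm (by linarith [wCoord_le a b i]) (sq_nonneg _)))
  exact ⟨funext fun i => (this i).1, funext fun i => (this i).2⟩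

theorem wF_sub (t : ℝ) (a b a' b' : Fin (m + 4 + 1) → ℤ) :
    wF t (a - a') (b - b') (a - a') (b - b') =
      wF t a b a b + wF t a' b' a' b' - 2 * wF t a b a' b' := by
  have h : ∀ i : Fin (m + 4), ((((a - a') i.succ : ℤ) : ℝ) + ((b - b') i.succ : ℤ) * t) *
      (((a - a') i.succ : ℤ) + ((b - b') i.succ : ℤ) * t) =
      ((a i.succ : ℝ) + b i.succ * t) * (a i.succ + b i.succ * t) +
      ((a' i.succ : ℝ) + b' i.succ * t) * (a' i.succ + b' i.succ * t) -
      2 * (((a i.succ : ℝ) + b i.succ * t) * (a' i.succ + b' i.succ * t)) := by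
    intro i
    simp only [Pi.sub_apply]
    push_cast
    ring
  simp only [wF, h, Finset.sum_add_distrib, Finset.sum_sub_distrib, ← Finset.mul_sum]
  simp only [Pi.sub_apply]
  push_cast
  ring

theorem wF_neg (t : ℝ) (a b a' b' : Fin (m + 4 + 1) → ℤ) :
    wF t a b (-a') (-b') = -wF t a b a' b' := by
  simp only [wF, Pi.neg_apply, neg_add, ← Finset.sum_neg_distrib]
  push_cast
  congr 1
  · ring
  · exact Finset.sum_congr rfl fun i _ => by ring

theorem wF_neg' (t : ℝ) (a b : Fin (m + 4 + 1) → ℤ) :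
    wF t (-a) (-b) (-a) (-b) = wF t a b a b := by
  simp only [wF, Pi.neg_apply]
  push_cast
  congr 1
  · ring
  · exact Finset.sum_congr rfl fun i _ => by ring

theorem wConj {a b a' b' c d c' d' : Fin (m + 4 + 1) → ℤ}
    (h : lor (lat a b) (lat a' b') = lor (lat c d) (lat c' d')) :
    wF goldenConj a b a' b' = wF goldenConj c d c' d' := by
  rw [wLor_eq, wLor_eq] at h
  have := wIrr goldenRatio_irrational (p := wP a b a' b' - wP c d c' d')
    (q := wQ a b a' b' - wQ c d c' d') (by push_cast; linarith)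
  rw [wF_eq goldenConj_sq, wF_eq goldenConj_sq, sub_eq_zero.1 this.1, sub_eq_zero.1 this.2]

theorem wConj_one {a b : Fin (m + 4 + 1) → ℤ} (h : lor (lat a b) (lat a b) = 1) :
    wF goldenConj a b a b = 1 := by
  rw [wLor_eq] at h
  have := wIrr goldenRatio_irrational (p := wP a b a b - 1) (q := wQ a b a b)
    (by push_cast; linarith)
  rw [wF_eq goldenConj_sq, sub_eq_zero.1 this.1, this.2]
  simp

theorem wGap {p q : ℤ} (h1 : (p : ℝ) + q * goldenConj < 1) (h2 : -1 < (p : ℝ) + q * goldenConj) :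
    (p = 0 ∧ q = 0) ∨ 3 / 2 ≤ |(p : ℝ) + q * goldenRatio| := by
  have h3 := wPhi_bd
  rw [wPsi_eq] at h1 h2
  rcases lt_trichotomy q 0 with hq | hq | hq
  · right
    refine le_abs.2 (Or.inr ?_)
    rcases eq_or_lt_of_le (show q ≤ -1 by omega) with h | h
    · subst h
      have : (p : ℝ) < 1 := by push_cast at h1; linarith
      have : p ≤ 0 := by
        have : p < 1 := by exact_mod_cast this
        omega
      have : (p : ℝ) ≤ 0 := by exact_mod_cast this
      push_cast; linarith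
    · have : (q : ℝ) ≤ -2 := by exact_mod_cast (show q ≤ -2 by omega)
      nlinarith
  · left
    subst hq
    simp only [Int.cast_zero, zero_mul, add_zero] at h1 h2
    have a1 : p < 1 := by exact_mod_cast h1
    have a2 : -1 < p := by exact_mod_cast h2
    omega
  · right
    refine le_abs.2 (Or.inl ?_)
    rcases eq_or_lt_of_le (show 1 ≤ q by omega) with h | h
    · subst h
      have : (-1 : ℝ) < p := by push_cast at h2; linarith
      have : 0 ≤ p := by
        have : -1 < p := by exact_mod_cast this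
        omega
      have : (0 : ℝ) ≤ p := by exact_mod_cast this
      push_cast; linarith
    · have : (2 : ℝ) ≤ q := by exact_mod_cast (show 2 ≤ q by omega)
      nlinarith

/-- Two unit lattice vectors are equal up to sign, orthogonal, or far apart. -/
theorem wTri {a b a' b' : Fin (m + 4 + 1) → ℤ} (h : lor (lat a b) (lat a b) = 1)
    (h' : lor (lat a' b') (lat a' b') = 1) :
    (a' = a ∧ b' = b) ∨ (a' = -a ∧ b' = -b) ∨ (wP a b a' b' = 0 ∧ wQ a b a' b' = 0) ∨
      3 / 2 ≤ |lor (lat a b) (lat a' b')| := by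
  by_cases e1 : a' = a ∧ b' = b
  · exact Or.inl e1
  by_cases e2 : a' = -a ∧ b' = -b
  · exact Or.inr (Or.inl e2)
  refine Or.inr (Or.inr ?_)
  have f1 := wF_pos (a := a - a') (b := b - b') fun hh =>
    e1 ⟨(sub_eq_zero.1 hh.1).symm, (sub_eq_zero.1 hh.2).symm⟩
  have f2 := wF_pos (a := a - -a') (b := b - -b') fun hh =>
    e2 ⟨by rw [sub_eq_zero.1 hh.1, neg_neg], by rw [sub_eq_zero.1 hh.2, neg_neg]⟩
  rw [wF_sub, wConj_one h, wConj_one h'] at f1
  rw [wF_sub, wF_neg', wF_neg, wConj_one h, wConj_one h'] at f2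
  rw [wF_eq goldenConj_sq] at f1 f2
  rw [wLor_eq]
  exact wGap (by linarith) (by linarith)

theorem wLat_neg (a b : Fin (m + 4 + 1) → ℤ) : lat (-a) (-b) = -lat a b := by
  refine Prod.ext ?_ ?_
  · simp only [lat, Pi.neg_apply, Prod.fst_neg]; push_cast; ring
  · ext i
    simp only [lat, Pi.neg_apply, Prod.snd_neg, PiLp.neg_apply]; push_cast; ring

theorem wLat_refl (a b c d : Fin (m + 4 + 1) → ℤ) (p q : ℤ) :
    lat a b - (2 * ((p : ℝ) + q * goldenRatio)) • lat c d =
      lat (fun i => a i - 2 * (p * c i + q * d i))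
        (fun i => b i - 2 * (p * d i + q * c i + q * d i)) := by
  have h := goldenRatio_sq
  refine Prod.ext ?_ ?_
  · simp only [lat, Prod.fst_sub, Prod.smul_fst, smul_eq_mul]
    push_cast
    linear_combination (-2 * √goldenRatio * q * d 0) * h
  · ext i
    simp only [lat, Prod.snd_sub, Prod.smul_snd, PiLp.sub_apply, PiLp.smul_apply, smul_eq_mul]
    push_cast
    linear_combination (-2 * q * d i.succ : ℝ) * h

theorem wBound {E : Type} [NormedAddCommGroup E] [InnerProductSpace ℝ E] (x : Hyp E)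
    (c R : ℝ) : ∃ K : ℝ, ∀ v : ℝ × E, lor v v = c → |lor (lift x) v| ≤ R →
      |v.1| ≤ K ∧ ‖v.2‖ ≤ K := by
  refine ⟨√|c| + ((lift x).1 + ‖x.val‖) * (R + ‖x.val‖ * √|c|), fun v hv hR => ?_⟩
  have h1 := lift_fst_sq x
  have h2 := one_le_lift_fst x
  have h3 : lor (lift x) v = -((lift x).1 * v.1) + ⟪x.val, v.2⟫_ℝ := rfl
  have h4 := abs_real_inner_le_norm x.val v.2
  have h5 : ‖v.2‖ ^ 2 = c + |v.1| ^ 2 := by
    simp only [lor, real_inner_self_eq_norm_sq] at hv
    rw [sq_abs]; nlinarith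
  have h6 : √|c| ^ 2 = |c| := Real.sq_sqrt (abs_nonneg c)
  have h7 := Real.sqrt_nonneg |c|
  have h8 := abs_nonneg v.1
  have h9 : ‖v.2‖ ≤ √|c| + |v.1| := by
    refine abs_le_of_sq_le_sq' ?_ (by positivity) |>.2
    nlinarith [le_abs_self c]
  have h10 : (lift x).1 * |v.1| ≤ R + ‖x.val‖ * ‖v.2‖ := by
    have : (lift x).1 * v.1 = ⟪x.val, v.2⟫_ℝ - lor (lift x) v := by linarith
    have e : (lift x).1 * |v.1| = |(lift x).1 * v.1| := by
      rw [abs_mul, abs_of_pos (by linarith : 0 < (lift x).1)]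
    rw [e, this]
    linarith [abs_sub ⟪x.val, v.2⟫_ℝ (lor (lift x) v)]
  have h11 := norm_nonneg x.val
  have h12 : ((lift x).1 - ‖x.val‖) * |v.1| ≤ R + ‖x.val‖ * √|c| := by nlinarith
  have h13 : |v.1| ≤ ((lift x).1 + ‖x.val‖) * (R + ‖x.val‖ * √|c|) := by
    have := mul_le_mul_of_nonneg_left h12 (show 0 ≤ (lift x).1 + ‖x.val‖ by linarith)
    have e : ((lift x).1 + ‖x.val‖) * (((lift x).1 - ‖x.val‖) * |v.1|) = |v.1| := by
      linear_combination |v.1| * h1
    linarith
  constructor <;> linarith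

theorem wSep {a b K L : ℝ} (h1 : |a + b * goldenRatio| ≤ K) (h2 : |a + b * goldenConj| ≤ L) :
    |a| ≤ K + 2 * L ∧ |b| ≤ K + 2 * L := by
  have hφ := wPhi_bd
  have h3 : 0 ≤ L := (abs_nonneg _).trans h2
  have e1 := abs_le.1 h1
  have e2 := abs_le.1 h2
  rw [wPsi_eq] at e2
  have e3 : |b| ≤ K + L := by
    rcases abs_cases b with h | h <;> nlinarith
  have e4 := abs_le.1 e3
  refine ⟨?_, by linarith⟩
  rcases abs_cases b with h | h <;> rw [abs_le] <;> constructor <;> nlinarith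

/-- Lattice vectors of given norm and bounded height are finite in number. -/
theorem wFin (x : Hyp (Euc m)) (c R : ℝ) :
    {v : ℝ × Euc m | (∃ a b, v = lat a b) ∧ lor v v = c ∧ |lor (lift x) v| ≤ R}.Finite := by
  rcases Set.eq_empty_or_nonempty
    {v : ℝ × Euc m | (∃ a b, v = lat a b) ∧ lor v v = c ∧ |lor (lift x) v| ≤ R} with h | h
  · rw [h]; exact Set.finite_empty
  obtain ⟨_, ⟨a₀, b₀, rfl⟩, h₀, -⟩ := h
  obtain ⟨K, hK⟩ := wBound x c R
  obtain ⟨N, hN⟩ := exists_nat_ge (K + 2 * (1 + 2 * wF goldenConj a₀ b₀ a₀ b₀))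
  refine ((Set.finite_Icc (fun _ : Fin (m + 4 + 1) => -(N : ℤ)) fun _ => (N : ℤ)).prod
    (Set.finite_Icc (fun _ : Fin (m + 4 + 1) => -(N : ℤ)) fun _ => (N : ℤ))).image
    (fun p => lat p.1 p.2) |>.subset ?_
  rintro _ ⟨⟨a, b, rfl⟩, h1, h2⟩
  obtain ⟨k1, k2⟩ := hK _ h1 h2
  have c1 : ∀ i, |(a i : ℝ) + b i * goldenRatio| ≤ K := by
    intro i
    refine Fin.cases ?_ (fun j => ?_) i
    · have e : 1 ≤ √goldenRatio := Real.one_le_sqrt.2 one_lt_goldenRatio.le
      simp only [lat, abs_mul, abs_of_nonneg (Real.sqrt_nonneg goldenRatio)] at k1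
      nlinarith [abs_nonneg ((a 0 : ℝ) + b 0 * goldenRatio)]
    · exact (PiLp.norm_apply_le (lat a b).2 j).trans k2
  have c2 : ∀ i, |(a i : ℝ) + b i * goldenConj| ≤ 1 + 2 * wF goldenConj a₀ b₀ a₀ b₀ := by
    intro i
    have e := wCoord_le a b i
    rw [wConj (h1.trans h₀.symm), ← sq_abs] at e
    nlinarith [sq_nonneg (|(a i : ℝ) + b i * goldenConj| - 1)]
  have c3 : ∀ i, |(a i : ℝ)| ≤ N ∧ |(b i : ℝ)| ≤ N := fun i => by
    have := wSep (c1 i) (c2 i)
    exact ⟨this.1.trans hN, this.2.trans hN⟩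
  have c4 : ∀ z : ℤ, |(z : ℝ)| ≤ N → -(N : ℤ) ≤ z ∧ z ≤ N := fun z hz =>
    abs_le.1 (by exact_mod_cast hz)
  exact ⟨(a, b), ⟨⟨fun i => (c4 _ (c3 i).1).1, fun i => (c4 _ (c3 i).1).2⟩,
    ⟨fun i => (c4 _ (c3 i).2).1, fun i => (c4 _ (c3 i).2).2⟩⟩, rfl⟩

end Pool.Agent.MP_39b1da_gt
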