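import Pool.Agent.MP_39b1da_gt.WallsEx1
import Pool.Agent.MP_39b1da_gt.HypA

/-!
The four families of lattice walls and the hexagon they cut out of the plane.
-/

set_option autoImplicit false

namespace Pool.Agent.MP_39b1da_gt

open Filter Topology Set Real
open scoped ENNReal NNReal ContDiff InnerProductSpace

variable {m : ℕ}

/-- Five coordinates followed by zeros. -/
def wV {R : Type} [Zero R] (m : ℕ) (x : Fin 5 → R) : Fin (m + 4 + 1) → R :=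
  Matrix.vecCons (x 0) (Matrix.vecCons (x 1) (Matrix.vecCons (x 2) (Matrix.vecCons (x 3)
    (Matrix.vecCons (x 4) 0))))

/-- The colours of the six classes. -/
def wCol : Fin 6 → Fin 4 := ![0, 0, 2, 2, 1, 3]

/-- The rational parts of the six classes. -/
def wA : Fin 6 → Fin 5 → ZMod 2 :=
  ![![0, 0, 1, 0, 0], ![0, 0, 0, 0, 0], ![1, 0, 0, 0, 0], ![1, 0, 0, 0, 0], ![0, 0, 0, 1, 0],
    ![0, 0, 0, 0, 1]]

/-- The irrational parts of the six classes. -/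
def wB : Fin 6 → Fin 5 → ZMod 2 :=
  ![![0, 0, 0, 0, 0], ![1, 1, 1, 0, 0], ![0, 1, 0, 0, 0], ![0, 0, 1, 0, 0], ![0, 0, 0, 0, 0],
    ![0, 0, 0, 0, 0]]

/-- Reduction modulo `2`. -/
def wR (a : Fin (m + 4 + 1) → ℤ) : Fin (m + 4 + 1) → ZMod 2 := fun i => (a i : ZMod 2)

/-- The walls of colour `c`. -/
def wS (m : ℕ) (c : Fin 4) : Set (ℝ × Euc m) :=
  {v | lor v v = 1 ∧ ∃ a b j, v = lat a b ∧ wCol j = c ∧ wR a = wV m (wA j) ∧ wR b = wV m (wB j)}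

theorem wR_neg (a : Fin (m + 4 + 1) → ℤ) : wR (-a) = wR a := by
  funext i
  simp [wR]

theorem wR_wV (x : Fin 5 → ℤ) : wR (wV m x) = wV m fun i => (x i : ZMod 2) := by
  funext i
  refine Fin.cases rfl (Fin.cases rfl (Fin.cases rfl (Fin.cases rfl (Fin.cases rfl fun j => ?_)))) i
  simp [wR, wV]

theorem wV_inj {R : Type} [Zero R] {x y : Fin 5 → R} (h : wV m x = wV m y) : x = y := by
  simp only [wV, Matrix.vecCons_inj] at h
  funext i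
  fin_cases i
  exacts [h.1, h.2.1, h.2.2.1, h.2.2.2.1, h.2.2.2.2.1]

theorem wP_cast (a b a' b' : Fin (m + 4 + 1) → ℤ) :
    ((wP a b a' b' : ℤ) : ZMod 2) = wP (wR a) (wR b) (wR a') (wR b') := by
  simp [wP, wR]

theorem wQ_cast (a b a' b' : Fin (m + 4 + 1) → ℤ) :
    ((wQ a b a' b' : ℤ) : ZMod 2) = wQ (wR a) (wR b) (wR a') (wR b') := by
  simp [wQ, wR]

theorem wP_wV {R : Type} [CommRing R] (a b a' b' : Fin 5 → R) :
    wP (wV m a) (wV m b) (wV m a') (wV m b') = wP (m := 0) a b a' b' := by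
  simp [wP, wV, Fin.sum_univ_succ]

theorem wQ_wV {R : Type} [CommRing R] (a b a' b' : Fin 5 → R) :
    wQ (wV m a) (wV m b) (wV m a') (wV m b') = wQ (m := 0) a b a' b' := by
  simp [wQ, wV, Fin.sum_univ_succ]

theorem wSame_tab : ∀ j j' : Fin 6, wCol j = wCol j' →
    ¬(wP (m := 0) (wA j) (wB j) (wA j') (wB j') = 0 ∧
      wQ (m := 0) (wA j) (wB j) (wA j') (wB j') = 0) := by
  decide

theorem wDiff_tab : ∀ j j' : Fin 6, wA j = wA j' → wB j = wB j' → wCol j = wCol j' := by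
  decide

theorem wPlane_tab : ∀ j : Fin 6, wCol j = 0 ∨ wCol j = 2 →
    ¬(wA j 0 = 0 ∧ wB j 0 = 0 ∧ wA j 2 = 0 ∧ wB j 2 = 0) := by
  decide

theorem wNe_tab : ∀ j : Fin 6, ¬(wA j = 0 ∧ wB j = 0) := by
  decide

theorem wS_neg {c : Fin 4} {v : ℝ × Euc m} (h : v ∈ wS m c) : -v ∈ wS m c := by
  obtain ⟨h1, a, b, j, rfl, h2, h3, h4⟩ := h
  exact ⟨by rw [lor_neg_left, lor_neg_right, neg_neg, h1], -a, -b, j, (wLat_neg a b).symm, h2,
    by rw [wR_neg, h3], by rw [wR_neg, h4]⟩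

theorem wS_same {c : Fin 4} {v w : ℝ × Euc m} (h : v ∈ wS m c) (h' : w ∈ wS m c) :
    w = v ∨ w = -v ∨ 3 / 2 ≤ |lor v w| := by
  obtain ⟨h1, a, b, j, rfl, h2, h3, h4⟩ := h
  obtain ⟨k1, a', b', j', rfl, k2, k3, k4⟩ := h'
  rcases wTri h1 k1 with ⟨rfl, rfl⟩ | ⟨rfl, rfl⟩ | ⟨e1, e2⟩ | e
  · exact Or.inl rfl
  · exact Or.inr (Or.inl (wLat_neg a b))
  · refine absurd ⟨?_, ?_⟩ (wSame_tab j j' (h2.trans k2.symm))
    · rw [← wP_wV (m := m), ← h3, ← h4, ← k3, ← k4, ← wP_cast, e1, Int.cast_zero]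
    · rw [← wQ_wV (m := m), ← h3, ← h4, ← k3, ← k4, ← wQ_cast, e2, Int.cast_zero]
  · exact Or.inr (Or.inr e)

theorem wS_diff {c c' : Fin 4} (hc : c ≠ c') {v w : ℝ × Euc m} (h : v ∈ wS m c)
    (h' : w ∈ wS m c') : lor v w = 0 ∨ 3 / 2 ≤ |lor v w| := by
  obtain ⟨h1, a, b, j, rfl, rfl, h3, h4⟩ := h
  obtain ⟨k1, a', b', j', rfl, rfl, k3, k4⟩ := h'
  rcases wTri h1 k1 with ⟨rfl, rfl⟩ | ⟨rfl, rfl⟩ | ⟨e1, e2⟩ | e
  · exact absurd (wDiff_tab j j' (wV_inj (h3.symm.trans k3)) (wV_inj (h4.symm.trans k4))) hc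
  · rw [wR_neg] at k3 k4
    exact absurd (wDiff_tab j j' (wV_inj (h3.symm.trans k3)) (wV_inj (h4.symm.trans k4))) hc
  · left
    rw [wLor_eq, e1, e2]
    simp
  · exact Or.inr e

theorem wS_fin (c : Fin 4) (x : Hyp (Euc m)) (R : ℝ) :
    {v | v ∈ wS m c ∧ |lor (lift x) v| ≤ R}.Finite :=
  (wFin x 1 R).subset fun _ ⟨⟨h1, a, b, _, h2, _⟩, h3⟩ => ⟨⟨a, b, h2⟩, h1, h3⟩

theorem wS_countable (c : Fin 4) : (wS m c).Countable :=
  (Set.countable_range fun p : (Fin (m + 4 + 1) → ℤ) × (Fin (m + 4 + 1) → ℤ) =>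
    lat p.1 p.2).mono (by rintro _ ⟨_, a, b, _, h2, _⟩; exact ⟨(a, b), h2.symm⟩)

/-- `g` is congruent to the identity modulo `2` on the lattice. -/
def wCong (g : Lor (Euc m)) : Prop :=
  ∀ a b, ∃ a' b', g.1 (lat a b) = lat a' b' ∧ wR a' = wR a ∧ wR b' = wR b

theorem wS_map {g : Lor (Euc m)} (hg : wCong g) {c : Fin 4} {v : ℝ × Euc m} (h : v ∈ wS m c) :
    g.1 v ∈ wS m c := by
  obtain ⟨h1, a, b, j, rfl, h2, h3, h4⟩ := h
  obtain ⟨a', b', e1, e2, e3⟩ := hg a b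
  exact ⟨(g.2.1 _ _).trans h1, a', b', j, e1, h2, e2.trans h3, e3.trans h4⟩

theorem wCong_of_cong4 {g : Lor (Euc m)} (hg : Cong4 g) : wCong g := by
  intro a b
  obtain ⟨a', b', e⟩ := hg a b
  have h : ∀ a a' : Fin (m + 4 + 1) → ℤ, wR (a + 4 • a') = wR a := by
    intro a a'
    funext i
    have : (4 : ZMod 2) = 0 := by decide
    simp [wR, this]
  exact ⟨_, _, e, h _ _, h _ _⟩

theorem wCong_mul {g h : Lor (Euc m)} (hg : wCong g) (hh : wCong h) : wCong (g * h) := by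
  intro a b
  obtain ⟨a', b', e1, e2, e3⟩ := hh a b
  obtain ⟨a'', b'', f1, f2, f3⟩ := hg a' b'
  refine ⟨a'', b'', ?_, f2.trans e2, f3.trans e3⟩
  change g.1 (h.1 (lat a b)) = _
  rw [e1, f1]

theorem wCong_refl {g : Lor (Euc m)} {c d : Fin (m + 4 + 1) → ℤ}
    (hg : ∀ v, g.1 v = v - (2 * lor v (lat c d)) • lat c d) : wCong g := by
  intro a b
  have : (2 : ZMod 2) = 0 := by decide
  refine ⟨_, _, by rw [hg, wLor_eq, wLat_refl], ?_, ?_⟩ <;> funext i <;> simp [wR, this]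

theorem wMem (a b : Fin 5 → ℤ) (j : Fin 6) (h1 : wP (m := 0) a b a b = 1)
    (h2 : wQ (m := 0) a b a b = 0) (h3 : (fun i => (a i : ZMod 2)) = wA j)
    (h4 : (fun i => (b i : ZMod 2)) = wB j) : lat (wV m a) (wV m b) ∈ wS m (wCol j) :=
  ⟨by rw [wLor_eq, wP_wV, wQ_wV, h1, h2]; simp, _, _, j, rfl, rfl, by rw [wR_wV, h3],
    by rw [wR_wV, h4]⟩

theorem wS_w1 : ((0 : ℝ), EuclideanSpace.single 2 (1 : ℝ)) ∈ wS m 1 := by
  have e : ((0 : ℝ), EuclideanSpace.single 2 (1 : ℝ)) = lat (wV m ![0, 0, 0, 1, 0]) (wV m 0) := by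
    refine Prod.ext (by simp [lat, wV]) ?_
    ext i
    refine Fin.cases ?_ (Fin.cases ?_ (Fin.cases ?_ (Fin.cases ?_ fun j => ?_))) i <;>
      simp [lat, wV, Fin.ext_iff, Nat.mod_eq_of_lt]
  rw [e]
  exact wMem _ _ 4 (by decide) (by decide) (by decide) (by decide)

theorem wS_w3 : ((0 : ℝ), EuclideanSpace.single 3 (1 : ℝ)) ∈ wS m 3 := by
  have e : ((0 : ℝ), EuclideanSpace.single 3 (1 : ℝ)) = lat (wV m ![0, 0, 0, 0, 1]) (wV m 0) := by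
    refine Prod.ext (by simp [lat, wV]) ?_
    ext i
    refine Fin.cases ?_ (Fin.cases ?_ (Fin.cases ?_ (Fin.cases ?_ fun j => ?_))) i <;>
      simp [lat, wV, Fin.ext_iff, Nat.mod_eq_of_lt]
  rw [e]
  exact wMem _ _ 5 (by decide) (by decide) (by decide) (by decide)

end Pool.Agent.MP_39b1da_gt
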